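import Pool.Agent.H63.PI.Defs

/-!
# Purely infinite C*-algebras and crossed products : basic lemmas
-/

open scoped ComplexOrder

namespace MP9b5ea5


section Basic

variable {A : Type*} [CStarAlgebra A]

lemma cuntzSub_iff {a b : A} :
    CuntzSub a b ↔ ∀ ε : ℝ, 0 < ε → ∃ x : A, ‖x * b * star x - a‖ < ε := by
  constructor
  · rintro ⟨x, hx⟩ ε hε
    have := (hx.eventually (gt_mem_nhds hε)).exists
    obtain ⟨n, hn⟩ := this
    exact ⟨x n, hn⟩
  · intro h
    choose x hx using fun n : ℕ => h (1 / ((n : ℝ) + 1)) (by positivity)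
    refine ⟨x, ?_⟩
    refine squeeze_zero (fun _ => norm_nonneg _) (fun n => (hx n).le) ?_
    exact tendsto_one_div_add_atTop_nhds_zero_nat

variable {I : Set A}

lemma IsClosedIdeal.neg_mem (hI : IsClosedIdeal I) {x : A} (hx : x ∈ I) : -x ∈ I := by
  simpa using hI.mul_mem_left (-1) hx

lemma IsClosedIdeal.sub_mem (hI : IsClosedIdeal I) {x y : A} (hx : x ∈ I) (hy : y ∈ I) :
    x - y ∈ I := by
  simpa [sub_eq_add_neg] using hI.add_mem hx (hI.neg_mem hy)

lemma IsClosedIdeal.sum_mem (hI : IsClosedIdeal I) {κ : Type*} (s : Finset κ) (f : κ → A)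
    (h : ∀ k ∈ s, f k ∈ I) : ∑ k ∈ s, f k ∈ I := by
  classical
  induction s using Finset.induction_on with
  | empty => simpa using hI.zero_mem
  | insert a s ha ih =>
    rw [Finset.sum_insert ha]
    exact hI.add_mem (h a (Finset.mem_insert_self _ _))
      (ih fun k hk => h k (Finset.mem_insert_of_mem hk))

lemma IsClosedIdeal.mem_of_approx (hI : IsClosedIdeal I) {x : A}
    (h : ∀ ε : ℝ, 0 < ε → ∃ y ∈ I, ‖x - y‖ < ε) : x ∈ I := by
  have : x ∈ closure I := by
    rw [Metric.mem_closure_iff]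
    intro ε hε
    obtain ⟨y, hy, hxy⟩ := h ε hε
    exact ⟨y, hy, by rwa [dist_eq_norm]⟩
  rwa [hI.isClosed.closure_eq] at this

end Basic

section CFCbasic

variable {A : Type*} [CStarAlgebra A] [PartialOrder A] [StarOrderedRing A]

/-- spectrum points of a positive element are nonnegative -/
lemma spec_nonneg {a : A} (ha : 0 ≤ a) {x : ℝ} (hx : x ∈ spectrum ℝ a) : 0 ≤ x :=
  spectrum_nonneg_of_nonneg ha hx

lemma spec_le_norm {a : A} {x : ℝ} (hx : x ∈ spectrum ℝ a) : |x| ≤ ‖a‖ := by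
  by_cases hA : Nontrivial A
  · have := spectrum.norm_le_norm_of_mem hx
    rwa [Real.norm_eq_abs] at this
  · have hsub : Subsingleton A := not_nontrivial_iff_subsingleton.mp hA
    exact absurd hx (by simp [spectrum.of_subsingleton])

/-- `v` is approximated by elements `v v^* z`. -/
lemma approx_mul_star_mul (v : A) (ε : ℝ) (hε : 0 < ε) :
    ∃ z : A, ‖v - v * star v * z‖ < ε := by
  set m : A := v * star v with hm
  have hm0 : 0 ≤ m := mul_star_self_nonneg v
  have hsa : IsSelfAdjoint m := .of_nonneg hm0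
  set δ : ℝ := (ε / 2) ^ 2 with hδ
  have hδ0 : 0 < δ := by positivity
  set g : A := cfc (fun t : ℝ => 1 / (|t| + δ)) m with hg
  have hden : ∀ t : ℝ, |t| + δ ≠ 0 := fun t => by positivity
  have hcg : Continuous (fun t : ℝ => 1 / (|t| + δ)) := by
    refine Continuous.div continuous_const (by fun_prop) hden
  refine ⟨g * v, ?_⟩
  have h1 : m * g = cfc (fun t : ℝ => t * (1 / (|t| + δ))) m := by
    rw [cfc_mul (fun t : ℝ => t) (fun t : ℝ => 1 / (|t| + δ)) m (by fun_prop) hcg.continuousOn,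
      cfc_id' ℝ m]
  have h2 : 1 - m * g = cfc (fun t : ℝ => 1 - t * (1 / (|t| + δ))) m := by
    rw [cfc_sub (fun _ : ℝ => (1:ℝ)) (fun t : ℝ => t * (1 / (|t| + δ))) m (by fun_prop)
      ((continuous_id.mul hcg).continuousOn), cfc_const_one ℝ m, h1]
  set k : A := 1 - m * g with hk
  have hksa : IsSelfAdjoint k := by rw [h2]; exact cfc_predicate _ _
  have h3 : v - m * (g * v) = k * v := by rw [hk]; noncomm_ring
  have h4 : ‖k * v‖ * ‖k * v‖ = ‖k * m * k‖ := by
    rw [← CStarRing.norm_self_mul_star, star_mul, hksa.star_eq, hm]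
    congr 1
    noncomm_ring
  have hcf : Continuous (fun t : ℝ => 1 - t * (1 / (|t| + δ))) := by
    exact continuous_const.sub (continuous_id.mul hcg)
  have h5 : k * m * k = cfc (fun t : ℝ => (1 - t * (1 / (|t| + δ))) * t *
      (1 - t * (1 / (|t| + δ)))) m := by
    rw [cfc_mul (fun t : ℝ => (1 - t * (1 / (|t| + δ))) * t) (fun t : ℝ => (1 - t * (1 / (|t| + δ)))) m
      ((hcf.mul continuous_id).continuousOn) hcf.continuousOn,
      cfc_mul (fun t : ℝ => (1 - t * (1 / (|t| + δ)))) (fun t : ℝ => t) m hcf.continuousOn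
        (by fun_prop), cfc_id' ℝ m, ← h2]
  have h6 : ‖k * m * k‖ ≤ δ := by
    rw [h5]
    refine norm_cfc_le hδ0.le fun t ht => ?_
    have ht0 : 0 ≤ t := spec_nonneg hm0 ht
    rw [abs_of_nonneg ht0, Real.norm_eq_abs]
    have h7 : 1 - t * (1 / (t + δ)) = δ / (t + δ) := by
      field_simp
      ring
    rw [h7, abs_of_nonneg (by positivity)]
    have h8 : δ / (t + δ) * t * (δ / (t + δ)) = δ * ((t / (t + δ)) * (δ / (t + δ))) := by ring
    rw [h8]
    have h9 : t / (t + δ) ≤ 1 := by rw [div_le_one (by positivity)]; linarith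
    have h10 : δ / (t + δ) ≤ 1 := by rw [div_le_one (by positivity)]; linarith
    have h11 : 0 ≤ t / (t + δ) := by positivity
    have h12 : 0 ≤ δ / (t + δ) := by positivity
    nlinarith [mul_le_one₀ h9 h12 h10]
  rw [h3]
  have h7 : ‖k * v‖ ^ 2 ≤ (ε / 2) ^ 2 := by rw [pow_two, h4]; exact h6
  have h8 : ‖k * v‖ ≤ ε / 2 := by
    exact le_of_sq_le_sq (by simpa using h7) (by positivity)
  linarith

/-- If `0 ≤ c ≤ d` then `c` is approximated by `x d x^*`. -/
lemma approx_of_le {c d : A} (hc : 0 ≤ c) (hcd : c ≤ d) (ε : ℝ) (hε : 0 < ε) :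
    ∃ x : A, ‖x * d * star x - c‖ < ε := by
  have hd : 0 ≤ d := hc.trans hcd
  have hdsa : IsSelfAdjoint d := .of_nonneg hd
  set δ : ℝ := ε / 2 with hδ
  have hδ0 : 0 < δ := by positivity
  have hden : ∀ t : ℝ, |t| + δ ≠ 0 := fun t => by positivity
  have hsq : ∀ t : ℝ, Real.sqrt (|t| + δ) ≠ 0 := fun t =>
    (Real.sqrt_pos.mpr (by positivity)).ne'
  have hcr : Continuous (fun t : ℝ => 1 / Real.sqrt (|t| + δ)) :=
    continuous_const.div (by fun_prop) hsq
  set r : A := cfc (fun t : ℝ => 1 / Real.sqrt (|t| + δ)) d with hr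
  have hrsa : IsSelfAdjoint r := cfc_predicate _ _
  set s : A := CFC.sqrt c with hs
  have hs0 : 0 ≤ s := CFC.sqrt_nonneg c
  have hssa : IsSelfAdjoint s := .of_nonneg hs0
  have hss : s * s = c := CFC.sqrt_mul_sqrt_self c hc
  -- r d r = 1 - δ r r
  have h1 : r * d * r = 1 - (δ : ℝ) • (r * r) := by
    have e1 : r * d * r = cfc (fun t : ℝ => 1 / Real.sqrt (|t| + δ) * t *
        (1 / Real.sqrt (|t| + δ))) d := by
      rw [cfc_mul (fun t : ℝ => 1 / Real.sqrt (|t| + δ) * t) (fun t : ℝ => 1 / Real.sqrt (|t| + δ)) d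
        ((hcr.mul continuous_id).continuousOn) hcr.continuousOn,
        cfc_mul (fun t : ℝ => 1 / Real.sqrt (|t| + δ)) (fun t : ℝ => t) d hcr.continuousOn
          (by fun_prop), cfc_id' ℝ d]
    have e2 : (δ : ℝ) • (r * r) = cfc (fun t : ℝ => δ * (1 / Real.sqrt (|t| + δ) *
        (1 / Real.sqrt (|t| + δ)))) d := by
      rw [cfc_const_mul δ (fun t : ℝ => (1 / Real.sqrt (|t| + δ) *
        (1 / Real.sqrt (|t| + δ)))) d ((hcr.mul hcr).continuousOn),
        cfc_mul (fun t : ℝ => 1 / Real.sqrt (|t| + δ)) (fun t : ℝ => 1 / Real.sqrt (|t| + δ)) d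
        hcr.continuousOn hcr.continuousOn]
    rw [e1, e2, ← cfc_const_one ℝ d, ← cfc_sub (fun _ : ℝ => (1:ℝ)) (fun t : ℝ => δ *
      (1 / Real.sqrt (|t| + δ) * (1 / Real.sqrt (|t| + δ)))) d (by fun_prop)
      ((continuous_const.mul (hcr.mul hcr)).continuousOn)]
    refine cfc_congr fun t ht => ?_
    have ht0 : 0 ≤ t := spec_nonneg hd ht
    rw [abs_of_nonneg ht0]
    have hp : 0 < t + δ := by positivity
    have hq : Real.sqrt (t + δ) * Real.sqrt (t + δ) = t + δ := Real.mul_self_sqrt hp.le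
    have hq0 : Real.sqrt (t + δ) ≠ 0 := (Real.sqrt_pos.mpr hp).ne'
    field_simp
    nlinarith [hq]
  -- norm of s r
  have h2 : r * c * r ≤ 1 := by
    have : r * c * r ≤ r * d * r := by
      have := hrsa.conjugate_le_conjugate hcd
      simpa using this
    refine this.trans ?_
    rw [h1]
    have : 0 ≤ (δ : ℝ) • (r * r) := smul_nonneg hδ0.le (by
      have := star_mul_self_nonneg r
      rwa [hrsa.star_eq] at this)
    simpa using this
  have h3 : ‖s * r‖ * ‖s * r‖ ≤ 1 := by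
    rw [← CStarRing.norm_star_mul_self, star_mul, hrsa.star_eq, hssa.star_eq]
    have e : r * s * (s * r) = r * c * r := by rw [← hss]; noncomm_ring
    rw [e]
    have hnn : 0 ≤ r * c * r := by
      have := hrsa.conjugate_nonneg hc
      simpa using this
    exact (CStarAlgebra.norm_le_one_iff_of_nonneg _ hnn).mpr h2
  refine ⟨s * r, ?_⟩
  have h4 : s * r * d * star (s * r) - c = -((δ : ℝ) • ((s * r) * star (s * r))) := by
    rw [star_mul, hrsa.star_eq, hssa.star_eq]
    have : s * r * d * (r * s) = s * (r * d * r) * s := by noncomm_ring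
    rw [this, h1, ← hss]
    simp only [mul_sub, sub_mul, mul_one, mul_smul_comm, smul_mul_assoc]
    have e2 : s * (r * r) * s = s * r * (r * s) := by noncomm_ring
    rw [e2]
    abel
  rw [h4, norm_neg, norm_smul, CStarRing.norm_self_mul_star, Real.norm_eq_abs,
    abs_of_pos hδ0]
  calc δ * (‖s * r‖ * ‖s * r‖) ≤ δ * 1 := by gcongr
    _ < ε := by rw [hδ]; linarith

end CFCbasic

end MP9b5ea5
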