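import Pool.Agent.H63.PI.A9

open scoped ComplexOrder

universe u

namespace MP9b5ea5

section Cut

variable {B : Type u} [CStarAlgebra B] {w : unitary B}

lemma cut_estimate (M : ℕ) (D : ℕ → B) (G : B) (hG : star G = G) (hG1 : ‖G‖ ≤ 1) (ε : ℝ)
    (hε : 0 ≤ ε) (hcomm : ∀ k < M + 1, ‖G * D k - D k * G‖ ≤ ε)
    (hoff : ∀ m : ℕ, 1 ≤ m → m ≤ M → ‖G * pw w m * G‖ ≤ ε) (S : ℝ)
    (hS : ∑ k ∈ Finset.range (M + 1), ‖D k‖ = S) :
    ‖star ((∑ k ∈ Finset.range (M + 1), pw w k * D k) * G) *
        ((∑ k ∈ Finset.range (M + 1), pw w k * D k) * G) -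
      ∑ k ∈ Finset.range (M + 1), star (D k * G) * (D k * G)‖ ≤
      (2 * S * (M + 1) + S ^ 2 + 2 * S) * ε := by
  have hS0 : 0 ≤ S := by rw [← hS]; positivity
  set Y : B := (∑ k ∈ Finset.range (M + 1), pw w k * D k) * G with hY
  set Y₁ : B := ∑ k ∈ Finset.range (M + 1), pw w k * (G * D k) with hY₁
  have hY' : Y = ∑ k ∈ Finset.range (M + 1), pw w k * (D k * G) := by
    rw [hY, Finset.sum_mul]
    exact Finset.sum_congr rfl fun k _ => by rw [mul_assoc]
  have nGD : ∀ k, ‖G * D k‖ ≤ ‖D k‖ := fun k =>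
    (norm_mul_le _ _).trans (by nlinarith [norm_nonneg (D k)])
  have nDG : ∀ k, ‖D k * G‖ ≤ ‖D k‖ := fun k =>
    (norm_mul_le _ _).trans (by nlinarith [norm_nonneg (D k)])
  have nY : ‖Y‖ ≤ S := by
    rw [hY', ← hS]
    refine (norm_sum_le _ _).trans (Finset.sum_le_sum fun k _ => ?_)
    rw [norm_pw_mul]; exact nDG k
  have nY₁ : ‖Y₁‖ ≤ S := by
    rw [hY₁, ← hS]
    refine (norm_sum_le _ _).trans (Finset.sum_le_sum fun k _ => ?_)
    rw [norm_pw_mul]; exact nGD k
  have nd : ‖Y - Y₁‖ ≤ (M + 1) * ε := by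
    rw [hY', hY₁, ← Finset.sum_sub_distrib]
    refine (norm_sum_le _ _).trans ?_
    have : ∀ k ∈ Finset.range (M + 1), ‖pw w k * (D k * G) - pw w k * (G * D k)‖ ≤ ε := by
      intro k hk
      rw [← mul_sub, norm_pw_mul, norm_sub_rev]
      exact hcomm k (Finset.mem_range.mp hk)
    refine (Finset.sum_le_sum this).trans ?_
    rw [Finset.sum_const, Finset.card_range, nsmul_eq_mul]; push_cast; rfl
  have s1 : ‖star Y * Y - star Y₁ * Y₁‖ ≤ 2 * S * (M + 1) * ε := by
    have e : star Y * Y - star Y₁ * Y₁ = star (Y - Y₁) * Y + star Y₁ * (Y - Y₁) := by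
      rw [star_sub]; noncomm_ring
    rw [e]
    refine (norm_add_le _ _).trans ?_
    have k1 : ‖star (Y - Y₁) * Y‖ ≤ ((M + 1) * ε) * S := by
      refine (norm_mul_le _ _).trans ?_
      rw [norm_star]
      exact mul_le_mul nd nY (norm_nonneg _) (by positivity)
    have k2 : ‖star Y₁ * (Y - Y₁)‖ ≤ S * ((M + 1) * ε) := by
      refine (norm_mul_le _ _).trans ?_
      rw [norm_star]
      exact mul_le_mul nY₁ nd (norm_nonneg _) hS0
    refine (add_le_add k1 k2).trans (le_of_eq ?_)
    ring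
  -- expand
  have e2 : star Y₁ * Y₁ = ∑ k ∈ Finset.range (M + 1), ∑ l ∈ Finset.range (M + 1),
      star (D k) * (G * pw w ((l : ℤ) - k) * G) * D l := by
    rw [hY₁, star_sum, Finset.sum_mul_sum]
    refine Finset.sum_congr rfl fun k _ => Finset.sum_congr rfl fun l _ => ?_
    have : ((l : ℤ) - k) = -k + l := by ring
    rw [this, pw_add, star_mul, star_mul, star_pw, hG]; noncomm_ring
  have hoff' : ∀ k ∈ Finset.range (M + 1), ∀ l ∈ Finset.range (M + 1), k ≠ l →
      ‖G * pw w ((l : ℤ) - k) * G‖ ≤ ε := by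
    intro k hk l hl hkl
    rw [Finset.mem_range] at hk hl
    rcases lt_or_gt_of_ne hkl with h | h
    · have : ((l : ℤ) - k) = ((l - k : ℕ) : ℤ) := by omega
      rw [this]
      exact hoff _ (by omega) (by omega)
    · have : ((l : ℤ) - k) = -((k - l : ℕ) : ℤ) := by omega
      rw [this, ← star_pw]
      have e : G * star (pw w ((k - l : ℕ) : ℤ)) * G = star (G * pw w ((k - l : ℕ) : ℤ) * G) := by
        simp only [star_mul, hG]; noncomm_ring
      rw [e, norm_star]
      exact hoff _ (by omega) (by omega)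
  have e3 : star Y₁ * Y₁ = ∑ k ∈ Finset.range (M + 1), star (D k) * (G * G) * D k +
      ∑ k ∈ Finset.range (M + 1), ∑ l ∈ (Finset.range (M + 1)).erase k,
        star (D k) * (G * pw w ((l : ℤ) - k) * G) * D l := by
    rw [e2, ← Finset.sum_add_distrib]
    refine Finset.sum_congr rfl fun k hk => ?_
    rw [← Finset.add_sum_erase (Finset.range (M + 1)) _ hk, sub_self, pw_zero, mul_one]
  have s2 : ‖∑ k ∈ Finset.range (M + 1), ∑ l ∈ (Finset.range (M + 1)).erase k,
        star (D k) * (G * pw w ((l : ℤ) - k) * G) * D l‖ ≤ S ^ 2 * ε := by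
    refine (norm_sum_le _ _).trans ?_
    have h1 : ∀ k ∈ Finset.range (M + 1), ‖∑ l ∈ (Finset.range (M + 1)).erase k,
        star (D k) * (G * pw w ((l : ℤ) - k) * G) * D l‖ ≤ ‖D k‖ * (S * ε) := by
      intro k hk
      refine (norm_sum_le _ _).trans ?_
      have h2 : ∀ l ∈ (Finset.range (M + 1)).erase k,
          ‖star (D k) * (G * pw w ((l : ℤ) - k) * G) * D l‖ ≤ ‖D k‖ * ε * ‖D l‖ := by
        intro l hl
        refine (norm_mul_le _ _).trans (mul_le_mul_of_nonneg_right ?_ (norm_nonneg _))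
        refine (norm_mul_le _ _).trans ?_
        rw [norm_star]
        exact mul_le_mul_of_nonneg_left (hoff' k hk l (Finset.mem_of_mem_erase hl)
          (Finset.ne_of_mem_erase hl).symm) (norm_nonneg _)
      refine (Finset.sum_le_sum h2).trans ?_
      rw [← Finset.mul_sum]
      have h3 : ∑ l ∈ (Finset.range (M + 1)).erase k, ‖D l‖ ≤ S := by
        rw [← hS]
        exact Finset.sum_le_sum_of_subset_of_nonneg (Finset.erase_subset _ _)
          fun l _ _ => norm_nonneg _
      calc ‖D k‖ * ε * ∑ l ∈ (Finset.range (M + 1)).erase k, ‖D l‖ ≤ ‖D k‖ * ε * S :=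
            mul_le_mul_of_nonneg_left h3 (by positivity)
        _ = ‖D k‖ * (S * ε) := by ring
    refine (Finset.sum_le_sum h1).trans ?_
    rw [← Finset.sum_mul, hS]
    refine le_of_eq ?_
    ring
  have s3 : ‖∑ k ∈ Finset.range (M + 1), star (D k) * (G * G) * D k -
      ∑ k ∈ Finset.range (M + 1), star (D k * G) * (D k * G)‖ ≤ 2 * S * ε := by
    rw [← Finset.sum_sub_distrib]
    refine (norm_sum_le _ _).trans ?_
    have h1 : ∀ k ∈ Finset.range (M + 1),
        ‖star (D k) * (G * G) * D k - star (D k * G) * (D k * G)‖ ≤ 2 * ‖D k‖ * ε := by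
      intro k hk
      have e : star (D k) * (G * G) * D k - star (D k * G) * (D k * G) =
          star (G * D k - D k * G) * (G * D k) + star (D k * G) * (G * D k - D k * G) := by
        rw [star_sub, star_mul, star_mul, hG]; noncomm_ring
      rw [e]
      refine (norm_add_le _ _).trans ?_
      have k1 : ‖star (G * D k - D k * G) * (G * D k)‖ ≤ ε * ‖D k‖ := by
        refine (norm_mul_le _ _).trans ?_
        rw [norm_star]
        exact mul_le_mul (hcomm k (Finset.mem_range.mp hk)) (nGD k) (norm_nonneg _) hε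
      have k2 : ‖star (D k * G) * (G * D k - D k * G)‖ ≤ ‖D k‖ * ε := by
        refine (norm_mul_le _ _).trans ?_
        rw [norm_star]
        exact mul_le_mul (nDG k) (hcomm k (Finset.mem_range.mp hk)) (norm_nonneg _)
          (norm_nonneg _)
      refine (add_le_add k1 k2).trans (le_of_eq ?_)
      ring
    refine (Finset.sum_le_sum h1).trans ?_
    rw [← Finset.sum_mul, ← Finset.mul_sum, hS]
  have e4 : star Y * Y - ∑ k ∈ Finset.range (M + 1), star (D k * G) * (D k * G) =
      (star Y * Y - star Y₁ * Y₁) + (∑ k ∈ Finset.range (M + 1), star (D k) * (G * G) * D k -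
      ∑ k ∈ Finset.range (M + 1), star (D k * G) * (D k * G)) +
      ∑ k ∈ Finset.range (M + 1), ∑ l ∈ (Finset.range (M + 1)).erase k,
        star (D k) * (G * pw w ((l : ℤ) - k) * G) * D l := by
    rw [e3]; abel
  rw [e4]
  refine norm_add₃_le.trans ?_
  refine (add_le_add (add_le_add s1 s3) s2).trans (le_of_eq ?_)
  ring

end Cut

section Assembly

variable {A B : Type u} [CStarAlgebra A] [PartialOrder A] [StarOrderedRing A]
  [CStarAlgebra B] [PartialOrder B] [StarOrderedRing B] {α : A ≃⋆ₐ[ℂ] A} {ι : A →⋆ₐ[ℂ] B}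
  {w : unitary B}

omit [PartialOrder A] [StarOrderedRing A] [PartialOrder B] [StarOrderedRing B] in
lemma Cov.iter_symm (h : Cov α ι w) (t : ℕ) (a : A) :
    ι (α.symm^[t] a) = pw w (-t) * ι a * pw w t := by
  induction t with
  | zero => simp [pw_zero]
  | succ t ih =>
    have h1 : ∀ b : A, ι (α.symm b) = star (w : B) * ι b * (w : B) := by
      intro b
      have := h.mul_w b
      rw [mul_assoc, this, ← mul_assoc, Unitary.coe_star_mul_self, one_mul]
    rw [Function.iterate_succ_apply', h1, ih]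
    have a1 : ((t + 1 : ℕ) : ℤ) = t + 1 := by push_cast; ring
    have a2 : (-((t + 1 : ℕ) : ℤ)) = -1 + -t := by push_cast; ring
    rw [a2, a1, pw_add, pw_add, pw_one, pw_neg_one]; noncomm_ring

/-- every nonzero positive element of the crossed product dominates everything -/
theorem cuntz_all {d : ℕ} (hA : PurelyInfinite A) (hR : RokhlinDimLE α d)
    (h : IsCrossedProduct α ι w) (hB : IsSimpleCStar B) (b : B) (hb : 0 ≤ b) (hb0 : b ≠ 0)
    (x : B) (hx : 0 ≤ x) : CuntzSub x b := by
  classical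
  have hcov := h.cov
  obtain ⟨c₀, hc₀, hlow⟩ := h.lower b hb hb0
  set C : ℝ := ‖b‖ + c₀ with hC
  have hC0 : 0 < C := by positivity
  set c₁ : ℝ := (c₀ / (4 * ((d : ℝ) + 1))) ^ 2 / (2 * C) with hc₁
  have hc₁0 : 0 < c₁ := by positivity
  set η : ℝ := c₁ / 3 with hη
  have hη0 : 0 < η := by positivity
  set y₀ : B := CFC.sqrt b with hy₀
  have hyy : y₀ * y₀ = b := CFC.sqrt_mul_sqrt_self b hb
  have hys : star y₀ = y₀ := (IsSelfAdjoint.of_nonneg (CFC.sqrt_nonneg b)).star_eq
  -- approximate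
  set δ : ℝ := min 1 (min c₀ (η / 2) / (2 * ‖y₀‖ + 1)) with hδ
  have hδ0 : 0 < δ := by positivity
  have hδ1 : δ ≤ 1 := min_le_left _ _
  have hδ2 : δ * (2 * ‖y₀‖ + 1) ≤ min c₀ (η / 2) := by
    have : δ ≤ min c₀ (η / 2) / (2 * ‖y₀‖ + 1) := min_le_right _ _
    rwa [le_div_iff₀ (by positivity)] at this
  obtain ⟨K, M, c, hKMc⟩ := h.approx y₀ δ hδ0
  set Y : B := ∑ k ∈ Finset.range (M + 1), pw w k * ι (c k) with hY
  have hclose : ‖star Y * Y - b‖ ≤ min c₀ (η / 2) := by
    refine le_trans ?_ hδ2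
    set y₁ : B := pw w K * y₀ with hy₁
    have e1 : star y₁ * y₁ = b := by
      rw [hy₁, star_mul, star_pw, hys]
      calc y₀ * pw w (-K) * (pw w K * y₀) = y₀ * (pw w (-K) * pw w K) * y₀ := by noncomm_ring
        _ = b := by rw [pw_neg_mul, mul_one, hyy]
    have e2 : star Y * Y - b = -(star (y₁ - Y) * Y) - star y₁ * (y₁ - Y) := by
      rw [← e1, star_sub]; noncomm_ring
    have ny : ‖y₁‖ = ‖y₀‖ := norm_pw_mul _ _ _
    have nY : ‖Y‖ ≤ ‖y₀‖ + δ := by
      have : Y = y₁ - (y₁ - Y) := by abel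
      rw [this, ← ny]
      exact (norm_sub_le _ _).trans (by linarith)
    rw [e2]
    refine (norm_sub_le _ _).trans ?_
    rw [norm_neg]
    have k1 : ‖star (y₁ - Y) * Y‖ ≤ δ * (‖y₀‖ + δ) := by
      refine (norm_mul_le _ _).trans ?_
      rw [norm_star]
      exact mul_le_mul hKMc.le nY (norm_nonneg _) hδ0.le
    have k2 : ‖star y₁ * (y₁ - Y)‖ ≤ ‖y₀‖ * δ := by
      refine (norm_mul_le _ _).trans ?_
      rw [norm_star, ny]
      exact mul_le_mul_of_nonneg_left hKMc.le (norm_nonneg _)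
    nlinarith
  set a : A := ∑ k ∈ Finset.range (M + 1), star (c k) * c k with ha
  have ha0 : 0 ≤ a := Finset.sum_nonneg fun k _ => star_mul_self_nonneg (c k)
  obtain ⟨hca, haC⟩ := hlow M c (hclose.trans (min_le_left _ _))
  rw [← ha] at hca haC
  -- towers
  set S : ℝ := ∑ k ∈ Finset.range (M + 1), ‖ι (c k)‖ with hS
  obtain ⟨ε, hε, hsmall⟩ := exists_small (2 * S * (M + 1) + S ^ 2 + 2 * S) (η / 2) (by positivity)
  set F : Finset A := (Finset.range (M + 1) ×ˢ Finset.range (M + 1)).image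
    (fun x => α.symm^[x.1] (c x.2)) with hF
  obtain ⟨t, g, hg0, hg1, hgF, hgoff, htM, hglow⟩ :=
    exists_tower hR hcov M a ha0 c₀ C hc₀ hca haC F ε hε
  have hgs : star (ι g) = ι g := by
    rw [← map_star, (IsSelfAdjoint.of_nonneg hg0).star_eq]
  have hg1' : ‖ι g‖ ≤ 1 := (NonUnitalStarAlgHom.norm_apply_le ι _).trans hg1
  set D : ℕ → B := fun k => ι (α.symm^[t] (c k)) with hD
  have hDe : ∀ k, D k = pw w (-t) * ι (c k) * pw w t := fun k => hcov.iter_symm t (c k)
  have hSD : ∑ k ∈ Finset.range (M + 1), ‖D k‖ = S := by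
    rw [hS]
    refine Finset.sum_congr rfl fun k _ => ?_
    rw [hDe, norm_mul_pw, norm_pw_mul]
  have hcut := cut_estimate (w := w) M D (ι g) hgs hg1' ε hε.le (fun k hk => by
      simp only [hD]
      rw [← map_mul, ← map_mul, ← map_sub]
      refine (NonUnitalStarAlgHom.norm_apply_le ι _).trans (hgF _ ?_).le
      rw [hF, Finset.mem_image]
      exact ⟨(t, k), by simp only [Finset.mem_product, Finset.mem_range]; omega, rfl⟩)
    (fun m h1 h2 => (hgoff m h1 h2).le) S hSD
  set a₁ : A := ∑ k ∈ Finset.range (M + 1),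
    star (α.symm^[t] (c k) * g) * (α.symm^[t] (c k) * g) with ha₁
  have ha₁0 : 0 ≤ a₁ := Finset.sum_nonneg fun k _ => star_mul_self_nonneg _
  have hιa₁ : ι a₁ = ∑ k ∈ Finset.range (M + 1), star (D k * ι g) * (D k * ι g) := by
    rw [ha₁, map_sum]
    refine Finset.sum_congr rfl fun k _ => ?_
    simp only [hD]
    rw [map_mul, map_star, map_mul]
  have hιa₁' : ι a₁ = ι g * (pw w (-t) * ι a * pw w t) * ι g := by
    rw [hιa₁, ha, map_sum, Finset.mul_sum, Finset.sum_mul, Finset.mul_sum, Finset.sum_mul]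
    refine Finset.sum_congr rfl fun k _ => ?_
    rw [hDe, map_mul, map_star]
    simp only [star_mul, star_pw, hgs, neg_neg]
    calc ι g * (pw w (-t) * (star (ι (c k)) * pw w t)) * (pw w (-t) * ι (c k) * pw w t * ι g) =
        ι g * (pw w (-t) * (star (ι (c k)) * (pw w t * pw w (-t)) * ι (c k)) * pw w t) * ι g := by
          noncomm_ring
      _ = _ := by rw [pw_mul_neg, mul_one]
  set z : B := ι g * pw w (-t) with hz
  have hzY : z * (star Y * Y) * star z =
      star ((∑ k ∈ Finset.range (M + 1), pw w k * D k) * ι g) *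
        ((∑ k ∈ Finset.range (M + 1), pw w k * D k) * ι g) := by
    have e1 : Y * pw w t = pw w t * ∑ k ∈ Finset.range (M + 1), pw w k * D k := by
      rw [hY, Finset.sum_mul, Finset.mul_sum]
      refine Finset.sum_congr rfl fun k _ => ?_
      rw [hDe]
      have e2 : pw w t * (pw w k * (pw w (-t) * ι (c k) * pw w t)) =
          (pw w t * pw w k * pw w (-t)) * ι (c k) * pw w t := by noncomm_ring
      rw [e2, ← pw_add, ← pw_add]
      have e3 : ((t : ℤ) + k + -t) = k := by ring
      rw [e3]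
    have e2 : z * (star Y * Y) * star z = star (Y * pw w t * ι g) * (Y * pw w t * ι g) := by
      rw [hz]
      simp only [star_mul, star_pw, hgs, neg_neg]
      noncomm_ring
    rw [e2, e1]
    have e3 : pw w t * (∑ k ∈ Finset.range (M + 1), pw w k * D k) * ι g =
        pw w t * ((∑ k ∈ Finset.range (M + 1), pw w k * D k) * ι g) := by rw [mul_assoc]
    rw [e3]
    set V : B := (∑ k ∈ Finset.range (M + 1), pw w k * D k) * ι g
    rw [star_mul, star_pw]
    calc star V * pw w (-t) * (pw w t * V) = star V * (pw w (-t) * pw w t) * V := by noncomm_ring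
      _ = star V * V := by rw [pw_neg_mul, mul_one]
  have hzn : ‖z‖ ≤ 1 := by rw [hz, norm_mul_pw]; exact hg1'
  have hfin : ‖z * b * star z - ι a₁‖ ≤ η := by
    have e1 : z * b * star z - ι a₁ = (z * (star Y * Y) * star z - ι a₁) -
        z * (star Y * Y - b) * star z := by noncomm_ring
    rw [e1]
    refine (norm_sub_le _ _).trans ?_
    have k1 : ‖z * (star Y * Y) * star z - ι a₁‖ ≤ η / 2 := by
      rw [hzY, hιa₁]
      exact hcut.trans (hsmall ε hε.le le_rfl).le
    have k2 : ‖z * (star Y * Y - b) * star z‖ ≤ η / 2 := by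
      calc _ ≤ ‖z‖ * ‖star Y * Y - b‖ * ‖star z‖ :=
            (norm_mul_le _ _).trans (mul_le_mul_of_nonneg_right (norm_mul_le _ _) (norm_nonneg _))
        _ ≤ 1 * (η / 2) * 1 := by
            rw [norm_star]
            refine mul_le_mul (mul_le_mul hzn (hclose.trans (min_le_right _ _)) (norm_nonneg _)
              zero_le_one) hzn (norm_nonneg _) (by positivity)
        _ = η / 2 := by ring
    linarith
  have hlarge : 2 * η < ‖ι a₁‖ := by
    rw [hιa₁']
    refine lt_of_lt_of_le ?_ hglow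
    rw [← hc₁, hη]; linarith
  exact cuntz_of_cut hA hB ι b hb z a₁ ha₁0 η hη0 hfin hlarge x hx

omit [PartialOrder B] [StarOrderedRing B] in
lemma zero_isClosedIdeal : IsClosedIdeal ({0} : Set B) := by
  refine ⟨isClosed_singleton, rfl, ?_, ?_, ?_⟩
  · intro x y hx hy
    rw [Set.mem_singleton_iff] at *
    rw [hx, hy, add_zero]
  · intro a x hx
    rw [Set.mem_singleton_iff] at *
    rw [hx, mul_zero]
  · intro a x hx
    rw [Set.mem_singleton_iff] at *
    rw [hx, zero_mul]

/-- The simple case. -/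
theorem simple_case {d : ℕ} (hA : PurelyInfinite A) (hR : RokhlinDimLE α d)
    (h : IsCrossedProduct α ι w) (hB : IsSimpleCStar B) : PurelyInfinite B := by
  refine ⟨simple_noAbelianQuotient hA hB ι, fun a b ha hb hab => ?_⟩
  by_cases hb0 : b = 0
  · have h0 : a ∈ ({0} : Set B) := hab _ zero_isClosedIdeal (by rw [hb0]; rfl)
    rw [Set.mem_singleton_iff] at h0
    rw [h0, hb0, cuntzSub_iff]
    intro ε hε
    exact ⟨0, by simpa using hε⟩
  · exact cuntz_all hA hR h hB b hb hb0 a ha

end Assembly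

end MP9b5ea5
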