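import Pool.Agent.H63.PI.A1

open scoped ComplexOrder

namespace MP9b5ea5

section Ideals

variable {A : Type*} [CStarAlgebra A] [PartialOrder A] [StarOrderedRing A] {I : Set A}

lemma IsClosedIdeal.of_mul_star (hI : IsClosedIdeal I) {v : A} (h : v * star v ∈ I) : v ∈ I := by
  refine hI.mem_of_approx fun ε hε => ?_
  obtain ⟨z, hz⟩ := approx_mul_star_mul v ε hε
  exact ⟨v * star v * z, hI.mul_mem_right z h, hz⟩

lemma IsClosedIdeal.star_mem (hI : IsClosedIdeal I) {v : A} (h : v ∈ I) : star v ∈ I := by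
  refine hI.of_mul_star ?_
  rw [star_star]
  exact hI.mul_mem_left _ h

lemma IsClosedIdeal.of_star_mul (hI : IsClosedIdeal I) {v : A} (h : star v * v ∈ I) : v ∈ I := by
  have : star v ∈ I := hI.of_mul_star (by rwa [star_star])
  simpa using hI.star_mem this

omit [PartialOrder A] [StarOrderedRing A] in
lemma IsClosedIdeal.smul_mem (hI : IsClosedIdeal I) (c : ℂ) {v : A} (h : v ∈ I) : c • v ∈ I := by
  have := hI.mul_mem_left (c • (1:A)) h
  simpa using this

/-- The closed ideal generated by `e`. -/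
def idealGen (e : A) : Set A := {a | InClosedIdeal a e}

omit [PartialOrder A] [StarOrderedRing A] in
lemma idealGen_isClosedIdeal (e : A) : IsClosedIdeal (idealGen e) := by
  refine ⟨?_, ?_, ?_, ?_, ?_⟩
  · have : idealGen e = ⋂ J ∈ {J : Set A | IsClosedIdeal J ∧ e ∈ J}, J := by
      ext a
      simp [idealGen, InClosedIdeal]
    rw [this]
    exact isClosed_biInter fun J hJ => hJ.1.isClosed
  · exact fun J hJ _ => hJ.zero_mem
  · exact fun x y hx hy J hJ he => hJ.add_mem (hx J hJ he) (hy J hJ he)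
  · exact fun a x hx J hJ he => hJ.mul_mem_left a (hx J hJ he)
  · exact fun a x hx J hJ he => hJ.mul_mem_right a (hx J hJ he)

omit [PartialOrder A] [StarOrderedRing A] in
lemma self_mem_idealGen (e : A) : e ∈ idealGen e := fun _ _ h => h

end Ideals

section OrthSum

variable {A : Type*} [CStarAlgebra A] [PartialOrder A] [StarOrderedRing A]

lemma norm_sum_orth_le {κ : Type*} (s : Finset κ) (X : κ → A) (c : ℝ) (hc : 0 ≤ c)
    (h1 : ∀ k ∈ s, ∀ l ∈ s, k ≠ l → X k * star (X l) = 0)
    (h2 : ∀ k ∈ s, ∀ l ∈ s, k ≠ l → star (X k) * X l = 0)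
    (h3 : ∀ k ∈ s, ‖X k‖ ≤ c) : ‖∑ k ∈ s, X k‖ ≤ c := by
  classical
  set Q : A := ∑ k ∈ s, X k * star (X k) with hQ
  have hSS : (∑ k ∈ s, X k) * star (∑ k ∈ s, X k) = Q := by
    rw [star_sum, Finset.sum_mul_sum, hQ]
    refine Finset.sum_congr rfl fun k hk => ?_
    rw [Finset.sum_eq_single_of_mem k hk]
    intro l hl hlk
    exact h1 k hk l hl (Ne.symm hlk)
  have hQ0 : 0 ≤ Q := Finset.sum_nonneg fun k _ => mul_star_self_nonneg (X k)
  have hQsa : IsSelfAdjoint Q := .of_nonneg hQ0
  have hQQ : Q * Q = ∑ k ∈ s, X k * (star (X k) * X k) * star (X k) := by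
    rw [hQ, Finset.sum_mul_sum]
    refine Finset.sum_congr rfl fun k hk => ?_
    rw [Finset.sum_eq_single_of_mem k hk]
    · noncomm_ring
    · intro l hl hlk
      have : X k * star (X k) * (X l * star (X l)) = X k * (star (X k) * X l) * star (X l) := by
        noncomm_ring
      rw [this, h2 k hk l hl (Ne.symm hlk)]
      simp
  have hle : Q * Q ≤ (c ^ 2) • Q := by
    rw [hQQ, hQ, Finset.smul_sum]
    refine Finset.sum_le_sum fun k hk => ?_
    have hb : star (X k) * X k ≤ algebraMap ℝ A (c ^ 2) := by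
      refine CStarAlgebra.star_mul_le_algebraMap_norm_sq.trans ?_
      have : ‖X k‖ ^ 2 ≤ c ^ 2 := pow_le_pow_left₀ (norm_nonneg _) (h3 k hk) 2
      exact algebraMap_mono A this
    have := star_right_conjugate_le_conjugate hb (X k)
    refine this.trans (le_of_eq ?_)
    rw [Algebra.algebraMap_eq_smul_one]
    simp
  have hn : ‖Q * Q‖ ≤ ‖(c ^ 2) • Q‖ := by
    refine CStarAlgebra.norm_le_norm_of_nonneg_of_le ?_ hle
    have := mul_star_self_nonneg Q
    rwa [hQsa.star_eq] at this
  have hn2 : ‖Q‖ * ‖Q‖ ≤ c ^ 2 * ‖Q‖ := by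
    have e1 : ‖Q * Q‖ = ‖Q‖ * ‖Q‖ := by
      have := CStarRing.norm_self_mul_star (x := Q)
      rwa [hQsa.star_eq] at this
    rw [e1, norm_smul, Real.norm_eq_abs, abs_of_nonneg (by positivity)] at hn
    exact hn
  have hn3 : ‖Q‖ ≤ c ^ 2 := by
    by_contra hcon
    push Not at hcon
    nlinarith [norm_nonneg Q, sq_nonneg c]
  have hn4 : ‖∑ k ∈ s, X k‖ * ‖∑ k ∈ s, X k‖ ≤ c ^ 2 := by
    rw [← CStarRing.norm_self_mul_star, hSS]
    exact hn3
  nlinarith [norm_nonneg (∑ k ∈ s, X k)]

end OrthSum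

section Kaplansky

variable {A : Type*} [CStarAlgebra A] [PartialOrder A] [StarOrderedRing A] {I : Set A}

/-- clamp to `[0,1]` -/
noncomputable def cl (t : ℝ) : ℝ := max 0 (min 1 t)

lemma cl_continuous : Continuous cl := by unfold cl; fun_prop

lemma cl_of_nonpos {t : ℝ} (h : t ≤ 0) : cl t = 0 := by
  unfold cl; rw [min_eq_right (by linarith), max_eq_left h]

lemma cl_of_one_le {t : ℝ} (h : 1 ≤ t) : cl t = 1 := by
  unfold cl; rw [min_eq_left h, max_eq_right (by norm_num)]

lemma cl_nonneg (t : ℝ) : 0 ≤ cl t := le_max_left _ _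

lemma cl_le_one (t : ℝ) : cl t ≤ 1 := max_le (by norm_num) (min_le_left _ _)

lemma cl_mono {s t : ℝ} (h : s ≤ t) : cl s ≤ cl t := by
  unfold cl; gcongr

/-- hat functions -/
noncomputable def hat (n : ℝ) (i : ℝ) (t : ℝ) : ℝ := cl (n * t - i + 1) - cl (n * t - i)

noncomputable def bump (n : ℝ) (i : ℝ) (t : ℝ) : ℝ := cl (2 - |n * t - i|)

lemma hat_continuous (n i : ℝ) : Continuous (hat n i) := by
  unfold hat; exact (cl_continuous.comp (by fun_prop)).sub (cl_continuous.comp (by fun_prop))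

lemma bump_continuous (n i : ℝ) : Continuous (bump n i) := by
  unfold bump; exact (cl_continuous.comp (by fun_prop))

lemma hat_nonneg (n i t : ℝ) : 0 ≤ hat n i t := by
  unfold hat; have := cl_mono (show n * t - i ≤ n * t - i + 1 by linarith); linarith

lemma hat_le_one (n i t : ℝ) : hat n i t ≤ 1 := by
  unfold hat; have := cl_nonneg (n * t - i); have := cl_le_one (n * t - i + 1); linarith

lemma hat_eq_zero {n i t : ℝ} (h : 1 ≤ |n * t - i|) : hat n i t = 0 := by
  unfold hat
  rcases le_abs.mp h with h | h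
  · rw [cl_of_one_le h, cl_of_one_le (by linarith)]; ring
  · rw [cl_of_nonpos (by linarith), cl_of_nonpos (by linarith)]; ring

lemma bump_eq_one {n i t : ℝ} (h : |n * t - i| ≤ 1) : bump n i t = 1 := by
  unfold bump; exact cl_of_one_le (by linarith)

lemma bump_eq_zero {n i t : ℝ} (h : 2 ≤ |n * t - i|) : bump n i t = 0 := by
  unfold bump; exact cl_of_nonpos (by linarith)

lemma sum_hat (n : ℝ) (m : ℕ) (t : ℝ) (h : |n * t| ≤ m) :
    ∑ i ∈ Finset.range (2 * m + 1), hat n ((i : ℝ) - m) t = 1 := by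
  have h1 : ∀ i : ℕ, hat n ((i : ℝ) - m) t = cl (n * t + m + 1 - (i : ℝ)) -
      cl (n * t + m + 1 - ((i + 1 : ℕ) : ℝ)) := by
    intro i
    unfold hat
    congr 2
    · ring
    · push_cast; ring
  rw [Finset.sum_congr rfl fun i _ => h1 i,
    Finset.sum_range_sub' (fun i : ℕ => cl (n * t + m + 1 - (i : ℝ)))]
  have h2 := abs_le.mp h
  rw [cl_of_one_le (by push_cast; linarith [h2.1]), cl_of_nonpos (by push_cast; linarith [h2.2])]
  ring

/-- Kaplansky type lemma : noncommutativity modulo a closed ideal produces nilpotents. -/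
lemma kaplansky (hI : IsClosedIdeal I) (h w : A) (hh : IsSelfAdjoint h)
    (H : ∀ f g : ℝ → ℝ, Continuous f → Continuous g → (∀ t, f t * g t = 0) →
      cfc f h * w * cfc g h ∈ I) : h * w - w * h ∈ I := by
  classical
  refine hI.mem_of_approx fun ε hε => ?_
  set D : A := h * w - w * h with hD
  -- choose n
  obtain ⟨n, hn⟩ := exists_nat_gt ((12 * ‖w‖ + 1) / ε)
  have hn0 : 0 < (n : ℝ) := lt_of_le_of_lt (by positivity) hn
  have hnε : 12 * ‖w‖ / n < ε := by
    rw [div_lt_iff₀ hε] at hn
    rw [div_lt_iff₀ hn0]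
    linarith
  obtain ⟨m, hm⟩ := exists_nat_ge ((n : ℝ) * ‖h‖)
  have hspec : ∀ t ∈ spectrum ℝ h, |(n : ℝ) * t| ≤ m := by
    intro t ht
    rw [abs_mul, abs_of_pos hn0]
    exact (mul_le_mul_of_nonneg_left (spec_le_norm ht) hn0.le).trans hm
  let P : ℕ → A := fun i => cfc (hat n ((i : ℝ) - m)) h
  let B : ℕ → A := fun i => cfc (bump n ((i : ℝ) - m)) h
  have hPsa : ∀ i, star (P i) = P i := fun i =>
    (show IsSelfAdjoint (P i) from cfc_predicate _ _).star_eq
  have hBsa : ∀ i, star (B i) = B i := fun i =>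
    (show IsSelfAdjoint (B i) from cfc_predicate _ _).star_eq
  have hsum : ∑ i ∈ Finset.range (2 * m + 1), P i = 1 := by
    have : ∑ i ∈ Finset.range (2 * m + 1), P i =
        cfc (fun t => ∑ i ∈ Finset.range (2 * m + 1), hat n ((i : ℝ) - m) t) h := by
      have := cfc_sum (fun i : ℕ => hat n ((i : ℝ) - m)) h (Finset.range (2 * m + 1))
        (fun i _ => (hat_continuous _ _).continuousOn)
      rw [← this]
      refine cfc_congr fun t _ => ?_
      simp
    rw [this, ← cfc_const_one ℝ h]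
    exact cfc_congr fun t ht => sum_hat _ _ _ (hspec t ht)
  -- main decomposition
  let X : ℕ → A := fun i => P i * D * B i
  have hrest : ∀ i, P i * D * (1 - B i) ∈ I := by
    intro i
    have e1 : (1 : A) - B i = cfc (fun t => 1 - bump n ((i : ℝ) - m) t) h := by
      rw [cfc_sub (fun _ : ℝ => (1:ℝ)) (bump n ((i : ℝ) - m)) h (by fun_prop)
        (bump_continuous _ _).continuousOn, cfc_const_one ℝ h]
    have e2 : P i * h = cfc (fun t => hat n ((i : ℝ) - m) t * t) h := by
      rw [cfc_mul (hat n ((i : ℝ) - m)) (fun t => t) h (hat_continuous _ _).continuousOn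
        (by fun_prop), cfc_id' ℝ h]
    have e3 : h * (1 - B i) = cfc (fun t => t * (1 - bump n ((i : ℝ) - m) t)) h := by
      rw [e1, cfc_mul (fun t => t) (fun t => 1 - bump n ((i : ℝ) - m) t) h
        (by fun_prop) (continuous_const.sub (bump_continuous _ _)).continuousOn, cfc_id' ℝ h]
    have e4 : P i * D * (1 - B i) = P i * h * w * (1 - B i) - P i * w * (h * (1 - B i)) := by
      rw [hD]; noncomm_ring
    have key : ∀ t : ℝ, hat n ((i : ℝ) - m) t = 0 ∨ 1 - bump n ((i : ℝ) - m) t = 0 := by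
      intro t
      rcases le_total 1 |n * t - ((i : ℝ) - m)| with h1 | h1
      · exact Or.inl (hat_eq_zero h1)
      · exact Or.inr (by rw [bump_eq_one h1]; ring)
    rw [e4]
    refine hI.sub_mem ?_ ?_
    · rw [e2, e1]
      refine H _ _ ((hat_continuous _ _).mul continuous_id)
        (continuous_const.sub (bump_continuous _ _)) fun t => ?_
      rcases key t with h1 | h1 <;> simp [h1]
    · rw [e3]
      refine H _ _ (hat_continuous _ _)
        (continuous_id.mul (continuous_const.sub (bump_continuous _ _))) fun t => ?_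
      rcases key t with h1 | h1 <;> simp [h1]
  have hdec : D = ∑ i ∈ Finset.range (2 * m + 1), X i +
      ∑ i ∈ Finset.range (2 * m + 1), P i * D * (1 - B i) := by
    rw [← Finset.sum_add_distrib]
    have : ∀ i, X i + P i * D * (1 - B i) = P i * D := by
      intro i; simp only [X]; noncomm_ring
    rw [Finset.sum_congr rfl fun i _ => this i, ← Finset.sum_mul, hsum, one_mul]
  refine ⟨∑ i ∈ Finset.range (2 * m + 1), P i * D * (1 - B i),
    hI.sum_mem _ _ fun i _ => hrest i, ?_⟩
  have hD2 : D - ∑ i ∈ Finset.range (2 * m + 1), P i * D * (1 - B i) =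
      ∑ i ∈ Finset.range (2 * m + 1), X i := by
    nth_rewrite 1 [hdec]; abel
  rw [hD2]
  -- norms
  have hPn : ∀ i, ‖P i‖ ≤ 1 := fun i => norm_cfc_le zero_le_one fun t _ => by
    rw [Real.norm_eq_abs, abs_of_nonneg (hat_nonneg _ _ _)]; exact hat_le_one _ _ _
  have hBn : ∀ i, ‖B i‖ ≤ 1 := fun i => norm_cfc_le zero_le_one fun t _ => by
    rw [Real.norm_eq_abs]; unfold bump; rw [abs_of_nonneg (cl_nonneg _)]; exact cl_le_one _
  have hXn : ∀ i, ‖X i‖ ≤ 3 * ‖w‖ / n := by
    intro i
    set τ : ℝ := ((i : ℝ) - m) / n with hτ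
    have f1 : P i * (h - algebraMap ℝ A τ) = cfc (fun t => hat n ((i : ℝ) - m) t * (t - τ)) h := by
      rw [cfc_mul (hat n ((i : ℝ) - m)) (fun t => t - τ) h (hat_continuous _ _).continuousOn
        (by fun_prop), cfc_sub (fun t => t) (fun _ => τ) h (by fun_prop) (by fun_prop),
        cfc_id' ℝ h, cfc_const τ h]
    have f2 : (h - algebraMap ℝ A τ) * B i = cfc (fun t => (t - τ) * bump n ((i : ℝ) - m) t) h := by
      rw [cfc_mul (fun t => t - τ) (bump n ((i : ℝ) - m)) h (by fun_prop)
        (bump_continuous _ _).continuousOn, cfc_sub (fun t => t) (fun _ => τ) h (by fun_prop)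
        (by fun_prop), cfc_id' ℝ h, cfc_const τ h]
    have g0 : ∀ t : ℝ, n * t - ((i : ℝ) - m) = n * (t - τ) := by
      intro t; rw [hτ]; field_simp
    have g1 : ‖P i * (h - algebraMap ℝ A τ)‖ ≤ 1 / n := by
      rw [f1]
      refine norm_cfc_le (by positivity) fun t _ => ?_
      rw [Real.norm_eq_abs, abs_mul, abs_of_nonneg (hat_nonneg _ _ _)]
      rcases le_total 1 |n * t - ((i : ℝ) - m)| with h1 | h1
      · rw [hat_eq_zero h1]; simp
      · rw [g0, abs_mul, abs_of_pos hn0] at h1
        have h2 : |t - τ| ≤ 1 / n := by rw [le_div_iff₀ hn0]; linarith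
        calc _ ≤ 1 * (1 / (n:ℝ)) := mul_le_mul (hat_le_one _ _ _) h2 (abs_nonneg _) zero_le_one
          _ = 1 / n := one_mul _
    have g2 : ‖(h - algebraMap ℝ A τ) * B i‖ ≤ 2 / n := by
      rw [f2]
      refine norm_cfc_le (by positivity) fun t _ => ?_
      rw [Real.norm_eq_abs, abs_mul]
      have hb0 : 0 ≤ bump n ((i : ℝ) - m) t := cl_nonneg _
      have hb1 : bump n ((i : ℝ) - m) t ≤ 1 := cl_le_one _
      rw [abs_of_nonneg hb0]
      rcases le_total 2 |n * t - ((i : ℝ) - m)| with h1 | h1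
      · rw [bump_eq_zero h1, mul_zero]; positivity
      · rw [g0, abs_mul, abs_of_pos hn0] at h1
        have h2 : |t - τ| ≤ 2 / n := by rw [le_div_iff₀ hn0]; linarith
        calc _ ≤ (2 / (n:ℝ)) * 1 := mul_le_mul h2 hb1 hb0 (by positivity)
          _ = 2 / n := mul_one _
    have e5 : X i = P i * (h - algebraMap ℝ A τ) * w * B i - P i * w * ((h - algebraMap ℝ A τ) * B i) := by
      simp only [X, hD]
      have hc : algebraMap ℝ A τ * w = w * algebraMap ℝ A τ := Algebra.commutes τ w
      have : P i * (h - algebraMap ℝ A τ) * w * B i - P i * w * ((h - algebraMap ℝ A τ) * B i)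
        = P i * (h * w - w * h) * B i - P i * (algebraMap ℝ A τ * w - w * algebraMap ℝ A τ) * B i := by
        noncomm_ring
      rw [this, hc]; simp
    rw [e5]
    have n1 : ‖P i * (h - algebraMap ℝ A τ) * w * B i‖ ≤ 1 / n * ‖w‖ * 1 := by
      refine (norm_mul_le _ _).trans ?_
      refine mul_le_mul ((norm_mul_le _ _).trans ?_) (hBn i) (norm_nonneg _) (by positivity)
      exact mul_le_mul_of_nonneg_right g1 (norm_nonneg _)
    have n2 : ‖P i * w * ((h - algebraMap ℝ A τ) * B i)‖ ≤ 1 * ‖w‖ * (2 / n) := by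
      refine (norm_mul_le _ _).trans ?_
      refine mul_le_mul ((norm_mul_le _ _).trans ?_) g2 (norm_nonneg _) (by positivity)
      exact mul_le_mul_of_nonneg_right (hPn i) (norm_nonneg _)
    refine (norm_sub_le _ _).trans ((add_le_add n1 n2).trans (le_of_eq ?_))
    ring
  have hfib := Finset.sum_fiberwise_of_maps_to (s := Finset.range (2 * m + 1))
    (t := Finset.range 4) (g := fun i : ℕ => i % 4)
    (fun i _ => Finset.mem_range.mpr (Nat.mod_lt _ (by norm_num))) X
  rw [← hfib]
  have hprod : ∀ i j : ℕ, i ≠ j → i % 4 = j % 4 →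
      (P i * P j = 0 ∧ B i * B j = 0) := by
    intro i j hij hmod
    have hfar : (4 : ℝ) ≤ |(i : ℝ) - j| := by
      have : (4 : ℤ) ≤ |(i : ℤ) - j| := by
        have h1 : ((i : ℤ) - j) ≠ 0 := by
          intro h0; apply hij; omega
        have h2 : (4 : ℤ) ∣ ((i : ℤ) - j) := by omega
        exact Int.le_of_dvd (abs_pos.mpr h1) ((dvd_abs _ _).mpr h2)
      exact_mod_cast this
    have hsep : ∀ t : ℝ, 2 ≤ |n * t - ((i : ℝ) - m)| ∨ 2 ≤ |n * t - ((j : ℝ) - m)| := by
      intro t
      by_contra hcon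
      push Not at hcon
      have := abs_sub (n * t - ((i : ℝ) - m)) (n * t - ((j : ℝ) - m))
      have h5 : n * t - ((i : ℝ) - m) - (n * t - ((j : ℝ) - m)) = -((i : ℝ) - j) := by ring
      rw [h5, abs_neg] at this
      linarith [hcon.1, hcon.2]
    constructor
    · show cfc _ h * cfc _ h = 0
      rw [← cfc_mul _ _ h (hat_continuous _ _).continuousOn (hat_continuous _ _).continuousOn,
        ← cfc_const_zero ℝ h]
      refine cfc_congr fun t _ => ?_
      show hat n ((i : ℝ) - m) t * hat n ((j : ℝ) - m) t = 0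
      rcases hsep t with h1 | h1
      · rw [hat_eq_zero (by linarith), zero_mul]
      · rw [hat_eq_zero (n := n) (i := (j : ℝ) - m) (by linarith), mul_zero]
    · show cfc _ h * cfc _ h = 0
      rw [← cfc_mul _ _ h (bump_continuous _ _).continuousOn (bump_continuous _ _).continuousOn,
        ← cfc_const_zero ℝ h]
      refine cfc_congr fun t _ => ?_
      show bump n ((i : ℝ) - m) t * bump n ((j : ℝ) - m) t = 0
      rcases hsep t with h1 | h1
      · rw [bump_eq_zero h1, zero_mul]
      · rw [bump_eq_zero (n := n) (i := (j : ℝ) - m) h1, mul_zero]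
  have hclass : ∀ r ∈ Finset.range 4,
      ‖∑ i ∈ (Finset.range (2 * m + 1)).filter (fun i => i % 4 = r), X i‖ ≤ 3 * ‖w‖ / n := by
    intro r _
    refine norm_sum_orth_le _ _ _ (by positivity) ?_ ?_ fun i _ => hXn i
    · intro i hi j hj hij
      rw [Finset.mem_filter] at hi hj
      have := (hprod i j hij (hi.2.trans hj.2.symm)).2
      simp only [X, star_mul, hPsa, hBsa]
      have e : P i * D * B i * (B j * (star D * P j)) = P i * D * (B i * B j) * (star D * P j) := by
        noncomm_ring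
      rw [e, this]; simp
    · intro i hi j hj hij
      rw [Finset.mem_filter] at hi hj
      have := (hprod i j hij (hi.2.trans hj.2.symm)).1
      simp only [X, star_mul, hPsa, hBsa]
      have e : B i * (star D * P i) * (P j * D * B j) = B i * star D * (P i * P j) * (D * B j) := by
        noncomm_ring
      rw [e, this]; simp
  refine lt_of_le_of_lt (norm_sum_le _ _) ?_
  refine lt_of_le_of_lt (Finset.sum_le_sum hclass) ?_
  rw [Finset.sum_const, Finset.card_range, nsmul_eq_mul]
  calc ((4 : ℕ) : ℝ) * (3 * ‖w‖ / n) = 12 * ‖w‖ / n := by push_cast; ring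
    _ < ε := hnε

end Kaplansky

end MP9b5ea5
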