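import Pool.Agent.H63.PI.A2

open scoped ComplexOrder

namespace MP9b5ea5

section InL

variable {A : Type*} [CStarAlgebra A]

/-- `x` belongs to the closure of `e A`. -/
def InL (e x : A) : Prop := ∀ ε : ℝ, 0 < ε → ∃ z : A, ‖x - e * z‖ < ε

lemma InL.mul_right {e x : A} (h : InL e x) (a : A) : InL e (x * a) := by
  intro ε hε
  obtain ⟨z, hz⟩ := h (ε / (‖a‖ + 1)) (by positivity)
  refine ⟨z * a, ?_⟩
  have : x * a - e * (z * a) = (x - e * z) * a := by noncomm_ring
  rw [this]
  refine lt_of_le_of_lt (norm_mul_le _ _) ?_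
  have h1 : ‖x - e * z‖ * ‖a‖ ≤ ε / (‖a‖ + 1) * ‖a‖ :=
    mul_le_mul_of_nonneg_right hz.le (norm_nonneg _)
  refine lt_of_le_of_lt h1 ?_
  rw [div_mul_eq_mul_div, div_lt_iff₀ (by positivity)]
  nlinarith [norm_nonneg a]

lemma InL.add {e x y : A} (hx : InL e x) (hy : InL e y) : InL e (x + y) := by
  intro ε hε
  obtain ⟨z, hz⟩ := hx (ε / 2) (by positivity)
  obtain ⟨w, hw⟩ := hy (ε / 2) (by positivity)
  refine ⟨z + w, ?_⟩
  have : x + y - e * (z + w) = (x - e * z) + (y - e * w) := by noncomm_ring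
  rw [this]
  refine lt_of_le_of_lt (norm_add_le _ _) ?_
  linarith

lemma InL.neg {e x : A} (hx : InL e x) : InL e (-x) := by
  simpa using hx.mul_right (-1)

lemma InL.sub {e x y : A} (hx : InL e x) (hy : InL e y) : InL e (x - y) := by
  rw [sub_eq_add_neg]; exact hx.add hy.neg

lemma InL.self_mul (e a : A) : InL e (e * a) := fun ε hε => ⟨a, by simpa using hε⟩

lemma InL.of_approx {e x : A} (h : ∀ ε : ℝ, 0 < ε → ∃ y, InL e y ∧ ‖x - y‖ < ε) : InL e x := by
  intro ε hε
  obtain ⟨y, hy, hxy⟩ := h (ε / 2) (by positivity)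
  obtain ⟨z, hz⟩ := hy (ε / 2) (by positivity)
  refine ⟨z, ?_⟩
  have : x - e * z = (x - y) + (y - e * z) := by abel
  rw [this]
  refine lt_of_le_of_lt (norm_add_le _ _) ?_
  linarith

end InL

section Cuts

variable {A : Type*} [CStarAlgebra A] [PartialOrder A] [StarOrderedRing A]

/-- cut functions : for `R ≥ 0` there is `t`, a multiple of `R`, with `t R t ≈ R`. -/
lemma exists_cut (R : A) (hR : 0 ≤ R) (ε : ℝ) (hε : 0 < ε) :
    ∃ t k : A, IsSelfAdjoint t ∧ t = R * k ∧ t = k * R ∧ ‖t * R * t - R‖ < ε := by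
  set δ : ℝ := ε / 4 with hδ
  have hδ0 : 0 < δ := by positivity
  have hden : ∀ t : ℝ, |t| + δ ≠ 0 := fun t => by positivity
  have hck : Continuous (fun t : ℝ => 1 / (|t| + δ)) :=
    continuous_const.div (by fun_prop) hden
  have hct : Continuous (fun t : ℝ => t * (1 / (|t| + δ))) := continuous_id.mul hck
  have hRsa : IsSelfAdjoint R := .of_nonneg hR
  refine ⟨cfc (fun t : ℝ => t * (1 / (|t| + δ))) R, cfc (fun t : ℝ => 1 / (|t| + δ)) R,
    cfc_predicate _ _, ?_, ?_, ?_⟩
  · rw [cfc_mul (fun t : ℝ => t) (fun t : ℝ => 1 / (|t| + δ)) R (by fun_prop) hck.continuousOn,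
      cfc_id' ℝ R]
  · have : (fun t : ℝ => t * (1 / (|t| + δ))) = fun t => (1 / (|t| + δ)) * t := by
      funext t; ring
    rw [this, cfc_mul (fun t : ℝ => 1 / (|t| + δ)) (fun t : ℝ => t) R hck.continuousOn
      (by fun_prop), cfc_id' ℝ R]
  · have e1 : cfc (fun t : ℝ => t * (1 / (|t| + δ))) R * R * cfc (fun t : ℝ => t * (1 / (|t| + δ))) R
        - R = cfc (fun t : ℝ => t * (1 / (|t| + δ)) * t * (t * (1 / (|t| + δ))) - t) R := by
      rw [cfc_sub (fun t : ℝ => t * (1 / (|t| + δ)) * t * (t * (1 / (|t| + δ)))) (fun t => t) R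
        (((hct.mul continuous_id).mul hct).continuousOn) (by fun_prop),
        cfc_mul (fun t : ℝ => t * (1 / (|t| + δ)) * t) (fun t => (t * (1 / (|t| + δ)))) R
        ((hct.mul continuous_id).continuousOn) hct.continuousOn,
        cfc_mul (fun t : ℝ => t * (1 / (|t| + δ))) (fun t => t) R
        hct.continuousOn (by fun_prop), cfc_id' ℝ R]
    rw [e1]
    refine lt_of_le_of_lt (norm_cfc_le (c := 2 * δ) (by positivity) fun t ht => ?_) (by
      rw [hδ]; linarith)
    have ht0 : 0 ≤ t := spec_nonneg hR ht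
    rw [abs_of_nonneg ht0, Real.norm_eq_abs]
    have hp : 0 < t + δ := by positivity
    have e2 : t * (1 / (t + δ)) * t * (t * (1 / (t + δ))) - t =
        -(δ * (t * (2 * t + δ)) / (t + δ) ^ 2) := by
      field_simp
      ring
    rw [e2, abs_neg, abs_of_nonneg (by positivity), div_le_iff₀ (by positivity)]
    have : t * (2 * t + δ) ≤ 2 * (t + δ) ^ 2 := by nlinarith
    nlinarith

/-- approximation of functional calculus by multiples -/
lemma cfc_approx_mul (h : A) (hh : IsSelfAdjoint h) (F : ℝ → ℝ) (hF : Continuous F) (hF0 : F 0 = 0)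
    (ε : ℝ) (hε : 0 < ε) : ∃ u : A, ‖cfc F h - h * u‖ < ε := by
  -- modulus at zero
  have h0 : ∀ᶠ t in nhds (0:ℝ), |F t| < ε / 2 := by
    have := (hF.tendsto 0).eventually (Metric.ball_mem_nhds (F 0) (half_pos hε))
    filter_upwards [this] with t ht
    rw [hF0, dist_zero_right, Real.norm_eq_abs] at ht
    exact ht
  obtain ⟨ρ, hρ, hball⟩ := Metric.eventually_nhds_iff.mp h0
  -- bound on the spectrum
  obtain ⟨M, hM⟩ := (isCompact_Icc (a := -‖h‖) (b := ‖h‖)).exists_bound_of_continuousOn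
    hF.continuousOn
  have hM0 : 0 ≤ M := (norm_nonneg _).trans (hM 0 ⟨by simp, norm_nonneg _⟩)
  set δ : ℝ := ρ ^ 2 * (ε / 2) / (M + 1) with hδ
  have hδ0 : 0 < δ := by positivity
  have hcu : Continuous (fun t : ℝ => F t * t / (t ^ 2 + δ)) :=
    (hF.mul continuous_id).div (by fun_prop) fun t => by positivity
  refine ⟨cfc (fun t : ℝ => F t * t / (t ^ 2 + δ)) h, ?_⟩
  have e1 : cfc F h - h * cfc (fun t : ℝ => F t * t / (t ^ 2 + δ)) h =
      cfc (fun t : ℝ => F t - t * (F t * t / (t ^ 2 + δ))) h := by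
    rw [cfc_sub F (fun t : ℝ => t * (F t * t / (t ^ 2 + δ))) h hF.continuousOn
      (continuous_id.mul hcu).continuousOn,
      cfc_mul (fun t : ℝ => t) (fun t : ℝ => F t * t / (t ^ 2 + δ)) h (by fun_prop)
      hcu.continuousOn, cfc_id' ℝ h]
  rw [e1]
  refine lt_of_le_of_lt (norm_cfc_le (c := ε / 2) (by positivity) fun t ht => ?_) (by linarith)
  have hts : |t| ≤ ‖h‖ := spec_le_norm ht
  have e2 : F t - t * (F t * t / (t ^ 2 + δ)) = F t * (δ / (t ^ 2 + δ)) := by
    have : t ^ 2 + δ ≠ 0 := by positivity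
    field_simp
    ring
  rw [e2, Real.norm_eq_abs, abs_mul, abs_of_nonneg (by positivity : 0 ≤ δ / (t ^ 2 + δ))]
  rcases lt_or_ge |t| ρ with h1 | h1
  · have h2 : |F t| < ε / 2 := hball (by rwa [dist_zero_right, Real.norm_eq_abs])
    have h3 : δ / (t ^ 2 + δ) ≤ 1 := by
      rw [div_le_one (by positivity)]; nlinarith [sq_nonneg t]
    calc |F t| * (δ / (t ^ 2 + δ)) ≤ (ε / 2) * 1 :=
          mul_le_mul h2.le h3 (by positivity) (by positivity)
      _ = ε / 2 := mul_one _
  · have h2 : |F t| ≤ M := by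
      have := hM t (abs_le.mp hts)
      rwa [Real.norm_eq_abs] at this
    have h3 : ρ ^ 2 ≤ t ^ 2 := by
      rw [← sq_abs t]; exact pow_le_pow_left₀ hρ.le h1 2
    have h4 : δ / (t ^ 2 + δ) ≤ δ / ρ ^ 2 := by
      apply div_le_div_of_nonneg_left hδ0.le (by positivity)
      linarith
    have h5 : δ / ρ ^ 2 = (ε / 2) / (M + 1) := by
      rw [hδ]; field_simp
    calc |F t| * (δ / (t ^ 2 + δ)) ≤ M * ((ε / 2) / (M + 1)) := by
          rw [← h5]; exact mul_le_mul h2 h4 (by positivity) hM0
      _ ≤ ε / 2 := by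
          rw [mul_div_assoc', div_le_iff₀ (by positivity)]
          nlinarith

/-- `f(h) e ∈ closure (e A)` when `h = e h' e`. -/
lemma InL.cfc_mul {e h' : A} (h : A) (hh : IsSelfAdjoint h) (heq : h = e * h' * e) (f : ℝ → ℝ)
    (hf : Continuous f) : InL e (cfc f h * e) := by
  refine InL.of_approx fun ε hε => ?_
  have hF : Continuous (fun t => f t - f 0) := hf.sub continuous_const
  obtain ⟨u, hu⟩ := cfc_approx_mul h hh (fun t => f t - f 0) hF (by simp) (ε / (‖e‖ + 1))
    (by positivity)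
  have e1 : cfc f h = cfc (fun t => f t - f 0) h + algebraMap ℝ A (f 0) := by
    rw [cfc_sub f (fun _ => f 0) h hf.continuousOn (by fun_prop), cfc_const (f 0) h]
    abel
  refine ⟨(h * u + algebraMap ℝ A (f 0)) * e, ?_, ?_⟩
  · rw [add_mul]
    refine InL.add ?_ ?_
    · rw [heq]
      have : e * h' * e * u * e = e * (h' * e * u * e) := by noncomm_ring
      rw [this]; exact InL.self_mul _ _
    · rw [Algebra.commutes (f 0) e]; exact InL.self_mul _ _
  · rw [e1]
    have : (cfc (fun t => f t - f 0) h + algebraMap ℝ A (f 0)) * e -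
        (h * u + algebraMap ℝ A (f 0)) * e = (cfc (fun t => f t - f 0) h - h * u) * e := by
      noncomm_ring
    rw [this]
    refine lt_of_le_of_lt (norm_mul_le _ _) ?_
    refine lt_of_le_of_lt (mul_le_mul_of_nonneg_right hu.le (norm_nonneg _)) ?_
    rw [div_mul_eq_mul_div, div_lt_iff₀ (by positivity)]
    nlinarith [norm_nonneg e]

end Cuts

section KR

variable {A : Type*} [CStarAlgebra A] [PartialOrder A] [StarOrderedRing A] {I : Set A}

/-- `e e ⊕ y ≾ e e`. -/
def Absorbs (a y : A) : Prop :=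
  ∀ ε : ℝ, 0 < ε → ∃ r₁ r₂ : A, ‖r₁ * a * star r₁ - a‖ < ε ∧ ‖r₂ * a * star r₂ - y‖ < ε ∧
    ‖r₁ * a * star r₂‖ < ε

/-- The Kirchberg-Rordam trick, given a nilpotent. -/
lemma absorbs_of_nilpotent (hA : PurelyInfinite A) (hI : IsClosedIdeal I) (e : A) (he : 0 ≤ e)
    (x : A) (hx1 : InL e x) (hx2 : InL e (star x)) (hxx : x * x = 0) (hxI : x ∉ I) :
    ∃ y : A, 0 ≤ y ∧ y ∉ I ∧ Absorbs (e * e) y := by
  have hesa : star e = e := (IsSelfAdjoint.of_nonneg he).star_eq
  set d : A := star x * x with hd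
  have hd0 : 0 ≤ d := star_mul_self_nonneg x
  have hdsa : IsSelfAdjoint d := .of_nonneg hd0
  have hdI : d ∉ I := fun h => hxI (hI.of_star_mul h)
  -- find η
  obtain ⟨η, hη, hyI⟩ : ∃ η : ℝ, 0 < η ∧ cfc (fun t : ℝ => max (t - η) 0) d ∉ I := by
    by_contra hcon
    push Not at hcon
    apply hdI
    refine hI.mem_of_approx fun ε hε => ?_
    refine ⟨cfc (fun t : ℝ => max (t - ε / 2) 0) d, hcon _ (by positivity), ?_⟩
    have e1 : d - cfc (fun t : ℝ => max (t - ε / 2) 0) d =
        cfc (fun t : ℝ => t - max (t - ε / 2) 0) d := by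
      rw [cfc_sub (fun t : ℝ => t) (fun t : ℝ => max (t - ε / 2) 0) d (by fun_prop)
        (by fun_prop), cfc_id' ℝ d]
    rw [e1]
    refine lt_of_le_of_lt (norm_cfc_le (c := ε / 2) (by positivity) fun t ht => ?_) (by linarith)
    have ht0 : 0 ≤ t := spec_nonneg hd0 ht
    rw [Real.norm_eq_abs]
    rcases le_total t (ε / 2) with h1 | h1
    · rw [max_eq_right (by linarith), sub_zero, abs_of_nonneg ht0]; exact h1
    · rw [max_eq_left (by linarith), sub_sub_cancel, abs_of_pos (by positivity)]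
  set y : A := cfc (fun t : ℝ => max (t - η) 0) d with hy
  have hy0 : 0 ≤ y := cfc_nonneg fun t _ => le_max_right _ _
  have hmax : ∀ t : ℝ, max t η ≠ 0 := fun t => (lt_of_lt_of_le hη (le_max_right _ _)).ne'
  set k : A := cfc (fun t : ℝ => 1 / max t η) d with hk
  have hck : Continuous (fun t : ℝ => 1 / max t η) :=
    continuous_const.div (by fun_prop) hmax
  set h : A := d * k with hh
  have hh' : h = cfc (fun t : ℝ => t * (1 / max t η)) d := by
    rw [cfc_mul (fun t : ℝ => t) (fun t : ℝ => 1 / max t η) d (by fun_prop) hck.continuousOn,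
      cfc_id' ℝ d]
  have hkd : h = k * d := by
    have : (fun t : ℝ => t * (1 / max t η)) = fun t => (1 / max t η) * t := by
      funext t; ring
    rw [hh', this, cfc_mul (fun t : ℝ => 1 / max t η) (fun t : ℝ => t) d hck.continuousOn
      (by fun_prop), cfc_id' ℝ d]
  have hhsa : star h = h := by
    have : IsSelfAdjoint h := by rw [hh']; exact cfc_predicate _ _
    exact this.star_eq
  have hydy : y = d * cfc (fun t : ℝ => max (t - η) 0 / max t η) d := by
    have hc2 : Continuous (fun t : ℝ => max (t - η) 0 / max t η) :=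
      Continuous.div (by fun_prop) (by fun_prop) hmax
    have : d * cfc (fun t : ℝ => max (t - η) 0 / max t η) d =
        cfc (fun t : ℝ => t * (max (t - η) 0 / max t η)) d := by
      rw [cfc_mul (fun t : ℝ => t) (fun t : ℝ => max (t - η) 0 / max t η) d (by fun_prop)
        hc2.continuousOn, cfc_id' ℝ d]
    rw [this, hy]
    refine cfc_congr fun t ht => ?_
    have ht0 : 0 ≤ t := spec_nonneg hd0 ht
    show max (t - η) 0 = t * (max (t - η) 0 / max t η)
    rcases le_total t η with h1 | h1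
    · rw [max_eq_right (by linarith : t - η ≤ 0)]; simp
    · rw [max_eq_left h1]
      have : t ≠ 0 := by linarith
      field_simp
  have hhy : (1 - h) * y = 0 := by
    have e1 : (1 : A) - h = cfc (fun t : ℝ => 1 - t * (1 / max t η)) d := by
      rw [cfc_sub (fun _ : ℝ => (1:ℝ)) (fun t : ℝ => t * (1 / max t η)) d (by fun_prop)
        (continuous_id.mul hck).continuousOn, cfc_const_one ℝ d, hh']
    rw [e1, hy, ← cfc_mul (fun t : ℝ => 1 - t * (1 / max t η)) (fun t : ℝ => max (t - η) 0) d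
      ((continuous_const.sub (continuous_id.mul hck)).continuousOn)
      (by fun_prop), ← cfc_const_zero ℝ d]
    refine cfc_congr fun t ht => ?_
    show (1 - t * (1 / max t η)) * max (t - η) 0 = 0
    rcases le_total t η with h1 | h1
    · rw [max_eq_right (by linarith : t - η ≤ 0)]; simp
    · rw [max_eq_left h1]
      have : t ≠ 0 := by linarith
      field_simp
      ring
  have hysa : star y = y := (IsSelfAdjoint.of_nonneg hy0).star_eq
  have hyh : y * (1 - h) = 0 := by
    have := congrArg star hhy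
    rw [star_mul, hysa, star_sub, star_one, hhsa, star_zero] at this
    exact this
  -- h x = 0
  have hhx : h * x = 0 := by
    rw [hkd, hd]
    have : k * (star x * x) * x = k * star x * (x * x) := by noncomm_ring
    rw [this, hxx]; simp
  set v : A := (1 - h) * e with hv
  have hvs : star v = e * (1 - h) := by rw [hv, star_mul, hesa, star_sub, star_one, hhsa]
  set R : A := v * star v with hR
  have hR0 : 0 ≤ R := mul_star_self_nonneg v
  have hRy : R * y = 0 := by
    rw [hR, hvs]
    have : v * (e * (1 - h)) * y = v * e * ((1 - h) * y) := by noncomm_ring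
    rw [this, hhy]; simp
  have hyR : y * R = 0 := by
    rw [hR, hv]
    have : y * ((1 - h) * e * star ((1 - h) * e)) = (y * (1 - h)) * (e * star ((1 - h) * e)) := by
      noncomm_ring
    rw [this, hyh]; simp
  -- e e in the ideal generated by R
  have hideal : InClosedIdeal (e * e) R := by
    intro J hJ hRJ
    have hvJ : v ∈ J := hJ.of_mul_star hRJ
    have hxJ : x ∈ J := by
      refine hJ.mem_of_approx fun ε hε => ?_
      obtain ⟨z, hz⟩ := hx1 (ε / (‖(1:A) - h‖ + 1)) (by positivity)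
      refine ⟨v * z, hJ.mul_mem_right z hvJ, ?_⟩
      have : x - v * z = (1 - h) * (x - e * z) := by
        have h1 : (1 - h) * x = x := by rw [sub_mul, one_mul, hhx, sub_zero]
        rw [mul_sub, h1, hv]; noncomm_ring
      rw [this]
      refine lt_of_le_of_lt (norm_mul_le _ _) ?_
      refine lt_of_le_of_lt (mul_le_mul_of_nonneg_left hz.le (norm_nonneg _)) ?_
      rw [mul_div_assoc', div_lt_iff₀ (by positivity)]
      nlinarith [norm_nonneg ((1:A) - h)]
    have hdJ : d ∈ J := hJ.mul_mem_left _ hxJ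
    have hhJ : h ∈ J := hJ.mul_mem_right k hdJ
    have heJ : e ∈ J := by
      have : e = v + h * e := by rw [hv]; noncomm_ring
      rw [this]
      exact hJ.add_mem hvJ (hJ.mul_mem_right e hhJ)
    exact hJ.mul_mem_left e heJ
  have hee0 : 0 ≤ e * e := by
    have := mul_star_self_nonneg e
    rwa [hesa] at this
  have hcomp := cuntzSub_iff.mp (hA.comparison _ _ hee0 hR0 hideal)
  -- membership in closure (eA)
  have hdL : InL e d := hx2.mul_right x
  have hyL : InL e y := by rw [hydy]; exact hdL.mul_right _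
  have hRL : InL e R := by
    have : R = e * (star v) - (d * k) * (e * star v) := by rw [hR, hv, ← hh]; noncomm_ring
    rw [this]
    exact (InL.self_mul _ _).sub ((hdL.mul_right _).mul_right _)
  set G : A := R + y with hG
  have hG0 : 0 ≤ G := add_nonneg hR0 hy0
  have hGL : InL e G := hRL.add hyL
  set g : A := CFC.sqrt G with hg
  have hgsa : star g = g := (IsSelfAdjoint.of_nonneg (CFC.sqrt_nonneg G)).star_eq
  have hgg : g * g = G := CFC.sqrt_mul_sqrt_self G hG0
  have hgL : InL e g := by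
    refine InL.of_approx fun ε hε => ?_
    obtain ⟨z, hz⟩ := approx_mul_star_mul g ε hε
    refine ⟨g * star g * z, ?_, hz⟩
    rw [hgsa, hgg]
    exact hGL.mul_right z
  refine ⟨y, hy0, hyI, fun ε hε => ?_⟩
  obtain ⟨r', hr'⟩ := hcomp (ε / 3) (by positivity)
  obtain ⟨t₁, k₁, ht1sa, ht1, ht1', ht1a⟩ := exists_cut R hR0 (ε / 3 / (‖r'‖ ^ 2 + 1)) (by positivity)
  obtain ⟨t₂, k₂, ht2sa, ht2, ht2', ht2a⟩ := exists_cut y hy0 (ε / 3) (by positivity)
  -- constants
  set C : ℝ := (‖r' * t₁‖ + ‖t₂‖ + 1) ^ 2 with hC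
  have hC0 : 0 < C := by positivity
  -- approximate g by e z
  set κ : ℝ := min 1 (ε / 3 / (C * (2 * ‖g‖ + 1))) with hκ
  have hκ0 : 0 < κ := by positivity
  obtain ⟨z, hz⟩ := hgL κ hκ0
  have hGz : ‖star z * (e * e) * z - G‖ ≤ ε / 3 / C := by
    have e1 : star z * (e * e) * z = star (e * z) * (e * z) := by
      rw [star_mul, hesa]; noncomm_ring
    have e2 : star (e * z) * (e * z) - G =
        -(star (g - e * z) * (e * z)) - star g * (g - e * z) := by
      rw [← hgg, star_sub, hgsa]; noncomm_ring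
    rw [e1, e2]
    have n1 : ‖e * z‖ ≤ ‖g‖ + κ := by
      have : e * z = g - (g - e * z) := by abel
      rw [this]
      exact (norm_sub_le _ _).trans (by linarith)
    have hκ1 : κ ≤ 1 := min_le_left _ _
    calc ‖-(star (g - e * z) * (e * z)) - star g * (g - e * z)‖
        ≤ ‖star (g - e * z) * (e * z)‖ + ‖star g * (g - e * z)‖ := by
          refine (norm_sub_le _ _).trans ?_
          rw [norm_neg]
      _ ≤ κ * (‖g‖ + 1) + ‖g‖ * κ := by
          refine add_le_add ?_ ?_
          · refine (norm_mul_le _ _).trans ?_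
            rw [norm_star]
            exact mul_le_mul hz.le (by linarith) (norm_nonneg _) hκ0.le
          · refine (norm_mul_le _ _).trans ?_
            rw [norm_star]
            exact mul_le_mul_of_nonneg_left hz.le (norm_nonneg _)
      _ = κ * (2 * ‖g‖ + 1) := by ring
      _ ≤ (ε / 3 / (C * (2 * ‖g‖ + 1))) * (2 * ‖g‖ + 1) := by
          exact mul_le_mul_of_nonneg_right (min_le_right _ _) (by positivity)
      _ = ε / 3 / C := by field_simp
  have ht1s : star t₁ = t₁ := ht1sa.star_eq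
  have ht2s : star t₂ = t₂ := ht2sa.star_eq
  have ht1y : t₁ * y = 0 := by rw [ht1', mul_assoc, hRy, mul_zero]
  have hRt2 : R * t₂ = 0 := by rw [ht2, ← mul_assoc, hRy, zero_mul]
  have hyt1 : y * t₁ = 0 := by rw [ht1, ← mul_assoc, hyR, zero_mul]
  have ht2R : t₂ * R = 0 := by rw [ht2', mul_assoc, hyR, mul_zero]
  refine ⟨r' * t₁ * star z, t₂ * star z, ?_, ?_, ?_⟩
  · have e1 : r' * t₁ * star z * (e * e) * star (r' * t₁ * star z) - e * e =
        (r' * t₁) * (star z * (e * e) * z - G) * (t₁ * star r') +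
        r' * (t₁ * R * t₁ - R) * star r' + (r' * R * star r' - e * e) := by
      rw [star_mul, star_mul, star_star, ht1s, hG]
      have : r' * (t₁ * y * t₁) * star r' = 0 := by rw [ht1y]; simp
      have e3 : r' * t₁ * star z * (e * e) * (z * (t₁ * star r')) - e * e =
        (r' * t₁) * (star z * (e * e) * z - (R + y)) * (t₁ * star r') +
        r' * (t₁ * R * t₁ - R) * star r' + (r' * R * star r' - e * e)
          + r' * (t₁ * y * t₁) * star r' := by noncomm_ring
      rw [e3, this, add_zero]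
    rw [e1]
    have n0 : ‖t₁ * star r'‖ = ‖r' * t₁‖ := by
      rw [← norm_star (r' * t₁), star_mul, ht1s]
    have n1 : ‖(r' * t₁) * (star z * (e * e) * z - G) * (t₁ * star r')‖ ≤ ε / 3 := by
      refine (norm_mul_le _ _).trans ?_
      refine (mul_le_mul_of_nonneg_right (norm_mul_le _ _) (norm_nonneg _)).trans ?_
      rw [n0]
      calc ‖r' * t₁‖ * ‖star z * (e * e) * z - G‖ * ‖r' * t₁‖
          = ‖r' * t₁‖ ^ 2 * ‖star z * (e * e) * z - G‖ := by ring
        _ ≤ C * (ε / 3 / C) := by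
            refine mul_le_mul ?_ hGz (norm_nonneg _) hC0.le
            rw [hC]
            refine pow_le_pow_left₀ (norm_nonneg _) ?_ 2
            linarith [norm_nonneg t₂]
        _ = ε / 3 := by field_simp
    have n2 : ‖r' * (t₁ * R * t₁ - R) * star r'‖ < ε / 3 := by
      refine lt_of_le_of_lt ((norm_mul_le _ _).trans
        (mul_le_mul_of_nonneg_right (norm_mul_le _ _) (norm_nonneg _))) ?_
      rw [norm_star]
      calc ‖r'‖ * ‖t₁ * R * t₁ - R‖ * ‖r'‖ = ‖r'‖ ^ 2 * ‖t₁ * R * t₁ - R‖ := by ring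
        _ ≤ ‖r'‖ ^ 2 * (ε / 3 / (‖r'‖ ^ 2 + 1)) :=
            mul_le_mul_of_nonneg_left ht1a.le (by positivity)
        _ < ε / 3 := by
            rw [mul_div_assoc', div_lt_iff₀ (by positivity)]
            nlinarith [sq_nonneg ‖r'‖]
    calc _ ≤ ‖(r' * t₁) * (star z * (e * e) * z - G) * (t₁ * star r')‖ +
          ‖r' * (t₁ * R * t₁ - R) * star r'‖ + ‖r' * R * star r' - e * e‖ :=
            norm_add₃_le
      _ < ε := by linarith
  · have e1 : t₂ * star z * (e * e) * star (t₂ * star z) - y =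
        t₂ * (star z * (e * e) * z - G) * t₂ + (t₂ * y * t₂ - y) := by
      rw [star_mul, star_star, ht2s, hG]
      have : t₂ * R * t₂ = 0 := by rw [ht2R, zero_mul]
      have e3 : t₂ * star z * (e * e) * (z * t₂) - y =
        t₂ * (star z * (e * e) * z - (R + y)) * t₂ + (t₂ * y * t₂ - y) + t₂ * R * t₂ := by
        noncomm_ring
      rw [e3, this, add_zero]
    rw [e1]
    have n1 : ‖t₂ * (star z * (e * e) * z - G) * t₂‖ ≤ ε / 3 := by
      refine (norm_mul_le _ _).trans ?_
      refine (mul_le_mul_of_nonneg_right (norm_mul_le _ _) (norm_nonneg _)).trans ?_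
      calc ‖t₂‖ * ‖star z * (e * e) * z - G‖ * ‖t₂‖
          = ‖t₂‖ ^ 2 * ‖star z * (e * e) * z - G‖ := by ring
        _ ≤ C * (ε / 3 / C) := by
            refine mul_le_mul ?_ hGz (norm_nonneg _) hC0.le
            rw [hC]
            refine pow_le_pow_left₀ (norm_nonneg _) ?_ 2
            linarith [norm_nonneg (r' * t₁)]
        _ = ε / 3 := by field_simp
    refine lt_of_le_of_lt (norm_add_le _ _) ?_
    linarith
  · have e1 : r' * t₁ * star z * (e * e) * star (t₂ * star z) =
        (r' * t₁) * (star z * (e * e) * z - G) * t₂ := by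
      rw [star_mul, star_star, ht2s, hG]
      have h1 : r' * t₁ * (R * t₂) = 0 := by rw [hRt2]; simp
      have h2 : r' * (t₁ * y) * t₂ = 0 := by rw [ht1y]; simp
      have e3 : r' * t₁ * star z * (e * e) * (z * t₂) =
        (r' * t₁) * (star z * (e * e) * z - (R + y)) * t₂ + r' * t₁ * (R * t₂)
          + r' * (t₁ * y) * t₂ := by noncomm_ring
      rw [e3, h1, h2, add_zero, add_zero]
    rw [e1]
    refine lt_of_le_of_lt ((norm_mul_le _ _).trans
      (mul_le_mul_of_nonneg_right (norm_mul_le _ _) (norm_nonneg _))) ?_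
    calc ‖r' * t₁‖ * ‖star z * (e * e) * z - G‖ * ‖t₂‖
        = (‖r' * t₁‖ * ‖t₂‖) * ‖star z * (e * e) * z - G‖ := by ring
      _ ≤ C * (ε / 3 / C) := by
          refine mul_le_mul ?_ hGz (norm_nonneg _) hC0.le
          rw [hC]
          nlinarith [norm_nonneg (r' * t₁), norm_nonneg t₂]
      _ = ε / 3 := by field_simp
      _ < ε := by linarith

end KR

end MP9b5ea5
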