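import Pool.Agent.H63.PI.A3

open scoped ComplexOrder

namespace MP9b5ea5

section N2

variable {A : Type*} [CStarAlgebra A] [PartialOrder A] [StarOrderedRing A] {I : Set A}

/-- noncommutativity inside the ideal generated by `e`, modulo `I`. -/
lemma exists_comm_not_mem (hA : PurelyInfinite A) (hI : IsClosedIdeal I) (e : A) (heI : e ∉ I) :
    ∃ p ∈ idealGen e, ∃ q ∈ idealGen e, p * q - q * p ∉ I := by
  by_contra hcon
  push Not at hcon
  set J : Set A := idealGen e with hJdef
  have hJ : IsClosedIdeal J := idealGen_isClosedIdeal e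
  let K : Set A := {x | ∀ a ∈ J, x * a ∈ I}
  have hK : IsClosedIdeal K := by
    refine ⟨?_, ?_, ?_, ?_, ?_⟩
    · have : K = ⋂ a ∈ J, {x : A | x * a ∈ I} := by
        ext x; simp [K]
      rw [this]
      refine isClosed_biInter fun a _ => ?_
      exact hI.isClosed.preimage (continuous_mul_const a)
    · intro a _; rw [zero_mul]; exact hI.zero_mem
    · intro x y hx hy a ha; rw [add_mul]; exact hI.add_mem (hx a ha) (hy a ha)
    · intro b x hx a ha; rw [mul_assoc]; exact hI.mul_mem_left b (hx a ha)
    · intro b x hx a ha; rw [mul_assoc]; exact hx _ (hJ.mul_mem_left b ha)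
  have hKu : K ≠ Set.univ := by
    intro h
    have h1 : (1 : A) ∈ K := by rw [h]; trivial
    exact heI (by simpa using h1 e (self_mem_idealGen e))
  obtain ⟨x, y, hxy⟩ := hA.noAbelianQuotient K hK hKu
  apply hxy
  -- (*) u x v ≡ x u v
  have star1 : ∀ x : A, ∀ u ∈ J, ∀ v ∈ J, u * x * v - x * u * v ∈ I := by
    intro x u hu v hv
    have h1 := hcon u hu (x * v) (hJ.mul_mem_left x hv)
    have h2 := hI.mul_mem_left x (hcon v hv u hu)
    have : u * x * v - x * u * v = (u * (x * v) - x * v * u) + x * (v * u - u * v) := by
      noncomm_ring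
    rw [this]
    exact hI.add_mem h1 h2
  have star2 : ∀ b ∈ J, ∀ c ∈ J, (x * y - y * x) * (b * c) ∈ I := by
    intro b hb c hc
    have h1 := star1 x (y * b) (hJ.mul_mem_left y hb) c hc
    have h2 := hI.mul_mem_left y (star1 x b hb c hc)
    have : (x * y - y * x) * (b * c) =
        y * (b * x * c - x * b * c) - (y * b * x * c - x * (y * b) * c) := by
      noncomm_ring
    rw [this]
    exact hI.sub_mem h2 h1
  intro a ha
  refine hI.mem_of_approx fun ε hε => ?_
  obtain ⟨z, hz⟩ := approx_mul_star_mul a (ε / (‖x * y - y * x‖ + 1)) (by positivity)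
  refine ⟨(x * y - y * x) * (a * (star a * z)),
    star2 a ha _ (hJ.mul_mem_right z (hJ.star_mem ha)), ?_⟩
  have : (x * y - y * x) * a - (x * y - y * x) * (a * (star a * z)) =
      (x * y - y * x) * (a - a * star a * z) := by noncomm_ring
  rw [this]
  refine lt_of_le_of_lt (norm_mul_le _ _) ?_
  refine lt_of_le_of_lt (mul_le_mul_of_nonneg_left hz.le (norm_nonneg _)) ?_
  rw [mul_div_assoc', div_lt_iff₀ (by positivity)]
  nlinarith [norm_nonneg (x * y - y * x)]

lemma exists_comm_not_mem_sa (hA : PurelyInfinite A) (hI : IsClosedIdeal I) (e : A) (heI : e ∉ I) :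
    ∃ p ∈ idealGen e, IsSelfAdjoint p ∧ ∃ q ∈ idealGen e, p * q - q * p ∉ I := by
  obtain ⟨p, hp, q, hq, hpq⟩ := exists_comm_not_mem hA hI e heI
  have hJ : IsClosedIdeal (idealGen e) := idealGen_isClosedIdeal e
  by_contra hcon
  push Not at hcon
  have h1 := hcon (p + star p) (hJ.add_mem hp (hJ.star_mem hp)) (IsSelfAdjoint.add_star_self p) q hq
  have h2 := hcon (Complex.I • (p - star p)) (hJ.smul_mem _ (hJ.sub_mem hp (hJ.star_mem hp))) (by
    rw [IsSelfAdjoint, star_smul, star_sub, star_star]
    simp only [Complex.star_def, Complex.conj_I, neg_smul, smul_sub]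
    abel) q hq
  apply hpq
  have h3 := hI.smul_mem (-(1/2) * Complex.I) h2
  have h4 := hI.smul_mem (1/2) h1
  have : p * q - q * p = ((1/2 : ℂ) • ((p + star p) * q - q * (p + star p))) +
      ((-(1/2) * Complex.I : ℂ) • ((Complex.I • (p - star p)) * q - q * (Complex.I • (p - star p)))) := by
    have e1 : (Complex.I • (p - star p)) * q - q * (Complex.I • (p - star p)) =
        Complex.I • ((p - star p) * q - q * (p - star p)) := by
      rw [smul_mul_assoc, mul_smul_comm, smul_sub]
    rw [e1, smul_smul]
    have e2 : (-(1/2) * Complex.I * Complex.I : ℂ) = 1 / 2 := by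
      rw [mul_assoc, Complex.I_mul_I]; ring
    rw [e2, ← smul_add]
    have e3 : (p + star p) * q - q * (p + star p) + ((p - star p) * q - q * (p - star p)) =
        (2 : ℂ) • (p * q - q * p) := by
      rw [two_smul]; noncomm_ring
    rw [e3, smul_smul]; norm_num
  rw [this]
  exact hI.add_mem h4 h3

omit [PartialOrder A] [StarOrderedRing A] in
lemma cfc_mul_eq_zero (h : A) (f g : ℝ → ℝ) (hf : Continuous f)
    (hg : Continuous g) (hfg : ∀ t, f t * g t = 0) : cfc g h * cfc f h = 0 := by
  rw [← cfc_mul g f h hg.continuousOn hf.continuousOn, ← cfc_const_zero ℝ h]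
  exact cfc_congr fun t _ => by
    show g t * f t = 0
    rw [mul_comm]; exact hfg t

/-- nilpotents in an ideal. -/
lemma exists_nilpotent_idealGen (hA : PurelyInfinite A) (hI : IsClosedIdeal I) (e : A)
    (heI : e ∉ I) : ∃ x ∈ idealGen e, x * x = 0 ∧ x ∉ I := by
  obtain ⟨p, hp, hpsa, q, hq, hpq⟩ := exists_comm_not_mem_sa hA hI e heI
  have hJ : IsClosedIdeal (idealGen e) := idealGen_isClosedIdeal e
  by_contra hcon
  push Not at hcon
  apply hpq
  refine kaplansky hI p q hpsa fun f g hf hg hfg => ?_
  refine hcon _ (hJ.mul_mem_right _ (hJ.mul_mem_left _ hq)) ?_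
  have e1 := cfc_mul_eq_zero p f g hf hg hfg
  have : cfc f p * q * cfc g p * (cfc f p * q * cfc g p) =
      cfc f p * q * (cfc g p * cfc f p) * (q * cfc g p) := by noncomm_ring
  rw [this, e1]; simp

/-- if `a⁵ ∈ I` with `a` selfadjoint, then `a ∈ I`. -/
lemma mem_of_pow_five (hI : IsClosedIdeal I) {a : A} (ha : star a = a)
    (h : a * a * a * a * a ∈ I) : a ∈ I := by
  have h3 : a * a * a ∈ I := by
    refine hI.of_mul_star ?_
    rw [star_mul, star_mul, ha]
    have : a * a * a * (a * (a * a)) = a * a * a * a * a * a := by noncomm_ring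
    rw [this]
    exact hI.mul_mem_right a h
  have h2 : a * a ∈ I := by
    refine hI.of_mul_star ?_
    rw [star_mul, ha]
    have : a * a * (a * a) = a * a * a * a := by noncomm_ring
    rw [this]
    exact hI.mul_mem_right a h3
  refine hI.of_mul_star ?_
  rw [ha]
  exact h2

lemma exists_nonnormal (hA : PurelyInfinite A) (hI : IsClosedIdeal I) (e : A) (he : 0 ≤ e)
    (heI : e ∉ I) : ∃ w : A, (e * w * e) * star (e * w * e) - star (e * w * e) * (e * w * e) ∉ I := by
  obtain ⟨x, hxJ, hxx, hxI⟩ := exists_nilpotent_idealGen hA hI e heI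
  have hesa : star e = e := (IsSelfAdjoint.of_nonneg he).star_eq
  have hJ : IsClosedIdeal (idealGen e) := idealGen_isClosedIdeal e
  by_contra hcon
  push Not at hcon
  apply hxI
  set a : A := x * star x with ha
  set b : A := star x * x with hb
  set c : A := a + b with hc
  have hc0 : 0 ≤ c := add_nonneg (mul_star_self_nonneg x) (star_mul_self_nonneg x)
  have hee0 : 0 ≤ e * e := by
    have := mul_star_self_nonneg e
    rwa [hesa] at this
  have hideal : InClosedIdeal c (e * e) := by
    intro K hK heK
    have heK' : e ∈ K := hK.of_mul_star (by rwa [hesa])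
    have hxK : x ∈ K := hxJ K hK heK'
    exact hK.add_mem (hK.mul_mem_right _ hxK) (hK.mul_mem_left _ hxK)
  have hcomp := cuntzSub_iff.mp (hA.comparison _ _ hc0 hee0 hideal)
  -- c x c x* c - c x* c x c ∈ I
  have hmem : c * x * c * star x * c - c * star x * c * x * c ∈ I := by
    choose r hr using fun n : ℕ => hcomp (1 / ((n : ℝ) + 1)) (by positivity)
    have hlim : Filter.Tendsto (fun n => r n * (e * e) * star (r n)) Filter.atTop (nhds c) := by
      rw [tendsto_iff_norm_sub_tendsto_zero]
      refine squeeze_zero (fun _ => norm_nonneg _) (fun n => (hr n).le) ?_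
      exact tendsto_one_div_add_atTop_nhds_zero_nat
    set s : ℕ → A := fun n => r n * (e * e) * star (r n) with hs
    have hlim2 : Filter.Tendsto (fun n => s n * x * s n * star x * s n -
        s n * star x * s n * x * s n) Filter.atTop
        (nhds (c * x * c * star x * c - c * star x * c * x * c)) := by
      refine Filter.Tendsto.sub ?_ ?_
      · exact (((hlim.mul_const x).mul hlim).mul_const (star x)).mul hlim
      · exact (((hlim.mul_const (star x)).mul hlim).mul_const x).mul hlim
    refine hI.isClosed.mem_of_tendsto hlim2 (Filter.Eventually.of_forall fun n => ?_)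
    have h1 := hcon (star (r n) * x * r n)
    have h2 := hI.mul_mem_right (e * star (r n)) (hI.mul_mem_left (r n * e) h1)
    have : s n * x * s n * star x * s n - s n * star x * s n * x * s n =
        r n * e * (e * (star (r n) * x * r n) * e * star (e * (star (r n) * x * r n) * e) -
          star (e * (star (r n) * x * r n) * e) * (e * (star (r n) * x * r n) * e)) *
        (e * star (r n)) := by
      simp only [hs, star_mul, hesa, star_star]
      noncomm_ring
    rw [this]
    exact h2
  have hab : a * b = 0 := by
    rw [ha, hb]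
    have : x * star x * (star x * x) = x * star (x * x) * x := by rw [star_mul]; noncomm_ring
    rw [this, hxx]; simp
  have hba : b * a = 0 := by
    rw [ha, hb]
    have : star x * x * (x * star x) = star x * (x * x) * star x := by noncomm_ring
    rw [this, hxx]; simp
  have hsxx : star x * star x = 0 := by rw [← star_mul, hxx, star_zero]
  have e1 : c * x = a * x := by
    rw [hc, add_mul, hb]
    have : star x * x * x = star x * (x * x) := by noncomm_ring
    rw [this, hxx]; simp
  have e2 : x * c = a * x := by
    rw [hc, mul_add, ha]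
    have : x * (x * star x) = (x * x) * star x := by noncomm_ring
    rw [this, hxx, zero_mul, zero_add, hb]; noncomm_ring
  have e3 : c * star x = b * star x := by
    rw [hc, add_mul, ha]
    have : x * star x * star x = x * (star x * star x) := by noncomm_ring
    rw [this, hsxx, mul_zero, zero_add]
  have e4 : star x * c = b * star x := by
    rw [hc, mul_add, hb]
    have : star x * (star x * x) = (star x * star x) * x := by noncomm_ring
    rw [this, hsxx, zero_mul, add_zero, ha]; noncomm_ring
  have f1 : c * x * c * star x * c = a * a * a * a := by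
    rw [e1]
    have : a * x * c * star x * c = a * (x * c) * (star x * c) := by noncomm_ring
    rw [this, e2, e4]
    have : a * (a * x) * (b * star x) = a * a * (x * b * star x) := by noncomm_ring
    rw [this]
    have : x * b * star x = a * a := by rw [ha, hb]; noncomm_ring
    rw [this]; noncomm_ring
  have f2 : c * star x * c * x * c = b * b * b * b := by
    rw [e3]
    have : b * star x * c * x * c = b * (star x * c) * (x * c) := by noncomm_ring
    rw [this, e2, e4]
    have : b * (b * star x) * (a * x) = b * b * (star x * a * x) := by noncomm_ring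
    rw [this]
    have : star x * a * x = b * b := by rw [ha, hb]; noncomm_ring
    rw [this]; noncomm_ring
  rw [f1, f2] at hmem
  have h5 : a * a * a * a * a ∈ I := by
    have := hI.mul_mem_right a hmem
    have e5 : (a * a * a * a - b * b * b * b) * a = a * a * a * a * a - b * b * b * (b * a) := by
      noncomm_ring
    rw [e5, hba] at this
    simpa using this
  have hasa : star a = a := by rw [ha, star_mul, star_star]
  exact hI.of_mul_star (mem_of_pow_five hI hasa h5)

/-- The Kirchberg-Rordam absorption modulo a closed ideal. -/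
lemma exists_absorbs (hA : PurelyInfinite A) (hI : IsClosedIdeal I) (e : A) (he : 0 ≤ e)
    (heI : e ∉ I) : ∃ y : A, 0 ≤ y ∧ y ∉ I ∧ Absorbs (e * e) y := by
  have hesa : star e = e := (IsSelfAdjoint.of_nonneg he).star_eq
  obtain ⟨w, hw⟩ := exists_nonnormal hA hI e he heI
  set X : A := e * w * e with hX
  set h : A := X + star X with hh
  have hhsa : IsSelfAdjoint h := IsSelfAdjoint.add_star_self X
  have hheq : h = e * (w + star w) * e := by
    rw [hh, hX]; simp only [star_mul, hesa]; noncomm_ring
  have hcomm : h * X - X * h ∉ I := by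
    intro hcon
    apply hw
    have : X * star X - star X * X = -(h * X - X * h) := by rw [hh]; noncomm_ring
    rw [this]
    exact hI.neg_mem hcon
  obtain ⟨f, g, hf, hg, hfg, hxI⟩ : ∃ f g : ℝ → ℝ, Continuous f ∧ Continuous g ∧
      (∀ t, f t * g t = 0) ∧ cfc f h * X * cfc g h ∉ I := by
    by_contra hcon
    push Not at hcon
    exact hcomm (kaplansky hI h X hhsa hcon)
  have e1 := cfc_mul_eq_zero h f g hf hg hfg
  have hfs : star (cfc f h) = cfc f h := (show IsSelfAdjoint (cfc f h) from cfc_predicate _ _).star_eq
  have hgs : star (cfc g h) = cfc g h := (show IsSelfAdjoint (cfc g h) from cfc_predicate _ _).star_eq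
  refine absorbs_of_nilpotent hA hI e he (cfc f h * X * cfc g h) ?_ ?_ ?_ hxI
  · have := (InL.cfc_mul h hhsa hheq f hf).mul_right (w * e * cfc g h)
    have e2 : cfc f h * X * cfc g h = cfc f h * e * (w * e * cfc g h) := by
      rw [hX]; noncomm_ring
    rw [e2]; exact this
  · have := (InL.cfc_mul h hhsa hheq g hg).mul_right (star w * e * cfc f h)
    have e2 : star (cfc f h * X * cfc g h) = cfc g h * e * (star w * e * cfc f h) := by
      rw [hX]; simp only [star_mul, hesa, hfs, hgs]; noncomm_ring
    rw [e2]; exact this
  · have : cfc f h * X * cfc g h * (cfc f h * X * cfc g h) =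
      cfc f h * X * (cfc g h * cfc f h) * (X * cfc g h) := by noncomm_ring
    rw [this, e1]; simp

end N2

end MP9b5ea5
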