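import Pool.Agent.H63.PI.A4

open scoped ComplexOrder

namespace MP9b5ea5

section Iterate

variable {A : Type*} [CStarAlgebra A]

/-- iterate the absorption. -/
lemma Absorbs.iterate {a y : A} (ha : star a = a) (h : Absorbs a y) (n : ℕ) :
    ∀ ε : ℝ, 0 < ε → ∃ (s : A) (z : ℕ → A), ‖s * a * star s - a‖ < ε ∧
      (∀ i < n, ‖s * a * star (z i)‖ < ε) ∧
      (∀ i < n, ∀ j < n, ‖z i * a * star (z j) - (if i = j then y else 0)‖ < ε) := by
  induction n with
  | zero =>
    intro ε hε
    exact ⟨1, fun _ => 0, by simpa using hε, by simp, by simp⟩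
  | succ n ih =>
    intro ε hε
    obtain ⟨r₁, r₂, h1, h2, h3⟩ := h (ε / 2) (by positivity)
    set C : ℝ := (1 + ‖r₁‖ + ‖r₂‖) ^ 2 with hC
    have hC1 : 1 ≤ C := by
      rw [hC]; nlinarith [norm_nonneg r₁, norm_nonneg r₂, mul_nonneg (norm_nonneg r₁) (norm_nonneg r₂)]
    have hC0 : 0 < C := by linarith
    have hle : ε / 2 / C ≤ ε / 2 := div_le_self (by positivity) hC1
    obtain ⟨s, z, hs, hsz, hz⟩ := ih (ε / 2 / C) (by positivity)
    have hcc : C * (ε / 2 / C) = ε / 2 := by field_simp
    have b11 : ‖r₁‖ * ‖r₁‖ ≤ C := by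
      rw [hC]; nlinarith [norm_nonneg r₁, norm_nonneg r₂]
    have b22 : ‖r₂‖ * ‖r₂‖ ≤ C := by
      rw [hC]; nlinarith [norm_nonneg r₁, norm_nonneg r₂]
    have b12 : ‖r₁‖ * ‖r₂‖ ≤ C := by
      rw [hC]; nlinarith [norm_nonneg r₁, norm_nonneg r₂]
    have b1 : ‖r₁‖ ≤ C := by
      rw [hC]; nlinarith [norm_nonneg r₁, norm_nonneg r₂]
    have b2 : ‖r₂‖ ≤ C := by
      rw [hC]; nlinarith [norm_nonneg r₁, norm_nonneg r₂]
    have conj : ∀ r r' : A, ‖r‖ * ‖r'‖ ≤ C → ‖r * (s * a * star s - a) * star r'‖ ≤ ε / 2 := by
      intro r r' hrr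
      calc ‖r * (s * a * star s - a) * star r'‖ ≤ ‖r‖ * ‖s * a * star s - a‖ * ‖r'‖ := by
            refine (norm_mul_le _ _).trans ?_
            rw [norm_star]
            exact mul_le_mul_of_nonneg_right (norm_mul_le _ _) (norm_nonneg _)
        _ = (‖r‖ * ‖r'‖) * ‖s * a * star s - a‖ := by ring
        _ ≤ C * (ε / 2 / C) := mul_le_mul hrr hs.le (norm_nonneg _) hC0.le
        _ = ε / 2 := hcc
    have off : ∀ r : A, ‖r‖ ≤ C → ∀ i < n, ‖r * (s * a * star (z i))‖ ≤ ε / 2 := by
      intro r hr i hi
      calc ‖r * (s * a * star (z i))‖ ≤ ‖r‖ * ‖s * a * star (z i)‖ := norm_mul_le _ _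
        _ ≤ C * (ε / 2 / C) := mul_le_mul hr (hsz i hi).le (norm_nonneg _) hC0.le
        _ = ε / 2 := hcc
    refine ⟨r₁ * s, fun i => if i = n then r₂ * s else z i, ?_, ?_, ?_⟩
    · have : r₁ * s * a * star (r₁ * s) - a = r₁ * (s * a * star s - a) * star r₁ +
          (r₁ * a * star r₁ - a) := by rw [star_mul]; noncomm_ring
      rw [this]
      refine lt_of_le_of_lt (norm_add_le _ _) ?_
      linarith [conj r₁ r₁ b11]
    · intro i hi
      by_cases hin : i = n
      · simp only [hin, if_true]
        have : r₁ * s * a * star (r₂ * s) = r₁ * (s * a * star s - a) * star r₂ +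
          (r₁ * a * star r₂) := by rw [star_mul]; noncomm_ring
        rw [this]
        refine lt_of_le_of_lt (norm_add_le _ _) ?_
        linarith [conj r₁ r₂ b12]
      · have hi' : i < n := by omega
        simp only [hin, if_false]
        have : r₁ * s * a * star (z i) = r₁ * (s * a * star (z i)) := by noncomm_ring
        rw [this]
        linarith [off r₁ b1 i hi']
    · intro i hi j hj
      by_cases hin : i = n
      · by_cases hjn : j = n
        · simp only [hin, hjn, if_true]
          have : r₂ * s * a * star (r₂ * s) - y = r₂ * (s * a * star s - a) * star r₂ +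
            (r₂ * a * star r₂ - y) := by rw [star_mul]; noncomm_ring
          rw [this]
          refine lt_of_le_of_lt (norm_add_le _ _) ?_
          linarith [conj r₂ r₂ b22]
        · have hj' : j < n := by omega
          have hne : ¬ (n = j) := fun h => hjn h.symm
          simp only [hin, hjn, if_true, if_false, hne]
          have : r₂ * s * a * star (z j) - 0 = r₂ * (s * a * star (z j)) := by noncomm_ring
          rw [this]
          linarith [off r₂ b2 j hj']
      · have hi' : i < n := by omega
        by_cases hjn : j = n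
        · simp only [hin, hjn, if_true, if_false]
          have : z i * a * star (r₂ * s) - 0 = star (r₂ * (s * a * star (z i))) := by
            simp only [star_mul, star_star, ha]; noncomm_ring
          rw [this, norm_star]
          linarith [off r₂ b2 i hi']
        · have hj' : j < n := by omega
          simp only [hin, hjn, if_false]
          linarith [hz i hi' j hj']

end Iterate

section Simple

variable {B : Type*} [CStarAlgebra B] [PartialOrder B] [StarOrderedRing B]

/-- in a simple C*-algebra a nonzero positive element dominates the unit after finitely many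
conjugations. -/
lemma exists_sum_ge_one (hB : IsSimpleCStar B) (Y : B) (hY : 0 ≤ Y) (hY0 : Y ≠ 0) :
    ∃ (n : ℕ) (t : ℕ → B), (1 : B) ≤ ∑ k ∈ Finset.range n, t k * Y * star (t k) := by
  set S : Set B := {x | ∃ s r : B, x = s * Y * r} with hS
  set M : AddSubmonoid B := AddSubmonoid.closure S with hM
  have hML : ∀ a : B, ∀ m ∈ M, a * m ∈ M := by
    intro a m hm
    induction hm using AddSubmonoid.closure_induction with
    | mem x hx =>
      obtain ⟨s, r, rfl⟩ := hx
      exact AddSubmonoid.subset_closure ⟨a * s, r, by noncomm_ring⟩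
    | zero => rw [mul_zero]; exact M.zero_mem
    | add x y _ _ hx hy => rw [mul_add]; exact M.add_mem hx hy
  have hMR : ∀ a : B, ∀ m ∈ M, m * a ∈ M := by
    intro a m hm
    induction hm using AddSubmonoid.closure_induction with
    | mem x hx =>
      obtain ⟨s, r, rfl⟩ := hx
      exact AddSubmonoid.subset_closure ⟨s, r * a, by noncomm_ring⟩
    | zero => rw [zero_mul]; exact M.zero_mem
    | add x y _ _ hx hy => rw [add_mul]; exact M.add_mem hx hy
  have hK : IsClosedIdeal (closure (M : Set B)) := by
    refine ⟨isClosed_closure, subset_closure M.zero_mem, ?_, ?_, ?_⟩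
    · intro x y hx hy
      exact M.topologicalClosure.add_mem (show x ∈ M.topologicalClosure from hx)
        (show y ∈ M.topologicalClosure from hy)
    · intro a x hx
      exact map_mem_closure (continuous_const_mul a) hx (fun m hm => hML a m hm)
    · intro a x hx
      exact map_mem_closure (f := fun x => x * a) (continuous_mul_const a) hx
        (fun m hm => hMR a m hm)
  have hYM : Y ∈ closure (M : Set B) :=
    subset_closure (AddSubmonoid.subset_closure ⟨1, 1, by simp⟩)
  have hKu : closure (M : Set B) = Set.univ := by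
    rcases hB.2 _ hK with h | h
    · rw [h] at hYM; exact absurd hYM hY0
    · exact h
  have h1 : (1 : B) ∈ closure (M : Set B) := by rw [hKu]; trivial
  obtain ⟨T, hT, hdist⟩ := Metric.mem_closure_iff.mp h1 (1 / 2) (by norm_num)
  have hT2 : ∃ (n : ℕ) (t : ℕ → B), T + star T ≤ ∑ k ∈ Finset.range n, t k * Y * star (t k) := by
    clear hdist
    induction hT using AddSubmonoid.closure_induction with
    | mem x hx =>
      obtain ⟨s, r, rfl⟩ := hx
      refine ⟨2, fun k => if k = 0 then s else star r, ?_⟩
      rw [Finset.sum_range_succ, Finset.sum_range_one]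
      simp only [if_true, one_ne_zero, if_false, star_star]
      have h2 : 0 ≤ (s - star r) * Y * star (s - star r) := star_right_conjugate_nonneg hY _
      have hYs : star Y = Y := (IsSelfAdjoint.of_nonneg hY).star_eq
      have e : (s - star r) * Y * star (s - star r) =
          (s * Y * star s + star r * Y * r) - (s * Y * r + star (s * Y * r)) := by
        simp only [star_sub, star_star, star_mul, hYs]; noncomm_ring
      rw [e] at h2
      exact sub_nonneg.mp h2
    | zero => exact ⟨0, fun _ => 0, by simp⟩
    | add x y _ _ hx hy =>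
      obtain ⟨n, t, ht⟩ := hx
      obtain ⟨m, t', ht'⟩ := hy
      refine ⟨n + m, fun k => if k < n then t k else t' (k - n), ?_⟩
      rw [Finset.sum_range_add]
      have e1 : ∑ k ∈ Finset.range n, (if k < n then t k else t' (k - n)) * Y *
          star (if k < n then t k else t' (k - n)) =
          ∑ k ∈ Finset.range n, t k * Y * star (t k) :=
        Finset.sum_congr rfl fun k hk => by rw [if_pos (Finset.mem_range.mp hk)]
      have e2 : ∑ k ∈ Finset.range m, (if n + k < n then t (n + k) else t' (n + k - n)) * Y *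
          star (if n + k < n then t (n + k) else t' (n + k - n)) =
          ∑ k ∈ Finset.range m, t' k * Y * star (t' k) :=
        Finset.sum_congr rfl fun k _ => by
          rw [if_neg (by omega), Nat.add_sub_cancel_left]
      rw [e1, e2]
      have : x + y + star (x + y) = (x + star x) + (y + star y) := by
        rw [star_add]; abel
      rw [this]
      exact add_le_add ht ht'
  obtain ⟨n, t, ht⟩ := hT2
  refine ⟨n, t, le_trans ?_ ht⟩
  -- 1 ≤ T + T*
  rw [dist_eq_norm] at hdist
  have h3 : ‖(1 - T) + star (1 - T)‖ ≤ 1 := by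
    refine (norm_add_le _ _).trans ?_
    rw [norm_star]; linarith
  have hsa : IsSelfAdjoint ((1 - T) + star (1 - T)) := IsSelfAdjoint.add_star_self _
  have h4 : (1 - T) + star (1 - T) ≤ 1 := by
    have := hsa.le_algebraMap_norm_self
    refine this.trans ?_
    have h5 : algebraMap ℝ B ‖(1 - T) + star (1 - T)‖ ≤ algebraMap ℝ B 1 :=
      algebraMap_mono B h3
    simpa using h5
  have h5 : (1 : B) ≤ T + star T := by
    have e : T + star T - 1 = 1 - ((1 - T) + star (1 - T)) := by
      rw [star_sub, star_one]; abel_nf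
    rw [← sub_nonneg, e, sub_nonneg]
    exact h4
  exact h5

end Simple

section Large

variable {A B : Type*} [CStarAlgebra A] [PartialOrder A] [StarOrderedRing A]
  [CStarAlgebra B] [PartialOrder B] [StarOrderedRing B]

lemma ker_isClosedIdeal (φ : A →⋆ₐ[ℂ] B) : IsClosedIdeal {a : A | φ a = 0} := by
  have hcont : Continuous φ := map_continuous φ
  refine ⟨?_, ?_, ?_, ?_, ?_⟩
  · exact isClosed_singleton.preimage hcont
  · simp
  · intro x y hx hy; simp only [Set.mem_ofPred_eq, map_add] at *; rw [hx, hy, add_zero]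
  · intro a x hx; simp only [Set.mem_ofPred_eq, map_mul] at *; rw [hx, mul_zero]
  · intro a x hx; simp only [Set.mem_ofPred_eq, map_mul] at *; rw [hx, zero_mul]

/-- a selfadjoint element close to a large one is large -/
lemma half_le_of_close {X S : B} (hX : star X = X) (hS : star S = S) (hS1 : 1 ≤ S)
    (h : ‖X - S‖ ≤ 1 / 2) : algebraMap ℝ B (1 / 2) ≤ X := by
  have hsa : IsSelfAdjoint (S - X) := by
    rw [IsSelfAdjoint, star_sub, hX, hS]
  have h1 : S - X ≤ algebraMap ℝ B (1 / 2) := by
    refine hsa.le_algebraMap_norm_self.trans ?_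
    rw [norm_sub_rev]
    exact algebraMap_mono B h
  have h2 : (1 : B) = algebraMap ℝ B (1 / 2) + algebraMap ℝ B (1 / 2) := by
    rw [← map_add]; norm_num
  have h3 : algebraMap ℝ B (1 / 2) + algebraMap ℝ B (1 / 2) ≤ X + (S - X) := by
    rw [← h2]; simpa using hS1
  have h4 : algebraMap ℝ B (1 / 2) + algebraMap ℝ B (1 / 2) ≤ X + algebraMap ℝ B (1 / 2) :=
    h3.trans (by gcongr)
  exact le_of_add_le_add_right h4

/-- for `A` purely infinite and `B` simple, every `e ≥ 0` in `A` nonzero in `B` is full in one
step. -/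
lemma exists_large (hA : PurelyInfinite A) (hB : IsSimpleCStar B) (φ : A →⋆ₐ[ℂ] B) (e : A)
    (he : 0 ≤ e) (he0 : φ e ≠ 0) :
    ∃ v : B, algebraMap ℝ B (1 / 2) ≤ v * φ (e * e) * star v := by
  have hesa : star e = e := (IsSelfAdjoint.of_nonneg he).star_eq
  obtain ⟨y, hy, hyI, habs⟩ := exists_absorbs hA (ker_isClosedIdeal φ) e he he0
  have hY : 0 ≤ φ y := map_nonneg φ hy
  obtain ⟨n, t, ht⟩ := exists_sum_ge_one hB (φ y) hY hyI
  set C : ℝ := ∑ i ∈ Finset.range n, ∑ j ∈ Finset.range n, ‖t i‖ * ‖t j‖ with hC
  have hC0 : 0 ≤ C := by positivity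
  have haa : star (e * e) = e * e := by rw [star_mul, hesa]
  obtain ⟨s, z, -, -, hz⟩ := habs.iterate haa n (1 / 2 / (C + 1)) (by positivity)
  refine ⟨∑ i ∈ Finset.range n, t i * φ (z i), ?_⟩
  set S : B := ∑ k ∈ Finset.range n, t k * φ y * star (t k) with hSdef
  have hSsa : star S = S := by
    have : 0 ≤ S := le_trans (by simpa using star_mul_self_nonneg (1 : B)) ht
    exact (IsSelfAdjoint.of_nonneg this).star_eq
  have hYs : star (φ y) = φ y := (IsSelfAdjoint.of_nonneg hY).star_eq
  refine half_le_of_close ?_ hSsa ht ?_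
  · simp only [star_mul, star_star, ← map_star, haa, mul_assoc]
  · have e1 : (∑ i ∈ Finset.range n, t i * φ (z i)) * φ (e * e) *
        star (∑ i ∈ Finset.range n, t i * φ (z i)) =
        ∑ i ∈ Finset.range n, ∑ j ∈ Finset.range n,
          t i * φ (z i * (e * e) * star (z j)) * star (t j) := by
      rw [star_sum, Finset.sum_mul, Finset.sum_mul_sum]
      refine Finset.sum_congr rfl fun i _ => Finset.sum_congr rfl fun j _ => ?_
      simp only [star_mul, map_mul, map_star]; noncomm_ring
    have e2 : S = ∑ i ∈ Finset.range n, ∑ j ∈ Finset.range n,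
          t i * φ (if i = j then y else 0) * star (t j) := by
      rw [hSdef]
      refine Finset.sum_congr rfl fun i hi => ?_
      rw [Finset.sum_eq_single_of_mem i hi]
      · rw [if_pos rfl]
      · intro j _ hj
        rw [if_neg (Ne.symm hj)]; simp
    have e3 : (∑ i ∈ Finset.range n, t i * φ (z i)) * φ (e * e) *
        star (∑ i ∈ Finset.range n, t i * φ (z i)) - S =
        ∑ i ∈ Finset.range n, ∑ j ∈ Finset.range n,
          t i * φ (z i * (e * e) * star (z j) - (if i = j then y else 0)) * star (t j) := by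
      rw [e1, e2, ← Finset.sum_sub_distrib]
      refine Finset.sum_congr rfl fun i _ => ?_
      rw [← Finset.sum_sub_distrib]
      refine Finset.sum_congr rfl fun j _ => ?_
      rw [map_sub]; noncomm_ring
    rw [e3]
    have hb : ∀ i ∈ Finset.range n, ∀ j ∈ Finset.range n,
        ‖t i * φ (z i * (e * e) * star (z j) - (if i = j then y else 0)) * star (t j)‖ ≤
        ‖t i‖ * ‖t j‖ * (1 / 2 / (C + 1)) := by
      intro i hi j hj
      have := hz i (Finset.mem_range.mp hi) j (Finset.mem_range.mp hj)
      calc _ ≤ ‖t i‖ * ‖φ (z i * (e * e) * star (z j) - (if i = j then y else 0))‖ * ‖t j‖ := by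
            refine (norm_mul_le _ _).trans ?_
            rw [norm_star]
            exact mul_le_mul_of_nonneg_right (norm_mul_le _ _) (norm_nonneg _)
        _ ≤ ‖t i‖ * (1 / 2 / (C + 1)) * ‖t j‖ := by
            refine mul_le_mul_of_nonneg_right (mul_le_mul_of_nonneg_left ?_ (norm_nonneg _))
              (norm_nonneg _)
            exact (NonUnitalStarAlgHom.norm_apply_le φ _).trans this.le
        _ = _ := by ring
    calc _ ≤ ∑ i ∈ Finset.range n, ‖∑ j ∈ Finset.range n,
          t i * φ (z i * (e * e) * star (z j) - (if i = j then y else 0)) * star (t j)‖ :=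
            norm_sum_le _ _
      _ ≤ ∑ i ∈ Finset.range n, ∑ j ∈ Finset.range n, ‖t i‖ * ‖t j‖ * (1 / 2 / (C + 1)) := by
          refine Finset.sum_le_sum fun i hi => (norm_sum_le _ _).trans ?_
          exact Finset.sum_le_sum fun j hj => hb i hi j hj
      _ = C * (1 / 2 / (C + 1)) := by
          rw [hC, Finset.sum_mul]
          refine Finset.sum_congr rfl fun i _ => ?_
          rw [Finset.sum_mul]
      _ ≤ 1 / 2 := by
          rw [mul_div_assoc', div_le_iff₀ (by positivity)]
          nlinarith

end Large

end MP9b5ea5
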