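import Pool.Agent.H63.PI.A5

open scoped ComplexOrder

namespace MP9b5ea5

section Final

variable {A B : Type*} [CStarAlgebra A] [PartialOrder A] [StarOrderedRing A]
  [CStarAlgebra B] [PartialOrder B] [StarOrderedRing B]

/-- If some conjugate of `b` is close to a large element of `A`, then every positive element is
Cuntz below `b`. -/
lemma cuntz_of_cut (hA : PurelyInfinite A) (hB : IsSimpleCStar B) (φ : A →⋆ₐ[ℂ] B)
    (b : B) (hb : 0 ≤ b) (x : B) (a₁ : A) (ha₁ : 0 ≤ a₁) (η : ℝ) (hη : 0 < η)
    (hclose : ‖x * b * star x - φ a₁‖ ≤ η) (hlarge : 2 * η < ‖φ a₁‖) (a : B) (ha : 0 ≤ a) :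
    CuntzSub a b := by
  set f : ℝ → ℝ := fun t => max (t - 2 * η) 0 with hf
  have hfc : Continuous f := by rw [hf]; fun_prop
  have ha₁sa : IsSelfAdjoint a₁ := .of_nonneg ha₁
  set e : A := cfc f a₁ with he
  have he0 : 0 ≤ e := cfc_nonneg fun t _ => le_max_right _ _
  have hesa : star e = e := (IsSelfAdjoint.of_nonneg he0).star_eq
  have hφe : φ e ≠ 0 := by
    intro h0
    have h1 : φ a₁ = φ (a₁ - e) := by rw [map_sub, h0, sub_zero]
    have h2 : a₁ - e = cfc (fun t => t - f t) a₁ := by
      rw [cfc_sub (fun t => t) f a₁ (by fun_prop) hfc.continuousOn, cfc_id' ℝ a₁ ha₁sa]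
    have h3 : ‖a₁ - e‖ ≤ 2 * η := by
      rw [h2]
      refine norm_cfc_le (by positivity) fun t ht => ?_
      have ht0 : 0 ≤ t := spec_nonneg ha₁ ht
      rw [Real.norm_eq_abs]
      simp only [hf]
      rcases le_total t (2 * η) with h | h
      · rw [max_eq_right (by linarith), sub_zero, abs_of_nonneg ht0]; exact h
      · rw [max_eq_left (by linarith), sub_sub_cancel, abs_of_nonneg (by positivity)]
    have h4 := NonUnitalStarAlgHom.norm_apply_le φ (a₁ - e)
    rw [← h1] at h4
    linarith
  obtain ⟨v, hv⟩ := exists_large hA hB φ e he0 hφe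
  -- e (a₁ - 2 η) e ≥ 0
  have hE : 0 ≤ e * (a₁ - algebraMap ℝ A (2 * η)) * e := by
    have h2 : e * (a₁ - algebraMap ℝ A (2 * η)) * e = cfc (fun t => f t * (t - 2 * η) * f t) a₁ := by
      rw [cfc_mul (fun t => f t * (t - 2 * η)) f a₁ (hfc.mul (by fun_prop)).continuousOn
        hfc.continuousOn, cfc_mul f (fun t => t - 2 * η) a₁ hfc.continuousOn (by fun_prop),
        cfc_sub (fun t => t) (fun _ => 2 * η) a₁ (by fun_prop) (by fun_prop), cfc_id' ℝ a₁ ha₁sa,
        cfc_const (2 * η) a₁ ha₁sa]
    rw [h2]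
    refine cfc_nonneg fun t _ => ?_
    simp only [hf]
    rcases le_total t (2 * η) with h | h
    · rw [max_eq_right (by linarith)]; simp
    · rw [max_eq_left (by linarith)]
      have : 0 ≤ t - 2 * η := by linarith
      positivity
  have hbs : star b = b := (IsSelfAdjoint.of_nonneg hb).star_eq
  have has : star a₁ = a₁ := (IsSelfAdjoint.of_nonneg ha₁).star_eq
  -- x b x* ≥ φ a₁ - η
  have h1 : φ a₁ - x * b * star x ≤ algebraMap ℝ B η := by
    have hsa : IsSelfAdjoint (φ a₁ - x * b * star x) := by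
      rw [IsSelfAdjoint]
      simp only [star_sub, star_mul, star_star, hbs, ← map_star, has, mul_assoc]
    refine hsa.le_algebraMap_norm_self.trans ?_
    rw [norm_sub_rev]
    exact algebraMap_mono B hclose
  have h2 : φ a₁ - algebraMap ℝ B η ≤ x * b * star x := by
    rw [sub_le_iff_le_add, add_comm]
    rw [sub_le_iff_le_add] at h1
    exact h1
  have hφη : ∀ c : ℝ, φ (algebraMap ℝ A c) = algebraMap ℝ B c := by
    intro c
    rw [Algebra.algebraMap_eq_smul_one, Algebra.algebraMap_eq_smul_one]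
    have : (c • (1 : A)) = (c : ℂ) • (1 : A) := by simp
    rw [this, map_smul, map_one]
    simp
  -- combine
  have h3 : φ e * (φ a₁ - algebraMap ℝ B η) * φ e ≤ φ e * (x * b * star x) * φ e := by
    have := star_right_conjugate_le_conjugate h2 (φ e)
    rwa [← map_star, hesa] at this
  have h4 : η • φ (e * e) ≤ φ e * (φ a₁ - algebraMap ℝ B η) * φ e := by
    have h5 : 0 ≤ φ (e * (a₁ - algebraMap ℝ A (2 * η)) * e) := map_nonneg φ hE
    have e1 : φ (e * (a₁ - algebraMap ℝ A (2 * η)) * e) =
        φ e * (φ a₁ - algebraMap ℝ B η) * φ e - η • φ (e * e) := by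
      rw [map_mul φ, map_mul φ, map_sub, hφη, map_mul φ]
      have e2 : algebraMap ℝ B (2 * η) = algebraMap ℝ B η + algebraMap ℝ B η := by
        rw [← map_add]; congr 1; ring
      rw [e2, Algebra.smul_def]
      have e3 : algebraMap ℝ B η * (φ e * φ e) = φ e * algebraMap ℝ B η * φ e := by
        rw [← mul_assoc, Algebra.commutes η (φ e)]
      rw [e3]; noncomm_ring
    rw [e1] at h5
    exact sub_nonneg.mp h5
  set Z : B := v * φ e * x with hZ
  have h5 : algebraMap ℝ B (η / 2) ≤ Z * b * star Z := by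
    have e1 : Z * b * star Z = v * (φ e * (x * b * star x) * φ e) * star v := by
      rw [hZ]
      simp only [star_mul, ← map_star, hesa]
      noncomm_ring
    rw [e1]
    have h6 : η • φ (e * e) ≤ φ e * (x * b * star x) * φ e := h4.trans h3
    have h7 := star_right_conjugate_le_conjugate h6 v
    refine le_trans ?_ h7
    have e2 : v * (η • φ (e * e)) * star v = η • (v * φ (e * e) * star v) := by
      rw [mul_smul_comm, smul_mul_assoc]
    rw [e2]
    have h8 := smul_le_smul_of_nonneg_left hv hη.le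
    refine le_trans (le_of_eq ?_) h8
    rw [Algebra.algebraMap_eq_smul_one, Algebra.algebraMap_eq_smul_one, smul_smul]
    congr 1; ring
  -- dominate a
  set c : ℝ := Real.sqrt (2 * ‖a‖ / η) with hc
  have hcc : c * c = 2 * ‖a‖ / η := Real.mul_self_sqrt (by positivity)
  have h6 : a ≤ (c • Z) * b * star (c • Z) := by
    have hasa : IsSelfAdjoint a := .of_nonneg ha
    refine hasa.le_algebraMap_norm_self.trans ?_
    have e1 : (c • Z) * b * star (c • Z) = (c * c) • (Z * b * star Z) := by
      rw [star_smul, star_trivial, smul_mul_assoc, smul_mul_assoc, mul_smul_comm, smul_smul]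
    rw [e1, hcc]
    have h8 := smul_le_smul_of_nonneg_left h5 (show 0 ≤ 2 * ‖a‖ / η by positivity)
    refine le_trans (le_of_eq ?_) h8
    rw [Algebra.algebraMap_eq_smul_one, Algebra.algebraMap_eq_smul_one, smul_smul]
    congr 1; field_simp
  rw [cuntzSub_iff]
  intro ε hε
  obtain ⟨w, hw⟩ := approx_of_le ha h6 ε hε
  refine ⟨w * (c • Z), ?_⟩
  have : w * (c • Z) * b * star (w * (c • Z)) = w * ((c • Z) * b * star (c • Z)) * star w := by
    rw [star_mul]; noncomm_ring
  rw [this]
  exact hw

/-- a simple quotient receiving `A` unitally is not commutative. -/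
lemma simple_noAbelianQuotient (hA : PurelyInfinite A) (hB : IsSimpleCStar B) (φ : A →⋆ₐ[ℂ] B)
    (I : Set B) (hI : IsClosedIdeal I) (hI1 : I ≠ Set.univ) :
    ∃ x y : B, x * y - y * x ∉ I := by
  have hI0 : I = {0} := (hB.2 I hI).resolve_right hI1
  have hker := ker_isClosedIdeal φ
  have hne : {a : A | φ a = 0} ≠ Set.univ := by
    intro h
    have h1 : (1 : A) ∈ {a : A | φ a = 0} := by rw [h]; trivial
    have h2 : φ 1 = 0 := h1
    rw [map_one] at h2
    have := hB.1
    exact one_ne_zero h2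
  obtain ⟨x, y, hxy⟩ := hA.noAbelianQuotient _ hker hne
  refine ⟨φ x, φ y, ?_⟩
  rw [hI0, Set.mem_singleton_iff, ← map_mul, ← map_mul, ← map_sub]
  exact hxy

end Final

end MP9b5ea5
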