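import Pool.Agent.H63.PI.A6

open scoped ComplexOrder

universe u

namespace MP9b5ea5

section Density

variable {A B : Type u} [CStarAlgebra A] [CStarAlgebra B] {α : A ≃⋆ₐ[ℂ] A} {ι : A →⋆ₐ[ℂ] B}
  {w : unitary B}

/-- integer powers of the unitary, in `B` -/
noncomputable def pw (w : unitary B) (k : ℤ) : B := ((w ^ k : unitary B) : B)

lemma pw_zero (w : unitary B) : pw w 0 = 1 := by simp [pw]

lemma pw_add (w : unitary B) (k l : ℤ) : pw w (k + l) = pw w k * pw w l := by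
  simp [pw, zpow_add]

lemma pw_one (w : unitary B) : pw w 1 = w := by simp [pw]

lemma pw_neg_one (w : unitary B) : pw w (-1) = star (w : B) := by
  unfold pw
  rw [zpow_neg_one, ← Unitary.star_eq_inv, Unitary.coe_star]

lemma star_pw (w : unitary B) (k : ℤ) : star (pw w k) = pw w (-k) := by
  unfold pw
  rw [← Unitary.coe_star, Unitary.star_eq_inv, zpow_neg]

lemma pw_neg_mul (w : unitary B) (k : ℤ) : pw w (-k) * pw w k = 1 := by
  rw [← pw_add]; simp [pw]

lemma pw_mul_neg (w : unitary B) (k : ℤ) : pw w k * pw w (-k) = 1 := by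
  rw [← pw_add]; simp [pw]

lemma norm_pw_mul (w : unitary B) (k : ℤ) (b : B) : ‖pw w k * b‖ = ‖b‖ :=
  CStarRing.norm_coe_unitary_mul _ _

lemma norm_mul_pw (w : unitary B) (k : ℤ) (b : B) : ‖b * pw w k‖ = ‖b‖ :=
  CStarRing.norm_mul_coe_unitary _ _

lemma norm_pw_le (w : unitary B) (k : ℤ) : ‖pw w k‖ ≤ 1 := by
  have := norm_pw_mul w k (1 : B)
  rw [mul_one] at this
  rw [this]
  rcases subsingleton_or_nontrivial B with h | h
  · rw [Subsingleton.elim (1 : B) 0]; simp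
  · simp

/-- covariance of a pair -/
def Cov (α : A ≃⋆ₐ[ℂ] A) (ι : A →⋆ₐ[ℂ] B) (w : unitary B) : Prop :=
  ∀ a : A, ι (α a) = (w : B) * ι a * star (w : B)

lemma Cov.mul_w (h : Cov α ι w) (a : A) : ι a * (w : B) = (w : B) * ι (α.symm a) := by
  have h1 := h (α.symm a)
  rw [StarAlgEquiv.apply_symm_apply] at h1
  rw [h1, mul_assoc, mul_assoc, Unitary.coe_star_mul_self, mul_one]

lemma Cov.mul_star_w (h : Cov α ι w) (a : A) :
    ι a * star (w : B) = star (w : B) * ι (α a) := by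
  rw [h a, ← mul_assoc, ← mul_assoc, Unitary.coe_star_mul_self, one_mul]

lemma Cov.move (h : Cov α ι w) (k : ℤ) : ∀ a : A, ∃ a' : A, ι a * pw w k = pw w k * ι a' := by
  induction k using Int.induction_on with
  | zero => intro a; exact ⟨a, by simp [pw_zero]⟩
  | succ k ih =>
    intro a
    obtain ⟨a', ha'⟩ := ih a
    refine ⟨α.symm a', ?_⟩
    rw [pw_add, pw_one, ← mul_assoc, ha', mul_assoc, h.mul_w, ← mul_assoc]
  | pred k ih =>
    intro a
    obtain ⟨a', ha'⟩ := ih a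
    refine ⟨α a', ?_⟩
    rw [sub_eq_add_neg, pw_add, pw_neg_one, ← mul_assoc, ha', mul_assoc, h.mul_star_w, ← mul_assoc]

/-- the Laurent polynomials -/
def Poly (ι : A →⋆ₐ[ℂ] B) (w : unitary B) : AddSubmonoid B :=
  AddSubmonoid.closure {x | ∃ (k : ℤ) (c : A), x = pw w k * ι c}

lemma Poly.mem (k : ℤ) (c : A) : pw w k * ι c ∈ Poly ι w :=
  AddSubmonoid.subset_closure ⟨k, c, rfl⟩

lemma Poly.mul (h : Cov α ι w) {x y : B} (hx : x ∈ Poly ι w) (hy : y ∈ Poly ι w) :
    x * y ∈ Poly ι w := by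
  induction hx using AddSubmonoid.closure_induction with
  | mem x hx =>
    obtain ⟨k, c, rfl⟩ := hx
    induction hy using AddSubmonoid.closure_induction with
    | mem y hy =>
      obtain ⟨l, c', rfl⟩ := hy
      obtain ⟨c'', hc''⟩ := h.move l c
      have : pw w k * ι c * (pw w l * ι c') = pw w (k + l) * ι (c'' * c') := by
        rw [pw_add, map_mul]
        calc pw w k * ι c * (pw w l * ι c') = pw w k * (ι c * pw w l) * ι c' := by noncomm_ring
          _ = pw w k * (pw w l * ι c'') * ι c' := by rw [hc'']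
          _ = _ := by noncomm_ring
      rw [this]
      exact Poly.mem _ _
    | zero => rw [mul_zero]; exact (Poly ι w).zero_mem
    | add y y' _ _ h1 h2 => rw [mul_add]; exact (Poly ι w).add_mem h1 h2
  | zero => rw [zero_mul]; exact (Poly ι w).zero_mem
  | add x x' _ _ h1 h2 => rw [add_mul]; exact (Poly ι w).add_mem h1 h2

lemma Poly.star_mem (h : Cov α ι w) {x : B} (hx : x ∈ Poly ι w) : star x ∈ Poly ι w := by
  induction hx using AddSubmonoid.closure_induction with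
  | mem x hx =>
    obtain ⟨k, c, rfl⟩ := hx
    obtain ⟨c', hc'⟩ := h.move (-k) (star c)
    rw [star_mul, star_pw, ← map_star, hc']
    exact Poly.mem _ _
  | zero => rw [star_zero]; exact (Poly ι w).zero_mem
  | add x x' _ _ h1 h2 => rw [star_add]; exact (Poly ι w).add_mem h1 h2

lemma adjoin_le_poly (h : Cov α ι w) {x : B}
    (hx : x ∈ StarAlgebra.adjoin ℂ (Set.range ι ∪ {(w : B)})) : x ∈ Poly ι w := by
  induction hx using StarAlgebra.adjoin_induction with
  | mem x hx =>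
    rcases hx with ⟨a, rfl⟩ | hx
    · have := Poly.mem (ι := ι) (w := w) 0 a
      rwa [pw_zero, one_mul] at this
    · rw [Set.mem_singleton_iff] at hx
      rw [hx]
      have := Poly.mem (ι := ι) (w := w) 1 1
      rwa [pw_one, map_one, mul_one] at this
  | algebraMap r =>
    have := Poly.mem (ι := ι) (w := w) 0 (algebraMap ℂ A r)
    rw [pw_zero, one_mul] at this
    have e : ι (algebraMap ℂ A r) = algebraMap ℂ B r := AlgHomClass.commutes ι r
    rwa [e] at this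
  | add x y _ _ h1 h2 => exact (Poly ι w).add_mem h1 h2
  | mul x y _ _ h1 h2 => exact Poly.mul h h1 h2
  | star x _ h1 => exact Poly.star_mem h h1

/-- shifted Laurent polynomials are polynomials -/
lemma Poly.shift {x : B} (hx : x ∈ Poly ι w) : ∃ K₀ : ℕ, ∀ K : ℕ, K₀ ≤ K → ∃ M₀ : ℕ, ∀ M : ℕ,
    M₀ ≤ M → ∃ c : ℕ → A, pw w K * x = ∑ k ∈ Finset.range M, pw w k * ι (c k) := by
  induction hx using AddSubmonoid.closure_induction with
  | mem x hx =>
    obtain ⟨k, c, rfl⟩ := hx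
    refine ⟨k.natAbs, fun K hK => ?_⟩
    obtain ⟨m, hm⟩ : ∃ m : ℕ, (m : ℤ) = K + k := ⟨(K + k).toNat, by omega⟩
    refine ⟨m + 1, fun M hM => ⟨fun j => if j = m then c else 0, ?_⟩⟩
    rw [Finset.sum_eq_single_of_mem m (Finset.mem_range.mpr (by omega))]
    · simp only [if_true]
      rw [hm, pw_add, mul_assoc]
    · intro j _ hj
      simp only [if_neg hj, map_zero, mul_zero]
  | zero => exact ⟨0, fun K _ => ⟨0, fun M _ => ⟨fun _ => 0, by simp⟩⟩⟩
  | add x y _ _ hx hy =>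
    obtain ⟨K₁, h1⟩ := hx
    obtain ⟨K₂, h2⟩ := hy
    refine ⟨max K₁ K₂, fun K hK => ?_⟩
    obtain ⟨M₁, h1⟩ := h1 K ((le_max_left _ _).trans hK)
    obtain ⟨M₂, h2⟩ := h2 K ((le_max_right _ _).trans hK)
    refine ⟨max M₁ M₂, fun M hM => ?_⟩
    obtain ⟨c₁, h1⟩ := h1 M ((le_max_left _ _).trans hM)
    obtain ⟨c₂, h2⟩ := h2 M ((le_max_right _ _).trans hM)
    refine ⟨fun k => c₁ k + c₂ k, ?_⟩
    rw [mul_add, h1, h2, ← Finset.sum_add_distrib]
    refine Finset.sum_congr rfl fun k _ => ?_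
    rw [map_add, mul_add]

lemma IsCrossedProduct.cov (h : IsCrossedProduct α ι w) : Cov α ι w := h.covariant

lemma IsCrossedProduct.approx_poly (h : IsCrossedProduct α ι w) (b : B) (ε : ℝ) (hε : 0 < ε) :
    ∃ x ∈ Poly ι w, ‖b - x‖ < ε := by
  obtain ⟨x, hx, hb⟩ := Metric.dense_iff.mp h.generates b ε hε
  refine ⟨x, adjoin_le_poly h.cov hb, ?_⟩
  rw [Metric.mem_ball, dist_eq_norm] at hx
  rwa [norm_sub_rev]

/-- one sided Fourier approximation -/
lemma IsCrossedProduct.approx (h : IsCrossedProduct α ι w) (b : B) (ε : ℝ) (hε : 0 < ε) :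
    ∃ (K M : ℕ) (c : ℕ → A), ‖pw w K * b - ∑ k ∈ Finset.range (M + 1), pw w k * ι (c k)‖ < ε := by
  obtain ⟨x, hx, hb⟩ := h.approx_poly b ε hε
  obtain ⟨K₀, h1⟩ := Poly.shift hx
  obtain ⟨M₀, h1⟩ := h1 K₀ le_rfl
  obtain ⟨c, hc⟩ := h1 (M₀ + 1) (by omega)
  refine ⟨K₀, M₀, c, ?_⟩
  rw [← hc, ← mul_sub, norm_pw_mul]
  exact hb

end Density

section Gauge

variable {A B : Type u} [CStarAlgebra A] [CStarAlgebra B] {α : A ≃⋆ₐ[ℂ] A} {ι : A →⋆ₐ[ℂ] B}
  {w : unitary B}

/-- gauge endomorphisms -/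
structure IsGauge (ι : A →⋆ₐ[ℂ] B) (w : unitary B) (z : ℂ) (γ : B →⋆ₐ[ℂ] B) : Prop where
  norm : ‖z‖ = 1
  fix : ∀ a, γ (ι a) = ι a
  act : γ w = z • (w : B)

lemma IsCrossedProduct.exists_gauge (h : IsCrossedProduct α ι w) (z : ℂ) (hz : ‖z‖ = 1) :
    ∃ γ : B →⋆ₐ[ℂ] B, IsGauge ι w z γ := by
  have hzz : star z * z = 1 := by
    have := Complex.conj_mul' z
    rw [hz] at this
    simpa using this
  have hzz' : z * star z = 1 := by rw [mul_comm]; exact hzz
  have hu : z • (w : B) ∈ unitary B := by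
    rw [Unitary.mem_iff]
    constructor
    · rw [star_smul, smul_mul_smul_comm, Unitary.coe_star_mul_self, hzz, one_smul]
    · rw [star_smul, smul_mul_smul_comm, Unitary.mul_star_self_of_mem w.2, hzz', one_smul]
  obtain ⟨γ, h1, h2⟩ := h.lift B ι ⟨z • (w : B), hu⟩ (fun a => by
    show ι (α a) = z • (w : B) * ι a * star (z • (w : B))
    rw [h.covariant, star_smul, smul_mul_assoc, smul_mul_smul_comm, hzz', one_smul])
  exact ⟨γ, hz, h1, h2⟩

lemma IsGauge.pw {z : ℂ} {γ : B →⋆ₐ[ℂ] B} (h : IsGauge ι w z γ) (k : ℤ) :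
    γ (pw w k) = z ^ k • pw w k := by
  have hz0 : z ≠ 0 := by
    intro h0; have := h.norm; rw [h0] at this; simp at this
  induction k using Int.induction_on with
  | zero => simp [pw_zero]
  | succ k ih =>
    rw [pw_add, map_mul, ih, pw_one, h.act, smul_mul_smul_comm, zpow_add₀ hz0, zpow_one]
  | pred k ih =>
    have e1 : γ (star (w : B)) = z ^ (-1 : ℤ) • star (w : B) := by
      rw [map_star, h.act, star_smul]
      congr 1
      rw [zpow_neg_one]
      have := Complex.inv_eq_conj h.norm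
      rw [this]; rfl
    rw [sub_eq_add_neg, pw_add, map_mul, ih, pw_neg_one, e1, smul_mul_smul_comm, zpow_add₀ hz0]

lemma IsCrossedProduct.gauge_cont (h : IsCrossedProduct α ι w) (b : B) :
    ∀ ε : ℝ, 0 < ε → ∃ ρ : ℝ, 0 < ρ ∧ ∀ z : ℂ, ‖z - 1‖ < ρ → ∀ γ : B →⋆ₐ[ℂ] B,
      IsGauge ι w z γ → ‖γ b - b‖ < ε := by
  -- first for polynomials
  have hpoly : ∀ x ∈ Poly ι w, ∀ ε : ℝ, 0 < ε → ∃ ρ : ℝ, 0 < ρ ∧ ∀ z : ℂ, ‖z - 1‖ < ρ →
      ∀ γ : B →⋆ₐ[ℂ] B, IsGauge ι w z γ → ‖γ x - x‖ < ε := by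
    intro x hx
    induction hx using AddSubmonoid.closure_induction with
    | mem x hx =>
      obtain ⟨k, c, rfl⟩ := hx
      intro ε hε
      have hc : ContinuousAt (fun z : ℂ => z ^ k) 1 := continuousAt_zpow₀ 1 k (Or.inl one_ne_zero)
      obtain ⟨ρ, hρ, h1⟩ := Metric.continuousAt_iff.mp hc (ε / (‖ι c‖ + 1)) (by positivity)
      refine ⟨ρ, hρ, fun z hz γ hγ => ?_⟩
      have h2 := h1 (x := z) (by rwa [dist_eq_norm])
      rw [dist_eq_norm, one_zpow] at h2
      have e1 : γ (MP9b5ea5.pw w k * ι c) - MP9b5ea5.pw w k * ι c =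
          (z ^ k - 1) • (MP9b5ea5.pw w k * ι c) := by
        rw [map_mul, hγ.pw, hγ.fix, sub_smul, one_smul, smul_mul_assoc]
      rw [e1, norm_smul, norm_pw_mul]
      calc ‖z ^ k - 1‖ * ‖ι c‖ ≤ ε / (‖ι c‖ + 1) * ‖ι c‖ :=
            mul_le_mul_of_nonneg_right h2.le (norm_nonneg _)
        _ < ε := by
            rw [div_mul_eq_mul_div, div_lt_iff₀ (by positivity)]
            nlinarith [norm_nonneg (ι c)]
    | zero =>
      intro ε hε
      exact ⟨1, one_pos, fun z _ γ _ => by simpa using hε⟩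
    | add x y _ _ h1 h2 =>
      intro ε hε
      obtain ⟨ρ₁, hρ₁, h1⟩ := h1 (ε / 2) (by positivity)
      obtain ⟨ρ₂, hρ₂, h2⟩ := h2 (ε / 2) (by positivity)
      refine ⟨min ρ₁ ρ₂, lt_min hρ₁ hρ₂, fun z hz γ hγ => ?_⟩
      have h1 := h1 z (lt_of_lt_of_le hz (min_le_left _ _)) γ hγ
      have h2 := h2 z (lt_of_lt_of_le hz (min_le_right _ _)) γ hγ
      have : γ (x + y) - (x + y) = (γ x - x) + (γ y - y) := by rw [map_add]; abel
      rw [this]
      exact lt_of_le_of_lt (norm_add_le _ _) (by linarith)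
  intro ε hε
  obtain ⟨x, hx, hbx⟩ := h.approx_poly b (ε / 3) (by positivity)
  obtain ⟨ρ, hρ, h1⟩ := hpoly x hx (ε / 3) (by positivity)
  refine ⟨ρ, hρ, fun z hz γ hγ => ?_⟩
  have h2 := h1 z hz γ hγ
  have h3 := NonUnitalStarAlgHom.norm_apply_le γ (b - x)
  have : γ b - b = γ (b - x) + (γ x - x) - (b - x) := by rw [map_sub]; abel
  rw [this]
  refine lt_of_le_of_lt (norm_sub_le _ _) ?_
  have := norm_add_le (γ (b - x)) (γ x - x)
  linarith

end Gauge

end MP9b5ea5
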