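import Pool.Agent.H63.PI.A7

open scoped ComplexOrder

universe u

namespace MP9b5ea5

lemma char_orth (N : ℕ) (hN : 0 < N) (ζ : ℂ) (hζ : IsPrimitiveRoot ζ N) (k l : ℕ) (hk : k < N)
    (hl : l < N) :
    ∑ r ∈ Finset.range N, star ((ζ ^ r) ^ k) * (ζ ^ r) ^ l = if k = l then (N : ℂ) else 0 := by
  have hζ0 : ζ ≠ 0 := hζ.ne_zero hN.ne'
  have hn : ‖ζ‖ = 1 := hζ.norm'_eq_one hN.ne'
  have hs : star ζ = ζ⁻¹ := (Complex.inv_eq_conj hn).symm
  have h1 : ∀ r, star ((ζ ^ r) ^ k) * (ζ ^ r) ^ l = (ζ ^ l / ζ ^ k) ^ r := by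
    intro r
    rw [star_pow, star_pow, hs, div_eq_mul_inv, mul_pow, inv_pow, inv_pow, inv_pow, ← pow_mul,
      ← pow_mul, ← pow_mul, ← pow_mul, mul_comm, mul_comm r l, mul_comm r k]
  rw [Finset.sum_congr rfl fun r _ => h1 r]
  by_cases hkl : k = l
  · rw [if_pos hkl, hkl, div_self (pow_ne_zero _ hζ0)]
    simp
  · rw [if_neg hkl]
    have hω : ζ ^ l / ζ ^ k ≠ 1 := by
      intro h
      rw [div_eq_one_iff_eq (pow_ne_zero _ hζ0)] at h
      exact hkl (hζ.pow_inj hl hk h).symm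
    rw [geom_sum_eq hω]
    have : (ζ ^ l / ζ ^ k) ^ N = 1 := by
      rw [div_pow, ← pow_mul, ← pow_mul, mul_comm l, mul_comm k, pow_mul, pow_mul, hζ.pow_eq_one,
        one_pow, one_pow, div_one]
    rw [this]; simp

section Average

variable {A B : Type u} [CStarAlgebra A] [CStarAlgebra B] {α : A ≃⋆ₐ[ℂ] A} {ι : A →⋆ₐ[ℂ] B}
  {w : unitary B}

/-- averaging over the gauge action -/
lemma average_eq (N : ℕ) (hN : 0 < N) (ζ : ℂ) (hζ : IsPrimitiveRoot ζ N) (γ : ℕ → B →⋆ₐ[ℂ] B)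
    (hγ : ∀ r, IsGauge ι w (ζ ^ r) (γ r)) (M : ℕ) (hM : M < N) (c : ℕ → A) :
    ∑ r ∈ Finset.range N, γ r (star (∑ k ∈ Finset.range (M + 1), pw w k * ι (c k)) *
      (∑ k ∈ Finset.range (M + 1), pw w k * ι (c k))) =
    (N : ℂ) • ι (∑ k ∈ Finset.range (M + 1), star (c k) * c k) := by
  set T : ℕ → B := fun k => pw w k * ι (c k) with hT
  have h1 : ∀ r, γ r (∑ k ∈ Finset.range (M + 1), T k) =
      ∑ k ∈ Finset.range (M + 1), (ζ ^ r) ^ k • T k := by
    intro r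
    rw [map_sum]
    refine Finset.sum_congr rfl fun k _ => ?_
    simp only [hT]
    rw [map_mul, (hγ r).pw, (hγ r).fix, zpow_natCast, smul_mul_assoc]
  have h2 : ∀ r, γ r (star (∑ k ∈ Finset.range (M + 1), T k) *
      (∑ k ∈ Finset.range (M + 1), T k)) =
      ∑ k ∈ Finset.range (M + 1), ∑ l ∈ Finset.range (M + 1),
        (star ((ζ ^ r) ^ k) * (ζ ^ r) ^ l) • (star (T k) * T l) := by
    intro r
    rw [map_mul, map_star, h1, star_sum, Finset.sum_mul_sum]
    refine Finset.sum_congr rfl fun k _ => Finset.sum_congr rfl fun l _ => ?_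
    rw [star_smul, smul_mul_smul_comm]
  rw [Finset.sum_congr rfl fun r _ => h2 r, Finset.sum_comm]
  rw [map_sum, Finset.smul_sum]
  refine Finset.sum_congr rfl fun k hk => ?_
  rw [Finset.sum_comm]
  have hk' : k < N := by have := Finset.mem_range.mp hk; omega
  rw [Finset.sum_eq_single_of_mem k hk]
  · rw [← Finset.sum_smul, char_orth N hN ζ hζ k k hk' hk', if_pos rfl]
    congr 1
    simp only [hT]
    rw [star_mul, star_pw, map_mul, map_star]
    calc star (ι (c k)) * pw w (-(k : ℤ)) * (pw w k * ι (c k)) =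
        star (ι (c k)) * (pw w (-(k : ℤ)) * pw w k) * ι (c k) := by noncomm_ring
      _ = _ := by rw [pw_neg_mul, mul_one]
  · intro l hl hlk
    have hl' : l < N := by have := Finset.mem_range.mp hl; omega
    rw [← Finset.sum_smul, char_orth N hN ζ hζ k l hk' hl', if_neg (Ne.symm hlk), zero_smul]

variable [PartialOrder B] [StarOrderedRing B]

/-- lower bound for the zeroth Fourier coefficient -/
lemma IsCrossedProduct.lower (h : IsCrossedProduct α ι w) (b : B) (hb : 0 ≤ b) (hb0 : b ≠ 0) :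
    ∃ c₀ : ℝ, 0 < c₀ ∧ ∀ (M : ℕ) (c : ℕ → A),
      ‖star (∑ k ∈ Finset.range (M + 1), pw w k * ι (c k)) *
        (∑ k ∈ Finset.range (M + 1), pw w k * ι (c k)) - b‖ ≤ c₀ →
      c₀ ≤ ‖ι (∑ k ∈ Finset.range (M + 1), star (c k) * c k)‖ ∧
      ‖ι (∑ k ∈ Finset.range (M + 1), star (c k) * c k)‖ ≤ ‖b‖ + c₀ := by
  have hbn : 0 < ‖b‖ := norm_pos_iff.mpr hb0
  obtain ⟨ρ, hρ, hcont⟩ := h.gauge_cont b (‖b‖ / 2) (by positivity)
  obtain ⟨L, hL⟩ := exists_nat_gt (2 * Real.pi / ρ)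
  have hL0 : 0 < (L : ℝ) := lt_trans (by positivity) hL
  have hL0' : 0 < L := by exact_mod_cast hL0
  have hLρ : 2 * Real.pi / L < ρ := by
    rw [div_lt_iff₀ hρ] at hL
    rw [div_lt_iff₀ hL0]; linarith
  refine ⟨‖b‖ / (4 * L), by positivity, fun M c hclose => ?_⟩
  set Y : B := ∑ k ∈ Finset.range (M + 1), pw w k * ι (c k) with hY
  set a : A := ∑ k ∈ Finset.range (M + 1), star (c k) * c k with ha
  set N : ℕ := L * (M + 1) with hN
  have hN0 : 0 < N := by positivity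
  have hMN : M < N := by rw [hN]; nlinarith
  set ζ : ℂ := Complex.exp (2 * Real.pi * Complex.I / N) with hζ
  have hprim : IsPrimitiveRoot ζ N := Complex.isPrimitiveRoot_exp N hN0.ne'
  have hζn : ‖ζ‖ = 1 := hprim.norm'_eq_one hN0.ne'
  choose γ hγ using fun r : ℕ => h.exists_gauge (ζ ^ r) (by rw [norm_pow, hζn, one_pow])
  have hav := average_eq N hN0 ζ hprim γ hγ M hMN c
  rw [← hY, ← ha] at hav
  -- the small arc
  have harc : ∀ r < M + 1, ‖γ r b - b‖ < ‖b‖ / 2 := by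
    intro r hr
    refine hcont (ζ ^ r) ?_ (γ r) (hγ r)
    have e1 : ζ ^ r = Complex.exp (Complex.I * ((2 * Real.pi * r / N : ℝ) : ℂ)) := by
      rw [hζ, ← Complex.exp_nat_mul]
      congr 1
      push_cast
      ring
    rw [e1]
    refine lt_of_le_of_lt Real.norm_exp_I_mul_ofReal_sub_one_le ?_
    rw [Real.norm_eq_abs, abs_of_nonneg (by positivity)]
    refine lt_of_le_of_lt ?_ hLρ
    rw [div_le_div_iff₀ (by positivity) hL0]
    have hNr : (N : ℝ) = L * (M + 1) := by rw [hN]; push_cast; ring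
    rw [hNr]
    have hr' : (r : ℝ) ≤ M + 1 := by exact_mod_cast hr.le
    have hπ := Real.pi_pos
    have : 2 * Real.pi * r * L ≤ 2 * Real.pi * (M + 1) * L := by gcongr
    linarith
  -- lower bound of the average
  have hpos : ∀ r, 0 ≤ γ r b := fun r => map_nonneg (γ r) hb
  have h1 : ‖∑ r ∈ Finset.range (M + 1), γ r b‖ ≤ ‖∑ r ∈ Finset.range N, γ r b‖ := by
    refine CStarAlgebra.norm_le_norm_of_nonneg_of_le (Finset.sum_nonneg fun r _ => hpos r) ?_
    refine Finset.sum_le_sum_of_subset_of_nonneg ?_ fun r _ _ => hpos r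
    intro r hr
    rw [Finset.mem_range] at hr ⊢
    omega
  have h2 : ((M : ℝ) + 1) * (‖b‖ / 2) ≤ ‖∑ r ∈ Finset.range (M + 1), γ r b‖ := by
    have e1 : ∑ r ∈ Finset.range (M + 1), γ r b = ((M + 1 : ℕ) : ℝ) • b +
        ∑ r ∈ Finset.range (M + 1), (γ r b - b) := by
      rw [Finset.sum_sub_distrib, Finset.sum_const, Finset.card_range]
      rw [Nat.cast_smul_eq_nsmul]; abel
    have e2 : ‖∑ r ∈ Finset.range (M + 1), (γ r b - b)‖ ≤ ((M : ℝ) + 1) * (‖b‖ / 2) := by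
      refine (norm_sum_le _ _).trans ?_
      refine (Finset.sum_le_sum fun r hr => (harc r (Finset.mem_range.mp hr)).le).trans ?_
      rw [Finset.sum_const, Finset.card_range, nsmul_eq_mul]; push_cast; rfl
    have e3 : ‖((M + 1 : ℕ) : ℝ) • b‖ = ((M : ℝ) + 1) * ‖b‖ := by
      rw [norm_smul, Real.norm_eq_abs, abs_of_nonneg (by positivity)]; push_cast; ring
    have e4 := norm_sub_le (∑ r ∈ Finset.range (M + 1), γ r b)
      (∑ r ∈ Finset.range (M + 1), (γ r b - b))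
    have e5 : ∑ r ∈ Finset.range (M + 1), γ r b - ∑ r ∈ Finset.range (M + 1), (γ r b - b) =
        ((M + 1 : ℕ) : ℝ) • b := by rw [e1]; abel
    rw [e5, e3] at e4
    linarith
  have h3 : ‖∑ r ∈ Finset.range N, γ r (star Y * Y - b)‖ ≤ N * (‖b‖ / (4 * L)) := by
    refine (norm_sum_le _ _).trans ?_
    refine (Finset.sum_le_sum fun r _ =>
      (NonUnitalStarAlgHom.norm_apply_le (γ r) _).trans hclose).trans ?_
    rw [Finset.sum_const, Finset.card_range, nsmul_eq_mul]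
  have h4 : ∑ r ∈ Finset.range N, γ r (star Y * Y) =
      ∑ r ∈ Finset.range N, γ r b + ∑ r ∈ Finset.range N, γ r (star Y * Y - b) := by
    rw [← Finset.sum_add_distrib]
    refine Finset.sum_congr rfl fun r _ => ?_
    rw [map_sub]; abel
  have h5 : (N : ℝ) * ‖ι a‖ = ‖∑ r ∈ Finset.range N, γ r (star Y * Y)‖ := by
    rw [hav, norm_smul]; simp
  have h6 : ‖∑ r ∈ Finset.range N, γ r b‖ ≤ (N : ℝ) * ‖ι a‖ + N * (‖b‖ / (4 * L)) := by
    rw [h5]
    have : ∑ r ∈ Finset.range N, γ r b = ∑ r ∈ Finset.range N, γ r (star Y * Y) -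
        ∑ r ∈ Finset.range N, γ r (star Y * Y - b) := by rw [h4]; abel
    rw [this]
    exact (norm_sub_le _ _).trans (by linarith)
  have hNr : (N : ℝ) = L * (M + 1) := by rw [hN]; push_cast; ring
  have h7 : ((M : ℝ) + 1) * (‖b‖ / 2) ≤ (N : ℝ) * ‖ι a‖ + N * (‖b‖ / (4 * L)) :=
    h2.trans (h1.trans h6)
  have h8 : (N : ℝ) * (‖b‖ / (4 * L)) = ((M : ℝ) + 1) * (‖b‖ / 4) := by
    rw [hNr]; field_simp
  rw [h8] at h7
  have h9 : ((M : ℝ) + 1) * (‖b‖ / 4) ≤ (N : ℝ) * ‖ι a‖ := by linarith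
  rw [← h8] at h9
  have hNpos : (0 : ℝ) < N := by exact_mod_cast hN0
  refine ⟨le_of_mul_le_mul_left h9 hNpos, ?_⟩
  have h10 : (N : ℝ) * ‖ι a‖ ≤ N * (‖b‖ + ‖b‖ / (4 * L)) := by
    rw [h5]
    have h11 : ‖star Y * Y‖ ≤ ‖b‖ + ‖b‖ / (4 * L) := by
      have : star Y * Y = b + (star Y * Y - b) := by abel
      rw [this]
      exact (norm_add_le _ _).trans (by linarith)
    refine (norm_sum_le _ _).trans ?_
    refine (Finset.sum_le_sum fun r _ =>
      (NonUnitalStarAlgHom.norm_apply_le (γ r) _).trans h11).trans ?_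
    rw [Finset.sum_const, Finset.card_range, nsmul_eq_mul]
  exact le_of_mul_le_mul_left h10 hNpos

end Average

end MP9b5ea5
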