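import Pool.Agent.H63.PI.A8

open scoped ComplexOrder

universe u

namespace MP9b5ea5

lemma exists_small (K δ : ℝ) (hδ : 0 < δ) : ∃ ε₀ : ℝ, 0 < ε₀ ∧ ∀ x : ℝ, 0 ≤ x → x ≤ ε₀ → K * x < δ := by
  refine ⟨δ / (|K| + 1), by positivity, fun x hx hx' => ?_⟩
  calc K * x ≤ |K| * x := mul_le_mul_of_nonneg_right (le_abs_self K) hx
    _ ≤ |K| * (δ / (|K| + 1)) := mul_le_mul_of_nonneg_left hx' (abs_nonneg _)
    _ < δ := by
        rw [mul_div_assoc', div_lt_iff₀ (by positivity)]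
        nlinarith [abs_nonneg K]

section Orth

variable {B : Type*} [CStarAlgebra B] [PartialOrder B] [StarOrderedRing B]

lemma mul_self_le_smul {W : B} (hW : 0 ≤ W) {μ : ℝ} (h : ‖W‖ ≤ μ) : W * W ≤ μ • W := by
  set r : B := CFC.sqrt W with hr
  have hrr : r * r = W := CFC.sqrt_mul_sqrt_self W hW
  have hrs : star r = r := (IsSelfAdjoint.of_nonneg (CFC.sqrt_nonneg W)).star_eq
  have h1 : W ≤ algebraMap ℝ B μ := by
    refine (IsSelfAdjoint.of_nonneg hW).le_algebraMap_norm_self.trans ?_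
    exact algebraMap_mono B h
  have h2 := star_right_conjugate_le_conjugate h1 r
  rw [hrs] at h2
  have e1 : r * W * r = W * W := by
    nth_rewrite 1 [← hrr]
    rw [← hrr]; noncomm_ring
  have e2 : r * algebraMap ℝ B μ * r = μ • W := by
    rw [← Algebra.commutes μ r, mul_assoc, hrr, Algebra.smul_def]
  rwa [e1, e2] at h2

lemma norm_sq_sum_le {κ : Type*} [DecidableEq κ] (S : Finset κ) (W : κ → B) (μ δ : ℝ)
    (hpos : ∀ k ∈ S, 0 ≤ W k) (h1 : ∀ k ∈ S, ‖W k‖ ≤ μ)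
    (h2 : ∀ k ∈ S, ∀ l ∈ S, k ≠ l → ‖W k * W l‖ ≤ δ) (hδ : 0 ≤ δ) (hμ : 0 ≤ μ) :
    ‖∑ k ∈ S, W k‖ ^ 2 ≤ μ * ‖∑ k ∈ S, W k‖ + (S.card : ℝ) ^ 2 * δ := by
  set T : B := ∑ k ∈ S, W k with hT
  have hT0 : 0 ≤ T := Finset.sum_nonneg hpos
  have hTs : star T = T := (IsSelfAdjoint.of_nonneg hT0).star_eq
  have e1 : ‖T‖ ^ 2 = ‖T * T‖ := by
    have := CStarRing.norm_self_mul_star (x := T)
    rw [hTs] at this
    rw [this, sq]
  have e2 : T * T = ∑ k ∈ S, W k * W k + ∑ k ∈ S, ∑ l ∈ S.erase k, W k * W l := by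
    rw [hT, Finset.sum_mul_sum, ← Finset.sum_add_distrib]
    refine Finset.sum_congr rfl fun k hk => ?_
    rw [Finset.add_sum_erase S (fun l => W k * W l) hk]
  have e3 : ‖∑ k ∈ S, W k * W k‖ ≤ μ * ‖T‖ := by
    have h3 : ∑ k ∈ S, W k * W k ≤ μ • T := by
      rw [hT, Finset.smul_sum]
      exact Finset.sum_le_sum fun k hk => mul_self_le_smul (hpos k hk) (h1 k hk)
    have h4 : 0 ≤ ∑ k ∈ S, W k * W k := Finset.sum_nonneg fun k hk => by
      have := star_mul_self_nonneg (W k)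
      rwa [(IsSelfAdjoint.of_nonneg (hpos k hk)).star_eq] at this
    refine (CStarAlgebra.norm_le_norm_of_nonneg_of_le h4 h3).trans ?_
    rw [norm_smul, Real.norm_eq_abs, abs_of_nonneg hμ]
  have e4 : ‖∑ k ∈ S, ∑ l ∈ S.erase k, W k * W l‖ ≤ (S.card : ℝ) ^ 2 * δ := by
    refine (norm_sum_le _ _).trans ?_
    have : ∀ k ∈ S, ‖∑ l ∈ S.erase k, W k * W l‖ ≤ (S.card : ℝ) * δ := by
      intro k hk
      refine (norm_sum_le _ _).trans ?_
      refine (Finset.sum_le_sum (g := fun _ => δ) fun l hl => ?_).trans ?_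
      · exact h2 k hk l (Finset.mem_of_mem_erase hl) (Finset.ne_of_mem_erase hl).symm
      · rw [Finset.sum_const, nsmul_eq_mul]
        refine mul_le_mul_of_nonneg_right ?_ hδ
        exact_mod_cast Finset.card_le_card (Finset.erase_subset _ _)
    refine (Finset.sum_le_sum this).trans ?_
    rw [Finset.sum_const, nsmul_eq_mul]
    rw [sq, mul_assoc]
  rw [e1, e2]
  refine (norm_add_le _ _).trans ?_
  exact add_le_add e3 e4

end Orth

section Tower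

variable {A B : Type u} [CStarAlgebra A] [PartialOrder A] [StarOrderedRing A]
  [CStarAlgebra B] [PartialOrder B] [StarOrderedRing B] {α : A ≃⋆ₐ[ℂ] A} {ι : A →⋆ₐ[ℂ] B}
  {w : unitary B}

omit [PartialOrder A] [StarOrderedRing A] [PartialOrder B] [StarOrderedRing B] in
/-- iterated approximate equivariance -/
lemma equiv_iter (hcov : Cov α ι w) (f : ℕ → A) (P : ℕ) (ε : ℝ)
    (hf : ∀ j, j + 1 < P → ‖α (f j) - f (j + 1)‖ < ε) (j m : ℕ) (hjm : j + m < P) :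
    ‖pw w m * ι (f j) * pw w (-m) - ι (f (j + m))‖ ≤ m * ε := by
  induction m with
  | zero => simp [pw_zero]
  | succ m ih =>
    have h1 := ih (by omega)
    have h2 : ‖(w : B) * ι (f (j + m)) * star (w : B) - ι (f (j + m + 1))‖ ≤ ε := by
      rw [← hcov, ← map_sub]
      exact (NonUnitalStarAlgHom.norm_apply_le ι _).trans (hf (j + m) (by omega)).le
    have e1 : pw w ((m + 1 : ℕ) : ℤ) * ι (f j) * pw w (-((m + 1 : ℕ) : ℤ)) =
        (w : B) * (pw w m * ι (f j) * pw w (-m)) * star (w : B) := by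
      have a1 : ((m + 1 : ℕ) : ℤ) = 1 + m := by push_cast; ring
      have a2 : (-((m + 1 : ℕ) : ℤ)) = -m + -1 := by push_cast; ring
      rw [a2, a1, pw_add, pw_add, pw_one, pw_neg_one]; noncomm_ring
    have e2 : pw w ((m + 1 : ℕ) : ℤ) * ι (f j) * pw w (-((m + 1 : ℕ) : ℤ)) - ι (f (j + (m + 1))) =
        (w : B) * (pw w m * ι (f j) * pw w (-m) - ι (f (j + m))) * star (w : B) +
        ((w : B) * ι (f (j + m)) * star (w : B) - ι (f (j + m + 1))) := by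
      rw [e1]; noncomm_ring
    rw [e2]
    refine (norm_add_le _ _).trans ?_
    have e3 : ‖(w : B) * (pw w m * ι (f j) * pw w (-m) - ι (f (j + m))) * star (w : B)‖ ≤ m * ε := by
      rw [← pw_neg_one w, ← pw_one w, norm_mul_pw, norm_pw_mul]
      exact h1
    push_cast
    linarith

lemma exists_tower {d : ℕ} (hR : RokhlinDimLE α d) (hcov : Cov α ι w) (M : ℕ) (a : A) (ha : 0 ≤ a)
    (c C : ℝ) (hc : 0 < c) (hca : c ≤ ‖ι a‖) (haC : ‖ι a‖ ≤ C) (F : Finset A) (ε : ℝ)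
    (hε : 0 < ε) :
    ∃ (t : ℕ) (g : A), 0 ≤ g ∧ ‖g‖ ≤ 1 ∧ (∀ s ∈ F, ‖g * s - s * g‖ < ε) ∧
      (∀ m : ℕ, 1 ≤ m → m ≤ M → ‖ι g * pw w m * ι g‖ < ε) ∧ t ≤ M ∧
      (c / (4 * ((d : ℝ) + 1))) ^ 2 / (2 * C) ≤ ‖ι g * (pw w (-t) * ι a * pw w t) * ι g‖ := by
  classical
  have hC : 0 < C := lt_of_lt_of_le hc (hca.trans haC)
  set μ : ℝ := c / (4 * ((d : ℝ) + 1)) with hμ
  have hμ0 : 0 < μ := by positivity
  set s : A := CFC.sqrt a with hs
  have hss : s * s = a := CFC.sqrt_mul_sqrt_self a ha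
  have hs0 : 0 ≤ s := CFC.sqrt_nonneg a
  have hsa : star s = s := (IsSelfAdjoint.of_nonneg hs0).star_eq
  set H : B := ι s with hH
  have hHH : H * H = ι a := by rw [hH, ← map_mul, hss]
  have hHs : star H = H := by rw [hH, ← map_star, hsa]
  have hHn : ‖H‖ ^ 2 = ‖ι a‖ := by
    rw [← hHH, sq]
    have := CStarRing.norm_self_mul_star (x := H)
    rw [hHs] at this
    exact this.symm
  set p : ℕ := 2 * M + 1 with hp
  set n : ℕ := p + (p + 1) with hn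
  set C₁ : ℝ := ‖H‖ ^ 2 * (1 + ‖ι a‖) with hC₁
  have hC₁0 : 0 ≤ C₁ := by positivity
  obtain ⟨ε₁, hε₁, hs1⟩ := exists_small ((M : ℝ) + 1) ε hε
  obtain ⟨ε₂, hε₂, hs2⟩ := exists_small (‖H‖ ^ 2) (c / 2) (by positivity)
  obtain ⟨ε₃, hε₃, hs3⟩ := exists_small ((n : ℝ) ^ 2 * C₁) (2 * μ ^ 2) (by positivity)
  obtain ⟨ε₄, hε₄, hs4⟩ := exists_small (2 * M * ‖ι a‖) (μ ^ 2 / (2 * C)) (by positivity)
  obtain ⟨ε₀, hε₀, h01, h02, h03, h04⟩ : ∃ ε₀ : ℝ, 0 < ε₀ ∧ ε₀ ≤ ε₁ ∧ ε₀ ≤ ε₂ ∧ ε₀ ≤ ε₃ ∧ ε₀ ≤ ε₄ :=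
    ⟨min (min ε₁ ε₂) (min ε₃ ε₄), by positivity,
      (min_le_left _ _).trans (min_le_left _ _), (min_le_left _ _).trans (min_le_right _ _),
      (min_le_right _ _).trans (min_le_left _ _), (min_le_right _ _).trans (min_le_right _ _)⟩
  replace hs1 := hs1 ε₀ hε₀.le h01
  replace hs2 := hs2 ε₀ hε₀.le h02
  replace hs3 := hs3 ε₀ hε₀.le h03
  replace hs4 := hs4 ε₀ hε₀.le h04
  have h0ε : ε₀ < ε := by
    have : ε₀ ≤ ((M : ℝ) + 1) * ε₀ := by nlinarith [(Nat.cast_nonneg M : (0:ℝ) ≤ M)]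
    linarith
  obtain ⟨f, hf1, hf2, -, hf4, hf5, hf6⟩ := hR (insert a F) ε₀ hε₀ p (by omega)
  let G : Fin (d + 1) → Fin 2 → ℕ → B := fun l q j => ι (f l q j)
  let κ : Finset (Σ _ : Fin 2, ℕ) := (Finset.univ : Finset (Fin 2)).sigma
    (fun q => Finset.range (p + (q : ℕ)))
  have hκmem : ∀ x ∈ κ, x.2 < p + (x.1 : ℕ) := by
    intro x hx
    simp only [κ, Finset.mem_sigma, Finset.mem_univ, Finset.mem_range, true_and] at hx
    exact hx
  have hκcard : κ.card = n := by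
    simp only [κ, Finset.card_sigma, Finset.card_range, Fin.sum_univ_two]
    simp [hn]
  let W : Fin (d + 1) → (Σ _ : Fin 2, ℕ) → B := fun l x => H * G l x.1 x.2 * H
  have hG0 : ∀ l, ∀ x ∈ κ, 0 ≤ G l x.1 x.2 := fun l x hx => map_nonneg ι (hf1 l x.1 x.2 (hκmem x hx)).1
  have hG1 : ∀ l, ∀ x ∈ κ, ‖G l x.1 x.2‖ ≤ 1 := fun l x hx =>
    (NonUnitalStarAlgHom.norm_apply_le ι _).trans (hf1 l x.1 x.2 (hκmem x hx)).2
  have hW0 : ∀ l, ∀ x ∈ κ, 0 ≤ W l x := by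
    intro l x hx
    have := star_right_conjugate_nonneg (hG0 l x hx) H
    rwa [hHs] at this
  -- total sum
  have hsum : ‖ι a - ∑ l, ∑ x ∈ κ, W l x‖ ≤ c / 2 := by
    have e1 : ∑ l, ∑ x ∈ κ, W l x =
        H * ι (∑ l : Fin (d + 1), ∑ q : Fin 2, ∑ j ∈ Finset.range (p + (q : ℕ)), f l q j) * H := by
      rw [map_sum, Finset.mul_sum, Finset.sum_mul]
      refine Finset.sum_congr rfl fun l _ => ?_
      rw [map_sum, Finset.mul_sum, Finset.sum_mul]
      simp only [κ]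
      rw [Finset.sum_sigma]
      refine Finset.sum_congr rfl fun q _ => ?_
      rw [map_sum, Finset.mul_sum, Finset.sum_mul]
    have e2 : ι a - ∑ l, ∑ x ∈ κ, W l x = -(H * ι ((∑ l : Fin (d + 1), ∑ q : Fin 2,
        ∑ j ∈ Finset.range (p + (q : ℕ)), f l q j) - 1) * H) := by
      rw [e1, map_sub, map_one, ← hHH]; noncomm_ring
    rw [e2, norm_neg]
    calc _ ≤ ‖H‖ * ‖ι ((∑ l : Fin (d + 1), ∑ q : Fin 2,
        ∑ j ∈ Finset.range (p + (q : ℕ)), f l q j) - 1)‖ * ‖H‖ :=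
          (norm_mul_le _ _).trans (mul_le_mul_of_nonneg_right (norm_mul_le _ _) (norm_nonneg _))
      _ ≤ ‖H‖ * ε₀ * ‖H‖ := by
          refine mul_le_mul_of_nonneg_right (mul_le_mul_of_nonneg_left ?_ (norm_nonneg _))
            (norm_nonneg _)
          exact (NonUnitalStarAlgHom.norm_apply_le ι _).trans hf5.le
      _ = ‖H‖ ^ 2 * ε₀ := by ring
      _ ≤ c / 2 := hs2.le
  -- a good colour
  obtain ⟨l, hl⟩ : ∃ l, 2 * μ ≤ ‖∑ x ∈ κ, W l x‖ := by
    by_contra hcon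
    push Not at hcon
    have h1 : ‖∑ l, ∑ x ∈ κ, W l x‖ < ∑ _l : Fin (d + 1), 2 * μ := by
      refine lt_of_le_of_lt (norm_sum_le _ _) ?_
      exact Finset.sum_lt_sum_of_nonempty Finset.univ_nonempty fun l _ => hcon l
    have h2 : ∑ _l : Fin (d + 1), 2 * μ = c / 2 := by
      rw [Finset.sum_const, Finset.card_univ, Fintype.card_fin, nsmul_eq_mul, hμ]
      push_cast
      field_simp
      ring
    have h3 := norm_sub_norm_le (ι a) (∑ l, ∑ x ∈ κ, W l x)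
    linarith
  -- a good level
  obtain ⟨x, hxκ, hx⟩ : ∃ x ∈ κ, μ ≤ ‖W l x‖ := by
    by_contra hcon
    push Not at hcon
    have h1 : ∀ x ∈ κ, ∀ y ∈ κ, x ≠ y → ‖W l x * W l y‖ ≤ C₁ * ε₀ := by
      intro x hx y hy hxy
      have hxy' : (x.1, x.2) ≠ (y.1, y.2) := by
        intro h
        apply hxy
        obtain ⟨x1, x2⟩ := x
        obtain ⟨y1, y2⟩ := y
        simp only [Prod.mk.injEq] at h
        rw [h.1, h.2]
      have g1 : ‖G l x.1 x.2 * G l y.1 y.2‖ ≤ ε₀ := by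
        simp only [G]
        rw [← map_mul]
        exact (NonUnitalStarAlgHom.norm_apply_le ι _).trans
          (hf4 l x.1 x.2 y.1 y.2 (hκmem x hx) (hκmem y hy) hxy').le
      have g2 : ‖G l x.1 x.2 * ι a - ι a * G l x.1 x.2‖ ≤ ε₀ := by
        simp only [G]
        rw [← map_mul, ← map_mul, ← map_sub]
        exact (NonUnitalStarAlgHom.norm_apply_le ι _).trans
          (hf6 l x.1 x.2 (hκmem x hx) a (Finset.mem_insert_self _ _)).le
      have e1 : W l x * W l y = H * ((G l x.1 x.2 * ι a - ι a * G l x.1 x.2) * G l y.1 y.2 +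
          ι a * (G l x.1 x.2 * G l y.1 y.2)) * H := by
        simp only [W]
        rw [← hHH]; noncomm_ring
      rw [e1]
      calc _ ≤ ‖H‖ * ‖(G l x.1 x.2 * ι a - ι a * G l x.1 x.2) * G l y.1 y.2 +
          ι a * (G l x.1 x.2 * G l y.1 y.2)‖ * ‖H‖ :=
            (norm_mul_le _ _).trans (mul_le_mul_of_nonneg_right (norm_mul_le _ _) (norm_nonneg _))
        _ ≤ ‖H‖ * (ε₀ * 1 + ‖ι a‖ * ε₀) * ‖H‖ := by
            refine mul_le_mul_of_nonneg_right (mul_le_mul_of_nonneg_left ?_ (norm_nonneg _))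
              (norm_nonneg _)
            refine (norm_add_le _ _).trans (add_le_add ?_ ?_)
            · exact (norm_mul_le _ _).trans (mul_le_mul g2 (hG1 l y hy) (norm_nonneg _) hε₀.le)
            · exact (norm_mul_le _ _).trans (mul_le_mul_of_nonneg_left g1 (norm_nonneg _))
        _ = C₁ * ε₀ := by rw [hC₁]; ring
    have h2 := norm_sq_sum_le κ (W l) μ (C₁ * ε₀) (hW0 l) (fun x hx => (hcon x hx).le) h1
      (by positivity) hμ0.le
    rw [hκcard] at h2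
    have h3 : (n : ℝ) ^ 2 * (C₁ * ε₀) < 2 * μ ^ 2 := by linarith
    nlinarith
  -- lower bound for G a G
  have hxb := hκmem x hxκ
  have hlow : μ ^ 2 / C ≤ ‖G l x.1 x.2 * ι a * G l x.1 x.2‖ := by
    have hGs : star (G l x.1 x.2) = G l x.1 x.2 := (IsSelfAdjoint.of_nonneg (hG0 l x hxκ)).star_eq
    have e1 : ‖G l x.1 x.2 * ι a * G l x.1 x.2‖ = ‖H * G l x.1 x.2‖ ^ 2 := by
      rw [sq, ← CStarRing.norm_star_mul_self, star_mul, hGs, hHs, ← hHH]
      congr 1; noncomm_ring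
    have e2 : ‖W l x‖ ≤ ‖H * G l x.1 x.2‖ * ‖H‖ := norm_mul_le _ _
    rw [e1, div_le_iff₀ hC]
    calc μ ^ 2 ≤ (‖H * G l x.1 x.2‖ * ‖H‖) ^ 2 :=
          pow_le_pow_left₀ hμ0.le (hx.trans e2) 2
      _ = ‖H * G l x.1 x.2‖ ^ 2 * ‖ι a‖ := by rw [mul_pow, hHn]
      _ ≤ ‖H * G l x.1 x.2‖ ^ 2 * C := by gcongr
  -- the shift
  obtain ⟨t, j', htM, hjt, hj'M⟩ : ∃ t j' : ℕ, t ≤ M ∧ j' + t = x.2 ∧ j' + M < p + (x.1 : ℕ) := by
    by_cases h : x.2 + M < p + (x.1 : ℕ)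
    · exact ⟨0, x.2, Nat.zero_le _, by omega, h⟩
    · exact ⟨M, x.2 - M, le_rfl, by omega, by omega⟩
  have hj' : j' < p + (x.1 : ℕ) := by omega
  refine ⟨t, f l x.1 j', (hf1 l x.1 j' hj').1, (hf1 l x.1 j' hj').2, ?_, ?_, htM, ?_⟩
  · intro y hy
    exact (hf6 l x.1 j' hj' y (Finset.mem_insert_of_mem hy)).trans h0ε
  · intro m hm1 hmM
    have h1 := equiv_iter hcov (f l x.1) (p + (x.1 : ℕ)) ε₀ (hf2 l x.1) j' m (by omega)
    have h2 : ‖ι (f l x.1 j') * ι (f l x.1 (j' + m))‖ < ε₀ := by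
      rw [← map_mul]
      refine lt_of_le_of_lt (NonUnitalStarAlgHom.norm_apply_le ι _) ?_
      refine hf4 l x.1 j' x.1 (j' + m) hj' (by omega) ?_
      intro h
      have := (Prod.mk.injEq _ _ _ _).mp h
      omega
    have e1 : ‖ι (f l x.1 j') * pw w m * ι (f l x.1 j')‖ =
        ‖ι (f l x.1 j') * (pw w m * ι (f l x.1 j') * pw w (-m))‖ := by
      rw [← norm_mul_pw w (-m) (ι (f l x.1 j') * pw w m * ι (f l x.1 j'))]
      congr 1; noncomm_ring
    have e2 : ι (f l x.1 j') * (pw w m * ι (f l x.1 j') * pw w (-m)) =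
        ι (f l x.1 j') * (pw w m * ι (f l x.1 j') * pw w (-m) - ι (f l x.1 (j' + m))) +
        ι (f l x.1 j') * ι (f l x.1 (j' + m)) := by noncomm_ring
    rw [e1, e2]
    refine lt_of_le_of_lt (norm_add_le _ _) ?_
    have h3 : ‖ι (f l x.1 j')‖ ≤ 1 :=
      (NonUnitalStarAlgHom.norm_apply_le ι _).trans (hf1 l x.1 j' hj').2
    have h4 : ‖ι (f l x.1 j') * (pw w m * ι (f l x.1 j') * pw w (-m) - ι (f l x.1 (j' + m)))‖ ≤
        m * ε₀ := by
      refine (norm_mul_le _ _).trans ?_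
      calc _ ≤ 1 * (m * ε₀) := mul_le_mul h3 h1 (norm_nonneg _) zero_le_one
        _ = m * ε₀ := one_mul _
    have h5 : (m : ℝ) ≤ M := by exact_mod_cast hmM
    have h6 : (m : ℝ) * ε₀ ≤ M * ε₀ := mul_le_mul_of_nonneg_right h5 hε₀.le
    linarith
  · have h1 := equiv_iter hcov (f l x.1) (p + (x.1 : ℕ)) ε₀ (hf2 l x.1) j' t (by omega)
    rw [hjt] at h1
    set g : B := ι (f l x.1 j') with hg
    set g' : B := ι (f l x.1 x.2) with hg'
    have e1 : ‖g * (pw w (-t) * ι a * pw w t) * g‖ =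
        ‖(pw w t * g * pw w (-t)) * ι a * (pw w t * g * pw w (-t))‖ := by
      rw [← norm_pw_mul w t, ← norm_mul_pw w (-t)]
      congr 1; noncomm_ring
    have h3 : ‖g‖ ≤ 1 := (NonUnitalStarAlgHom.norm_apply_le ι _).trans (hf1 l x.1 j' hj').2
    have h3' : ‖g'‖ ≤ 1 := hG1 l x hxκ
    have h4 : ‖pw w t * g * pw w (-t)‖ ≤ 1 := by rw [norm_mul_pw, norm_pw_mul]; exact h3
    have e2 : (pw w t * g * pw w (-t)) * ι a * (pw w t * g * pw w (-t)) =
        g' * ι a * g' + ((pw w t * g * pw w (-t) - g') * ι a * (pw w t * g * pw w (-t)) +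
        g' * ι a * (pw w t * g * pw w (-t) - g')) := by noncomm_ring
    have h5 : (t : ℝ) * ε₀ ≤ M * ε₀ := by
      refine mul_le_mul_of_nonneg_right ?_ hε₀.le
      exact_mod_cast htM
    have h1' : ‖pw w t * g * pw w (-t) - g'‖ ≤ M * ε₀ := h1.trans h5
    have h6 : ‖(pw w t * g * pw w (-t) - g') * ι a * (pw w t * g * pw w (-t)) +
        g' * ι a * (pw w t * g * pw w (-t) - g')‖ ≤ 2 * M * ‖ι a‖ * ε₀ := by
      refine (norm_add_le _ _).trans ?_
      have k1 : ‖(pw w t * g * pw w (-t) - g') * ι a * (pw w t * g * pw w (-t))‖ ≤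
          (M * ε₀) * ‖ι a‖ * 1 := by
        refine (norm_mul_le _ _).trans (mul_le_mul ?_ h4 (norm_nonneg _) (by positivity))
        exact (norm_mul_le _ _).trans (mul_le_mul_of_nonneg_right h1' (norm_nonneg _))
      have k2 : ‖g' * ι a * (pw w t * g * pw w (-t) - g')‖ ≤ 1 * ‖ι a‖ * (M * ε₀) := by
        refine (norm_mul_le _ _).trans (mul_le_mul ?_ h1' (norm_nonneg _) (by positivity))
        exact (norm_mul_le _ _).trans (mul_le_mul_of_nonneg_right h3' (norm_nonneg _))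
      refine (add_le_add k1 k2).trans (le_of_eq ?_)
      ring
    rw [e1]
    have h7 : ‖g' * ι a * g'‖ ≤ ‖(pw w t * g * pw w (-t)) * ι a * (pw w t * g * pw w (-t))‖ +
        2 * M * ‖ι a‖ * ε₀ := by
      have : g' * ι a * g' = (pw w t * g * pw w (-t)) * ι a * (pw w t * g * pw w (-t)) -
        ((pw w t * g * pw w (-t) - g') * ι a * (pw w t * g * pw w (-t)) +
        g' * ι a * (pw w t * g * pw w (-t) - g')) := by rw [e2]; abel
      rw [this]
      exact (norm_sub_le _ _).trans (by linarith)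
    have h8 : μ ^ 2 / C = μ ^ 2 / (2 * C) + μ ^ 2 / (2 * C) := by field_simp; ring
    have h9 : μ ^ 2 / C ≤ ‖g' * ι a * g'‖ := hlow
    linarith

end Tower

end MP9b5ea5
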