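import Pool.Agent.H63.PI.A10

open scoped ComplexOrder

universe u

namespace MP9b5ea5

section AbsorbIdeal

variable {A : Type*} [CStarAlgebra A]

lemma Absorbs.conj {a y : A} (h : Absorbs a y) (b : A) : Absorbs a (b * y * star b) := by
  intro ε hε
  obtain ⟨r₁, r₂, h1, h2, h3⟩ := h (ε / (‖b‖ ^ 2 + ‖b‖ + 1)) (by positivity)
  have hden : 0 < ‖b‖ ^ 2 + ‖b‖ + 1 := by positivity
  have hle : ε / (‖b‖ ^ 2 + ‖b‖ + 1) ≤ ε := div_le_self hε.le (by nlinarith [norm_nonneg b])
  refine ⟨r₁, b * r₂, lt_of_lt_of_le h1 hle, ?_, ?_⟩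
  · have e : b * r₂ * a * star (b * r₂) - b * y * star b = b * (r₂ * a * star r₂ - y) * star b := by
      rw [star_mul]; noncomm_ring
    rw [e]
    calc _ ≤ ‖b‖ * ‖r₂ * a * star r₂ - y‖ * ‖b‖ := by
          refine (norm_mul_le _ _).trans ?_
          rw [norm_star]
          exact mul_le_mul_of_nonneg_right (norm_mul_le _ _) (norm_nonneg _)
      _ ≤ ‖b‖ * (ε / (‖b‖ ^ 2 + ‖b‖ + 1)) * ‖b‖ := by gcongr
      _ < ε := by
          have : ‖b‖ * (ε / (‖b‖ ^ 2 + ‖b‖ + 1)) * ‖b‖ = ‖b‖ ^ 2 * ε / (‖b‖ ^ 2 + ‖b‖ + 1) := by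
            ring
          rw [this, div_lt_iff₀ hden]
          nlinarith [norm_nonneg b]
  · have e : r₁ * a * star (b * r₂) = (r₁ * a * star r₂) * star b := by
      rw [star_mul]; noncomm_ring
    rw [e]
    calc _ ≤ ‖r₁ * a * star r₂‖ * ‖b‖ := by
          refine (norm_mul_le _ _).trans ?_
          rw [norm_star]
      _ ≤ (ε / (‖b‖ ^ 2 + ‖b‖ + 1)) * ‖b‖ := by gcongr
      _ < ε := by
          rw [div_mul_eq_mul_div, div_lt_iff₀ hden]
          nlinarith [norm_nonneg b, sq_nonneg ‖b‖]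

lemma Absorbs.of_approx {a y : A} (h : ∀ ε : ℝ, 0 < ε → ∃ y', Absorbs a y' ∧ ‖y' - y‖ < ε) :
    Absorbs a y := by
  intro ε hε
  obtain ⟨y', hy', hyy⟩ := h (ε / 2) (by positivity)
  obtain ⟨r₁, r₂, h1, h2, h3⟩ := hy' (ε / 2) (by positivity)
  refine ⟨r₁, r₂, by linarith, ?_, by linarith⟩
  have : r₂ * a * star r₂ - y = (r₂ * a * star r₂ - y') + (y' - y) := by abel
  rw [this]
  exact lt_of_le_of_lt (norm_add_le _ _) (by linarith)

lemma Absorbs.of_le [PartialOrder A] [StarOrderedRing A] {a y y' : A} (h : Absorbs a y)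
    (h0 : 0 ≤ y') (hle : y' ≤ y) : Absorbs a y' := by
  refine Absorbs.of_approx fun ε hε => ?_
  obtain ⟨x, hx⟩ := approx_of_le h0 hle ε hε
  exact ⟨_, h.conj x, hx⟩

lemma Absorbs.add {a y y' : A} (ha : star a = a) (h : Absorbs a y) (h' : Absorbs a y') :
    Absorbs a (y + y') := by
  intro ε hε
  obtain ⟨r₁, r₂, h1, h2, h3⟩ := h (ε / 5) (by positivity)
  set C : ℝ := (1 + ‖r₁‖ + ‖r₂‖) ^ 2 with hC
  have hC1 : 1 ≤ C := by
    rw [hC]; nlinarith [norm_nonneg r₁, norm_nonneg r₂, mul_nonneg (norm_nonneg r₁) (norm_nonneg r₂)]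
  have hC0 : 0 < C := by linarith
  obtain ⟨q₁, q₂, g1, g2, g3⟩ := h' (ε / 5 / C) (by positivity)
  have hle : ε / 5 / C ≤ ε / 5 := div_le_self (by positivity) hC1
  have hcc : C * (ε / 5 / C) = ε / 5 := by field_simp
  have b11 : ‖r₁‖ * ‖r₁‖ ≤ C := by
    rw [hC]; nlinarith [norm_nonneg r₁, norm_nonneg r₂]
  have b22 : ‖r₂‖ * ‖r₂‖ ≤ C := by
    rw [hC]; nlinarith [norm_nonneg r₁, norm_nonneg r₂]
  have b12 : ‖r₁‖ * ‖r₂‖ ≤ C := by
    rw [hC]; nlinarith [norm_nonneg r₁, norm_nonneg r₂]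
  have b1 : ‖r₁‖ ≤ C := by
    rw [hC]; nlinarith [norm_nonneg r₁, norm_nonneg r₂]
  have b2 : ‖r₂‖ ≤ C := by
    rw [hC]; nlinarith [norm_nonneg r₁, norm_nonneg r₂]
  have conj : ∀ r r' : A, ‖r‖ * ‖r'‖ ≤ C → ‖r * (q₁ * a * star q₁ - a) * star r'‖ ≤ ε / 5 := by
    intro r r' hrr
    calc ‖r * (q₁ * a * star q₁ - a) * star r'‖ ≤ ‖r‖ * ‖q₁ * a * star q₁ - a‖ * ‖r'‖ := by
          refine (norm_mul_le _ _).trans ?_
          rw [norm_star]
          exact mul_le_mul_of_nonneg_right (norm_mul_le _ _) (norm_nonneg _)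
      _ = (‖r‖ * ‖r'‖) * ‖q₁ * a * star q₁ - a‖ := by ring
      _ ≤ C * (ε / 5 / C) := mul_le_mul hrr g1.le (norm_nonneg _) hC0.le
      _ = ε / 5 := hcc
  have off : ∀ r : A, ‖r‖ ≤ C → ‖r * (q₁ * a * star q₂)‖ ≤ ε / 5 := by
    intro r hr
    calc ‖r * (q₁ * a * star q₂)‖ ≤ ‖r‖ * ‖q₁ * a * star q₂‖ := norm_mul_le _ _
      _ ≤ C * (ε / 5 / C) := mul_le_mul hr g3.le (norm_nonneg _) hC0.le
      _ = ε / 5 := hcc
  have off' : ‖q₂ * a * star q₁ * star r₂‖ ≤ ε / 5 := by
    have : q₂ * a * star q₁ * star r₂ = star (r₂ * (q₁ * a * star q₂)) := by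
      simp only [star_mul, star_star, ha]; noncomm_ring
    rw [this, norm_star]; exact off r₂ b2
  have g3' : ‖r₁ * q₁ * a * star q₂‖ ≤ ε / 5 := by
    have : r₁ * q₁ * a * star q₂ = r₁ * (q₁ * a * star q₂) := by noncomm_ring
    rw [this]; exact off r₁ b1
  refine ⟨r₁ * q₁, r₂ * q₁ + q₂, ?_, ?_, ?_⟩
  · have : r₁ * q₁ * a * star (r₁ * q₁) - a = r₁ * (q₁ * a * star q₁ - a) * star r₁ +
        (r₁ * a * star r₁ - a) := by rw [star_mul]; noncomm_ring
    rw [this]
    refine lt_of_le_of_lt (norm_add_le _ _) ?_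
    linarith [conj r₁ r₁ b11]
  · have : (r₂ * q₁ + q₂) * a * star (r₂ * q₁ + q₂) - (y + y') =
        (r₂ * (q₁ * a * star q₁ - a) * star r₂ + r₂ * (q₁ * a * star q₂)) +
        (q₂ * a * star q₁ * star r₂ + ((r₂ * a * star r₂ - y) + (q₂ * a * star q₂ - y'))) := by
      rw [star_add, star_mul]; noncomm_ring
    rw [this]
    refine lt_of_le_of_lt (norm_add_le _ _) ?_
    have k1 := norm_add_le (r₂ * (q₁ * a * star q₁ - a) * star r₂) (r₂ * (q₁ * a * star q₂))
    have k2 := norm_add_le (q₂ * a * star q₁ * star r₂)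
      ((r₂ * a * star r₂ - y) + (q₂ * a * star q₂ - y'))
    have k3 := norm_add_le (r₂ * a * star r₂ - y) (q₂ * a * star q₂ - y')
    have k4 := conj r₂ r₂ b22
    have k5 := off r₂ b2
    have hq : ‖q₂ * a * star q₂ - y'‖ < ε / 5 := by linarith
    linarith
  · have : r₁ * q₁ * a * star (r₂ * q₁ + q₂) =
        r₁ * (q₁ * a * star q₁ - a) * star r₂ + r₁ * a * star r₂ + r₁ * q₁ * a * star q₂ := by
      rw [star_add, star_mul]; noncomm_ring
    rw [this]
    refine lt_of_le_of_lt norm_add₃_le ?_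
    have k4 := conj r₁ r₂ b12
    linarith

/-- The Kirchberg-Rordam ideal of the elements absorbed by `a`. -/
def AbsIdeal (a : A) : Set A := {x | Absorbs a (star x * x)}

lemma absIdeal_isClosedIdeal [PartialOrder A] [StarOrderedRing A] (e : A) (he : 0 ≤ e) :
    IsClosedIdeal (AbsIdeal (e * e)) := by
  have hes : star e = e := (IsSelfAdjoint.of_nonneg he).star_eq
  have haa : star (e * e) = e * e := by rw [star_mul, hes]
  refine ⟨?_, ?_, ?_, ?_, ?_⟩
  · rw [← isSeqClosed_iff_isClosed]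
    intro x y hx hxy
    refine Absorbs.of_approx fun ε hε => ?_
    have hlim : Filter.Tendsto (fun n => star (x n) * x n) Filter.atTop (nhds (star y * y)) :=
      (hxy.star).mul hxy
    rw [Metric.tendsto_atTop] at hlim
    obtain ⟨N, hN⟩ := hlim ε hε
    refine ⟨star (x N) * x N, hx N, ?_⟩
    have := hN N le_rfl
    rwa [dist_eq_norm] at this
  · show Absorbs (e * e) (star 0 * 0)
    intro ε hε
    exact ⟨1, 0, by simpa using hε, by simpa using hε, by simpa using hε⟩
  · intro x y hx hy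
    have h1 : Absorbs (e * e) ((star x * x + star y * y) + (star x * x + star y * y)) :=
      Absorbs.add haa (Absorbs.add haa hx hy) (Absorbs.add haa hx hy)
    refine Absorbs.of_le h1 (star_mul_self_nonneg _) ?_
    have h2 : 0 ≤ star (x - y) * (x - y) := star_mul_self_nonneg _
    have e1 : star (x - y) * (x - y) = ((star x * x + star y * y) + (star x * x + star y * y)) -
        star (x + y) * (x + y) := by
      rw [star_sub, star_add]; noncomm_ring
    rw [e1] at h2
    exact sub_nonneg.mp h2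
  · intro b x hx
    have h1 : Absorbs (e * e) (algebraMap ℝ A ‖b‖ * (star x * x) * star (algebraMap ℝ A ‖b‖)) :=
      Absorbs.conj hx _
    refine Absorbs.of_le h1 (star_mul_self_nonneg _) ?_
    have h2 : star b * b ≤ algebraMap ℝ A (‖b‖ ^ 2) := CStarAlgebra.star_mul_le_algebraMap_norm_sq
    have h3 := star_left_conjugate_le_conjugate h2 x
    have e1 : star x * (star b * b) * x = star (b * x) * (b * x) := by
      rw [star_mul]; noncomm_ring
    rw [e1] at h3
    refine h3.trans (le_of_eq ?_)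
    have e2 : star (algebraMap ℝ A ‖b‖) = algebraMap ℝ A ‖b‖ := by
      rw [Algebra.algebraMap_eq_smul_one, star_smul, star_one, star_trivial]
    rw [e2]
    simp only [Algebra.algebraMap_eq_smul_one, mul_smul_comm, smul_mul_assoc, mul_one, one_mul,
      smul_smul, sq]
  · intro b x hx
    have h1 : Absorbs (e * e) (star b * (star x * x) * star (star b)) := Absorbs.conj hx _
    have e1 : star b * (star x * x) * star (star b) = star (x * b) * (x * b) := by
      rw [star_mul, star_star]; noncomm_ring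
    rw [e1] at h1
    exact h1

/-- Every positive element of a purely infinite C*-algebra is properly infinite. -/
theorem absorbs_self [PartialOrder A] [StarOrderedRing A] (hA : PurelyInfinite A) (e : A)
    (he : 0 ≤ e) : Absorbs (e * e) (e * e) := by
  have hes : star e = e := (IsSelfAdjoint.of_nonneg he).star_eq
  have hI := absIdeal_isClosedIdeal e he
  have hmem : e ∈ AbsIdeal (e * e) := by
    by_contra hcon
    obtain ⟨y, hy0, hyI, hy⟩ := exists_absorbs hA hI e he hcon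
    apply hyI
    set s : A := CFC.sqrt y with hs
    have hss : s * s = y := CFC.sqrt_mul_sqrt_self y hy0
    have hsa : star s = s := (IsSelfAdjoint.of_nonneg (CFC.sqrt_nonneg y)).star_eq
    have hsI : s ∈ AbsIdeal (e * e) := by
      show Absorbs (e * e) (star s * s)
      rw [hsa, hss]; exact hy
    rw [← hss]
    exact hI.mul_mem_left s hsI
  have h1 : Absorbs (e * e) (star e * e) := hmem
  rwa [hes] at h1

end AbsorbIdeal

end MP9b5ea5
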