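import Pool.Agent.H63.PI.C1

open scoped ComplexOrder

universe u

namespace MP9b5ea5

section CutA

variable {A : Type*} [CStarAlgebra A] [PartialOrder A] [StarOrderedRing A]

/-- the cut-down of a positive element at level `η` -/
lemma exists_cutdown (c : A) (hc : 0 ≤ c) (η : ℝ) (hη : 0 < η) :
    ∃ s e κ : A, star s = s ∧ star e = e ∧ 0 ≤ s * (c - algebraMap ℝ A η) * s ∧
      e = (s * (c - algebraMap ℝ A η) * s) * κ ∧
      ‖(1 - e) * (c + algebraMap ℝ A η) * (1 - e)‖ ≤ 4 * η := by
  have hcsa : IsSelfAdjoint c := .of_nonneg hc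
  set f₁ : ℝ → ℝ := fun t => cl ((t - η) / η) with hf₁
  set f : ℝ → ℝ := fun t => cl ((t - 2 * η) / η) with hf
  set F : ℝ → ℝ := fun t => f₁ t * (t - η) * f₁ t with hF
  set k : ℝ → ℝ := fun t => f t / max (F t) η with hk
  have hf₁c : Continuous f₁ := cl_continuous.comp (by fun_prop)
  have hfc : Continuous f := cl_continuous.comp (by fun_prop)
  have hFc : Continuous F := (hf₁c.mul (by fun_prop)).mul hf₁c
  have hkc : Continuous k := hfc.div (by fun_prop) fun t => (lt_of_lt_of_le hη (le_max_right _ _)).ne'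
  have hFe : cfc F c = cfc f₁ c * (c - algebraMap ℝ A η) * cfc f₁ c := by
    rw [hF, cfc_mul (fun t => f₁ t * (t - η)) f₁ c (hf₁c.mul (by fun_prop)).continuousOn
      hf₁c.continuousOn, cfc_mul f₁ (fun t => t - η) c hf₁c.continuousOn (by fun_prop),
      cfc_sub (fun t => t) (fun _ => η) c (by fun_prop) (by fun_prop), cfc_id' ℝ c hcsa,
      cfc_const η c hcsa]
  refine ⟨cfc f₁ c, cfc f c, cfc k c,
    (show IsSelfAdjoint (cfc f₁ c) from cfc_predicate _ _).star_eq,
    (show IsSelfAdjoint (cfc f c) from cfc_predicate _ _).star_eq, ?_, ?_, ?_⟩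
  · rw [← hFe]
    refine cfc_nonneg fun t _ => ?_
    simp only [hF]
    rcases le_total t η with h | h
    · have : f₁ t = 0 := cl_of_nonpos (div_nonpos_of_nonpos_of_nonneg (by linarith) hη.le)
      rw [this]; simp
    · have h1 : 0 ≤ f₁ t := cl_nonneg _
      have h2 : 0 ≤ t - η := by linarith
      positivity
  · rw [← hFe, ← cfc_mul F k c hFc.continuousOn hkc.continuousOn]
    refine cfc_congr fun t _ => ?_
    show f t = F t * (f t / max (F t) η)
    rcases le_total t (2 * η) with h | h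
    · have : f t = 0 := cl_of_nonpos (div_nonpos_of_nonpos_of_nonneg (by linarith) hη.le)
      rw [this]; simp
    · have h1 : f₁ t = 1 := cl_of_one_le (by rw [le_div_iff₀ hη]; linarith)
      have h2 : F t = t - η := by simp only [hF]; rw [h1]; ring
      rw [h2, max_eq_left (by linarith)]
      have : t - η ≠ 0 := by linarith
      field_simp
  · have e1 : (1 : A) - cfc f c = cfc (fun t => 1 - f t) c := by
      rw [cfc_sub (fun _ : ℝ => (1:ℝ)) f c (by fun_prop) hfc.continuousOn, cfc_const_one ℝ c]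
    have e2 : c + algebraMap ℝ A η = cfc (fun t => t + η) c := by
      rw [cfc_add c (fun t => t) (fun _ => η) (by fun_prop) (by fun_prop), cfc_id' ℝ c hcsa,
        cfc_const η c hcsa]
    have hgc : Continuous (fun t => 1 - f t) := continuous_const.sub hfc
    rw [e1, e2, ← cfc_mul (fun t => 1 - f t) (fun t => t + η) c hgc.continuousOn (by fun_prop),
      ← cfc_mul (fun t => (1 - f t) * (t + η)) (fun t => 1 - f t) c
        (hgc.mul (by fun_prop)).continuousOn hgc.continuousOn]
    refine norm_cfc_le (by positivity) fun t ht => ?_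
    have ht0 : 0 ≤ t := spec_nonneg hc ht
    rw [Real.norm_eq_abs]
    rcases le_total t (3 * η) with h | h
    · have h1 : 0 ≤ f t := cl_nonneg _
      have h2 : f t ≤ 1 := cl_le_one _
      have h3 : 0 ≤ 1 - f t := by linarith
      rw [abs_of_nonneg (by positivity)]
      have h4 : (1 - f t) * (t + η) ≤ 1 * (4 * η) :=
        mul_le_mul (by linarith) (by linarith) (by positivity) zero_le_one
      have h5 : (1 - f t) * (t + η) * (1 - f t) ≤ (1 * (4 * η)) * 1 :=
        mul_le_mul h4 (by linarith) h3 (by positivity)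
      linarith
    · have h1 : f t = 1 := cl_of_one_le (by rw [le_div_iff₀ hη]; linarith)
      rw [h1]; simp; positivity

end CutA

section NearIdeal

variable {A B : Type*} [CStarAlgebra A] [PartialOrder A] [StarOrderedRing A]
  [CStarAlgebra B] [PartialOrder B] [StarOrderedRing B]

lemma map_algebraMap_real (φ : A →⋆ₐ[ℂ] B) (c : ℝ) : φ (algebraMap ℝ A c) = algebraMap ℝ B c := by
  rw [Algebra.algebraMap_eq_smul_one, Algebra.algebraMap_eq_smul_one]
  have : (c • (1 : A)) = (c : ℂ) • (1 : A) := by simp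
  rw [this, map_smul, map_one]
  simp

/-- if `V b V^* ≈ ι c` then `V b V^* ≤ ι c + η` and `ι c - η ≤ V b V^*`. -/
lemma sandwich (φ : A →⋆ₐ[ℂ] B) {X : B} (hX : star X = X) {c : A} (hc : star c = c) {η : ℝ}
    (h : ‖X - φ c‖ ≤ η) :
    X ≤ φ (c + algebraMap ℝ A η) ∧ φ (c - algebraMap ℝ A η) ≤ X := by
  have hsa : IsSelfAdjoint (X - φ c) := by
    rw [IsSelfAdjoint, star_sub, hX, ← map_star, hc]
  have hsa' : IsSelfAdjoint (φ c - X) := by
    rw [IsSelfAdjoint, star_sub, hX, ← map_star, hc]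
  constructor
  · have h1 : X - φ c ≤ algebraMap ℝ B η :=
      hsa.le_algebraMap_norm_self.trans (algebraMap_mono B h)
    rw [map_add, map_algebraMap_real]
    rw [sub_le_iff_le_add] at h1
    rwa [add_comm]
  · have h1 : φ c - X ≤ algebraMap ℝ B η :=
      hsa'.le_algebraMap_norm_self.trans (algebraMap_mono B (by rwa [norm_sub_rev]))
    rw [map_sub, map_algebraMap_real, sub_le_iff_le_add, add_comm]
    rwa [sub_le_iff_le_add] at h1

/-- if the cut-down of `c` is in `J`, then `y V^*` is close to `J`. -/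
lemma near_ideal (φ : A →⋆ₐ[ℂ] B) {J : Set B} (hJ : IsClosedIdeal J) (y V : B) (c e : A)
    (hc : star c = c) (he : star e = e) (heJ : φ e ∈ J) (η : ℝ)
    (hclose : ‖V * (star y * y) * star V - φ c‖ ≤ η)
    (hcut : ‖(1 - e) * (c + algebraMap ℝ A η) * (1 - e)‖ ≤ 4 * η) :
    ∃ β ∈ J, ‖y * star V - β‖ ^ 2 ≤ 4 * η := by
  refine ⟨y * star V * φ e, hJ.mul_mem_left _ heJ, ?_⟩
  have hX : star (V * (star y * y) * star V) = V * (star y * y) * star V := by
    simp only [star_mul, star_star]; noncomm_ring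
  have h1 := (sandwich φ hX hc hclose).1
  set P : B := 1 - φ e with hP
  have hPs : star P = P := by rw [hP, star_sub, star_one, ← map_star, he]
  have e1 : y * star V - y * star V * φ e = y * star V * P := by rw [hP]; noncomm_ring
  have e2 : ‖y * star V * P‖ ^ 2 = ‖P * (V * (star y * y) * star V) * P‖ := by
    rw [sq, ← CStarRing.norm_star_mul_self]
    congr 1
    simp only [star_mul, star_star, hPs]; noncomm_ring
  rw [e1, e2]
  have h2 := star_right_conjugate_le_conjugate h1 P
  rw [hPs] at h2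
  have h3 : 0 ≤ P * (V * (star y * y) * star V) * P := by
    have : P * (V * (star y * y) * star V) * P = star (y * star V * P) * (y * star V * P) := by
      simp only [star_mul, star_star, hPs]; noncomm_ring
    rw [this]; exact star_mul_self_nonneg _
  refine (CStarAlgebra.norm_le_norm_of_nonneg_of_le h3 h2).trans ?_
  have e3 : P * φ (c + algebraMap ℝ A η) * P = φ ((1 - e) * (c + algebraMap ℝ A η) * (1 - e)) := by
    rw [hP, map_mul, map_mul, map_sub, map_one]
  rw [e3]
  exact (NonUnitalStarAlgHom.norm_apply_le φ _).trans hcut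

end NearIdeal

section LowerInverse

variable {B : Type*} [CStarAlgebra B] [PartialOrder B] [StarOrderedRing B]

/-- inverse of an element bounded below -/
lemma exists_inverse_of_le (Q : B) (r : ℝ) (hr : 0 < r) (h : algebraMap ℝ B r ≤ Q) :
    ∃ R : B, Q * R = 1 ∧ ‖R‖ ≤ 1 / r := by
  have h0 : 0 ≤ Q := by
    refine le_trans ?_ h
    rw [Algebra.algebraMap_eq_smul_one]
    exact smul_nonneg hr.le (by simp)
  have hQ : IsSelfAdjoint Q := .of_nonneg h0
  have hspec : ∀ t ∈ spectrum ℝ Q, r ≤ t := (algebraMap_le_iff_le_spectrum (a := Q)).mp h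
  have hc : Continuous (fun t : ℝ => 1 / max t r) :=
    continuous_const.div (by fun_prop) fun t => (lt_of_lt_of_le hr (le_max_right _ _)).ne'
  refine ⟨cfc (fun t : ℝ => 1 / max t r) Q, ?_, ?_⟩
  · have : Q * cfc (fun t : ℝ => 1 / max t r) Q = cfc (fun t : ℝ => t * (1 / max t r)) Q := by
      rw [cfc_mul (fun t : ℝ => t) (fun t : ℝ => 1 / max t r) Q (by fun_prop) hc.continuousOn,
        cfc_id' ℝ Q]
    rw [this, ← cfc_const_one ℝ Q]
    refine cfc_congr fun t ht => ?_
    have h1 := hspec t ht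
    show t * (1 / max t r) = 1
    rw [max_eq_left h1]
    have : t ≠ 0 := by linarith
    field_simp
  · refine norm_cfc_le (by positivity) fun t _ => ?_
    have h1 : 0 < max t r := lt_of_lt_of_le hr (le_max_right _ _)
    rw [Real.norm_eq_abs, abs_of_nonneg (by positivity)]
    exact one_div_le_one_div_of_le hr (le_max_right _ _)

/-- Cauchy-Schwarz -/
lemma sum_sq_le {κ : Type*} (S : Finset κ) (X : κ → B) (hX : ∀ k ∈ S, star (X k) = X k) :
    (∑ k ∈ S, X k) * (∑ k ∈ S, X k) ≤ (S.card : ℝ) • ∑ k ∈ S, X k * X k := by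
  have h1 : 0 ≤ ∑ k ∈ S, ∑ l ∈ S, (X k - X l) * (X k - X l) := by
    refine Finset.sum_nonneg fun k hk => Finset.sum_nonneg fun l hl => ?_
    have := star_mul_self_nonneg (X k - X l)
    rwa [star_sub, hX k hk, hX l hl] at this
  have e1 : ∑ k ∈ S, ∑ l ∈ S, (X k - X l) * (X k - X l) =
      ((S.card : ℝ) • ∑ k ∈ S, X k * X k - (∑ k ∈ S, X k) * (∑ k ∈ S, X k)) +
      ((S.card : ℝ) • ∑ k ∈ S, X k * X k - (∑ k ∈ S, X k) * (∑ k ∈ S, X k)) := by
    have e2 : ∀ k l, (X k - X l) * (X k - X l) = X k * X k - X k * X l - X l * X k + X l * X l := by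
      intro k l; noncomm_ring
    simp only [e2, Finset.sum_add_distrib, Finset.sum_sub_distrib, Finset.sum_const]
    rw [Finset.sum_mul_sum]
    have e3 : ∑ k ∈ S, ∑ l ∈ S, X l * X k = ∑ k ∈ S, ∑ l ∈ S, X k * X l := Finset.sum_comm
    rw [e3, ← Finset.smul_sum, Nat.cast_smul_eq_nsmul]
    abel
  rw [e1] at h1
  set D : B := (S.card : ℝ) • ∑ k ∈ S, X k * X k - (∑ k ∈ S, X k) * (∑ k ∈ S, X k) with hD
  have h2 : 0 ≤ (1 / 2 : ℝ) • (D + D) := smul_nonneg (by norm_num) h1
  have h3 : (1 / 2 : ℝ) • (D + D) = D := by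
    rw [← two_smul ℝ D, smul_smul]; norm_num
  rw [h3, hD] at h2
  exact sub_nonneg.mp h2

end LowerInverse

end MP9b5ea5
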