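import Pool.Agent.H63.PI.C2

open scoped ComplexOrder

set_option linter.unusedSectionVars false

universe u

namespace MP9b5ea5

section Block

variable {A B : Type u} [CStarAlgebra A] [PartialOrder A] [StarOrderedRing A]
  [CStarAlgebra B] [PartialOrder B] [StarOrderedRing B] {α : A ≃⋆ₐ[ℂ] A} {ι : A →⋆ₐ[ℂ] B}
  {w : unitary B}

/-- the coded coefficients -/
noncomputable def codeCoeff (α : A ≃⋆ₐ[ℂ] A) (M : ℕ) (c z : ℕ → A) (r : ℕ) : A :=
  ∑ x ∈ (Finset.range (M + 1) ×ˢ Finset.range (M + 1)).filter (fun x => x.1 + x.2 = r),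
    α.symm^[x.2] (c x.1) * z x.2

/-- the row used for compression -/
noncomputable def row (ι : A →⋆ₐ[ℂ] B) (w : unitary B) (M : ℕ) (z : ℕ → A) : B :=
  ∑ j ∈ Finset.range (M + 1), pw w j * ι (z j)

omit [PartialOrder A] [StarOrderedRing A] [PartialOrder B] [StarOrderedRing B] in
lemma poly_mul_row (hcov : Cov α ι w) (M : ℕ) (c z : ℕ → A) :
    (∑ k ∈ Finset.range (M + 1), pw w k * ι (c k)) * row ι w M z =
      ∑ r ∈ Finset.range (2 * M + 1), pw w r * ι (codeCoeff α M c z r) := by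
  have hmove : ∀ (a : A) (j : ℕ), ι a * pw w j = pw w j * ι (α.symm^[j] a) := by
    intro a j
    rw [hcov.iter_symm]
    calc ι a * pw w j = (pw w j * pw w (-j)) * ι a * pw w j := by rw [pw_mul_neg, one_mul]
      _ = _ := by noncomm_ring
  have h1 : (∑ k ∈ Finset.range (M + 1), pw w k * ι (c k)) * row ι w M z =
      ∑ x ∈ Finset.range (M + 1) ×ˢ Finset.range (M + 1),
        pw w ((x.1 + x.2 : ℕ) : ℤ) * ι (α.symm^[x.2] (c x.1) * z x.2) := by
    rw [row, Finset.sum_mul_sum, Finset.sum_product]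
    refine Finset.sum_congr rfl fun k _ => Finset.sum_congr rfl fun j _ => ?_
    have : ((k + j : ℕ) : ℤ) = k + j := by push_cast; ring
    rw [this, pw_add, map_mul]
    calc pw w k * ι (c k) * (pw w j * ι (z j)) = pw w k * (ι (c k) * pw w j) * ι (z j) := by
          noncomm_ring
      _ = _ := by rw [hmove]; noncomm_ring
  rw [h1, ← Finset.sum_fiberwise_of_maps_to (t := Finset.range (2 * M + 1))
    (g := fun x : ℕ × ℕ => x.1 + x.2)]
  · refine Finset.sum_congr rfl fun r _ => ?_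
    rw [codeCoeff, map_sum, Finset.mul_sum]
    refine Finset.sum_congr rfl fun x hx => ?_
    rw [(Finset.mem_filter.mp hx).2]
  · intro x hx
    rw [Finset.mem_product, Finset.mem_range, Finset.mem_range] at hx
    rw [Finset.mem_range]
    omega

/-- a half tower of height `2 M + 1` -/
structure HalfTower (α : A ≃⋆ₐ[ℂ] A) (M : ℕ) (F : Finset A) (ε : ℝ) (U : ℕ → A) : Prop where
  nonneg : ∀ m < 2 * M + 1, 0 ≤ U m
  norm_le : ∀ m < 2 * M + 1, ‖U m‖ ≤ 1
  equi : ∀ m, m + 1 < 2 * M + 1 → ‖α (U m) - U (m + 1)‖ < ε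
  off : ∀ m, 1 ≤ m → m < 2 * M + 1 → ‖U 0 * U m‖ ≤ ε
  orth : ∀ i < M + 1, ∀ j < M + 1, i ≠ j → ‖U i * U j‖ ≤ ε
  comm : ∀ a ∈ F, ‖U 0 * a - a * U 0‖ ≤ ε

lemma block_gram (hcov : Cov α ι w) (M : ℕ) (z : ℕ → A) (εz ε : ℝ) (hε : 0 < ε) (F : Finset A)
    (hz : ∀ i < M + 1, ∀ j < M + 1, ‖z i * star (z j) - (if i = j then 1 else 0)‖ ≤ εz)
    (hz2 : ∀ i < M + 1, ‖z i‖ ≤ 2) (U : ℕ → A) (hU : HalfTower α M F ε U)
    (hzF : ∀ i < M + 1, z i ∈ F) :
    ‖row ι w M z * ι (U 0) * star (row ι w M z * ι (U 0)) -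
      (∑ i ∈ Finset.range (M + 1), ι (U i)) * (∑ i ∈ Finset.range (M + 1), ι (U i))‖ ≤
      (M + 1) ^ 2 * (7 * ε + εz) := by
  set G : B := ι (U 0) with hG
  have hGs : star G = G := by
    rw [hG, ← map_star, (IsSelfAdjoint.of_nonneg (hU.nonneg 0 (by omega))).star_eq]
  have hG1 : ‖G‖ ≤ 1 := (NonUnitalStarAlgHom.norm_apply_le ι _).trans (hU.norm_le 0 (by omega))
  have hεz : 0 ≤ εz := (norm_nonneg _).trans (hz 0 (by omega) 0 (by omega))
  set ζ : ℕ → B := fun j => ι (z j) with hζ
  have hζn : ∀ j < M + 1, ‖ζ j‖ ≤ 2 := fun j hj =>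
    (NonUnitalStarAlgHom.norm_apply_le ι _).trans (hz2 j hj)
  have hcomm : ∀ j < M + 1, ‖G * ζ j - ζ j * G‖ ≤ ε := by
    intro j hj
    rw [hG, hζ]
    simp only
    rw [← map_mul, ← map_mul, ← map_sub]
    exact (NonUnitalStarAlgHom.norm_apply_le ι _).trans (hU.comm _ (hzF j hj))
  have hcomm' : ∀ j < M + 1, ‖G * star (ζ j) - star (ζ j) * G‖ ≤ ε := by
    intro j hj
    have : G * star (ζ j) - star (ζ j) * G = -star (G * ζ j - ζ j * G) := by
      rw [star_sub, star_mul, star_mul, hGs]; abel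
    rw [this, norm_neg, norm_star]
    exact hcomm j hj
  have hzz : ∀ i < M + 1, ∀ j < M + 1, ‖ζ i * star (ζ j) - (if i = j then 1 else 0)‖ ≤ εz := by
    intro i hi j hj
    have : ζ i * star (ζ j) - (if i = j then 1 else 0) =
        ι (z i * star (z j) - (if i = j then 1 else 0)) := by
      rw [map_sub, map_mul, map_star]
      congr 1
      split_ifs <;> simp
    rw [this]
    exact (NonUnitalStarAlgHom.norm_apply_le ι _).trans (hz i hi j hj)
  -- first step
  have hterm : ∀ i < M + 1, ∀ j < M + 1,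
      ‖ζ i * G * (G * star (ζ j)) - (if i = j then G * G else 0)‖ ≤ 4 * ε + εz := by
    intro i hi j hj
    have e1 : ζ i * G * (G * star (ζ j)) - (if i = j then G * G else 0) =
        -((G * ζ i - ζ i * G) * G * star (ζ j)) + G * ζ i * (G * star (ζ j) - star (ζ j) * G) +
        G * (ζ i * star (ζ j) - (if i = j then 1 else 0)) * G := by
      by_cases hij : i = j
      · rw [if_pos hij, if_pos hij]; noncomm_ring
      · rw [if_neg hij, if_neg hij]; noncomm_ring
    rw [e1]
    have k1 : ‖-((G * ζ i - ζ i * G) * G * star (ζ j))‖ ≤ ε * 1 * 2 := by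
      rw [norm_neg]
      refine (norm_mul_le _ _).trans (mul_le_mul ?_ ?_ (norm_nonneg _) (by positivity))
      · exact (norm_mul_le _ _).trans (mul_le_mul (hcomm i hi) hG1 (norm_nonneg _) hε.le)
      · rw [norm_star]; exact hζn j hj
    have k2 : ‖G * ζ i * (G * star (ζ j) - star (ζ j) * G)‖ ≤ 1 * 2 * ε := by
      refine (norm_mul_le _ _).trans (mul_le_mul ?_ (hcomm' j hj) (norm_nonneg _) (by positivity))
      exact (norm_mul_le _ _).trans (mul_le_mul hG1 (hζn i hi) (norm_nonneg _) zero_le_one)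
    have k3 : ‖G * (ζ i * star (ζ j) - (if i = j then 1 else 0)) * G‖ ≤ 1 * εz * 1 := by
      refine (norm_mul_le _ _).trans (mul_le_mul ?_ hG1 (norm_nonneg _) (by positivity))
      exact (norm_mul_le _ _).trans (mul_le_mul hG1 (hzz i hi j hj) (norm_nonneg _) zero_le_one)
    refine norm_add₃_le.trans ?_
    linarith
  have hexp : row ι w M z * G * star (row ι w M z * G) =
      ∑ i ∈ Finset.range (M + 1), ∑ j ∈ Finset.range (M + 1),
        pw w i * (ζ i * G * (G * star (ζ j))) * pw w (-j) := by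
    rw [row, Finset.sum_mul, star_sum, Finset.sum_mul_sum]
    refine Finset.sum_congr rfl fun i _ => Finset.sum_congr rfl fun j _ => ?_
    simp only [star_mul, star_pw, hGs, hζ]; noncomm_ring
  have s1 : ‖row ι w M z * G * star (row ι w M z * G) -
      ∑ i ∈ Finset.range (M + 1), pw w i * (G * G) * pw w (-i)‖ ≤
      (M + 1) ^ 2 * (4 * ε + εz) := by
    have e2 : ∑ i ∈ Finset.range (M + 1), pw w i * (G * G) * pw w (-i) =
        ∑ i ∈ Finset.range (M + 1), ∑ j ∈ Finset.range (M + 1),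
          pw w i * (if i = j then G * G else 0) * pw w (-j) := by
      refine Finset.sum_congr rfl fun i hi => ?_
      rw [Finset.sum_eq_single_of_mem i hi]
      · rw [if_pos rfl]
      · intro j _ hj
        rw [if_neg (Ne.symm hj)]; simp
    rw [hexp, e2, ← Finset.sum_sub_distrib]
    refine (norm_sum_le _ _).trans ?_
    have h1 : ∀ i ∈ Finset.range (M + 1),
        ‖∑ j ∈ Finset.range (M + 1), pw w i * (ζ i * G * (G * star (ζ j))) * pw w (-j) -
          ∑ j ∈ Finset.range (M + 1), pw w i * (if i = j then G * G else 0) * pw w (-j)‖ ≤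
        (M + 1) * (4 * ε + εz) := by
      intro i hi
      rw [← Finset.sum_sub_distrib]
      refine (norm_sum_le _ _).trans ?_
      have h2 : ∀ j ∈ Finset.range (M + 1),
          ‖pw w i * (ζ i * G * (G * star (ζ j))) * pw w (-j) -
            pw w i * (if i = j then G * G else 0) * pw w (-j)‖ ≤ 4 * ε + εz := by
        intro j hj
        rw [← sub_mul, ← mul_sub, norm_mul_pw, norm_pw_mul]
        exact hterm i (Finset.mem_range.mp hi) j (Finset.mem_range.mp hj)
      refine (Finset.sum_le_sum h2).trans ?_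
      rw [Finset.sum_const, Finset.card_range, nsmul_eq_mul]; push_cast; rfl
    refine (Finset.sum_le_sum h1).trans ?_
    rw [Finset.sum_const, Finset.card_range, nsmul_eq_mul]; push_cast
    refine le_of_eq ?_
    ring
  -- second step
  have s2 : ‖∑ i ∈ Finset.range (M + 1), pw w i * (G * G) * pw w (-i) -
      ∑ i ∈ Finset.range (M + 1), ι (U i) * ι (U i)‖ ≤ (M + 1) * (2 * M * ε) := by
    rw [← Finset.sum_sub_distrib]
    refine (norm_sum_le _ _).trans ?_
    have h1 : ∀ i ∈ Finset.range (M + 1),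
        ‖pw w i * (G * G) * pw w (-i) - ι (U i) * ι (U i)‖ ≤ 2 * M * ε := by
      intro i hi
      rw [Finset.mem_range] at hi
      have h2 := equiv_iter hcov U (2 * M + 1) ε hU.equi 0 i (by omega)
      rw [zero_add, ← hG] at h2
      have h3 : (i : ℝ) ≤ M := by exact_mod_cast (show i ≤ M by omega)
      have h4 : ‖pw w i * G * pw w (-i) - ι (U i)‖ ≤ M * ε :=
        h2.trans (mul_le_mul_of_nonneg_right h3 hε.le)
      have e1 : pw w i * (G * G) * pw w (-i) = (pw w i * G * pw w (-i)) * (pw w i * G * pw w (-i)) := by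
        calc pw w i * (G * G) * pw w (-i) = pw w i * G * 1 * G * pw w (-i) := by noncomm_ring
          _ = pw w i * G * (pw w (-i) * pw w i) * G * pw w (-i) := by rw [pw_neg_mul]
          _ = _ := by noncomm_ring
      set X : B := pw w i * G * pw w (-i) with hX
      have hXn : ‖X‖ ≤ 1 := by rw [hX, norm_mul_pw, norm_pw_mul]; exact hG1
      have hUn : ‖ι (U i)‖ ≤ 1 :=
        (NonUnitalStarAlgHom.norm_apply_le ι _).trans (hU.norm_le i (by omega))
      have e2 : X * X - ι (U i) * ι (U i) = (X - ι (U i)) * X + ι (U i) * (X - ι (U i)) := by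
        noncomm_ring
      rw [e1, e2]
      refine (norm_add_le _ _).trans ?_
      have k1 : ‖(X - ι (U i)) * X‖ ≤ (M * ε) * 1 :=
        (norm_mul_le _ _).trans (mul_le_mul h4 hXn (norm_nonneg _) (by positivity))
      have k2 : ‖ι (U i) * (X - ι (U i))‖ ≤ 1 * (M * ε) :=
        (norm_mul_le _ _).trans (mul_le_mul hUn h4 (norm_nonneg _) zero_le_one)
      linarith
    refine (Finset.sum_le_sum h1).trans ?_
    rw [Finset.sum_const, Finset.card_range, nsmul_eq_mul]; push_cast; rfl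
  -- third step
  have s3 : ‖∑ i ∈ Finset.range (M + 1), ι (U i) * ι (U i) -
      (∑ i ∈ Finset.range (M + 1), ι (U i)) * (∑ i ∈ Finset.range (M + 1), ι (U i))‖ ≤
      (M + 1) ^ 2 * ε := by
    have e1 : (∑ i ∈ Finset.range (M + 1), ι (U i)) * (∑ i ∈ Finset.range (M + 1), ι (U i)) =
        ∑ i ∈ Finset.range (M + 1), ι (U i) * ι (U i) +
        ∑ i ∈ Finset.range (M + 1), ∑ j ∈ (Finset.range (M + 1)).erase i, ι (U i) * ι (U j) := by
      rw [Finset.sum_mul_sum, ← Finset.sum_add_distrib]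
      refine Finset.sum_congr rfl fun i hi => ?_
      rw [Finset.add_sum_erase (Finset.range (M + 1)) (fun j => ι (U i) * ι (U j)) hi]
    rw [e1, sub_add_cancel_left, norm_neg]
    refine (norm_sum_le _ _).trans ?_
    have h1 : ∀ i ∈ Finset.range (M + 1),
        ‖∑ j ∈ (Finset.range (M + 1)).erase i, ι (U i) * ι (U j)‖ ≤ (M + 1) * ε := by
      intro i hi
      refine (norm_sum_le _ _).trans ?_
      have h2 : ∀ j ∈ (Finset.range (M + 1)).erase i, ‖ι (U i) * ι (U j)‖ ≤ ε := by
        intro j hj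
        rw [← map_mul]
        refine (NonUnitalStarAlgHom.norm_apply_le ι _).trans ?_
        exact hU.orth i (Finset.mem_range.mp hi) j
          (Finset.mem_range.mp (Finset.mem_of_mem_erase hj)) (Finset.ne_of_mem_erase hj).symm
      refine (Finset.sum_le_sum h2).trans ?_
      rw [Finset.sum_const, nsmul_eq_mul]
      refine mul_le_mul_of_nonneg_right ?_ hε.le
      have : ((Finset.range (M + 1)).erase i).card ≤ M + 1 := by
        refine (Finset.card_le_card (Finset.erase_subset _ _)).trans ?_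
        rw [Finset.card_range]
      exact_mod_cast this
    refine (Finset.sum_le_sum h1).trans ?_
    rw [Finset.sum_const, Finset.card_range, nsmul_eq_mul]; push_cast
    refine le_of_eq ?_
    ring
  have e4 : row ι w M z * G * star (row ι w M z * G) -
      (∑ i ∈ Finset.range (M + 1), ι (U i)) * (∑ i ∈ Finset.range (M + 1), ι (U i)) =
      (row ι w M z * G * star (row ι w M z * G) -
        ∑ i ∈ Finset.range (M + 1), pw w i * (G * G) * pw w (-i)) +
      (∑ i ∈ Finset.range (M + 1), pw w i * (G * G) * pw w (-i) -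
        ∑ i ∈ Finset.range (M + 1), ι (U i) * ι (U i)) +
      (∑ i ∈ Finset.range (M + 1), ι (U i) * ι (U i) -
        (∑ i ∈ Finset.range (M + 1), ι (U i)) * (∑ i ∈ Finset.range (M + 1), ι (U i))) := by
    abel
  rw [e4]
  refine norm_add₃_le.trans ?_
  refine (add_le_add (add_le_add s1 s2) s3).trans ?_
  have hM : (0 : ℝ) ≤ M := Nat.cast_nonneg M
  have : (M + 1 : ℝ) * (2 * M * ε) ≤ (M + 1) ^ 2 * (2 * ε) := by
    have h1 : (M + 1 : ℝ) * (2 * M * ε) = (M + 1) * M * (2 * ε) := by ring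
    rw [h1, sq]
    have h2 : (M + 1 : ℝ) * M ≤ (M + 1) * (M + 1) := by nlinarith
    exact mul_le_mul_of_nonneg_right h2 (by positivity)
  calc (M + 1 : ℝ) ^ 2 * (4 * ε + εz) + (M + 1) * (2 * M * ε) + (M + 1) ^ 2 * ε
      ≤ (M + 1 : ℝ) ^ 2 * (4 * ε + εz) + (M + 1) ^ 2 * (2 * ε) + (M + 1) ^ 2 * ε := by linarith
    _ = (M + 1 : ℝ) ^ 2 * (7 * ε + εz) := by ring

/-- compression of a polynomial to `A` by a block. -/
lemma block_compress (hcov : Cov α ι w) (M : ℕ) (c z : ℕ → A) (ε : ℝ) (hε : 0 < ε) (F : Finset A)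
    (U : ℕ → A) (hU : HalfTower α M F ε U)
    (haF : ∀ r < 2 * M + 1, codeCoeff α M c z r ∈ F) (S : ℝ)
    (hS : ∑ r ∈ Finset.range (2 * M + 1), ‖ι (codeCoeff α M c z r)‖ = S) :
    ‖star ((∑ k ∈ Finset.range (M + 1), pw w k * ι (c k)) * (row ι w M z * ι (U 0))) *
        ((∑ k ∈ Finset.range (M + 1), pw w k * ι (c k)) * (row ι w M z * ι (U 0))) -
      ι (∑ r ∈ Finset.range (2 * M + 1),
        star (codeCoeff α M c z r * U 0) * (codeCoeff α M c z r * U 0))‖ ≤
      (2 * S * (2 * M + 1) + S ^ 2 + 2 * S) * ((2 * M + 1) * ε) := by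
  set G : B := ι (U 0) with hG
  have hGs : star G = G := by
    rw [hG, ← map_star, (IsSelfAdjoint.of_nonneg (hU.nonneg 0 (by omega))).star_eq]
  have hG1 : ‖G‖ ≤ 1 := (NonUnitalStarAlgHom.norm_apply_le ι _).trans (hU.norm_le 0 (by omega))
  set a : ℕ → A := codeCoeff α M c z with ha
  have hM : (0 : ℝ) ≤ M := Nat.cast_nonneg M
  have hε1 : ε ≤ (2 * M + 1) * ε := by nlinarith
  have hcut := cut_estimate (w := w) (2 * M) (fun r => ι (a r)) G hGs hG1 ((2 * M + 1) * ε)
    (by positivity) (fun r hr => by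
      simp only [hG]
      rw [← map_mul, ← map_mul, ← map_sub]
      exact ((NonUnitalStarAlgHom.norm_apply_le ι _).trans (hU.comm _ (haF r hr))).trans hε1)
    (fun m hm1 hm2 => by
      have h2 := equiv_iter hcov U (2 * M + 1) ε hU.equi 0 m (by omega)
      rw [zero_add, ← hG] at h2
      have h3 : (m : ℝ) ≤ 2 * M := by exact_mod_cast hm2
      have h4 : ‖pw w m * G * pw w (-m) - ι (U m)‖ ≤ 2 * M * ε :=
        h2.trans (mul_le_mul_of_nonneg_right h3 hε.le)
      have e1 : ‖G * pw w m * G‖ = ‖G * (pw w m * G * pw w (-m))‖ := by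
        rw [← norm_mul_pw w (-m) (G * pw w m * G)]
        congr 1; noncomm_ring
      have e2 : G * (pw w m * G * pw w (-m)) = G * (pw w m * G * pw w (-m) - ι (U m)) +
          G * ι (U m) := by noncomm_ring
      rw [e1, e2]
      refine (norm_add_le _ _).trans ?_
      have k1 : ‖G * (pw w m * G * pw w (-m) - ι (U m))‖ ≤ 1 * (2 * M * ε) :=
        (norm_mul_le _ _).trans (mul_le_mul hG1 h4 (norm_nonneg _) zero_le_one)
      have k2 : ‖G * ι (U m)‖ ≤ ε := by
        rw [hG, ← map_mul]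
        exact (NonUnitalStarAlgHom.norm_apply_le ι _).trans (hU.off m hm1 (by omega))
      linarith) S hS
  have e3 : (∑ k ∈ Finset.range (M + 1), pw w k * ι (c k)) * (row ι w M z * G) =
      (∑ r ∈ Finset.range (2 * M + 1), pw w r * ι (a r)) * G := by
    rw [← mul_assoc, poly_mul_row hcov]
  have e4 : ι (∑ r ∈ Finset.range (2 * M + 1), star (a r * U 0) * (a r * U 0)) =
      ∑ r ∈ Finset.range (2 * M + 1), star (ι (a r) * G) * (ι (a r) * G) := by
    rw [map_sum]
    refine Finset.sum_congr rfl fun r _ => ?_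
    rw [map_mul, map_star, map_mul]
  rw [e3, e4]
  refine hcut.trans (le_of_eq ?_)
  push_cast
  ring

end Block

end MP9b5ea5
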