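import Pool.Agent.H63.PI.C3

open scoped ComplexOrder

set_option linter.unusedSectionVars false

universe u

namespace MP9b5ea5

section Towers

variable {A : Type u} [CStarAlgebra A] [PartialOrder A] [StarOrderedRing A] {α : A ≃⋆ₐ[ℂ] A}

/-- index of the `q = 0` level -/
def i0 (M : ℕ) (s : Fin 2) (m : ℕ) : ℕ := if s = 0 then m else if m ≤ M then M + m else m - (M + 1)

/-- index of the `q = 1` level -/
def i1 (M : ℕ) (s : Fin 2) (m : ℕ) : ℕ :=
  if s = 0 then m else if m ≤ M then M + 1 + m else m - (M + 1)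

lemma real_smul_equiv (α : A ≃⋆ₐ[ℂ] A) (r : ℝ) (x : A) : α (r • x) = r • α x := by
  rw [← Complex.coe_smul, map_smul, Complex.coe_smul]

lemma exists_halfTowers {d : ℕ} (hR : RokhlinDimLE α d) (M : ℕ) (F : Finset A) (ε : ℝ)
    (hε : 0 < ε) (hε1 : ε ≤ 1) :
    ∃ (U : Fin (d + 1) × Fin 2 → ℕ → A) (E : A), (∀ k, HalfTower α M F ε (U k)) ∧
      ‖E - 1‖ < ε ∧ 0 ≤ E ∧ (1 / 2 : ℝ) • E ≤ ∑ k, ∑ i ∈ Finset.range (M + 1), U k i ∧
      (∀ k, ‖∑ i ∈ Finset.range (M + 1), U k i‖ ≤ 1) := by
  obtain ⟨f, hf1, hf2, hf3, hf4, hf5, hf6⟩ := hR F ε hε (2 * M + 1) (by omega)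
  set E : A := ∑ l : Fin (d + 1), ∑ q : Fin 2, ∑ j ∈ Finset.range (2 * M + 1 + (q : ℕ)), f l q j
    with hE
  let V : Fin (d + 1) → Fin 2 → ℕ → A := fun l s m => f l 0 (i0 M s m) + f l 1 (i1 M s m)
  have b0 : ∀ s m, m < 2 * M + 1 → i0 M s m < 2 * M + 1 + ((0 : Fin 2) : ℕ) := by
    intro s m hm; unfold i0; simp only [Fin.val_zero]; split_ifs <;> omega
  have b1 : ∀ s m, m < 2 * M + 1 → i1 M s m < 2 * M + 1 + ((1 : Fin 2) : ℕ) := by
    intro s m hm; unfold i1; simp only [Fin.val_one]; split_ifs <;> omega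
  have f0pos : ∀ l, ∀ j < 2 * M + 1, 0 ≤ f l 0 j := fun l j hj => (hf1 l 0 j (by simpa using hj)).1
  have f1pos : ∀ l, ∀ j < 2 * M + 2, 0 ≤ f l 1 j := fun l j hj =>
    (hf1 l 1 j (by simp only [Fin.val_one]; omega)).1
  have hVpos : ∀ l s m, m < 2 * M + 1 → 0 ≤ V l s m := fun l s m hm =>
    add_nonneg (hf1 l 0 _ (b0 s m hm)).1 (hf1 l 1 _ (b1 s m hm)).1
  have hVn : ∀ l s m, m < 2 * M + 1 → ‖V l s m‖ ≤ 2 := fun l s m hm => by
    refine (norm_add_le _ _).trans ?_
    have h0 := (hf1 l 0 _ (b0 s m hm)).2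
    have h1 := (hf1 l 1 _ (b1 s m hm)).2
    linarith
  have hVV : ∀ l s m m', m < 2 * M + 1 → m' < 2 * M + 1 → i0 M s m ≠ i0 M s m' →
      i1 M s m ≠ i1 M s m' → ‖V l s m * V l s m'‖ ≤ 4 * ε := by
    intro l s m m' hm hm' h0 h1
    have e : V l s m * V l s m' = f l 0 (i0 M s m) * f l 0 (i0 M s m') +
        f l 0 (i0 M s m) * f l 1 (i1 M s m') + (f l 1 (i1 M s m) * f l 0 (i0 M s m') +
        f l 1 (i1 M s m) * f l 1 (i1 M s m')) := by
      simp only [V]; noncomm_ring
    rw [e]
    have k1 := hf4 l 0 (i0 M s m) 0 (i0 M s m') (b0 s m hm) (b0 s m' hm') (by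
      intro h; rw [Prod.mk.injEq] at h; exact h0 h.2)
    have k2 := hf4 l 0 (i0 M s m) 1 (i1 M s m') (b0 s m hm) (b1 s m' hm') (by
      intro h; rw [Prod.mk.injEq] at h; exact absurd h.1 (by decide))
    have k3 := hf4 l 1 (i1 M s m) 0 (i0 M s m') (b1 s m hm) (b0 s m' hm') (by
      intro h; rw [Prod.mk.injEq] at h; exact absurd h.1 (by decide))
    have k4 := hf4 l 1 (i1 M s m) 1 (i1 M s m') (b1 s m hm) (b1 s m' hm') (by
      intro h; rw [Prod.mk.injEq] at h; exact h1 h.2)
    have k5 := norm_add_le (f l 0 (i0 M s m) * f l 0 (i0 M s m'))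
      (f l 0 (i0 M s m) * f l 1 (i1 M s m'))
    have k6 := norm_add_le (f l 1 (i1 M s m) * f l 0 (i0 M s m'))
      (f l 1 (i1 M s m) * f l 1 (i1 M s m'))
    refine (norm_add_le _ _).trans ?_
    linarith
  have hVe : ∀ l s m, m + 1 < 2 * M + 1 → ‖α (V l s m) - V l s (m + 1)‖ < 2 * ε := by
    intro l s m hm
    have key : ∀ j j' : ℕ, j + 1 < 2 * M + 1 + ((0 : Fin 2) : ℕ) →
        j' + 1 < 2 * M + 1 + ((1 : Fin 2) : ℕ) →
        ‖α (f l 0 j + f l 1 j') - (f l 0 (j + 1) + f l 1 (j' + 1))‖ < 2 * ε := by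
      intro j j' hj hj'
      have h0 := hf2 l 0 j hj
      have h1 := hf2 l 1 j' hj'
      have e : α (f l 0 j + f l 1 j') - (f l 0 (j + 1) + f l 1 (j' + 1)) =
          (α (f l 0 j) - f l 0 (j + 1)) + (α (f l 1 j') - f l 1 (j' + 1)) := by
        rw [map_add]; abel
      rw [e]
      exact lt_of_le_of_lt (norm_add_le _ _) (by linarith)
    by_cases hs : s = 0
    · have e0 : i0 M s m = m := by simp [i0, hs]
      have e1 : i1 M s m = m := by simp [i1, hs]
      have e0' : i0 M s (m + 1) = m + 1 := by simp [i0, hs]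
      have e1' : i1 M s (m + 1) = m + 1 := by simp [i1, hs]
      simp only [V]
      rw [e0, e1, e0', e1']
      exact key m m (by simp only [Fin.val_zero]; omega) (by simp only [Fin.val_one]; omega)
    · rcases lt_trichotomy m M with h | h | h
      · have e0 : i0 M s m = M + m := by simp [i0, hs, h.le]
        have e1 : i1 M s m = M + 1 + m := by simp [i1, hs, h.le]
        have e0' : i0 M s (m + 1) = M + m + 1 := by
          unfold i0; rw [if_neg hs, if_pos (by omega)]; omega
        have e1' : i1 M s (m + 1) = M + 1 + m + 1 := by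
          unfold i1; rw [if_neg hs, if_pos (by omega)]; omega
        simp only [V]
        rw [e0, e1, e0', e1']
        exact key (M + m) (M + 1 + m) (by simp only [Fin.val_zero]; omega)
          (by simp only [Fin.val_one]; omega)
      · have e0 : i0 M s m = 2 * M + 1 - 1 := by
          unfold i0; rw [if_neg hs, if_pos (by omega)]; omega
        have e1 : i1 M s m = 2 * M + 1 := by
          unfold i1; rw [if_neg hs, if_pos (by omega)]; omega
        have e0' : i0 M s (m + 1) = 0 := by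
          unfold i0; rw [if_neg hs, if_neg (by omega)]; omega
        have e1' : i1 M s (m + 1) = 0 := by
          unfold i1; rw [if_neg hs, if_neg (by omega)]; omega
        simp only [V]
        rw [e0, e1, e0', e1']
        exact (hf3 l).trans (by linarith)
      · have e0 : i0 M s m = m - (M + 1) := by
          unfold i0; rw [if_neg hs, if_neg (by omega)]
        have e1 : i1 M s m = m - (M + 1) := by
          unfold i1; rw [if_neg hs, if_neg (by omega)]
        have e0' : i0 M s (m + 1) = m - (M + 1) + 1 := by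
          unfold i0; rw [if_neg hs, if_neg (by omega)]; omega
        have e1' : i1 M s (m + 1) = m - (M + 1) + 1 := by
          unfold i1; rw [if_neg hs, if_neg (by omega)]; omega
        simp only [V]
        rw [e0, e1, e0', e1']
        exact key (m - (M + 1)) (m - (M + 1)) (by simp only [Fin.val_zero]; omega)
          (by simp only [Fin.val_one]; omega)
  -- partial sums
  have hEl : ∀ l, ∑ j ∈ Finset.range (2 * M + 1), f l 0 j + ∑ j ∈ Finset.range (2 * M + 2), f l 1 j
      = ∑ q : Fin 2, ∑ j ∈ Finset.range (2 * M + 1 + (q : ℕ)), f l q j := by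
    intro l
    rw [Fin.sum_univ_two]
    simp
  have hElpos : ∀ l, 0 ≤ ∑ q : Fin 2, ∑ j ∈ Finset.range (2 * M + 1 + (q : ℕ)), f l q j := by
    intro l
    refine Finset.sum_nonneg fun q _ => Finset.sum_nonneg fun j hj => ?_
    exact (hf1 l q j (Finset.mem_range.mp hj)).1
  have hE0 : 0 ≤ E := Finset.sum_nonneg fun l _ => hElpos l
  have hblockle : ∀ l s, ∑ i ∈ Finset.range (M + 1), V l s i ≤ E := by
    intro l s
    have h1 : ∑ i ∈ Finset.range (M + 1), V l s i ≤
        ∑ q : Fin 2, ∑ j ∈ Finset.range (2 * M + 1 + (q : ℕ)), f l q j := by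
      rw [← hEl, Finset.sum_add_distrib]
      refine add_le_add ?_ ?_
      · have hinj : Set.InjOn (fun i => i0 M s i) (Finset.range (M + 1) : Set ℕ) := by
          intro x hx y hy hxy
          simp only [Finset.coe_range, Set.mem_Iio] at hx hy
          simp only [i0] at hxy
          split_ifs at hxy <;> omega
        rw [← Finset.sum_image (f := fun j => f l 0 j) (g := fun i => i0 M s i) hinj]
        refine Finset.sum_le_sum_of_subset_of_nonneg ?_ fun j hj _ =>
          f0pos l j (Finset.mem_range.mp hj)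
        intro j hj
        rw [Finset.mem_image] at hj
        obtain ⟨i, hi, rfl⟩ := hj
        rw [Finset.mem_range] at hi ⊢
        have := b0 s i (by omega)
        simpa using this
      · have hinj : Set.InjOn (fun i => i1 M s i) (Finset.range (M + 1) : Set ℕ) := by
          intro x hx y hy hxy
          simp only [Finset.coe_range, Set.mem_Iio] at hx hy
          simp only [i1] at hxy
          split_ifs at hxy <;> omega
        rw [← Finset.sum_image (f := fun j => f l 1 j) (g := fun i => i1 M s i) hinj]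
        refine Finset.sum_le_sum_of_subset_of_nonneg ?_ fun j hj _ =>
          f1pos l j (Finset.mem_range.mp hj)
        intro j hj
        rw [Finset.mem_image] at hj
        obtain ⟨i, hi, rfl⟩ := hj
        rw [Finset.mem_range] at hi ⊢
        have := b1 s i (by omega)
        simp only [Fin.val_one] at this
        omega
    refine h1.trans ?_
    rw [hE]
    exact Finset.single_le_sum (f := fun l => ∑ q : Fin 2,
      ∑ j ∈ Finset.range (2 * M + 1 + (q : ℕ)), f l q j) (fun l _ => hElpos l) (Finset.mem_univ l)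
  have hcover : ∀ l, ∑ q : Fin 2, ∑ j ∈ Finset.range (2 * M + 1 + (q : ℕ)), f l q j ≤
      ∑ s : Fin 2, ∑ i ∈ Finset.range (M + 1), V l s i := by
    intro l
    rw [← hEl, Fin.sum_univ_two]
    have e0 : ∑ i ∈ Finset.range (M + 1), V l 0 i = ∑ i ∈ Finset.range (M + 1), f l 0 i +
        ∑ i ∈ Finset.range (M + 1), f l 1 i := by
      rw [← Finset.sum_add_distrib]
      refine Finset.sum_congr rfl fun i _ => ?_
      simp [V, i0, i1]
    have e1 : ∑ i ∈ Finset.range (M + 1), V l 1 i = ∑ i ∈ Finset.range (M + 1), f l 0 (M + i) +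
        ∑ i ∈ Finset.range (M + 1), f l 1 (M + 1 + i) := by
      rw [← Finset.sum_add_distrib]
      refine Finset.sum_congr rfl fun i hi => ?_
      have : i ≤ M := by have := Finset.mem_range.mp hi; omega
      simp [V, i0, i1, this]
    have e2 : ∑ j ∈ Finset.range (2 * M + 1), f l 0 j = ∑ i ∈ Finset.range M, f l 0 i +
        ∑ i ∈ Finset.range (M + 1), f l 0 (M + i) := by
      rw [← Finset.sum_range_add]
      congr 2; omega
    have e3 : ∑ j ∈ Finset.range (2 * M + 2), f l 1 j = ∑ i ∈ Finset.range (M + 1), f l 1 i +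
        ∑ i ∈ Finset.range (M + 1), f l 1 (M + 1 + i) := by
      rw [← Finset.sum_range_add]
      congr 2; omega
    have e4 : ∑ i ∈ Finset.range (M + 1), f l 0 i = ∑ i ∈ Finset.range M, f l 0 i + f l 0 M :=
      Finset.sum_range_succ _ _
    rw [e0, e1, e2, e3, e4]
    have h5 : 0 ≤ f l 0 M := f0pos l M (by omega)
    have e5 : ∑ i ∈ Finset.range M, f l 0 i + f l 0 M + ∑ i ∈ Finset.range (M + 1), f l 1 i +
        (∑ i ∈ Finset.range (M + 1), f l 0 (M + i) + ∑ i ∈ Finset.range (M + 1), f l 1 (M + 1 + i))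
        = (∑ i ∈ Finset.range M, f l 0 i + ∑ i ∈ Finset.range (M + 1), f l 0 (M + i) +
        (∑ i ∈ Finset.range (M + 1), f l 1 i + ∑ i ∈ Finset.range (M + 1), f l 1 (M + 1 + i))) +
        f l 0 M := by abel
    rw [e5]
    exact le_add_of_nonneg_right h5
  refine ⟨fun k m => (1 / 2 : ℝ) • V k.1 k.2 m, E, ?_, hf5, hE0, ?_, ?_⟩
  · rintro ⟨l, s⟩
    refine ⟨?_, ?_, ?_, ?_, ?_, ?_⟩
    · intro m hm
      exact smul_nonneg (by norm_num) (hVpos l s m hm)
    · intro m hm
      show ‖(1 / 2 : ℝ) • V l s m‖ ≤ 1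
      rw [norm_smul]
      have := hVn l s m hm
      norm_num
      linarith
    · intro m hm
      show ‖α ((1 / 2 : ℝ) • V l s m) - (1 / 2 : ℝ) • V l s (m + 1)‖ < ε
      rw [real_smul_equiv, ← smul_sub, norm_smul]
      have := hVe l s m hm
      norm_num
      linarith
    · intro m hm1 hm2
      show ‖(1 / 2 : ℝ) • V l s 0 * (1 / 2 : ℝ) • V l s m‖ ≤ ε
      rw [smul_mul_smul_comm, norm_smul]
      have := hVV l s 0 m (by omega) hm2 (by unfold i0; split_ifs <;> omega)
        (by unfold i1; split_ifs <;> omega)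
      norm_num
      linarith
    · intro i hi j hj hij
      show ‖(1 / 2 : ℝ) • V l s i * (1 / 2 : ℝ) • V l s j‖ ≤ ε
      rw [smul_mul_smul_comm, norm_smul]
      have := hVV l s i j (by omega) (by omega) (by unfold i0; split_ifs <;> omega)
        (by unfold i1; split_ifs <;> omega)
      norm_num
      linarith
    · intro a ha
      show ‖(1 / 2 : ℝ) • V l s 0 * a - a * (1 / 2 : ℝ) • V l s 0‖ ≤ ε
      rw [smul_mul_assoc, mul_smul_comm, ← smul_sub, norm_smul]
      have h0 := hf6 l 0 _ (b0 s 0 (by omega)) a ha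
      have h1 := hf6 l 1 _ (b1 s 0 (by omega)) a ha
      have e : V l s 0 * a - a * V l s 0 = (f l 0 (i0 M s 0) * a - a * f l 0 (i0 M s 0)) +
          (f l 1 (i1 M s 0) * a - a * f l 1 (i1 M s 0)) := by
        simp only [V]; noncomm_ring
      have h2 : ‖V l s 0 * a - a * V l s 0‖ ≤ 2 * ε := by
        rw [e]; exact (norm_add_le _ _).trans (by linarith)
      norm_num
      linarith
  · show (1 / 2 : ℝ) • E ≤ ∑ k : Fin (d + 1) × Fin 2, ∑ i ∈ Finset.range (M + 1),
      (1 / 2 : ℝ) • V k.1 k.2 i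
    simp only [← Finset.smul_sum]
    refine smul_le_smul_of_nonneg_left ?_ (by norm_num)
    rw [Fintype.sum_prod_type, hE]
    exact Finset.sum_le_sum fun l _ => hcover l
  · rintro ⟨l, s⟩
    show ‖∑ i ∈ Finset.range (M + 1), (1 / 2 : ℝ) • V l s i‖ ≤ 1
    rw [← Finset.smul_sum, norm_smul]
    have h1 : 0 ≤ ∑ i ∈ Finset.range (M + 1), V l s i :=
      Finset.sum_nonneg fun i hi => hVpos l s i (by have := Finset.mem_range.mp hi; omega)
    have h2 := CStarAlgebra.norm_le_norm_of_nonneg_of_le h1 (hblockle l s)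
    have h3 : ‖E‖ ≤ 1 + ε := by
      have : E = 1 + (E - 1) := by abel
      rw [this]
      refine (norm_add_le _ _).trans ?_
      have h4 : ‖(1 : A)‖ ≤ 1 := by
        rcases subsingleton_or_nontrivial A with h | h
        · rw [Subsingleton.elim (1 : A) 0]; simp
        · simp
      linarith
    norm_num
    linarith

end Towers

end MP9b5ea5
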