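import Pool.Agent.H63.PI.C4

open scoped ComplexOrder

set_option linter.unusedSectionVars false

universe u

namespace MP9b5ea5

section MainCuts

variable {A B : Type u} [CStarAlgebra A] [PartialOrder A] [StarOrderedRing A]
  [CStarAlgebra B] [PartialOrder B] [StarOrderedRing B] {α : A ≃⋆ₐ[ℂ] A} {ι : A →⋆ₐ[ℂ] B}
  {w : unitary B}

/-- one-sided Fourier approximation -/
def Approx (ι : A →⋆ₐ[ℂ] B) (w : unitary B) : Prop :=
  ∀ (b : B) (ε : ℝ), 0 < ε → ∃ (K M : ℕ) (c : ℕ → A),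
    ‖pw w K * b - ∑ k ∈ Finset.range (M + 1), pw w k * ι (c k)‖ < ε

lemma sq_ge {T : B} {r : ℝ} (hT : 0 ≤ T) (hr : 0 ≤ r) (h : algebraMap ℝ B r ≤ T) :
    algebraMap ℝ B (r * r) ≤ T * T := by
  set t : B := CFC.sqrt T with ht
  have htt : t * t = T := CFC.sqrt_mul_sqrt_self T hT
  have hts : star t = t := (IsSelfAdjoint.of_nonneg (CFC.sqrt_nonneg T)).star_eq
  have h1 := star_right_conjugate_le_conjugate h t
  rw [hts] at h1
  have e1 : t * algebraMap ℝ B r * t = r • T := by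
    rw [← Algebra.commutes r t, mul_assoc, htt, Algebra.smul_def]
  have e2 : t * T * t = T * T := by rw [← htt]; noncomm_ring
  rw [e1, e2] at h1
  refine le_trans ?_ h1
  have h2 := smul_le_smul_of_nonneg_left h hr
  refine le_trans (le_of_eq ?_) h2
  rw [Algebra.algebraMap_eq_smul_one, Algebra.algebraMap_eq_smul_one, smul_smul]

lemma ge_of_close {X Y : B} (hX : star X = X) (hY : star Y = Y) {r δ : ℝ}
    (h : algebraMap ℝ B r ≤ Y) (hc : ‖X - Y‖ ≤ δ) : algebraMap ℝ B (r - δ) ≤ X := by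
  have hsa : IsSelfAdjoint (Y - X) := by rw [IsSelfAdjoint, star_sub, hX, hY]
  have h1 : Y - X ≤ algebraMap ℝ B δ :=
    hsa.le_algebraMap_norm_self.trans (algebraMap_mono B (by rwa [norm_sub_rev]))
  rw [map_sub, sub_le_iff_le_add]
  rw [sub_le_iff_le_add] at h1
  refine h.trans (h1.trans (le_of_eq (add_comm _ _)))

lemma approx_units (hA : PurelyInfinite A) (n : ℕ) (ε : ℝ) (hε : 0 < ε) (hε1 : ε ≤ 1) :
    ∃ z : ℕ → A, (∀ i < n, ∀ j < n, ‖z i * star (z j) - (if i = j then 1 else 0)‖ ≤ ε) ∧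
      (∀ i < n, ‖z i‖ ≤ 2) := by
  have h1 : (0 : A) ≤ 1 := by simp
  have habs : Absorbs (1 : A) 1 := by simpa using absorbs_self hA 1 h1
  obtain ⟨s, z, -, -, hz⟩ := habs.iterate (by simp) n ε hε
  have hz' : ∀ i < n, ∀ j < n, ‖z i * star (z j) - (if i = j then 1 else 0)‖ ≤ ε := by
    intro i hi j hj
    have := hz i hi j hj
    rw [mul_one] at this
    exact this.le
  refine ⟨z, hz', fun i hi => ?_⟩
  have h2 := hz' i hi i hi
  rw [if_pos rfl] at h2
  have h3 : ‖z i‖ * ‖z i‖ ≤ 2 := by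
    rw [← CStarRing.norm_self_mul_star]
    have h4 : ‖(1 : A)‖ ≤ 1 := by
      rcases subsingleton_or_nontrivial A with h | h
      · rw [Subsingleton.elim (1 : A) 0]; simp
      · simp
    have : z i * star (z i) = (z i * star (z i) - 1) + 1 := by abel
    rw [this]
    exact (norm_add_le _ _).trans (by linarith)
  nlinarith [norm_nonneg (z i)]

/-- The main construction : `2 (d + 1)` compressions of `b` to `A`. -/
theorem main_cuts {d : ℕ} (hA : PurelyInfinite A) (hR : RokhlinDimLE α d) (hcov : Cov α ι w)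
    (happ : Approx ι w) (b : B) (hb : 0 ≤ b) (η : ℝ) (hη : 0 < η) :
    ∃ (V : Fin (d + 1) × Fin 2 → B) (c : Fin (d + 1) × Fin 2 → A),
      (∀ k, 0 ≤ c k) ∧ (∀ k, ‖V k‖ ≤ 2) ∧ (∀ k, ‖V k * b * star (V k) - ι (c k)‖ ≤ η) ∧
      algebraMap ℝ B (1 / (64 * ((d : ℝ) + 1))) ≤ ∑ k, star (V k) * V k := by
  classical
  set y₀ : B := CFC.sqrt b with hy₀
  have hyy : y₀ * y₀ = b := CFC.sqrt_mul_sqrt_self b hb
  have hys : star y₀ = y₀ := (IsSelfAdjoint.of_nonneg (CFC.sqrt_nonneg b)).star_eq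
  -- approximate
  set δ : ℝ := min 1 ((η / 8) / (2 * ‖y₀‖ + 1)) with hδ
  have hδ0 : 0 < δ := by positivity
  have hδ1 : δ ≤ 1 := min_le_left _ _
  have hδ2 : δ * (2 * ‖y₀‖ + 1) ≤ η / 8 := by
    have : δ ≤ (η / 8) / (2 * ‖y₀‖ + 1) := min_le_right _ _
    rwa [le_div_iff₀ (by positivity)] at this
  obtain ⟨K, M, c, hKMc⟩ := happ y₀ δ hδ0
  set Y : B := ∑ k ∈ Finset.range (M + 1), pw w k * ι (c k) with hY
  have hclose : ‖star Y * Y - b‖ ≤ η / 8 := by
    refine le_trans ?_ hδ2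
    set y₁ : B := pw w K * y₀ with hy₁
    have e1 : star y₁ * y₁ = b := by
      rw [hy₁, star_mul, star_pw, hys]
      calc y₀ * pw w (-K) * (pw w K * y₀) = y₀ * (pw w (-K) * pw w K) * y₀ := by noncomm_ring
        _ = b := by rw [pw_neg_mul, mul_one, hyy]
    have e2 : star Y * Y - b = -(star (y₁ - Y) * Y) - star y₁ * (y₁ - Y) := by
      rw [← e1, star_sub]; noncomm_ring
    have ny : ‖y₁‖ = ‖y₀‖ := norm_pw_mul _ _ _
    have nY : ‖Y‖ ≤ ‖y₀‖ + δ := by
      have : Y = y₁ - (y₁ - Y) := by abel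
      rw [this, ← ny]
      exact (norm_sub_le _ _).trans (by linarith)
    rw [e2]
    refine (norm_sub_le _ _).trans ?_
    rw [norm_neg]
    have k1 : ‖star (y₁ - Y) * Y‖ ≤ δ * (‖y₀‖ + δ) := by
      refine (norm_mul_le _ _).trans ?_
      rw [norm_star]
      exact mul_le_mul hKMc.le nY (norm_nonneg _) hδ0.le
    have k2 : ‖star y₁ * (y₁ - Y)‖ ≤ ‖y₀‖ * δ := by
      refine (norm_mul_le _ _).trans ?_
      rw [norm_star, ny]
      exact mul_le_mul_of_nonneg_left hKMc.le (norm_nonneg _)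
    nlinarith
  -- approximate coisometries
  set θ : ℝ := 1 / (128 * ((d : ℝ) + 1) ^ 2) with hθ
  have hθ0 : 0 < θ := by positivity
  have hθ1 : θ ≤ 1 := by
    rw [hθ, div_le_one (by positivity)]
    nlinarith [(Nat.cast_nonneg d : (0 : ℝ) ≤ d)]
  set εz : ℝ := min 1 (θ / 2 / ((M : ℝ) + 1) ^ 2) with hεz
  have hεz0 : 0 < εz := by positivity
  have hεz1 : εz ≤ 1 := min_le_left _ _
  have hεz2 : ((M : ℝ) + 1) ^ 2 * εz ≤ θ / 2 := by
    have : εz ≤ θ / 2 / ((M : ℝ) + 1) ^ 2 := min_le_right _ _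
    rw [le_div_iff₀ (by positivity)] at this
    linarith
  obtain ⟨z, hz, hz2⟩ := approx_units hA (M + 1) εz hεz0 hεz1
  -- towers
  set S : ℝ := ∑ r ∈ Finset.range (2 * M + 1), ‖ι (codeCoeff α M c z r)‖ with hS
  obtain ⟨ε₁, hε₁, hs1⟩ := exists_small (((M : ℝ) + 1) ^ 2 * 7) (θ / 2) (by positivity)
  obtain ⟨ε₂, hε₂, hs2⟩ := exists_small ((2 * S * (2 * M + 1) + S ^ 2 + 2 * S) * (2 * M + 1))
    (η / 2) (by positivity)
  set ε : ℝ := min (1 / 2) (min ε₁ ε₂) with hε
  have hε0 : 0 < ε := by positivity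
  have hεh : ε ≤ 1 / 2 := min_le_left _ _
  have hεle1 : ε ≤ ε₁ := (min_le_right _ _).trans (min_le_left _ _)
  have hεle2 : ε ≤ ε₂ := (min_le_right _ _).trans (min_le_right _ _)
  replace hs1 := hs1 ε hε0.le hεle1
  replace hs2 := hs2 ε hε0.le hεle2
  set F : Finset A := (Finset.range (M + 1)).image z ∪
    (Finset.range (2 * M + 1)).image (codeCoeff α M c z) with hF
  have hzF : ∀ i < M + 1, z i ∈ F := fun i hi => Finset.mem_union_left _
    (Finset.mem_image_of_mem _ (Finset.mem_range.mpr hi))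
  have haF : ∀ r < 2 * M + 1, codeCoeff α M c z r ∈ F := fun r hr => Finset.mem_union_right _
    (Finset.mem_image_of_mem _ (Finset.mem_range.mpr hr))
  obtain ⟨U, E, hU, hE1, hE0, hEU, hUn⟩ := exists_halfTowers hR M F ε hε0 (by linarith)
  set X : Fin (d + 1) × Fin 2 → B := fun k => row ι w M z * ι (U k 0) with hX
  set Γ : Fin (d + 1) × Fin 2 → B := fun k => ∑ i ∈ Finset.range (M + 1), ι (U k i) with hΓ
  have hgram : ∀ k, ‖X k * star (X k) - Γ k * Γ k‖ ≤ θ := by
    intro k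
    have := block_gram hcov M z εz ε hε0 F hz hz2 (U k) (hU k) hzF
    refine this.trans ?_
    have : ((M : ℝ) + 1) ^ 2 * (7 * ε + εz) = ((M : ℝ) + 1) ^ 2 * 7 * ε +
        ((M : ℝ) + 1) ^ 2 * εz := by ring
    rw [this]
    linarith
  have hΓe : ∀ k, Γ k = ι (∑ i ∈ Finset.range (M + 1), U k i) := fun k => by
    rw [hΓ, map_sum]
  have hΓn : ∀ k, ‖Γ k‖ ≤ 1 := fun k => by
    rw [hΓe]; exact (NonUnitalStarAlgHom.norm_apply_le ι _).trans (hUn k)
  have hΓ0 : ∀ k, 0 ≤ Γ k := fun k => by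
    rw [hΓe]
    exact map_nonneg ι (Finset.sum_nonneg fun i hi =>
      (hU k).nonneg i (by have := Finset.mem_range.mp hi; omega))
  have hΓs : ∀ k, star (Γ k) = Γ k := fun k => (IsSelfAdjoint.of_nonneg (hΓ0 k)).star_eq
  have hXn : ∀ k, ‖X k‖ ≤ 2 := by
    intro k
    have h1 : ‖X k‖ * ‖X k‖ ≤ 2 := by
      rw [← CStarRing.norm_self_mul_star]
      have : X k * star (X k) = (X k * star (X k) - Γ k * Γ k) + Γ k * Γ k := by abel
      rw [this]
      refine (norm_add_le _ _).trans ?_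
      have h2 : ‖Γ k * Γ k‖ ≤ 1 * 1 :=
        (norm_mul_le _ _).trans (mul_le_mul (hΓn k) (hΓn k) (norm_nonneg _) zero_le_one)
      have := hgram k
      linarith
    nlinarith [norm_nonneg (X k)]
  refine ⟨fun k => star (X k), fun k => ∑ r ∈ Finset.range (2 * M + 1),
    star (codeCoeff α M c z r * U k 0) * (codeCoeff α M c z r * U k 0), ?_, ?_, ?_, ?_⟩
  · intro k
    exact Finset.sum_nonneg fun r _ => star_mul_self_nonneg _
  · intro k
    show ‖star (X k)‖ ≤ 2
    rw [norm_star]; exact hXn k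
  · intro k
    have h1 := block_compress hcov M c z ε hε0 F (U k) (hU k) haF S rfl
    rw [← hY] at h1
    have e1 : star (Y * (row ι w M z * ι (U k 0))) * (Y * (row ι w M z * ι (U k 0))) =
        star (X k) * (star Y * Y) * star (star (X k)) := by
      rw [star_star, star_mul]; simp only [hX]; noncomm_ring
    rw [e1] at h1
    have e2 : star (X k) * b * star (star (X k)) -
        ι (∑ r ∈ Finset.range (2 * M + 1),
          star (codeCoeff α M c z r * U k 0) * (codeCoeff α M c z r * U k 0)) =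
        (star (X k) * (star Y * Y) * star (star (X k)) -
        ι (∑ r ∈ Finset.range (2 * M + 1),
          star (codeCoeff α M c z r * U k 0) * (codeCoeff α M c z r * U k 0))) -
        star (X k) * (star Y * Y - b) * star (star (X k)) := by noncomm_ring
    show ‖star (X k) * b * star (star (X k)) -
        ι (∑ r ∈ Finset.range (2 * M + 1),
          star (codeCoeff α M c z r * U k 0) * (codeCoeff α M c z r * U k 0))‖ ≤ η
    rw [e2]
    refine (norm_sub_le _ _).trans ?_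
    have k2 : ‖star (X k) * (star Y * Y - b) * star (star (X k))‖ ≤ 2 * (η / 8) * 2 := by
      refine (norm_mul_le _ _).trans (mul_le_mul ?_ ?_ (norm_nonneg _) (by positivity))
      · refine (norm_mul_le _ _).trans (mul_le_mul ?_ hclose (norm_nonneg _) (by norm_num))
        rw [norm_star]; exact hXn k
      · rw [star_star]; exact hXn k
    have k3 : (2 * S * (2 * M + 1) + S ^ 2 + 2 * S) * ((2 * M + 1) * ε) ≤ η / 2 := by
      rw [← mul_assoc]; exact hs2.le
    linarith
  · -- lower bound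
    set T : B := ∑ k, Γ k with hT
    have hTE : (1 / 2 : ℝ) • ι E ≤ T := by
      have h1 : ι ((1 / 2 : ℝ) • E) ≤ ι (∑ k, ∑ i ∈ Finset.range (M + 1), U k i) :=
        OrderHomClass.mono ι hEU
      have e1 : ι ((1 / 2 : ℝ) • E) = (1 / 2 : ℝ) • ι E := by
        rw [← Complex.coe_smul, map_smul, Complex.coe_smul]
      have e2 : ι (∑ k, ∑ i ∈ Finset.range (M + 1), U k i) = T := by
        rw [map_sum, hT]
        exact Finset.sum_congr rfl fun k _ => (hΓe k).symm
      rwa [e1, e2] at h1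
    have hιE : algebraMap ℝ B (1 / 2) ≤ ι E := by
      have h1 : algebraMap ℝ B 1 ≤ (1 : B) := by simp
      have h2 : ‖ι E - 1‖ ≤ 1 / 2 := by
        have : ι E - 1 = ι (E - 1) := by rw [map_sub, map_one]
        rw [this]
        exact (NonUnitalStarAlgHom.norm_apply_le ι _).trans (by linarith)
      have h3 := ge_of_close (X := ι E) (Y := 1)
        ((IsSelfAdjoint.of_nonneg (map_nonneg ι hE0)).star_eq) (star_one B) h1 h2
      have : (1 : ℝ) - 1 / 2 = 1 / 2 := by norm_num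
      rwa [this] at h3
    have hT4 : algebraMap ℝ B (1 / 4) ≤ T := by
      refine le_trans ?_ hTE
      have h1 := smul_le_smul_of_nonneg_left hιE (show (0 : ℝ) ≤ 1 / 2 by norm_num)
      refine le_trans (le_of_eq ?_) h1
      rw [Algebra.algebraMap_eq_smul_one, Algebra.algebraMap_eq_smul_one, smul_smul]
      norm_num
    have hT0 : 0 ≤ T := Finset.sum_nonneg fun k _ => hΓ0 k
    have hTT := sq_ge hT0 (by norm_num : (0 : ℝ) ≤ 1 / 4) hT4
    have hCS := sum_sq_le Finset.univ Γ fun k _ => hΓs k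
    rw [← hT] at hCS
    have hcard : ((Finset.univ : Finset (Fin (d + 1) × Fin 2)).card : ℝ) = 2 * ((d : ℝ) + 1) := by
      rw [Finset.card_univ, Fintype.card_prod, Fintype.card_fin, Fintype.card_fin]
      push_cast; ring
    rw [hcard] at hCS
    have hG2 : algebraMap ℝ B (1 / (32 * ((d : ℝ) + 1))) ≤ ∑ k, Γ k * Γ k := by
      have h1 := smul_le_smul_of_nonneg_left (hTT.trans hCS)
        (show (0 : ℝ) ≤ 1 / (2 * ((d : ℝ) + 1)) by positivity)
      rw [smul_smul] at h1
      have e1 : 1 / (2 * ((d : ℝ) + 1)) * (2 * ((d : ℝ) + 1)) = 1 := by field_simp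
      rw [e1, one_smul] at h1
      refine le_trans (le_of_eq ?_) h1
      rw [Algebra.algebraMap_eq_smul_one, Algebra.algebraMap_eq_smul_one, smul_smul]
      congr 1
      field_simp
      norm_num
    have hfin : ‖∑ k, star (star (X k)) * star (X k) - ∑ k, Γ k * Γ k‖ ≤
        1 / (64 * ((d : ℝ) + 1)) := by
      rw [← Finset.sum_sub_distrib]
      refine (norm_sum_le _ _).trans ?_
      refine (Finset.sum_le_sum (g := fun _ => θ) fun k _ => ?_).trans ?_
      · rw [star_star]; exact hgram k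
      · rw [Finset.sum_const, nsmul_eq_mul, hcard, hθ]
        refine le_of_eq ?_
        field_simp
        ring
    have h5 := ge_of_close (X := ∑ k, star (star (X k)) * star (X k)) (Y := ∑ k, Γ k * Γ k)
      (by rw [star_sum]; exact Finset.sum_congr rfl fun k _ => by rw [star_mul, star_star])
      (by rw [star_sum]; exact Finset.sum_congr rfl fun k _ => by rw [star_mul, hΓs])
      hG2 hfin
    have e1 : 1 / (32 * ((d : ℝ) + 1)) - 1 / (64 * ((d : ℝ) + 1)) = 1 / (64 * ((d : ℝ) + 1)) := by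
      field_simp; ring
    rw [e1] at h5
    exact h5

end MainCuts

end MP9b5ea5
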