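import Pool.Agent.H63.PI.C5

open scoped ComplexOrder

set_option linter.unusedSectionVars false

universe u

namespace MP9b5ea5

section Tools

variable {A B : Type u} [CStarAlgebra A] [PartialOrder A] [StarOrderedRing A]
  [CStarAlgebra B] [PartialOrder B] [StarOrderedRing B] {α : A ≃⋆ₐ[ℂ] A} {ι : A →⋆ₐ[ℂ] B}
  {w : unitary B}

/-- `a ≤ S + δ` implies that `a` is within `2 δ` of a conjugate of `S`. -/
lemma approx_of_le_add {a S : B} (ha : 0 ≤ a) {δ : ℝ} (hδ : 0 < δ)
    (h : a ≤ S + algebraMap ℝ B δ) (ε : ℝ) (hε : 0 < ε) :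
    ∃ x : B, ‖x * S * star x - a‖ < 2 * δ + ε := by
  have hasa : IsSelfAdjoint a := .of_nonneg ha
  set f : ℝ → ℝ := fun t => cl ((t - δ) / δ) with hf
  have hfc : Continuous f := cl_continuous.comp (by fun_prop)
  set g : B := cfc f a with hg
  have hgs : star g = g := (show IsSelfAdjoint (cfc f a) from cfc_predicate _ _).star_eq
  have hE : g * (a - algebraMap ℝ B δ) * g = cfc (fun t => f t * (t - δ) * f t) a := by
    rw [cfc_mul (fun t => f t * (t - δ)) f a (hfc.mul (by fun_prop)).continuousOn
      hfc.continuousOn, cfc_mul f (fun t => t - δ) a hfc.continuousOn (by fun_prop),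
      cfc_sub (fun t => t) (fun _ => δ) a (by fun_prop) (by fun_prop), cfc_id' ℝ a hasa,
      cfc_const δ a hasa]
  set c : B := g * (a - algebraMap ℝ B δ) * g with hc
  have hc0 : 0 ≤ c := by
    rw [hE]
    refine cfc_nonneg fun t _ => ?_
    rcases le_total t δ with h | h
    · have : f t = 0 := cl_of_nonpos (div_nonpos_of_nonpos_of_nonneg (by linarith) hδ.le)
      rw [this]; simp
    · have h1 : 0 ≤ f t := cl_nonneg _
      have h2 : 0 ≤ t - δ := by linarith
      positivity
  have hca : ‖c - a‖ ≤ 2 * δ := by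
    have hFc : Continuous (fun t => f t * (t - δ) * f t) := (hfc.mul (by fun_prop)).mul hfc
    have e1 : c - a = cfc (fun t => f t * (t - δ) * f t - t) a := by
      rw [hE, cfc_sub (fun t => f t * (t - δ) * f t) (fun t => t) a hFc.continuousOn
        (by fun_prop), cfc_id' ℝ a hasa]
    rw [e1]
    refine norm_cfc_le (by positivity) fun t ht => ?_
    have ht0 : 0 ≤ t := spec_nonneg ha ht
    have h1 : 0 ≤ f t := cl_nonneg _
    have h2 : f t ≤ 1 := cl_le_one _
    rw [Real.norm_eq_abs, abs_le]
    rcases le_total t δ with h | h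
    · have : f t = 0 := cl_of_nonpos (div_nonpos_of_nonpos_of_nonneg (by linarith) hδ.le)
      rw [this]; constructor <;> linarith
    · have h3 : 0 ≤ t - δ := by linarith
      have h4 : f t * (t - δ) * f t ≤ t - δ := by
        have : f t * (t - δ) * f t = (f t * f t) * (t - δ) := by ring
        rw [this]
        have h5 : f t * f t ≤ 1 := by nlinarith
        nlinarith
      rcases le_total t (2 * δ) with h' | h'
      · have h6 : 0 ≤ f t * (t - δ) * f t := by positivity
        constructor <;> linarith
      · have h7 : f t = 1 := cl_of_one_le (by rw [le_div_iff₀ hδ]; linarith)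
        rw [h7]; constructor <;> linarith
  have h1 : a - algebraMap ℝ B δ ≤ S := by rw [sub_le_iff_le_add]; exact h
  have h2 := star_right_conjugate_le_conjugate h1 g
  rw [hgs] at h2
  obtain ⟨x, hx⟩ := approx_of_le hc0 h2 ε hε
  refine ⟨x * g, ?_⟩
  have e2 : x * g * S * star (x * g) - a = (x * (g * S * g) * star x - c) + (c - a) := by
    rw [star_mul, hgs]; noncomm_ring
  rw [e2]
  exact lt_of_le_of_lt (norm_add_le _ _) (by linarith)

/-- the algebraic ideal generated by a family -/
def genM {κ : Type*} (C : κ → B) : AddSubmonoid B :=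
  AddSubmonoid.closure {x | ∃ (k : κ) (s r : B), x = s * C k * r}

lemma genM_closedIdeal {κ : Type*} (C : κ → B) : IsClosedIdeal (closure (genM C : Set B)) := by
  have hML : ∀ a : B, ∀ m ∈ genM C, a * m ∈ genM C := by
    intro a m hm
    induction hm using AddSubmonoid.closure_induction with
    | mem x hx =>
      obtain ⟨k, s, r, rfl⟩ := hx
      exact AddSubmonoid.subset_closure ⟨k, a * s, r, by noncomm_ring⟩
    | zero => rw [mul_zero]; exact (genM C).zero_mem
    | add x y _ _ hx hy => rw [mul_add]; exact (genM C).add_mem hx hy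
  have hMR : ∀ a : B, ∀ m ∈ genM C, m * a ∈ genM C := by
    intro a m hm
    induction hm using AddSubmonoid.closure_induction with
    | mem x hx =>
      obtain ⟨k, s, r, rfl⟩ := hx
      exact AddSubmonoid.subset_closure ⟨k, s, r * a, by noncomm_ring⟩
    | zero => rw [zero_mul]; exact (genM C).zero_mem
    | add x y _ _ hx hy => rw [add_mul]; exact (genM C).add_mem hx hy
  refine ⟨isClosed_closure, subset_closure (genM C).zero_mem, ?_, ?_, ?_⟩
  · intro x y hx hy
    exact (genM C).topologicalClosure.add_mem (show x ∈ (genM C).topologicalClosure from hx)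
      (show y ∈ (genM C).topologicalClosure from hy)
  · intro a x hx
    exact map_mem_closure (continuous_const_mul a) hx (fun m hm => hML a m hm)
  · intro a x hx
    exact map_mem_closure (f := fun x => x * a) (continuous_mul_const a) hx
      (fun m hm => hMR a m hm)

lemma mem_genM {κ : Type*} (C : κ → B) (k : κ) : C k ∈ closure (genM C : Set B) :=
  subset_closure (AddSubmonoid.subset_closure ⟨k, 1, 1, by simp⟩)

/-- elements of the algebraic ideal are dominated by sums of conjugates -/
lemma genM_dominated {κ : Type*} [Fintype κ] [DecidableEq κ] (C : κ → B) (hC : ∀ k, 0 ≤ C k)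
    {T : B} (hT : T ∈ genM C) :
    ∃ (n : ℕ) (t : κ → ℕ → B), T + star T ≤
      ∑ k, ∑ j ∈ Finset.range n, t k j * C k * star (t k j) := by
  induction hT using AddSubmonoid.closure_induction with
  | mem x hx =>
    obtain ⟨k₀, s, r, rfl⟩ := hx
    refine ⟨2, fun k j => if k = k₀ then (if j = 0 then s else star r) else 0, ?_⟩
    rw [Finset.sum_eq_single k₀]
    · rw [Finset.sum_range_succ, Finset.sum_range_one]
      simp only [if_true, one_ne_zero, if_false, star_star]
      have h2 : 0 ≤ (s - star r) * C k₀ * star (s - star r) := star_right_conjugate_nonneg (hC k₀) _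
      have hYs : star (C k₀) = C k₀ := (IsSelfAdjoint.of_nonneg (hC k₀)).star_eq
      have e : (s - star r) * C k₀ * star (s - star r) =
          (s * C k₀ * star s + star r * C k₀ * r) - (s * C k₀ * r + star (s * C k₀ * r)) := by
        simp only [star_sub, star_star, star_mul, hYs]; noncomm_ring
      rw [e] at h2
      exact sub_nonneg.mp h2
    · intro k _ hk
      refine Finset.sum_eq_zero fun j _ => ?_
      simp [hk]
    · intro h; exact absurd (Finset.mem_univ _) h
  | zero => exact ⟨0, fun _ _ => 0, by simp⟩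
  | add x y _ _ hx hy =>
    obtain ⟨n, t, ht⟩ := hx
    obtain ⟨m, t', ht'⟩ := hy
    refine ⟨n + m, fun k j => if j < n then t k j else t' k (j - n), ?_⟩
    have e0 : ∀ k, ∑ j ∈ Finset.range (n + m), (if j < n then t k j else t' k (j - n)) * C k *
        star (if j < n then t k j else t' k (j - n)) =
        ∑ j ∈ Finset.range n, t k j * C k * star (t k j) +
        ∑ j ∈ Finset.range m, t' k j * C k * star (t' k j) := by
      intro k
      rw [Finset.sum_range_add]
      congr 1
      · exact Finset.sum_congr rfl fun j hj => by rw [if_pos (Finset.mem_range.mp hj)]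
      · exact Finset.sum_congr rfl fun j _ => by rw [if_neg (by omega), Nat.add_sub_cancel_left]
    rw [Finset.sum_congr rfl fun k _ => e0 k, Finset.sum_add_distrib]
    have : x + y + star (x + y) = (x + star x) + (y + star y) := by
      rw [star_add]; abel
    rw [this]
    exact add_le_add ht ht'

/-- a sum of conjugates of an element of `A` is close to one conjugate -/
lemma row_of_absorb (hA : PurelyInfinite A) (φ : A →⋆ₐ[ℂ] B) (c : A) (hc : 0 ≤ c) (n : ℕ)
    (t : ℕ → B) (ε : ℝ) (hε : 0 < ε) :
    ∃ v : B, ‖v * φ c * star v - ∑ j ∈ Finset.range n, t j * φ c * star (t j)‖ < ε := by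
  set e : A := CFC.sqrt c with he
  have hee : e * e = c := CFC.sqrt_mul_sqrt_self c hc
  have he0 : 0 ≤ e := CFC.sqrt_nonneg c
  have hcs : star c = c := (IsSelfAdjoint.of_nonneg hc).star_eq
  have habs : Absorbs c c := by rw [← hee]; exact absorbs_self hA e he0
  set D : ℝ := ∑ i ∈ Finset.range n, ∑ j ∈ Finset.range n, ‖t i‖ * ‖t j‖ with hD
  have hD0 : 0 ≤ D := by positivity
  obtain ⟨s, z, -, -, hz⟩ := habs.iterate hcs n (ε / (D + 1)) (by positivity)
  refine ⟨∑ i ∈ Finset.range n, t i * φ (z i), ?_⟩
  have e1 : (∑ i ∈ Finset.range n, t i * φ (z i)) * φ c *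
      star (∑ i ∈ Finset.range n, t i * φ (z i)) =
      ∑ i ∈ Finset.range n, ∑ j ∈ Finset.range n,
        t i * φ (z i * c * star (z j)) * star (t j) := by
    rw [star_sum, Finset.sum_mul, Finset.sum_mul_sum]
    refine Finset.sum_congr rfl fun i _ => Finset.sum_congr rfl fun j _ => ?_
    simp only [star_mul, map_mul, map_star]; noncomm_ring
  have e2 : ∑ j ∈ Finset.range n, t j * φ c * star (t j) =
      ∑ i ∈ Finset.range n, ∑ j ∈ Finset.range n,
        t i * φ (if i = j then c else 0) * star (t j) := by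
    refine Finset.sum_congr rfl fun i hi => ?_
    rw [Finset.sum_eq_single_of_mem i hi]
    · rw [if_pos rfl]
    · intro j _ hj
      rw [if_neg (Ne.symm hj)]; simp
  have e3 : (∑ i ∈ Finset.range n, t i * φ (z i)) * φ c *
      star (∑ i ∈ Finset.range n, t i * φ (z i)) -
      ∑ j ∈ Finset.range n, t j * φ c * star (t j) =
      ∑ i ∈ Finset.range n, ∑ j ∈ Finset.range n,
        t i * φ (z i * c * star (z j) - (if i = j then c else 0)) * star (t j) := by
    rw [e1, e2, ← Finset.sum_sub_distrib]
    refine Finset.sum_congr rfl fun i _ => ?_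
    rw [← Finset.sum_sub_distrib]
    refine Finset.sum_congr rfl fun j _ => ?_
    rw [map_sub]; noncomm_ring
  rw [e3]
  have hb : ∀ i ∈ Finset.range n, ∀ j ∈ Finset.range n,
      ‖t i * φ (z i * c * star (z j) - (if i = j then c else 0)) * star (t j)‖ ≤
      ‖t i‖ * ‖t j‖ * (ε / (D + 1)) := by
    intro i hi j hj
    have := hz i (Finset.mem_range.mp hi) j (Finset.mem_range.mp hj)
    calc _ ≤ ‖t i‖ * ‖φ (z i * c * star (z j) - (if i = j then c else 0))‖ * ‖t j‖ := by
          refine (norm_mul_le _ _).trans ?_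
          rw [norm_star]
          exact mul_le_mul_of_nonneg_right (norm_mul_le _ _) (norm_nonneg _)
      _ ≤ ‖t i‖ * (ε / (D + 1)) * ‖t j‖ := by
          refine mul_le_mul_of_nonneg_right (mul_le_mul_of_nonneg_left ?_ (norm_nonneg _))
            (norm_nonneg _)
          exact (NonUnitalStarAlgHom.norm_apply_le φ _).trans this.le
      _ = _ := by ring
  calc _ ≤ ∑ i ∈ Finset.range n, ‖∑ j ∈ Finset.range n,
        t i * φ (z i * c * star (z j) - (if i = j then c else 0)) * star (t j)‖ :=
          norm_sum_le _ _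
    _ ≤ ∑ i ∈ Finset.range n, ∑ j ∈ Finset.range n, ‖t i‖ * ‖t j‖ * (ε / (D + 1)) := by
        refine Finset.sum_le_sum fun i hi => (norm_sum_le _ _).trans ?_
        exact Finset.sum_le_sum fun j hj => hb i hi j hj
    _ = D * (ε / (D + 1)) := by
        rw [hD, Finset.sum_mul]
        refine Finset.sum_congr rfl fun i _ => ?_
        rw [Finset.sum_mul]
    _ < ε := by
        rw [mul_div_assoc', div_lt_iff₀ (by positivity)]
        nlinarith

/-- cuts of `b`, packaged: elements of `A`, Cuntz below `b`, which generate an ideal almost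
containing `b`. -/
theorem exists_cuts {d : ℕ} (hA : PurelyInfinite A) (hR : RokhlinDimLE α d) (hcov : Cov α ι w)
    (happ : Approx ι w) (b : B) (hb : 0 ≤ b) (δ : ℝ) (hδ : 0 < δ) :
    ∃ (c : Fin (d + 1) × Fin 2 → A) (X : Fin (d + 1) × Fin 2 → B), (∀ k, 0 ≤ c k) ∧
      (∀ k, ι (c k) ≤ X k * b * star (X k)) ∧
      (∀ J : Set B, IsClosedIdeal J → (∀ k, ι (c k) ∈ J) → ∃ b' ∈ J, ‖b - b'‖ < δ) := by
  set y : B := CFC.sqrt b with hy
  have hyy : y * y = b := CFC.sqrt_mul_sqrt_self b hb
  have hys : star y = y := (IsSelfAdjoint.of_nonneg (CFC.sqrt_nonneg b)).star_eq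
  set C : ℝ := 512 * ((d : ℝ) + 1) ^ 2 * (‖y‖ + 1) with hC
  have hC0 : 0 < C := by positivity
  set η : ℝ := (δ / (2 * C)) ^ 2 with hη
  have hη0 : 0 < η := by positivity
  have hsη : Real.sqrt η = δ / (2 * C) := by rw [hη, Real.sqrt_sq (by positivity)]
  obtain ⟨V, c, hc0, hV2, hVc, hQ⟩ := main_cuts hA hR hcov happ b hb η hη0
  choose s e κ hs he hpos heq hcut using fun k => exists_cutdown (c k) (hc0 k) η hη0
  have hcs : ∀ k, star (c k) = c k := fun k => (IsSelfAdjoint.of_nonneg (hc0 k)).star_eq
  have hbs : star b = b := (IsSelfAdjoint.of_nonneg hb).star_eq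
  refine ⟨fun k => s k * (c k - algebraMap ℝ A η) * s k, fun k => ι (s k) * V k, hpos, ?_, ?_⟩
  · intro k
    have h1 := (sandwich ι (X := V k * b * star (V k)) (by
      simp only [star_mul, star_star, hbs]; noncomm_ring) (hcs k) (hVc k)).2
    have h2 := star_right_conjugate_le_conjugate h1 (ι (s k))
    have e1 : ι (s k) * ι (c k - algebraMap ℝ A η) * star (ι (s k)) =
        ι (s k * (c k - algebraMap ℝ A η) * s k) := by
      rw [← map_star, hs, ← map_mul, ← map_mul]
    have e2 : ι (s k) * (V k * b * star (V k)) * star (ι (s k)) =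
        ι (s k) * V k * b * star (ι (s k) * V k) := by
      rw [star_mul]; noncomm_ring
    rw [e1, e2] at h2
    exact h2
  · intro J hJ hcJ
    obtain ⟨R, hR1, hRn⟩ := exists_inverse_of_le _ _ (by positivity) hQ
    have hβ : ∀ k, ∃ β ∈ J, ‖y * star (V k) - β‖ ^ 2 ≤ 4 * η := by
      intro k
      refine near_ideal ι hJ y (V k) (c k) (e k) (hcs k) (he k) ?_ η ?_ (hcut k)
      · rw [heq k, map_mul]; exact hJ.mul_mem_right _ (hcJ k)
      · rw [hys, hyy]; exact hVc k
    choose β hβJ hβn using hβ
    have hβn' : ∀ k, ‖y * star (V k) - β k‖ ≤ 2 * Real.sqrt η := by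
      intro k
      have h1 : (2 * Real.sqrt η) ^ 2 = 4 * η := by
        rw [mul_pow, Real.sq_sqrt hη0.le]; norm_num
      have h2 := hβn k
      rw [← h1] at h2
      exact le_of_sq_le_sq h2 (by positivity)
    have hR' : ‖R‖ ≤ 64 * ((d : ℝ) + 1) := by
      refine hRn.trans (le_of_eq ?_)
      field_simp
    refine ⟨y * ∑ k, β k * (V k * R), hJ.mul_mem_left _ (hJ.sum_mem _ _ fun k _ =>
      hJ.mul_mem_right _ (hβJ k)), ?_⟩
    have e1 : y = ∑ k, y * star (V k) * (V k * R) := by
      calc y = y * ((∑ k, star (V k) * V k) * R) := by rw [hR1, mul_one]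
        _ = _ := by
            rw [Finset.sum_mul, Finset.mul_sum]
            exact Finset.sum_congr rfl fun k _ => by noncomm_ring
    have e2 : b - y * ∑ k, β k * (V k * R) =
        y * ∑ k, (y * star (V k) - β k) * (V k * R) := by
      have : ∑ k, (y * star (V k) - β k) * (V k * R) = y - ∑ k, β k * (V k * R) := by
        nth_rewrite 2 [e1]
        rw [← Finset.sum_sub_distrib]
        exact Finset.sum_congr rfl fun k _ => by noncomm_ring
      rw [this, mul_sub, hyy]
    rw [e2]
    have h3 : ‖∑ k, (y * star (V k) - β k) * (V k * R)‖ ≤ 512 * ((d : ℝ) + 1) ^ 2 * Real.sqrt η := by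
      refine (norm_sum_le _ _).trans ?_
      refine (Finset.sum_le_sum (g := fun _ => (2 * Real.sqrt η) * (2 * (64 * ((d : ℝ) + 1))))
        fun k _ => ?_).trans ?_
      · refine (norm_mul_le _ _).trans (mul_le_mul (hβn' k) ?_ (norm_nonneg _) (by positivity))
        exact (norm_mul_le _ _).trans (mul_le_mul (hV2 k) hR' (norm_nonneg _) (by norm_num))
      · rw [Finset.sum_const, nsmul_eq_mul, Finset.card_univ, Fintype.card_prod,
          Fintype.card_fin, Fintype.card_fin]
        push_cast
        refine le_of_eq ?_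
        ring
    calc ‖y * ∑ k, (y * star (V k) - β k) * (V k * R)‖
        ≤ ‖y‖ * (512 * ((d : ℝ) + 1) ^ 2 * Real.sqrt η) :=
          (norm_mul_le _ _).trans (mul_le_mul_of_nonneg_left h3 (norm_nonneg _))
      _ ≤ C * Real.sqrt η := by
          rw [hC]
          have : 0 ≤ Real.sqrt η := Real.sqrt_nonneg _
          have h4 : 0 ≤ 512 * ((d : ℝ) + 1) ^ 2 * Real.sqrt η := by positivity
          nlinarith
      _ = δ / 2 := by rw [hsη]; field_simp
      _ < δ := by linarith

end Tools

end MP9b5ea5
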