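import Pool.Agent.H63.PI.C6

open scoped ComplexOrder

set_option linter.unusedSectionVars false

universe u

namespace MP9b5ea5

section WeakPI

variable {A B : Type u} [CStarAlgebra A] [PartialOrder A] [StarOrderedRing A]
  [CStarAlgebra B] [PartialOrder B] [StarOrderedRing B] {α : A ≃⋆ₐ[ℂ] A} {ι : A →⋆ₐ[ℂ] B}
  {w : unitary B}

lemma row_of_cut (hA : PurelyInfinite A) (φ : A →⋆ₐ[ℂ] B) (c : A) (hc : 0 ≤ c) (b X : B)
    (hX : φ c ≤ X * b * star X) (n : ℕ) (t : ℕ → B) (ε : ℝ) (hε : 0 < ε) :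
    ∃ x : B, ‖x * b * star x - ∑ j ∈ Finset.range n, t j * φ c * star (t j)‖ < ε := by
  obtain ⟨v, hv⟩ := row_of_absorb hA φ c hc n t (ε / 2) (by positivity)
  obtain ⟨y, hy⟩ := approx_of_le (map_nonneg φ hc) hX (ε / 2 / (‖v‖ ^ 2 + 1)) (by positivity)
  refine ⟨v * y * X, ?_⟩
  have e1 : v * y * X * b * star (v * y * X) - ∑ j ∈ Finset.range n, t j * φ c * star (t j) =
      v * (y * (X * b * star X) * star y - φ c) * star v +
      (v * φ c * star v - ∑ j ∈ Finset.range n, t j * φ c * star (t j)) := by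
    simp only [star_mul]; noncomm_ring
  rw [e1]
  refine lt_of_le_of_lt (norm_add_le _ _) ?_
  have k1 : ‖v * (y * (X * b * star X) * star y - φ c) * star v‖ ≤
      ‖v‖ ^ 2 * (ε / 2 / (‖v‖ ^ 2 + 1)) := by
    calc _ ≤ ‖v‖ * ‖y * (X * b * star X) * star y - φ c‖ * ‖v‖ := by
          refine (norm_mul_le _ _).trans ?_
          rw [norm_star]
          exact mul_le_mul_of_nonneg_right (norm_mul_le _ _) (norm_nonneg _)
      _ ≤ ‖v‖ * (ε / 2 / (‖v‖ ^ 2 + 1)) * ‖v‖ := by gcongr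
      _ = _ := by ring
  have k2 : ‖v‖ ^ 2 * (ε / 2 / (‖v‖ ^ 2 + 1)) ≤ ε / 2 := by
    rw [mul_div_assoc', div_le_iff₀ (by positivity)]
    nlinarith [sq_nonneg ‖v‖]
  linarith

lemma genM_transfer (b : B) {T : B} (hT : T ∈ genM (fun _ : Unit => b)) :
    ∃ C : ℝ, 0 ≤ C ∧ ∀ J : Set B, IsClosedIdeal J → ∀ b' ∈ J, ∃ T' ∈ J, ‖T - T'‖ ≤ C * ‖b - b'‖ := by
  induction hT using AddSubmonoid.closure_induction with
  | mem x hx =>
    obtain ⟨_, s, r, rfl⟩ := hx
    refine ⟨‖s‖ * ‖r‖, by positivity, fun J hJ b' hb' =>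
      ⟨s * b' * r, hJ.mul_mem_right _ (hJ.mul_mem_left _ hb'), ?_⟩⟩
    have : s * b * r - s * b' * r = s * (b - b') * r := by noncomm_ring
    rw [this]
    calc _ ≤ ‖s‖ * ‖b - b'‖ * ‖r‖ :=
          (norm_mul_le _ _).trans (mul_le_mul_of_nonneg_right (norm_mul_le _ _) (norm_nonneg _))
      _ = _ := by ring
  | zero => exact ⟨0, le_rfl, fun J hJ b' _ => ⟨0, hJ.zero_mem, by simp⟩⟩
  | add x y _ _ hx hy =>
    obtain ⟨C₁, hC₁, h1⟩ := hx
    obtain ⟨C₂, hC₂, h2⟩ := hy
    refine ⟨C₁ + C₂, by positivity, fun J hJ b' hb' => ?_⟩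
    obtain ⟨x', hx', hxx⟩ := h1 J hJ b' hb'
    obtain ⟨y', hy', hyy⟩ := h2 J hJ b' hb'
    refine ⟨x' + y', hJ.add_mem hx' hy', ?_⟩
    have : x + y - (x' + y') = (x - x') + (y - y') := by abel
    rw [this, add_mul]
    exact (norm_add_le _ _).trans (add_le_add hxx hyy)

/-- elements of the closed ideal generated by `b` are in the closure of the algebraic one. -/
lemma mem_closure_genM {a b : B} (hab : InClosedIdeal a b) (ε : ℝ) (hε : 0 < ε) :
    ∃ T ∈ genM (fun _ : Unit => b), ‖a - T‖ < ε := by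
  have h1 := hab _ (genM_closedIdeal (fun _ : Unit => b)) (mem_genM (fun _ : Unit => b) ())
  obtain ⟨T, hT, hd⟩ := Metric.mem_closure_iff.mp h1 ε hε
  exact ⟨T, hT, by rwa [dist_eq_norm] at hd⟩

lemma le_half_of_close {a T S : B} (ha : 0 ≤ a) {δ : ℝ} (hT : ‖a - T‖ ≤ δ)
    (h : T + star T ≤ S) : a ≤ (1 / 2 : ℝ) • S + algebraMap ℝ B δ := by
  have has : star a = a := (IsSelfAdjoint.of_nonneg ha).star_eq
  have h1 : (a - T) + star (a - T) ≤ algebraMap ℝ B (2 * δ) := by
    have hsa : IsSelfAdjoint ((a - T) + star (a - T)) := IsSelfAdjoint.add_star_self _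
    refine hsa.le_algebraMap_norm_self.trans (algebraMap_mono B ?_)
    refine (norm_add_le _ _).trans ?_
    rw [norm_star]; linarith
  have h2 : a + a ≤ S + algebraMap ℝ B (2 * δ) := by
    have e : a + a = ((a - T) + star (a - T)) + (T + star T) := by
      rw [star_sub, has]; abel
    rw [e, add_comm S]
    exact add_le_add h1 h
  have h3 := smul_le_smul_of_nonneg_left h2 (show (0 : ℝ) ≤ 1 / 2 by norm_num)
  have e1 : (1 / 2 : ℝ) • (a + a) = a := by
    rw [← two_smul ℝ a, smul_smul]; norm_num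
  have e2 : (1 / 2 : ℝ) • (S + algebraMap ℝ B (2 * δ)) = (1 / 2 : ℝ) • S + algebraMap ℝ B δ := by
    rw [smul_add, Algebra.algebraMap_eq_smul_one, Algebra.algebraMap_eq_smul_one, smul_smul]
    congr 2
    ring
  rwa [e1, e2] at h3

/-- Main comparison theorem : `a ≾ b ⊗ 1_{2(d+1)}` whenever `a` is in the closed ideal generated
by `b`. -/
theorem weak_comparison {d : ℕ} (hA : PurelyInfinite A) (hR : RokhlinDimLE α d)
    (hcov : Cov α ι w) (happ : Approx ι w) (a b : B) (ha : 0 ≤ a) (hb : 0 ≤ b)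
    (hab : InClosedIdeal a b) (ε : ℝ) (hε : 0 < ε) :
    ∃ x : Fin (d + 1) × Fin 2 → B, ‖∑ k, x k * b * star (x k) - a‖ < ε := by
  classical
  obtain ⟨T, hT, haT⟩ := mem_closure_genM hab (ε / 16) (by positivity)
  obtain ⟨C, hC, htr⟩ := genM_transfer b hT
  obtain ⟨c, X, hc0, hcX, hJ⟩ := exists_cuts hA hR hcov happ b hb (ε / 16 / (C + 1)) (by positivity)
  set G : Fin (d + 1) × Fin 2 → B := fun k => ι (c k) with hG
  have hG0 : ∀ k, 0 ≤ G k := fun k => map_nonneg ι (hc0 k)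
  obtain ⟨b', hb', hbb'⟩ := hJ _ (genM_closedIdeal G) (mem_genM G)
  obtain ⟨T', hT', hTT'⟩ := htr _ (genM_closedIdeal G) b' hb'
  obtain ⟨T₃, hT₃, hd⟩ := Metric.mem_closure_iff.mp hT' (ε / 16) (by positivity)
  rw [dist_eq_norm] at hd
  have hTT'' : ‖T - T'‖ ≤ ε / 16 := by
    refine hTT'.trans ((mul_le_mul_of_nonneg_left hbb'.le hC).trans ?_)
    rw [mul_div_assoc', div_le_iff₀ (by positivity)]
    nlinarith
  have haT₃ : ‖a - T₃‖ ≤ 3 * (ε / 16) := by
    have : a - T₃ = (a - T) + (T - T') + (T' - T₃) := by abel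
    rw [this]
    exact norm_add₃_le.trans (by linarith)
  obtain ⟨n, t, ht⟩ := genM_dominated G hG0 hT₃
  set S : B := ∑ k, ∑ j ∈ Finset.range n, t k j * G k * star (t k j) with hS
  have hle := le_half_of_close ha haT₃ ht
  obtain ⟨x, hx⟩ := approx_of_le_add ha (by positivity) hle (ε / 16) (by positivity)
  set m : ℝ := 2 * ((d : ℝ) + 1) with hm
  have hm0 : 0 < m := by positivity
  choose y hy using fun k => row_of_cut hA ι (c k) (hc0 k) b (X k) (hcX k) n (t k)
    (ε / 4 / (m * (‖x‖ ^ 2 + 1))) (by positivity)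
  set s : ℝ := Real.sqrt (1 / 2) with hs
  have hss : s * s = 1 / 2 := Real.mul_self_sqrt (by norm_num)
  refine ⟨fun k => s • (x * y k), ?_⟩
  have e1 : ∑ k, (s • (x * y k)) * b * star (s • (x * y k)) - a =
      (1 / 2 : ℝ) • (x * (∑ k, (y k * b * star (y k) -
        ∑ j ∈ Finset.range n, t k j * ι (c k) * star (t k j))) * star x) +
      (x * ((1 / 2 : ℝ) • S) * star x - a) := by
    have e2 : ∀ k, (s • (x * y k)) * b * star (s • (x * y k)) =
        (1 / 2 : ℝ) • (x * (y k * b * star (y k)) * star x) := by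
      intro k
      rw [star_smul, star_trivial, smul_mul_assoc, smul_mul_assoc, mul_smul_comm, smul_smul, hss,
        star_mul]
      congr 1; noncomm_ring
    rw [Finset.sum_congr rfl fun k _ => e2 k, ← Finset.smul_sum, ← Finset.sum_mul,
      ← Finset.mul_sum, Finset.sum_sub_distrib]
    have e3 : ∑ k, ∑ j ∈ Finset.range n, t k j * ι (c k) * star (t k j) = S := rfl
    rw [e3, mul_smul_comm, smul_mul_assoc, mul_sub, sub_mul, smul_sub]
    abel
  rw [e1]
  refine lt_of_le_of_lt (norm_add_le _ _) ?_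
  have k1 : ‖(1 / 2 : ℝ) • (x * (∑ k, (y k * b * star (y k) -
        ∑ j ∈ Finset.range n, t k j * ι (c k) * star (t k j))) * star x)‖ ≤ ε / 4 := by
    have k2 : ‖∑ k, (y k * b * star (y k) -
        ∑ j ∈ Finset.range n, t k j * ι (c k) * star (t k j))‖ ≤
        m * (ε / 4 / (m * (‖x‖ ^ 2 + 1))) := by
      refine (norm_sum_le _ _).trans ?_
      refine (Finset.sum_le_sum (g := fun _ => ε / 4 / (m * (‖x‖ ^ 2 + 1)))
        fun k _ => (hy k).le).trans ?_
      rw [Finset.sum_const, nsmul_eq_mul, Finset.card_univ, Fintype.card_prod,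
        Fintype.card_fin, Fintype.card_fin]
      refine le_of_eq ?_
      rw [hm]; push_cast; ring
    have k3 : m * (ε / 4 / (m * (‖x‖ ^ 2 + 1))) = ε / 4 / (‖x‖ ^ 2 + 1) := by
      field_simp
    rw [k3] at k2
    rw [norm_smul]
    have k4 : ‖x * (∑ k, (y k * b * star (y k) -
        ∑ j ∈ Finset.range n, t k j * ι (c k) * star (t k j))) * star x‖ ≤ ε / 4 := by
      calc _ ≤ ‖x‖ * (ε / 4 / (‖x‖ ^ 2 + 1)) * ‖x‖ := by
            refine (norm_mul_le _ _).trans ?_
            rw [norm_star]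
            refine mul_le_mul_of_nonneg_right ?_ (norm_nonneg _)
            exact (norm_mul_le _ _).trans (mul_le_mul_of_nonneg_left k2 (norm_nonneg _))
        _ = ‖x‖ ^ 2 * (ε / 4) / (‖x‖ ^ 2 + 1) := by ring
        _ ≤ ε / 4 := by
            rw [div_le_iff₀ (by positivity)]
            nlinarith [sq_nonneg ‖x‖]
    rw [Real.norm_eq_abs, abs_of_nonneg (by norm_num : (0 : ℝ) ≤ 1 / 2)]
    have := norm_nonneg (x * (∑ k, (y k * b * star (y k) -
        ∑ j ∈ Finset.range n, t k j * ι (c k) * star (t k j))) * star x)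
    linarith
  linarith

/-- `b ⊗ 1_m` is properly infinite, with `m = 2(d+1)`. -/
theorem weak_propInf {d : ℕ} (hA : PurelyInfinite A) (hR : RokhlinDimLE α d)
    (hcov : Cov α ι w) (happ : Approx ι w) (b : B) (hb : 0 ≤ b) (N : ℕ) (ε : ℝ) (hε : 0 < ε) :
    ∃ r : ℕ → Fin (d + 1) × Fin 2 → B, ∀ i < N, ∀ j < N,
      ‖∑ k, r i k * b * star (r j k) - (if i = j then b else 0)‖ < ε := by
  classical
  set C : ℝ := 4 * (N + 1) * (‖b‖ + 1) + 4 with hC
  have hC0 : 0 < C := by positivity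
  set ε₁ : ℝ := min 1 (ε / (2 * C)) with hε₁
  have hε₁0 : 0 < ε₁ := by positivity
  have hε₁1 : ε₁ ≤ 1 := min_le_left _ _
  have hε₁2 : C * ε₁ ≤ ε / 2 := by
    have : ε₁ ≤ ε / (2 * C) := min_le_right _ _
    calc C * ε₁ ≤ C * (ε / (2 * C)) := mul_le_mul_of_nonneg_left this hC0.le
      _ = ε / 2 := by field_simp
  obtain ⟨z, hz, hz2⟩ := approx_units hA N ε₁ hε₁0 hε₁1
  set ζ : ℕ → B := fun i => ι (z i) with hζ
  have hζ2 : ∀ i < N, ‖ζ i‖ ≤ 2 := fun i hi =>
    (NonUnitalStarAlgHom.norm_apply_le ι _).trans (hz2 i hi)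
  have hzz : ∀ i < N, ∀ j < N, ‖ζ i * star (ζ j) - (if i = j then 1 else 0)‖ ≤ ε₁ := by
    intro i hi j hj
    have : ζ i * star (ζ j) - (if i = j then 1 else 0) =
        ι (z i * star (z j) - (if i = j then 1 else 0)) := by
      rw [map_sub, map_mul, map_star]
      congr 1
      split_ifs <;> simp
    rw [this]
    exact (NonUnitalStarAlgHom.norm_apply_le ι _).trans (hz i hi j hj)
  set a : B := ∑ l ∈ Finset.range N, star (ζ l) * b * ζ l with ha
  have ha0 : 0 ≤ a := Finset.sum_nonneg fun l _ => star_left_conjugate_nonneg hb _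
  have hab : InClosedIdeal a b := by
    intro J hJ hbJ
    exact hJ.sum_mem _ _ fun l _ => hJ.mul_mem_right _ (hJ.mul_mem_left _ hbJ)
  obtain ⟨x, hx⟩ := weak_comparison hA hR hcov happ a b ha0 hb hab (ε / 16) (by positivity)
  refine ⟨fun i k => ζ i * x k, fun i hi j hj => ?_⟩
  have e1 : ∑ k, ζ i * x k * b * star (ζ j * x k) - (if i = j then b else 0) =
      ζ i * (∑ k, x k * b * star (x k) - a) * star (ζ j) +
      (ζ i * a * star (ζ j) - (if i = j then b else 0)) := by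
    have : ∑ k, ζ i * x k * b * star (ζ j * x k) = ζ i * (∑ k, x k * b * star (x k)) * star (ζ j) := by
      rw [Finset.mul_sum, Finset.sum_mul]
      exact Finset.sum_congr rfl fun k _ => by rw [star_mul]; noncomm_ring
    rw [this]; noncomm_ring
  rw [e1]
  refine lt_of_le_of_lt (norm_add_le _ _) ?_
  have k1 : ‖ζ i * (∑ k, x k * b * star (x k) - a) * star (ζ j)‖ ≤ 2 * (ε / 16) * 2 := by
    refine (norm_mul_le _ _).trans (mul_le_mul ?_ ?_ (norm_nonneg _) (by positivity))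
    · exact (norm_mul_le _ _).trans (mul_le_mul (hζ2 i hi) hx.le (norm_nonneg _) (by norm_num))
    · rw [norm_star]; exact hζ2 j hj
  -- the second term
  have e2 : ζ i * a * star (ζ j) - (if i = j then b else 0) =
      ∑ l ∈ Finset.range N, ((ζ i * star (ζ l)) * b * (ζ l * star (ζ j)) -
        (if i = l then 1 else 0) * b * (if l = j then 1 else 0)) := by
    rw [Finset.sum_sub_distrib]
    congr 1
    · rw [ha, Finset.mul_sum, Finset.sum_mul]
      exact Finset.sum_congr rfl fun l _ => by noncomm_ring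
    · rw [Finset.sum_eq_single_of_mem i (Finset.mem_range.mpr hi)]
      · by_cases hij : i = j <;> simp [hij]
      · intro l _ hl
        rw [if_neg (Ne.symm hl)]; simp
  have k2 : ‖ζ i * a * star (ζ j) - (if i = j then b else 0)‖ ≤ N * (3 * ‖b‖ * ε₁) := by
    rw [e2]
    refine (norm_sum_le _ _).trans ?_
    refine (Finset.sum_le_sum (g := fun _ => 3 * ‖b‖ * ε₁) fun l hl => ?_).trans ?_
    · rw [Finset.mem_range] at hl
      set P : B := ζ i * star (ζ l) with hP
      set Q : B := ζ l * star (ζ j) with hQ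
      set P₀ : B := if i = l then 1 else 0 with hP₀
      set Q₀ : B := if l = j then 1 else 0 with hQ₀
      have hP1 : ‖P - P₀‖ ≤ ε₁ := hzz i hi l hl
      have hQ1 : ‖Q - Q₀‖ ≤ ε₁ := hzz l hl j hj
      have h1n : ‖(1 : B)‖ ≤ 1 := by
        rcases subsingleton_or_nontrivial B with h | h
        · rw [Subsingleton.elim (1 : B) 0]; simp
        · simp
      have hP₀n : ‖P₀‖ ≤ 1 := by
        rw [hP₀]; split_ifs
        · exact h1n
        · simp
      have hQn : ‖Q‖ ≤ 2 := by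
        have hQ₀n : ‖Q₀‖ ≤ 1 := by
          rw [hQ₀]; split_ifs
          · exact h1n
          · simp
        have : Q = (Q - Q₀) + Q₀ := by abel
        rw [this]
        exact (norm_add_le _ _).trans (by linarith)
      have e3 : P * b * Q - P₀ * b * Q₀ = (P - P₀) * b * Q + P₀ * b * (Q - Q₀) := by
        noncomm_ring
      rw [e3]
      refine (norm_add_le _ _).trans ?_
      have m1 : ‖(P - P₀) * b * Q‖ ≤ ε₁ * ‖b‖ * 2 := by
        refine (norm_mul_le _ _).trans (mul_le_mul ?_ hQn (norm_nonneg _) (by positivity))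
        exact (norm_mul_le _ _).trans (mul_le_mul_of_nonneg_right hP1 (norm_nonneg _))
      have m2 : ‖P₀ * b * (Q - Q₀)‖ ≤ 1 * ‖b‖ * ε₁ := by
        refine (norm_mul_le _ _).trans (mul_le_mul ?_ hQ1 (norm_nonneg _) (by positivity))
        exact (norm_mul_le _ _).trans (mul_le_mul_of_nonneg_right hP₀n (norm_nonneg _))
      linarith
    · rw [Finset.sum_const, Finset.card_range, nsmul_eq_mul]
  have k3 : (N : ℝ) * (3 * ‖b‖ * ε₁) ≤ C * ε₁ := by
    rw [hC]
    have hN : (0 : ℝ) ≤ N := Nat.cast_nonneg N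
    have hbn := norm_nonneg b
    have : (N : ℝ) * (3 * ‖b‖) ≤ 4 * (N + 1) * (‖b‖ + 1) + 4 := by nlinarith [mul_nonneg hN hbn]
    calc (N : ℝ) * (3 * ‖b‖ * ε₁) = ((N : ℝ) * (3 * ‖b‖)) * ε₁ := by ring
      _ ≤ _ := mul_le_mul_of_nonneg_right this hε₁0.le
  linarith

end WeakPI

end MP9b5ea5
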