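import Pool.Agent.H63.PI.C7

open scoped ComplexOrder

set_option linter.unusedSectionVars false

universe u

namespace MP9b5ea5

section DSub

variable {Q : Type u} [CStarAlgebra Q]

/-- Cuntz subequivalence of diagonal matrices -/
def DSub {κ ν : Type} [DecidableEq κ] [Fintype ν] (a : κ → Q) (b : ν → Q) : Prop :=
  ∀ ε : ℝ, 0 < ε → ∃ r : κ → ν → Q,
    ∀ i j, ‖(∑ k, r i k * b k * star (r j k)) - (if i = j then a i else 0)‖ < ε

/-- one element family -/
abbrev one' (a : Q) : Unit → Q := fun _ => a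

lemma DSub.trans {κ ν μ : Type} [Fintype κ] [DecidableEq κ] [Fintype ν] [DecidableEq ν]
    [Fintype μ] {a : κ → Q} {b : ν → Q} {c : μ → Q} (h : DSub a b) (h' : DSub b c) : DSub a c := by
  intro ε hε
  obtain ⟨r, hr⟩ := h (ε / 2) (by positivity)
  set D : ℝ := ∑ i, ∑ k, ‖r i k‖ with hD
  have hD0 : 0 ≤ D := by positivity
  have hDi : ∀ i, ∑ k, ‖r i k‖ ≤ D := fun i =>
    Finset.single_le_sum (f := fun i => ∑ k, ‖r i k‖) (fun i _ => by positivity)
      (Finset.mem_univ i)
  obtain ⟨s, hs⟩ := h' (ε / 2 / (D ^ 2 + 1)) (by positivity)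
  refine ⟨fun i l => ∑ k, r i k * s k l, fun i j => ?_⟩
  have e1 : ∑ l, (∑ k, r i k * s k l) * c l * star (∑ k, r j k * s k l) =
      ∑ k, ∑ k', r i k * (∑ l, s k l * c l * star (s k' l)) * star (r j k') := by
    have : ∀ l, (∑ k, r i k * s k l) * c l * star (∑ k, r j k * s k l) =
        ∑ k, ∑ k', r i k * (s k l * c l * star (s k' l)) * star (r j k') := by
      intro l
      rw [star_sum, Finset.sum_mul, Finset.sum_mul_sum]
      refine Finset.sum_congr rfl fun k _ => Finset.sum_congr rfl fun k' _ => ?_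
      rw [star_mul]; noncomm_ring
    rw [Finset.sum_congr rfl fun l _ => this l, Finset.sum_comm]
    refine Finset.sum_congr rfl fun k _ => ?_
    rw [Finset.sum_comm]
    refine Finset.sum_congr rfl fun k' _ => ?_
    rw [Finset.mul_sum, Finset.sum_mul]
  have e2 : ∑ k, r i k * b k * star (r j k) =
      ∑ k, ∑ k', r i k * (if k = k' then b k else 0) * star (r j k') := by
    refine Finset.sum_congr rfl fun k _ => ?_
    rw [Finset.sum_eq_single k]
    · rw [if_pos rfl]
    · intro k' _ hk'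
      rw [if_neg (Ne.symm hk')]; simp
    · intro h; exact absurd (Finset.mem_univ _) h
  have e3 : ∑ l, (∑ k, r i k * s k l) * c l * star (∑ k, r j k * s k l) -
      (if i = j then a i else 0) =
      ∑ k, ∑ k', r i k * ((∑ l, s k l * c l * star (s k' l)) - (if k = k' then b k else 0)) *
        star (r j k') + (∑ k, r i k * b k * star (r j k) - (if i = j then a i else 0)) := by
    have e4 : ∑ k, ∑ k', r i k * ((∑ l, s k l * c l * star (s k' l)) - (if k = k' then b k else 0)) *
        star (r j k') = ∑ k, ∑ k', r i k * (∑ l, s k l * c l * star (s k' l)) * star (r j k') -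
        ∑ k, ∑ k', r i k * (if k = k' then b k else 0) * star (r j k') := by
      rw [← Finset.sum_sub_distrib]
      refine Finset.sum_congr rfl fun k _ => ?_
      rw [← Finset.sum_sub_distrib]
      refine Finset.sum_congr rfl fun k' _ => ?_
      noncomm_ring
    rw [e4, e1, e2]; abel
  rw [e3]
  refine lt_of_le_of_lt (norm_add_le _ _) ?_
  have k1 : ‖∑ k, ∑ k', r i k * ((∑ l, s k l * c l * star (s k' l)) -
      (if k = k' then b k else 0)) * star (r j k')‖ ≤ D ^ 2 * (ε / 2 / (D ^ 2 + 1)) := by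
    have h1 : ∀ k k', ‖r i k * ((∑ l, s k l * c l * star (s k' l)) -
      (if k = k' then b k else 0)) * star (r j k')‖ ≤
        ‖r i k‖ * ‖r j k'‖ * (ε / 2 / (D ^ 2 + 1)) := by
      intro k k'
      calc _ ≤ ‖r i k‖ * ‖(∑ l, s k l * c l * star (s k' l)) -
            (if k = k' then b k else 0)‖ * ‖r j k'‖ := by
            refine (norm_mul_le _ _).trans ?_
            rw [norm_star]
            exact mul_le_mul_of_nonneg_right (norm_mul_le _ _) (norm_nonneg _)
        _ ≤ ‖r i k‖ * (ε / 2 / (D ^ 2 + 1)) * ‖r j k'‖ := by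
            refine mul_le_mul_of_nonneg_right (mul_le_mul_of_nonneg_left (hs k k').le
              (norm_nonneg _)) (norm_nonneg _)
        _ = _ := by ring
    calc _ ≤ ∑ k, ∑ k', ‖r i k‖ * ‖r j k'‖ * (ε / 2 / (D ^ 2 + 1)) := by
          refine (norm_sum_le _ _).trans (Finset.sum_le_sum fun k _ => ?_)
          exact (norm_sum_le _ _).trans (Finset.sum_le_sum fun k' _ => h1 k k')
      _ = (∑ k, ‖r i k‖) * (∑ k', ‖r j k'‖) * (ε / 2 / (D ^ 2 + 1)) := by
          rw [Finset.sum_mul_sum, Finset.sum_mul]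
          refine Finset.sum_congr rfl fun k _ => ?_
          rw [Finset.sum_mul]
      _ ≤ D * D * (ε / 2 / (D ^ 2 + 1)) := by
          refine mul_le_mul_of_nonneg_right ?_ (by positivity)
          exact mul_le_mul (hDi i) (hDi j) (by positivity) hD0
      _ = _ := by ring
  have k2 : D ^ 2 * (ε / 2 / (D ^ 2 + 1)) ≤ ε / 2 := by
    rw [mul_div_assoc', div_le_iff₀ (by positivity)]
    nlinarith [sq_nonneg D]
  have k3 := hr i j
  linarith

lemma DSub.of_inj {κ ν : Type} [DecidableEq κ] [Fintype ν] [DecidableEq ν] {a : κ → Q}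
    {b : ν → Q} (σ : κ → ν) (hσ : Function.Injective σ) (h : ∀ i, a i = b (σ i)) : DSub a b := by
  intro ε hε
  refine ⟨fun i k => if k = σ i then 1 else 0, fun i j => ?_⟩
  have : (∑ k, (if k = σ i then (1 : Q) else 0) * b k * star (if k = σ j then (1 : Q) else 0)) -
      (if i = j then a i else 0) = 0 := by
    rw [Finset.sum_eq_single (σ i)]
    · by_cases hij : i = j
      · rw [if_pos rfl, if_pos (by rw [hij]), if_pos hij, h i]; simp
      · rw [if_pos rfl, if_neg (fun h => hij (hσ h)), if_neg hij]; simp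
    · intro k _ hk
      rw [if_neg hk]; simp
    · intro h; exact absurd (Finset.mem_univ _) h
  rw [this, norm_zero]; exact hε

lemma DSub.refl {κ : Type} [Fintype κ] [DecidableEq κ] (a : κ → Q) : DSub a a :=
  DSub.of_inj id Function.injective_id fun _ => rfl

lemma DSub.sum {κ κ' ν ν' : Type} [DecidableEq κ] [DecidableEq κ'] [Fintype ν] [Fintype ν']
    {a : κ → Q} {a' : κ' → Q} {b : ν → Q} {b' : ν' → Q} (h : DSub a b) (h' : DSub a' b') :
    DSub (Sum.elim a a') (Sum.elim b b') := by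
  intro ε hε
  obtain ⟨r, hr⟩ := h ε hε
  obtain ⟨r', hr'⟩ := h' ε hε
  refine ⟨Sum.elim (fun i => Sum.elim (r i) (fun _ => 0)) (fun i => Sum.elim (fun _ => 0) (r' i)),
    ?_⟩
  rintro (i | i) (j | j)
  · have := hr i j
    simpa using this
  · simpa using hε
  · simpa using hε
  · have := hr' i j
    simpa using this

/-- single elements -/
lemma DSub.of_single {a b : Q} (h : ∀ ε : ℝ, 0 < ε → ∃ r : Q, ‖r * b * star r - a‖ < ε) :
    DSub (one' a) (one' b) := by
  intro ε hε
  obtain ⟨r, hr⟩ := h ε hε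
  exact ⟨fun _ _ => r, fun i j => by simpa [one'] using hr⟩

lemma DSub.single {a b : Q} (h : DSub (one' a) (one' b)) (ε : ℝ) (hε : 0 < ε) :
    ∃ r : Q, ‖r * b * star r - a‖ < ε := by
  obtain ⟨r, hr⟩ := h ε hε
  exact ⟨r () (), by simpa [one'] using hr () ()⟩

lemma Absorbs.to_dsub {b y : Q} (hb : star b = b) (h : Absorbs b y) :
    DSub (Sum.elim (one' b) (one' y)) (one' b) := by
  intro ε hε
  obtain ⟨r₁, r₂, h1, h2, h3⟩ := h ε hε
  refine ⟨Sum.elim (fun _ _ => r₁) (fun _ _ => r₂), ?_⟩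
  rintro (i | i) (j | j)
  · simpa [one'] using h1
  · simpa [one'] using h3
  · have : r₂ * b * star r₁ = star (r₁ * b * star r₂) := by
      simp only [star_mul, star_star, hb]; noncomm_ring
    have h4 : ‖r₂ * b * star r₁‖ < ε := by rw [this, norm_star]; exact h3
    simpa [one'] using h4
  · simpa [one'] using h2

lemma Absorbs.of_dsub {b y : Q} (h : DSub (Sum.elim (one' b) (one' y)) (one' b)) :
    Absorbs b y := by
  intro ε hε
  obtain ⟨r, hr⟩ := h ε hε
  refine ⟨r (Sum.inl ()) (), r (Sum.inr ()) (), ?_, ?_, ?_⟩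
  · simpa [one'] using hr (Sum.inl ()) (Sum.inl ())
  · simpa [one'] using hr (Sum.inr ()) (Sum.inr ())
  · simpa [one'] using hr (Sum.inl ()) (Sum.inr ())

/-- `b ≤ p + q` with `p, q ≥ 0` implies `b ≾ p ⊕ q`. -/
lemma DSub.of_le_add [PartialOrder Q] [StarOrderedRing Q] {b p q : Q} (hb : 0 ≤ b)
    (h : b ≤ p + q) : DSub (one' b) (Sum.elim (one' p) (one' q)) := by
  intro ε hε
  obtain ⟨x, hx⟩ := approx_of_le hb h ε hε
  refine ⟨fun _ _ => x, fun i j => ?_⟩
  have : x * (p + q) * star x = x * p * star x + x * q * star x := by noncomm_ring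
  rw [this] at hx
  simpa [one'] using hx

lemma DSub.of_le [PartialOrder Q] [StarOrderedRing Q] {b p : Q} (hb : 0 ≤ b)
    (h : b ≤ p) : DSub (one' b) (one' p) :=
  DSub.of_single fun ε hε => approx_of_le hb h ε hε

lemma DSub.of_conj (x b : Q) : DSub (one' (x * b * star x)) (one' b) :=
  DSub.of_single fun ε hε => ⟨x, by simpa using hε⟩

lemma DSub.smul [PartialOrder Q] [StarOrderedRing Q] {c : ℝ} (hc : 0 ≤ c) (b : Q) :
    DSub (one' (c • b)) (one' b) := by
  have h1 : c • b = (Real.sqrt c • (1 : Q)) * b * star (Real.sqrt c • (1 : Q)) := by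
    rw [star_smul, star_trivial, star_one, smul_mul_assoc, one_mul, mul_smul_comm, mul_one,
      smul_smul, Real.mul_self_sqrt hc]
  rw [h1]
  exact DSub.of_conj _ _

/-- `v^* v ≾ v v^*` -/
lemma DSub.vstarv [PartialOrder Q] [StarOrderedRing Q] (v : Q) :
    DSub (one' (star v * v)) (one' (v * star v)) := by
  refine DSub.of_single fun ε hε => ?_
  set m : Q := v * star v with hm
  have hm0 : 0 ≤ m := mul_star_self_nonneg v
  set s : Q := CFC.sqrt m with hs
  have hss : s * s = m := CFC.sqrt_mul_sqrt_self m hm0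
  have hsa : star s = s := (IsSelfAdjoint.of_nonneg (CFC.sqrt_nonneg m)).star_eq
  set κ : ℝ := min 1 (ε / (2 * ‖v‖ + 2)) with hκ
  have hκ0 : 0 < κ := by positivity
  have hκ1 : κ ≤ 1 := min_le_left _ _
  have hκ2 : κ * (2 * ‖v‖ + 2) ≤ ε := by
    have : κ ≤ ε / (2 * ‖v‖ + 2) := min_le_right _ _
    rwa [le_div_iff₀ (by positivity)] at this
  obtain ⟨z, hz⟩ := approx_mul_star_mul v κ hκ0
  refine ⟨star z * s, ?_⟩
  have hms : star m = m := (IsSelfAdjoint.of_nonneg hm0).star_eq
  have e1 : star z * s * m * star (star z * s) = star (m * z) * (m * z) := by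
    simp only [star_mul, star_star, hsa, hms]
    calc star z * s * m * (s * z) = star z * (s * (s * s) * s) * z := by rw [hss]; noncomm_ring
      _ = star z * ((s * s) * (s * s)) * z := by noncomm_ring
      _ = star z * m * (m * z) := by rw [hss]; noncomm_ring
  rw [e1]
  set y : Q := m * z with hy
  have hvy : ‖v - y‖ < κ := hz
  have e2 : star y * y - star v * v = -(star (v - y) * y) - star v * (v - y) := by
    rw [star_sub]; noncomm_ring
  have ny : ‖y‖ ≤ ‖v‖ + κ := by
    have : y = v - (v - y) := by abel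
    rw [this]
    exact (norm_sub_le _ _).trans (by linarith)
  rw [e2]
  refine lt_of_le_of_lt (norm_sub_le _ _) ?_
  rw [norm_neg]
  have k1 : ‖star (v - y) * y‖ ≤ κ * (‖v‖ + κ) := by
    refine (norm_mul_le _ _).trans ?_
    rw [norm_star]
    exact mul_le_mul hvy.le ny (norm_nonneg _) hκ0.le
  have k2 : ‖star v * (v - y)‖ ≤ ‖v‖ * κ := by
    refine (norm_mul_le _ _).trans ?_
    rw [norm_star]
    exact mul_le_mul_of_nonneg_left hvy.le (norm_nonneg _)
  nlinarith

/-- elements of the hereditary subalgebra of `e e` are below `e e` -/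
lemma hered_sub [PartialOrder Q] [StarOrderedRing Q] (e : Q) (he : 0 ≤ e) (G : Q) (hG : 0 ≤ G)
    (hGL : InL e G) : DSub (one' G) (one' (e * e)) := by
  have hesa : star e = e := (IsSelfAdjoint.of_nonneg he).star_eq
  set g : Q := CFC.sqrt G with hg
  have hgsa : star g = g := (IsSelfAdjoint.of_nonneg (CFC.sqrt_nonneg G)).star_eq
  have hgg : g * g = G := CFC.sqrt_mul_sqrt_self G hG
  have hgL : InL e g := by
    refine InL.of_approx fun ε hε => ?_
    obtain ⟨z, hz⟩ := approx_mul_star_mul g ε hε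
    refine ⟨g * star g * z, ?_, hz⟩
    rw [hgsa, hgg]
    exact hGL.mul_right z
  refine DSub.of_single fun ε hε => ?_
  set κ : ℝ := min 1 (ε / (2 * ‖g‖ + 2)) with hκ
  have hκ0 : 0 < κ := by positivity
  have hκ1 : κ ≤ 1 := min_le_left _ _
  have hκ2 : κ * (2 * ‖g‖ + 2) ≤ ε := by
    have : κ ≤ ε / (2 * ‖g‖ + 2) := min_le_right _ _
    rwa [le_div_iff₀ (by positivity)] at this
  obtain ⟨z, hz⟩ := hgL κ hκ0
  refine ⟨star z, ?_⟩
  rw [star_star]
  have e1 : star z * (e * e) * z = star (e * z) * (e * z) := by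
    rw [star_mul, hesa]; noncomm_ring
  rw [e1]
  set y : Q := e * z with hy
  have e2 : star y * y - G = -(star (g - y) * y) - star g * (g - y) := by
    rw [← hgg, star_sub, hgsa]; noncomm_ring
  have ny : ‖y‖ ≤ ‖g‖ + κ := by
    have : y = g - (g - y) := by abel
    rw [this]
    exact (norm_sub_le _ _).trans (by linarith)
  rw [e2]
  refine lt_of_le_of_lt (norm_sub_le _ _) ?_
  rw [norm_neg]
  have k1 : ‖star (g - y) * y‖ ≤ κ * (‖g‖ + κ) := by
    refine (norm_mul_le _ _).trans ?_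
    rw [norm_star]
    exact mul_le_mul hz.le ny (norm_nonneg _) hκ0.le
  have k2 : ‖star g * (g - y)‖ ≤ ‖g‖ * κ := by
    refine (norm_mul_le _ _).trans ?_
    rw [norm_star]
    exact mul_le_mul_of_nonneg_left hz.le (norm_nonneg _)
  nlinarith

/-- orthogonal elements of the hereditary subalgebra of `e e` -/
lemma orth_sub [PartialOrder Q] [StarOrderedRing Q] (e : Q) (he : 0 ≤ e) (a₁ a₂ : Q)
    (h₁ : 0 ≤ a₁) (h₂ : 0 ≤ a₂) (h12 : a₁ * a₂ = 0) (hL₁ : InL e a₁) (hL₂ : InL e a₂) :
    DSub (Sum.elim (one' a₁) (one' a₂)) (one' (e * e)) := by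
  have hs1 : star a₁ = a₁ := (IsSelfAdjoint.of_nonneg h₁).star_eq
  have hs2 : star a₂ = a₂ := (IsSelfAdjoint.of_nonneg h₂).star_eq
  have h21 : a₂ * a₁ = 0 := by
    have := congrArg star h12
    rwa [star_mul, hs1, hs2, star_zero] at this
  refine DSub.trans (b := one' (a₁ + a₂)) ?_
    (hered_sub e he (a₁ + a₂) (add_nonneg h₁ h₂) (hL₁.add hL₂))
  intro ε hε
  obtain ⟨t₁, k₁, ht1sa, ht1, ht1', ht1a⟩ := exists_cut a₁ h₁ ε hε
  obtain ⟨t₂, k₂, ht2sa, ht2, ht2', ht2a⟩ := exists_cut a₂ h₂ ε hε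
  have ht1s : star t₁ = t₁ := ht1sa.star_eq
  have ht2s : star t₂ = t₂ := ht2sa.star_eq
  have m1 : t₁ * a₂ = 0 := by rw [ht1', mul_assoc, h12, mul_zero]
  have m2 : a₁ * t₂ = 0 := by rw [ht2, ← mul_assoc, h12, zero_mul]
  have m3 : a₂ * t₁ = 0 := by rw [ht1, ← mul_assoc, h21, zero_mul]
  have m4 : t₂ * a₁ = 0 := by rw [ht2', mul_assoc, h21, mul_zero]
  refine ⟨Sum.elim (fun _ _ => t₁) (fun _ _ => t₂), ?_⟩
  rintro (i | i) (j | j)
  · have e1 : t₁ * (a₁ + a₂) * star t₁ = t₁ * a₁ * t₁ := by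
      rw [ht1s, mul_add, m1, add_zero]
    have : ‖t₁ * (a₁ + a₂) * star t₁ - a₁‖ < ε := by rw [e1]; exact ht1a
    simpa [one'] using this
  · have e1 : t₁ * (a₁ + a₂) * star t₂ = 0 := by
      rw [ht2s, mul_add, m1, add_zero, mul_assoc, m2, mul_zero]
    have : ‖t₁ * (a₁ + a₂) * star t₂‖ < ε := by rw [e1, norm_zero]; exact hε
    simpa [one'] using this
  · have e1 : t₂ * (a₁ + a₂) * star t₁ = 0 := by
      rw [ht1s, mul_add, m4, zero_add, mul_assoc, m3, mul_zero]
    have : ‖t₂ * (a₁ + a₂) * star t₁‖ < ε := by rw [e1, norm_zero]; exact hε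
    simpa [one'] using this
  · have e1 : t₂ * (a₁ + a₂) * star t₂ = t₂ * a₂ * t₂ := by
      rw [ht2s, mul_add, m4, zero_add]
    have : ‖t₂ * (a₁ + a₂) * star t₂ - a₂‖ < ε := by rw [e1]; exact ht2a
    simpa [one'] using this

end DSub

end MP9b5ea5
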