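import Pool.Agent.H63.PI.D1

open scoped ComplexOrder

set_option linter.unusedSectionVars false

universe u

namespace MP9b5ea5

/-- cut functions -/
noncomputable def f1 (δ t : ℝ) : ℝ := cl ((t - δ) / δ)

noncomputable def cutF (δ t : ℝ) : ℝ := f1 δ t * (t - δ) * f1 δ t

lemma f1_continuous (δ : ℝ) : Continuous (f1 δ) := cl_continuous.comp (by fun_prop)

lemma cutF_continuous (δ : ℝ) : Continuous (cutF δ) :=
  ((f1_continuous δ).mul (by fun_prop)).mul (f1_continuous δ)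

lemma f1_eq_zero {δ t : ℝ} (hδ : 0 < δ) (h : t ≤ δ) : f1 δ t = 0 :=
  cl_of_nonpos (div_nonpos_of_nonpos_of_nonneg (by linarith) hδ.le)

lemma f1_eq_one {δ t : ℝ} (hδ : 0 < δ) (h : 2 * δ ≤ t) : f1 δ t = 1 :=
  cl_of_one_le (by rw [le_div_iff₀ hδ]; linarith)

lemma f1_nonneg (δ t : ℝ) : 0 ≤ f1 δ t := cl_nonneg _

lemma f1_le_one (δ t : ℝ) : f1 δ t ≤ 1 := cl_le_one _

lemma cutF_nonneg {δ t : ℝ} (hδ : 0 < δ) : 0 ≤ cutF δ t := by
  unfold cutF
  rcases le_total t δ with h | h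
  · rw [f1_eq_zero hδ h]; simp
  · have h1 := f1_nonneg δ t
    have h2 : 0 ≤ t - δ := by linarith
    positivity

lemma cutF_abs {δ t : ℝ} (hδ : 0 < δ) (ht : 0 ≤ t) : |cutF δ t - t| ≤ 2 * δ := by
  have h1 : 0 ≤ f1 δ t := f1_nonneg _ _
  have h2 : f1 δ t ≤ 1 := f1_le_one _ _
  unfold cutF
  rw [abs_le]
  rcases le_total t δ with h | h
  · rw [f1_eq_zero hδ h]; constructor <;> linarith
  · have h3 : 0 ≤ t - δ := by linarith
    have h4 : f1 δ t * (t - δ) * f1 δ t ≤ t - δ := by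
      have : f1 δ t * (t - δ) * f1 δ t = (f1 δ t * f1 δ t) * (t - δ) := by ring
      rw [this]
      have h5 : f1 δ t * f1 δ t ≤ 1 := by nlinarith
      nlinarith
    rcases le_total t (2 * δ) with h' | h'
    · have h6 : 0 ≤ f1 δ t * (t - δ) * f1 δ t := by positivity
      constructor <;> linarith
    · rw [f1_eq_one hδ h']; constructor <;> linarith

lemma cutF_anti {δ δ' t : ℝ} (hδ : 0 < δ) (h : δ ≤ δ') (ht : 0 ≤ t) : cutF δ' t ≤ cutF δ t := by
  have hδ' : 0 < δ' := lt_of_lt_of_le hδ h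
  rcases le_total t δ' with h1 | h1
  · have : cutF δ' t = 0 := by unfold cutF; rw [f1_eq_zero hδ' h1]; simp
    rw [this]; exact cutF_nonneg hδ
  · have h2 : f1 δ' t ≤ f1 δ t := by
      unfold f1
      refine cl_mono ?_
      rw [div_le_div_iff₀ hδ' hδ]
      nlinarith
    have h3 : t - δ' ≤ t - δ := by linarith
    have h4 : 0 ≤ t - δ' := by linarith
    have h5 := f1_nonneg δ' t
    unfold cutF
    have h6 : f1 δ' t * (t - δ') ≤ f1 δ t * (t - δ) :=
      mul_le_mul h2 h3 h4 (f1_nonneg δ t)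
    exact mul_le_mul h6 h2 h5 (mul_nonneg (f1_nonneg δ t) (by linarith))

section Cutd

variable {A : Type*} [CStarAlgebra A] [PartialOrder A] [StarOrderedRing A]

/-- the cut-down element -/
noncomputable def cutd (δ : ℝ) (z : A) : A := cfc (cutF δ) z

lemma cutd_eq (δ : ℝ) (z : A) (hz : 0 ≤ z) :
    cutd δ z = cfc (f1 δ) z * (z - algebraMap ℝ A δ) * cfc (f1 δ) z := by
  have hsa : IsSelfAdjoint z := .of_nonneg hz
  have hc := f1_continuous δ
  unfold cutd
  have : cutF δ = fun t => f1 δ t * (t - δ) * f1 δ t := rfl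
  rw [this, cfc_mul (fun t => f1 δ t * (t - δ)) (f1 δ) z (hc.mul (by fun_prop)).continuousOn
      hc.continuousOn, cfc_mul (f1 δ) (fun t => t - δ) z hc.continuousOn (by fun_prop),
      cfc_sub (fun t => t) (fun _ => δ) z (by fun_prop) (by fun_prop), cfc_id' ℝ z hsa,
      cfc_const δ z hsa]

lemma cutd_nonneg {δ : ℝ} (hδ : 0 < δ) (z : A) : 0 ≤ cutd δ z :=
  cfc_nonneg fun t _ => cutF_nonneg hδ

lemma cutd_norm {δ : ℝ} (hδ : 0 < δ) (z : A) (hz : 0 ≤ z) : ‖cutd δ z - z‖ ≤ 2 * δ := by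
  have hsa : IsSelfAdjoint z := .of_nonneg hz
  have e1 : cutd δ z - z = cfc (fun t => cutF δ t - t) z := by
    rw [cfc_sub (cutF δ) (fun t => t) z (cutF_continuous δ).continuousOn (by fun_prop),
      cfc_id' ℝ z hsa, cutd]
  rw [e1]
  refine norm_cfc_le (by positivity) fun t ht => ?_
  rw [Real.norm_eq_abs]
  exact cutF_abs hδ (spec_nonneg hz ht)

lemma cutd_le_conj {δ : ℝ} (z S : A) (hz : 0 ≤ z) (h : z ≤ S + algebraMap ℝ A δ) :
    cutd δ z ≤ cfc (f1 δ) z * S * cfc (f1 δ) z := by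
  have hgs : star (cfc (f1 δ) z) = cfc (f1 δ) z :=
    (show IsSelfAdjoint (cfc (f1 δ) z) from cfc_predicate _ _).star_eq
  rw [cutd_eq δ z hz]
  have h1 : z - algebraMap ℝ A δ ≤ S := by rw [sub_le_iff_le_add]; exact h
  have h2 := star_right_conjugate_le_conjugate h1 (cfc (f1 δ) z)
  rwa [hgs] at h2

lemma cutd_anti {δ δ' : ℝ} (hδ : 0 < δ) (h : δ ≤ δ') (z : A) (hz : 0 ≤ z) :
    cutd δ' z ≤ cutd δ z :=
  cfc_mono (fun t ht => cutF_anti hδ h (spec_nonneg hz ht)) (cutF_continuous δ').continuousOn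
    (cutF_continuous δ).continuousOn

lemma le_cutd_add {δ : ℝ} (hδ : 0 < δ) (z : A) (hz : 0 ≤ z) :
    z ≤ cutd δ z + algebraMap ℝ A (2 * δ) := by
  have hs1 : star (cutd δ z) = cutd δ z := (IsSelfAdjoint.of_nonneg (cutd_nonneg hδ z)).star_eq
  have hs2 : star z = z := (IsSelfAdjoint.of_nonneg hz).star_eq
  have hsa : IsSelfAdjoint (z - cutd δ z) := by rw [IsSelfAdjoint, star_sub, hs1, hs2]
  have h1 : z - cutd δ z ≤ algebraMap ℝ A (2 * δ) :=
    hsa.le_algebraMap_norm_self.trans (algebraMap_mono A (by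
      rw [norm_sub_rev]; exact cutd_norm hδ z hz))
  rw [sub_le_iff_le_add] at h1
  rwa [add_comm]

lemma map_cutd {B : Type*} [CStarAlgebra B] [PartialOrder B] [StarOrderedRing B]
    (φ : A →⋆ₐ[ℂ] B) (δ : ℝ) (z : A) (hz : 0 ≤ z) : φ (cutd δ z) = cutd δ (φ z) := by
  unfold cutd
  have h1 : IsSelfAdjoint z := .of_nonneg hz
  have h2 : IsSelfAdjoint (φ z) := .of_nonneg (map_nonneg φ hz)
  exact StarAlgHomClass.map_cfc φ (cutF δ) z (cutF_continuous δ).continuousOn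
    (map_continuous φ) h1 h2

end Cutd

end MP9b5ea5
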