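import Pool.Agent.H63.PI.D2

open scoped ComplexOrder

set_option linter.unusedSectionVars false

universe u

namespace MP9b5ea5

section Absorb

variable {A Q : Type u} [CStarAlgebra A] [PartialOrder A] [StarOrderedRing A]
  [CStarAlgebra Q] [PartialOrder Q] [StarOrderedRing Q]

/-- a sum of conjugates is close to one conjugate, general version -/
lemma row_of_absorbs (φ : A →⋆ₐ[ℂ] Q) (c : A) (hcs : star c = c) (habs : Absorbs c c) (n : ℕ)
    (t : ℕ → Q) (ε : ℝ) (hε : 0 < ε) :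
    ∃ v : Q, ‖v * φ c * star v - ∑ j ∈ Finset.range n, t j * φ c * star (t j)‖ < ε := by
  set D : ℝ := ∑ i ∈ Finset.range n, ∑ j ∈ Finset.range n, ‖t i‖ * ‖t j‖ with hD
  have hD0 : 0 ≤ D := by positivity
  obtain ⟨s, z, -, -, hz⟩ := habs.iterate hcs n (ε / (D + 1)) (by positivity)
  refine ⟨∑ i ∈ Finset.range n, t i * φ (z i), ?_⟩
  have e1 : (∑ i ∈ Finset.range n, t i * φ (z i)) * φ c *
      star (∑ i ∈ Finset.range n, t i * φ (z i)) =
      ∑ i ∈ Finset.range n, ∑ j ∈ Finset.range n,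
        t i * φ (z i * c * star (z j)) * star (t j) := by
    rw [star_sum, Finset.sum_mul, Finset.sum_mul_sum]
    refine Finset.sum_congr rfl fun i _ => Finset.sum_congr rfl fun j _ => ?_
    simp only [star_mul, map_mul, map_star]; noncomm_ring
  have e2 : ∑ j ∈ Finset.range n, t j * φ c * star (t j) =
      ∑ i ∈ Finset.range n, ∑ j ∈ Finset.range n,
        t i * φ (if i = j then c else 0) * star (t j) := by
    refine Finset.sum_congr rfl fun i hi => ?_
    rw [Finset.sum_eq_single_of_mem i hi]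
    · rw [if_pos rfl]
    · intro j _ hj
      rw [if_neg (Ne.symm hj)]; simp
  have e3 : (∑ i ∈ Finset.range n, t i * φ (z i)) * φ c *
      star (∑ i ∈ Finset.range n, t i * φ (z i)) -
      ∑ j ∈ Finset.range n, t j * φ c * star (t j) =
      ∑ i ∈ Finset.range n, ∑ j ∈ Finset.range n,
        t i * φ (z i * c * star (z j) - (if i = j then c else 0)) * star (t j) := by
    rw [e1, e2, ← Finset.sum_sub_distrib]
    refine Finset.sum_congr rfl fun i _ => ?_
    rw [← Finset.sum_sub_distrib]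
    refine Finset.sum_congr rfl fun j _ => ?_
    rw [map_sub]; noncomm_ring
  rw [e3]
  have hb : ∀ i ∈ Finset.range n, ∀ j ∈ Finset.range n,
      ‖t i * φ (z i * c * star (z j) - (if i = j then c else 0)) * star (t j)‖ ≤
      ‖t i‖ * ‖t j‖ * (ε / (D + 1)) := by
    intro i hi j hj
    have := hz i (Finset.mem_range.mp hi) j (Finset.mem_range.mp hj)
    calc _ ≤ ‖t i‖ * ‖φ (z i * c * star (z j) - (if i = j then c else 0))‖ * ‖t j‖ := by
          refine (norm_mul_le _ _).trans ?_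
          rw [norm_star]
          exact mul_le_mul_of_nonneg_right (norm_mul_le _ _) (norm_nonneg _)
      _ ≤ ‖t i‖ * (ε / (D + 1)) * ‖t j‖ := by
          refine mul_le_mul_of_nonneg_right (mul_le_mul_of_nonneg_left ?_ (norm_nonneg _))
            (norm_nonneg _)
          exact (NonUnitalStarAlgHom.norm_apply_le φ _).trans this.le
      _ = _ := by ring
  calc _ ≤ ∑ i ∈ Finset.range n, ‖∑ j ∈ Finset.range n,
        t i * φ (z i * c * star (z j) - (if i = j then c else 0)) * star (t j)‖ :=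
          norm_sum_le _ _
    _ ≤ ∑ i ∈ Finset.range n, ∑ j ∈ Finset.range n, ‖t i‖ * ‖t j‖ * (ε / (D + 1)) := by
        refine Finset.sum_le_sum fun i hi => (norm_sum_le _ _).trans ?_
        exact Finset.sum_le_sum fun j hj => hb i hi j hj
    _ = D * (ε / (D + 1)) := by
        rw [hD, Finset.sum_mul]
        refine Finset.sum_congr rfl fun i _ => ?_
        rw [Finset.sum_mul]
    _ < ε := by
        rw [mul_div_assoc', div_lt_iff₀ (by positivity)]
        nlinarith

lemma absorbs_self' (hA : PurelyInfinite A) (c : A) (hc : 0 ≤ c) : Absorbs c c := by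
  have hee : CFC.sqrt c * CFC.sqrt c = c := CFC.sqrt_mul_sqrt_self c hc
  have := absorbs_self hA (CFC.sqrt c) (CFC.sqrt_nonneg c)
  rwa [hee] at this

lemma Absorbs.map (φ : A →⋆ₐ[ℂ] Q) {a y : A} (h : Absorbs a y) : Absorbs (φ a) (φ y) := by
  intro ε hε
  obtain ⟨r₁, r₂, h1, h2, h3⟩ := h ε hε
  refine ⟨φ r₁, φ r₂, ?_, ?_, ?_⟩
  · rw [← map_star, ← map_mul, ← map_mul, ← map_sub]
    exact lt_of_le_of_lt (NonUnitalStarAlgHom.norm_apply_le φ _) h1
  · rw [← map_star, ← map_mul, ← map_mul, ← map_sub]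
    exact lt_of_le_of_lt (NonUnitalStarAlgHom.norm_apply_le φ _) h2
  · rw [← map_star, ← map_mul, ← map_mul]
    exact lt_of_le_of_lt (NonUnitalStarAlgHom.norm_apply_le φ _) h3

/-- the closed ideal generated by a closed ideal `J` and an element -/
def idealSup (J : Set Q) (c : Q) : Set Q := {x | ∀ I : Set Q, IsClosedIdeal I → J ⊆ I → c ∈ I → x ∈ I}

lemma idealSup_isClosedIdeal (J : Set Q) (c : Q) : IsClosedIdeal (idealSup J c) := by
  refine ⟨?_, ?_, ?_, ?_, ?_⟩
  · have : idealSup J c = ⋂ I ∈ {I : Set Q | IsClosedIdeal I ∧ J ⊆ I ∧ c ∈ I}, I := by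
      ext a
      simp [idealSup]
    rw [this]
    exact isClosed_biInter fun I hI => hI.1.isClosed
  · exact fun I hI _ _ => hI.zero_mem
  · exact fun x y hx hy I hI hJ hc => hI.add_mem (hx I hI hJ hc) (hy I hI hJ hc)
  · exact fun a x hx I hI hJ hc => hI.mul_mem_left a (hx I hI hJ hc)
  · exact fun a x hx I hI hJ hc => hI.mul_mem_right a (hx I hI hJ hc)

lemma subset_idealSup (J : Set Q) (c : Q) : J ⊆ idealSup J c := fun _ hx _ _ hJ _ => hJ hx

lemma mem_idealSup (J : Set Q) (c : Q) : c ∈ idealSup J c := fun _ _ _ hc => hc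

lemma idealSup_approx {J : Set Q} (hJ : IsClosedIdeal J) (c Z : Q) (h : Z ∈ idealSup J c) (ε : ℝ)
    (hε : 0 < ε) : ∃ T ∈ genM (fun _ : Unit => c), ∃ j ∈ J, ‖Z - (T + j)‖ < ε := by
  let C : Option J → Q := fun o => o.elim c (fun j => (j : Q))
  have h1 : Z ∈ closure (genM C : Set Q) := by
    refine h _ (genM_closedIdeal C) ?_ ?_
    · intro j hj
      exact mem_genM C (some ⟨j, hj⟩)
    · exact mem_genM C none
  obtain ⟨T, hT, hd⟩ := Metric.mem_closure_iff.mp h1 ε hε
  rw [dist_eq_norm] at hd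
  have h2 : ∃ T₁ ∈ genM (fun _ : Unit => c), ∃ j ∈ J, T = T₁ + j := by
    clear hd
    induction hT using AddSubmonoid.closure_induction with
    | mem x hx =>
      obtain ⟨k, s, r, rfl⟩ := hx
      cases k with
      | none =>
        exact ⟨s * c * r, AddSubmonoid.subset_closure ⟨(), s, r, rfl⟩, 0, hJ.zero_mem, by
          simp [C]⟩
      | some j =>
        exact ⟨0, (genM _).zero_mem, s * (j : Q) * r, hJ.mul_mem_right _
          (hJ.mul_mem_left _ j.2), by simp [C]⟩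
    | zero => exact ⟨0, (genM _).zero_mem, 0, hJ.zero_mem, by simp⟩
    | add x y _ _ hx hy =>
      obtain ⟨T₁, hT₁, j₁, hj₁, rfl⟩ := hx
      obtain ⟨T₂, hT₂, j₂, hj₂, rfl⟩ := hy
      exact ⟨T₁ + T₂, (genM _).add_mem hT₁ hT₂, j₁ + j₂, hJ.add_mem hj₁ hj₂, by abel⟩
  obtain ⟨T₁, hT₁, j, hj, rfl⟩ := h2
  exact ⟨T₁, hT₁, j, hj, hd⟩

/-- positive majorant inside the ideal -/
lemma exists_majorant {J : Set Q} (hJ : IsClosedIdeal J) (j : Q) (hj : j ∈ J) :
    ∃ j' ∈ J, 0 ≤ j' ∧ j + star j ≤ j' := by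
  set h : Q := j + star j with hh
  have hhJ : h ∈ J := hJ.add_mem hj (hJ.star_mem hj)
  have hsa : IsSelfAdjoint h := IsSelfAdjoint.add_star_self j
  have hcs : star (cfc (fun t : ℝ => |t|) h) = cfc (fun t : ℝ => |t|) h :=
    (show IsSelfAdjoint (cfc (fun t : ℝ => |t|) h) from cfc_predicate _ _).star_eq
  refine ⟨cfc (fun t : ℝ => |t|) h, ?_, ?_, ?_⟩
  · refine hJ.of_mul_star ?_
    rw [hcs, ← cfc_mul (fun t : ℝ => |t|) (fun t : ℝ => |t|) h (by fun_prop) (by fun_prop)]
    have : cfc (fun t : ℝ => |t| * |t|) h = h * h := by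
      have e : (fun t : ℝ => |t| * |t|) = fun t => t * t := by
        funext t; exact abs_mul_abs_self t
      rw [e, cfc_mul (fun t : ℝ => t) (fun t : ℝ => t) h (by fun_prop) (by fun_prop),
        cfc_id' ℝ h]
    rw [this]
    exact hJ.mul_mem_left _ hhJ
  · exact cfc_nonneg fun t _ => abs_nonneg t
  · calc h = cfc (fun t : ℝ => t) h := (cfc_id' ℝ h).symm
      _ ≤ cfc (fun t : ℝ => |t|) h := cfc_mono (fun t _ => le_abs_self t) (by fun_prop)
          (by fun_prop)

lemma star3 (hA : PurelyInfinite A) (φ : A →⋆ₐ[ℂ] Q) {J : Set Q} (hJ : IsClosedIdeal J) (c : A)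
    (hc : 0 ≤ c) (Z : Q) (hZ : 0 ≤ Z) (h : Z ∈ idealSup J (φ c)) (δ : ℝ) (hδ : 0 < δ) :
    ∃ j' ∈ J, 0 ≤ j' ∧ DSub (one' (cutd δ Z)) (Sum.elim (one' (φ c)) (one' j')) := by
  classical
  obtain ⟨T, hT, j, hj, hd⟩ := idealSup_approx hJ (φ c) Z h δ hδ
  obtain ⟨j', hj', hj'0, hjj'⟩ := exists_majorant hJ j hj
  have hφc : 0 ≤ φ c := map_nonneg φ hc
  obtain ⟨n, t, ht⟩ := genM_dominated (fun _ : Unit => φ c) (fun _ => hφc) hT
  set S : Q := ∑ i ∈ Finset.range n, t () i * φ c * star (t () i) with hS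
  have ht' : T + star T ≤ S := by
    refine ht.trans (le_of_eq ?_)
    rw [Fintype.sum_unique]
  have h1 : (T + j) + star (T + j) ≤ S + j' := by
    have e : (T + j) + star (T + j) = (T + star T) + (j + star j) := by rw [star_add]; abel
    rw [e]; exact add_le_add ht' hjj'
  have h2 := le_half_of_close hZ hd.le h1
  have h3 := cutd_le_conj Z _ hZ h2
  set g : Q := cfc (f1 δ) Z with hg
  have hgs : star g = g := (show IsSelfAdjoint (cfc (f1 δ) Z) from cfc_predicate _ _).star_eq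
  have e1 : g * ((1 / 2 : ℝ) • (S + j')) * g = (1 / 2 : ℝ) • (g * S * star g) +
      (1 / 2 : ℝ) • (g * j' * star g) := by
    rw [hgs, mul_smul_comm, smul_mul_assoc, ← smul_add]
    congr 1; noncomm_ring
  rw [e1] at h3
  refine ⟨j', hj', hj'0, ?_⟩
  refine (DSub.of_le_add (cutd_nonneg hδ Z) h3).trans (DSub.sum ?_ ?_)
  · refine (DSub.smul (by norm_num) _).trans ((DSub.of_conj g S).trans ?_)
    refine DSub.of_single fun ε hε => ?_
    exact row_of_absorbs φ c (IsSelfAdjoint.of_nonneg hc).star_eq (absorbs_self' hA c hc) n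
      (t ()) ε hε
  · exact (DSub.smul (by norm_num) _).trans (DSub.of_conj g j')

end Absorb

section Decomp

variable {Q : Type u} [CStarAlgebra Q] [PartialOrder Q] [StarOrderedRing Q]

lemma norm_q0_conj (q₀ : Q) (m : ℝ → ℝ) (hm : Continuous m) (hm0 : ∀ t, 0 ≤ m t) (C : ℝ)
    (hC : 0 ≤ C) (hmC : ∀ t, 0 ≤ t → m t * t ≤ C) :
    ‖q₀ * cfc m (star q₀ * q₀) * star q₀‖ ≤ C := by
  set q : Q := star q₀ * q₀ with hq
  have hq0 : 0 ≤ q := star_mul_self_nonneg q₀
  have hqsa : IsSelfAdjoint q := .of_nonneg hq0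
  have hrc : Continuous (fun t => Real.sqrt (m t)) := Real.continuous_sqrt.comp hm
  set r : Q := cfc (fun t => Real.sqrt (m t)) q with hr
  have hrs : star r = r := (show IsSelfAdjoint r from cfc_predicate _ _).star_eq
  have hrr : r * r = cfc m q := by
    rw [hr, ← cfc_mul _ _ q hrc.continuousOn hrc.continuousOn]
    exact cfc_congr fun t _ => Real.mul_self_sqrt (hm0 t)
  have e1 : q₀ * cfc m q * star q₀ = (q₀ * r) * star (q₀ * r) := by
    rw [← hrr, star_mul, hrs]; noncomm_ring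
  have e2 : r * q * r = cfc (fun t => Real.sqrt (m t) * t * Real.sqrt (m t)) q := by
    rw [cfc_mul (fun t => Real.sqrt (m t) * t) (fun t => Real.sqrt (m t)) q
      (hrc.mul continuous_id).continuousOn hrc.continuousOn,
      cfc_mul (fun t => Real.sqrt (m t)) (fun t => t) q hrc.continuousOn (by fun_prop),
      cfc_id' ℝ q]
  rw [e1, CStarRing.norm_self_mul_star, ← CStarRing.norm_star_mul_self, star_mul, hrs]
  have e3 : r * star q₀ * (q₀ * r) = r * q * r := by rw [hq]; noncomm_ring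
  rw [e3, e2]
  refine norm_cfc_le hC fun t ht => ?_
  have ht0 : 0 ≤ t := spec_nonneg hq0 ht
  have e4 : Real.sqrt (m t) * t * Real.sqrt (m t) = m t * t := by
    calc Real.sqrt (m t) * t * Real.sqrt (m t) = (Real.sqrt (m t) * Real.sqrt (m t)) * t := by ring
      _ = m t * t := by rw [Real.mul_self_sqrt (hm0 t)]
  rw [e4, Real.norm_eq_abs, abs_of_nonneg (mul_nonneg (hm0 t) ht0)]
  exact hmC t ht0

/-- `b ≾ Z_δ ⊕ w` -/
lemma star1 (b : Q) (hb : 0 ≤ b) (q₀ Z : Q) (hZ : 0 ≤ Z) (ε₀ ε₁ δ : ℝ) (hδ : 0 < δ)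
    (hε₀ : 0 ≤ ε₀) (hε₁ : 2 * δ + ε₀ < ε₁) (hclose : ‖q₀ * star q₀ - Z‖ ≤ ε₀) :
    DSub (one' b) (Sum.elim (one' (cutd δ Z))
      (one' ((1 - cfc (f1 ε₁) (star q₀ * q₀)) * b * (1 - cfc (f1 ε₁) (star q₀ * q₀))))) := by
  have hε₁0 : 0 < ε₁ := by linarith
  set q : Q := star q₀ * q₀ with hq
  have hq0 : 0 ≤ q := star_mul_self_nonneg q₀
  have hqsa : IsSelfAdjoint q := .of_nonneg hq0
  set f : Q := cfc (f1 ε₁) q with hf
  have hfs : star f = f := (show IsSelfAdjoint f from cfc_predicate _ _).star_eq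
  have hfc := f1_continuous ε₁
  -- b ≤ 2 f b f + 2 w
  have h1 : b ≤ (2 : ℝ) • (f * b * f) + (2 : ℝ) • ((1 - f) * b * (1 - f)) := by
    have h2 : 0 ≤ (f - (1 - f)) * b * star (f - (1 - f)) := star_right_conjugate_nonneg hb _
    have e : (f - (1 - f)) * b * star (f - (1 - f)) =
        ((2 : ℝ) • (f * b * f) + (2 : ℝ) • ((1 - f) * b * (1 - f))) - b := by
      rw [star_sub, star_sub, star_one, hfs, two_smul, two_smul]; noncomm_ring
    rw [e] at h2
    exact sub_nonneg.mp h2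
  refine (DSub.of_le_add hb h1).trans (DSub.sum ?_ (DSub.smul (by norm_num) _))
  refine (DSub.smul (by norm_num) _).trans ?_
  -- f b f ≤ ‖b‖ f f
  have h3 : f * b * f ≤ ‖b‖ • (f * f) := by
    have hbb : b ≤ algebraMap ℝ Q ‖b‖ := (IsSelfAdjoint.of_nonneg hb).le_algebraMap_norm_self
    have := star_right_conjugate_le_conjugate hbb f
    rw [hfs] at this
    refine this.trans (le_of_eq ?_)
    rw [Algebra.algebraMap_eq_smul_one]
    simp
  have hfbf : 0 ≤ f * b * f := by
    have := star_right_conjugate_nonneg hb f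
    rwa [hfs] at this
  refine (DSub.of_le hfbf h3).trans ((DSub.smul (norm_nonneg _) _).trans ?_)
  -- f f ≤ C f q₀^* Z_δ q₀ f
  set κ : ℝ := 2 * δ + ε₀ with hκ
  have hPZ : q₀ * star q₀ ≤ cutd δ Z + algebraMap ℝ Q κ := by
    have hs1 : star (q₀ * star q₀) = q₀ * star q₀ := by rw [star_mul, star_star]
    have hs2 : star Z = Z := (IsSelfAdjoint.of_nonneg hZ).star_eq
    have hsa : IsSelfAdjoint (q₀ * star q₀ - Z) := by rw [IsSelfAdjoint, star_sub, hs1, hs2]
    have g1 : q₀ * star q₀ - Z ≤ algebraMap ℝ Q ε₀ :=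
      hsa.le_algebraMap_norm_self.trans (algebraMap_mono Q hclose)
    have g2 := le_cutd_add hδ Z hZ
    rw [sub_le_iff_le_add] at g1
    have e : cutd δ Z + algebraMap ℝ Q κ = algebraMap ℝ Q ε₀ + (cutd δ Z + algebraMap ℝ Q (2 * δ)) := by
      rw [hκ, map_add]; abel
    rw [e]
    exact g1.trans (by gcongr)
  have h4 : q * q ≤ star q₀ * cutd δ Z * q₀ + κ • q := by
    have := star_left_conjugate_le_conjugate hPZ q₀
    have e1 : star q₀ * (q₀ * star q₀) * q₀ = q * q := by rw [hq]; noncomm_ring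
    have e2 : star q₀ * (cutd δ Z + algebraMap ℝ Q κ) * q₀ =
        star q₀ * cutd δ Z * q₀ + κ • q := by
      rw [mul_add, add_mul, hq, Algebra.algebraMap_eq_smul_one]
      simp
    rwa [e1, e2] at this
  have h5 : q * q - κ • q ≤ star q₀ * cutd δ Z * q₀ := by rw [sub_le_iff_le_add]; exact h4
  have h6 := star_right_conjugate_le_conjugate h5 f
  rw [hfs] at h6
  set r : ℝ := ε₁ * (ε₁ - κ) with hr
  have hr0 : 0 < r := mul_pos hε₁0 (by linarith)
  have h7 : r • (f * f) ≤ f * (q * q - κ • q) * f := by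
    have e1 : r • (f * f) = cfc (fun t => r * (f1 ε₁ t * f1 ε₁ t)) q := by
      rw [cfc_const_mul r (fun t => f1 ε₁ t * f1 ε₁ t) q (hfc.mul hfc).continuousOn,
        cfc_mul (f1 ε₁) (f1 ε₁) q hfc.continuousOn hfc.continuousOn]
    have e2 : f * (q * q - κ • q) * f = cfc (fun t => f1 ε₁ t * (t * t - κ * t) * f1 ε₁ t) q := by
      rw [cfc_mul (fun t => f1 ε₁ t * (t * t - κ * t)) (f1 ε₁) q
        (hfc.mul (by fun_prop)).continuousOn hfc.continuousOn,
        cfc_mul (f1 ε₁) (fun t => t * t - κ * t) q hfc.continuousOn (by fun_prop),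
        cfc_sub (fun t => t * t) (fun t => κ * t) q (by fun_prop) (by fun_prop),
        cfc_mul (fun t => t) (fun t => t) q (by fun_prop) (by fun_prop),
        cfc_const_mul κ (fun t => t) q (by fun_prop), cfc_id' ℝ q]
    rw [e1, e2]
    refine cfc_mono (fun t ht => ?_) (continuous_const.mul (hfc.mul hfc)).continuousOn
      ((hfc.mul (by fun_prop)).mul hfc).continuousOn
    have ht0 : 0 ≤ t := spec_nonneg hq0 ht
    rcases le_total t ε₁ with h | h
    · rw [f1_eq_zero hε₁0 h]; simp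
    · have h8 : r ≤ t * t - κ * t := by
        rw [hr]; nlinarith
      have h9 := f1_nonneg ε₁ t
      have h10 : 0 ≤ f1 ε₁ t * f1 ε₁ t := mul_nonneg h9 h9
      calc r * (f1 ε₁ t * f1 ε₁ t) ≤ (t * t - κ * t) * (f1 ε₁ t * f1 ε₁ t) :=
            mul_le_mul_of_nonneg_right h8 h10
        _ = f1 ε₁ t * (t * t - κ * t) * f1 ε₁ t := by ring
  have h8 : f * f ≤ (1 / r) • ((f * star q₀) * cutd δ Z * star (f * star q₀)) := by
    have h9 := smul_le_smul_of_nonneg_left (h7.trans h6) (show 0 ≤ 1 / r by positivity)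
    rw [smul_smul] at h9
    have e1 : 1 / r * r = 1 := by field_simp
    rw [e1, one_smul] at h9
    refine h9.trans (le_of_eq ?_)
    congr 1
    rw [star_mul, star_star, hfs]; noncomm_ring
  have hff : 0 ≤ f * f := by
    have := star_mul_self_nonneg f
    rwa [hfs] at this
  exact (DSub.of_le hff h8).trans ((DSub.smul (by positivity) _).trans (DSub.of_conj _ _))

lemma star_conj_sa (p m : Q) (hm : star m = m) : star (p * m * star p) = p * m * star p := by
  rw [star_mul, star_mul, star_star, hm, mul_assoc]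

lemma conj_conj (g p h : Q) (hg : star g = g) :
    g * (p * h * star p) * g = (g * p) * h * star (g * p) := by
  rw [star_mul, hg]; noncomm_ring

/-- `Z_τ ⊕ w ≾ b` -/
lemma star2 (b : Q) (hb : 0 ≤ b) (X Z : Q) (hZ : 0 ≤ Z) (ε₀ ε₁ τ : ℝ) (hε₁ : 0 < ε₁)
    (hε₀ : 0 ≤ ε₀) (hτ : 4 * ε₁ + ε₀ ≤ τ)
    (hclose : ‖(X * CFC.sqrt b) * star (X * CFC.sqrt b) - Z‖ ≤ ε₀) :
    DSub (Sum.elim (one' (cutd τ Z))
      (one' ((1 - cfc (f1 ε₁) (star (X * CFC.sqrt b) * (X * CFC.sqrt b))) * b *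
        (1 - cfc (f1 ε₁) (star (X * CFC.sqrt b) * (X * CFC.sqrt b)))))) (one' b) := by
  set e : Q := CFC.sqrt b with he
  have hee : e * e = b := CFC.sqrt_mul_sqrt_self b hb
  have he0 : 0 ≤ e := CFC.sqrt_nonneg b
  have hes : star e = e := (IsSelfAdjoint.of_nonneg he0).star_eq
  set q₀ : Q := X * e with hq₀
  set q : Q := star q₀ * q₀ with hq
  have hq0 : 0 ≤ q := star_mul_self_nonneg q₀
  have hqsa : IsSelfAdjoint q := .of_nonneg hq0
  have hqe : q = e * (star X * X * e) := by rw [hq, hq₀, star_mul, hes]; noncomm_ring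
  set f : Q := cfc (f1 ε₁) q with hf
  have hfs : star f = f := (show IsSelfAdjoint f from cfc_predicate _ _).star_eq
  have h2ε : 0 < 2 * ε₁ := by linarith
  set h : Q := cfc (f1 (2 * ε₁)) q with hh
  have hh0 : 0 ≤ h := cfc_nonneg fun t _ => f1_nonneg _ _
  have hhc := f1_continuous (2 * ε₁)
  have hfc := f1_continuous ε₁
  set w : Q := (1 - f) * b * (1 - f) with hw
  have hw0 : 0 ≤ w := by
    have := star_right_conjugate_nonneg hb (1 - f)
    rwa [star_sub, star_one, hfs] at this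
  have hhf : h * (1 - f) = 0 := by
    have e1 : (1 : Q) - f = cfc (fun t => 1 - f1 ε₁ t) q := by
      rw [cfc_sub (fun _ : ℝ => (1:ℝ)) (f1 ε₁) q (by fun_prop) hfc.continuousOn,
        cfc_const_one ℝ q]
    rw [e1, hh, ← cfc_mul (f1 (2 * ε₁)) (fun t => 1 - f1 ε₁ t) q hhc.continuousOn
      (continuous_const.sub hfc).continuousOn, ← cfc_const_zero ℝ q]
    refine cfc_congr fun t _ => ?_
    show f1 (2 * ε₁) t * (1 - f1 ε₁ t) = 0
    rcases le_total t (2 * ε₁) with h1 | h1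
    · rw [f1_eq_zero h2ε h1, zero_mul]
    · rw [f1_eq_one hε₁ h1]; simp
  have hhw : h * w = 0 := by
    rw [hw, ← mul_assoc, ← mul_assoc, hhf, zero_mul, zero_mul]
  -- membership
  have hL : ∀ g : ℝ → ℝ, Continuous g → g 0 = 0 → InL e (cfc g q) := by
    intro g hg hg0
    refine InL.of_approx fun ε hε => ?_
    obtain ⟨u, hu⟩ := cfc_approx_mul q hqsa g hg hg0 ε hε
    refine ⟨q * u, ?_, hu⟩
    have : q * u = e * (star X * X * e * u) := by
      nth_rewrite 1 [hqe]; noncomm_ring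
    rw [this]
    exact InL.self_mul _ _
  have hLh : InL e h := hL _ hhc (f1_eq_zero h2ε (by linarith))
  have hLf : InL e f := hL _ hfc (f1_eq_zero hε₁ hε₁.le)
  have hLw : InL e w := by
    have : w = e * (e * (1 - f)) - f * (b * (1 - f)) := by
      rw [hw, sub_mul, one_mul, sub_mul, ← hee]; noncomm_ring
    rw [this]
    exact (InL.self_mul _ _).sub (hLf.mul_right _)
  have hmain := orth_sub e he0 h w hh0 hw0 hhw hLh hLw
  rw [hee] at hmain
  refine DSub.trans (DSub.sum ?_ (DSub.refl _)) hmain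
  -- cutd τ Z ≾ h
  set κ : ℝ := 4 * ε₁ + ε₀ with hκ
  have hκ0 : 0 < κ := by positivity
  refine (DSub.of_le (cutd_nonneg (lt_of_lt_of_le hκ0 hτ) Z) (cutd_anti hκ0 hτ Z hZ)).trans ?_
  have h1mc : Continuous (fun t => 1 - f1 (2 * ε₁) t) := continuous_const.sub hhc
  have hnorm : ‖q₀ * cfc (fun t => 1 - f1 (2 * ε₁) t) q * star q₀‖ ≤ 4 * ε₁ := by
    refine norm_q0_conj q₀ _ h1mc (fun t => by linarith [f1_le_one (2 * ε₁) t]) _ (by positivity)
      fun t ht => ?_
    rcases le_total t (4 * ε₁) with h1 | h1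
    · have h2 := f1_nonneg (2 * ε₁) t
      have h3 := f1_le_one (2 * ε₁) t
      nlinarith
    · rw [f1_eq_one h2ε (by linarith)]; simp; positivity
  have hsplit : q₀ * star q₀ = q₀ * h * star q₀ +
      q₀ * cfc (fun t => 1 - f1 (2 * ε₁) t) q * star q₀ := by
    have e1 : cfc (fun t => 1 - f1 (2 * ε₁) t) q = 1 - h := by
      rw [cfc_sub (fun _ : ℝ => (1:ℝ)) (f1 (2 * ε₁)) q (by fun_prop) hhc.continuousOn,
        cfc_const_one ℝ q]
    rw [e1]; noncomm_ring
  have hle : Z ≤ q₀ * h * star q₀ + algebraMap ℝ Q κ := by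
    have hs1 : star (q₀ * star q₀) = q₀ * star q₀ := by rw [star_mul, star_star]
    have hs2 : star Z = Z := (IsSelfAdjoint.of_nonneg hZ).star_eq
    have hsa : IsSelfAdjoint (Z - q₀ * star q₀) := by rw [IsSelfAdjoint, star_sub, hs1, hs2]
    have g1 : Z - q₀ * star q₀ ≤ algebraMap ℝ Q ε₀ :=
      hsa.le_algebraMap_norm_self.trans (algebraMap_mono Q (by rw [norm_sub_rev]; exact hclose))
    set m : Q := cfc (fun t => 1 - f1 (2 * ε₁) t) q with hm
    have hms : star m = m := (show IsSelfAdjoint m from cfc_predicate _ _).star_eq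
    have hsm : IsSelfAdjoint (q₀ * m * star q₀) := star_conj_sa q₀ m hms
    have g2 : q₀ * m * star q₀ ≤ algebraMap ℝ Q (4 * ε₁) :=
      hsm.le_algebraMap_norm_self.trans (algebraMap_mono Q hnorm)
    rw [sub_le_iff_le_add, hsplit] at g1
    refine g1.trans ?_
    rw [hκ, map_add]
    calc algebraMap ℝ Q ε₀ + (q₀ * h * star q₀ + q₀ * m * star q₀) ≤
        algebraMap ℝ Q ε₀ + (q₀ * h * star q₀ + algebraMap ℝ Q (4 * ε₁)) := by gcongr
      _ = _ := by abel
  have h3 := cutd_le_conj Z _ hZ hle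
  set g : Q := cfc (f1 κ) Z with hg
  have hgs : star g = g := (show IsSelfAdjoint g from cfc_predicate _ _).star_eq
  rw [conj_conj g q₀ h hgs] at h3
  exact (DSub.of_le (cutd_nonneg hκ0 Z) h3).trans (DSub.of_conj _ _)

end Decomp

end MP9b5ea5
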