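import Pool.Agent.H63.PI.D3

open scoped ComplexOrder

set_option linter.unusedSectionVars false

universe u

namespace MP9b5ea5

section Step

variable {A Q : Type u} [CStarAlgebra A] [PartialOrder A] [StarOrderedRing A]
  [CStarAlgebra Q] [PartialOrder Q] [StarOrderedRing Q]

/-- reordering -/
def sig1 : ((Unit ⊕ Unit) ⊕ Unit) ⊕ (Unit ⊕ Unit) → (Unit ⊕ Unit) ⊕ (Unit ⊕ (Unit ⊕ Unit))
  | Sum.inl (Sum.inl (Sum.inl _)) => Sum.inl (Sum.inl ())
  | Sum.inl (Sum.inl (Sum.inr _)) => Sum.inr (Sum.inr (Sum.inl ()))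
  | Sum.inl (Sum.inr _) => Sum.inr (Sum.inl ())
  | Sum.inr (Sum.inl _) => Sum.inl (Sum.inr ())
  | Sum.inr (Sum.inr _) => Sum.inr (Sum.inr (Sum.inr ()))

lemma sig1_inj : Function.Injective sig1 := by decide

/-- reordering -/
def sig2 : Unit ⊕ (Unit ⊕ (Unit ⊕ Unit)) → (Unit ⊕ Unit) ⊕ (Unit ⊕ Unit)
  | Sum.inl _ => Sum.inl (Sum.inl ())
  | Sum.inr (Sum.inl _) => Sum.inl (Sum.inr ())
  | Sum.inr (Sum.inr (Sum.inl _)) => Sum.inr (Sum.inl ())
  | Sum.inr (Sum.inr (Sum.inr _)) => Sum.inr (Sum.inr ())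

lemma sig2_inj : Function.Injective sig2 := by decide

/-- reordering -/
def sig3 : Unit ⊕ (Unit ⊕ Unit) → (Unit ⊕ Unit) ⊕ Unit
  | Sum.inl _ => Sum.inl (Sum.inl ())
  | Sum.inr (Sum.inl _) => Sum.inl (Sum.inr ())
  | Sum.inr (Sum.inr _) => Sum.inr ()

lemma sig3_inj : Function.Injective sig3 := by decide

lemma chain {b Zδ w C j' : Q} (h1 : DSub (one' b) (Sum.elim (one' Zδ) (one' w)))
    (h2 : DSub (Sum.elim (one' C) (one' w)) (one' b))
    (h3 : DSub (one' Zδ) (Sum.elim (one' C) (one' j')))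
    (h4 : DSub (Sum.elim (one' C) (one' C)) (one' C))
    (h5 : DSub (Sum.elim (one' b) (one' j')) (one' b)) :
    DSub (Sum.elim (one' b) (one' Zδ)) (one' b) := by
  -- (b | Zδ) ≾ ((Zδ | w) | Zδ)
  refine (DSub.sum h1 (DSub.refl (one' Zδ))).trans ?_
  -- ≾ (((C | j') | w) | (C | j'))
  refine (DSub.sum (DSub.sum h3 (DSub.refl (one' w))) h3).trans ?_
  -- reorder
  refine DSub.trans (b := Sum.elim (Sum.elim (one' C) (one' C))
    (Sum.elim (one' w) (Sum.elim (one' j') (one' j')))) ?_ ?_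
  · refine DSub.of_inj sig1 sig1_inj ?_
    rintro (((i | i) | i) | (i | i)) <;> rfl
  refine (DSub.sum h4 (DSub.refl _)).trans ?_
  refine DSub.trans (b := Sum.elim (Sum.elim (one' C) (one' w))
    (Sum.elim (one' j') (one' j'))) ?_ ?_
  · refine DSub.of_inj sig2 sig2_inj ?_
    rintro (i | (i | (i | i))) <;> rfl
  refine (DSub.sum h2 (DSub.refl _)).trans ?_
  refine DSub.trans (b := Sum.elim (Sum.elim (one' b) (one' j')) (one' j')) ?_ ?_
  · refine DSub.of_inj sig3 sig3_inj ?_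
    rintro (i | (i | i)) <;> rfl
  exact (DSub.sum h5 (DSub.refl _)).trans h5

lemma absorb_step (hA : PurelyInfinite A) (φ : A →⋆ₐ[ℂ] Q) (b : Q) (hb : 0 ≤ b) {J : Set Q}
    (hJ : IsClosedIdeal J) (hJabs : ∀ j ∈ J, 0 ≤ j → Absorbs b j) (z : A) (hz : 0 ≤ z) (X' : Q)
    (hle : φ z ≤ X' * b * star X') (τ : ℝ) (hτ : 0 < τ)
    (hmem : φ z ∈ idealSup J (φ (cutd τ z))) (δ : ℝ) (hδ : 0 < δ) (hδτ : δ ≤ τ / 32) :
    Absorbs b (φ (cutd δ z)) := by
  have hZ : 0 ≤ φ z := map_nonneg φ hz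
  have hbs : star b = b := (IsSelfAdjoint.of_nonneg hb).star_eq
  obtain ⟨x, hx⟩ := approx_of_le hZ hle (τ / 32) (by positivity)
  set X : Q := x * X' with hX
  have hee : CFC.sqrt b * CFC.sqrt b = b := CFC.sqrt_mul_sqrt_self b hb
  have hes : star (CFC.sqrt b) = CFC.sqrt b :=
    (IsSelfAdjoint.of_nonneg (CFC.sqrt_nonneg b)).star_eq
  have hP : (X * CFC.sqrt b) * star (X * CFC.sqrt b) = x * (X' * b * star X') * star x := by
    rw [hX]
    simp only [star_mul, hes]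
    calc x * X' * CFC.sqrt b * (CFC.sqrt b * (star X' * star x)) =
        x * X' * (CFC.sqrt b * CFC.sqrt b) * (star X' * star x) := by noncomm_ring
      _ = _ := by rw [hee]; noncomm_ring
  have hclose : ‖(X * CFC.sqrt b) * star (X * CFC.sqrt b) - φ z‖ ≤ τ / 32 := by
    rw [hP]; exact hx.le
  obtain ⟨j', hj', hj'0, h3⟩ := star3 hA φ hJ (cutd τ z) (cutd_nonneg hτ z) (φ z) hZ hmem δ hδ
  have h1 := star1 b hb (X * CFC.sqrt b) (φ z) hZ (τ / 32) (τ / 8) δ hδ (by positivity)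
    (by linarith) hclose
  have h2 := star2 b hb X (φ z) hZ (τ / 32) (τ / 8) τ (by positivity) (by positivity)
    (by linarith) hclose
  rw [map_cutd φ δ z hz]
  rw [map_cutd φ τ z hz] at h3
  have hC : Absorbs (cutd τ (φ z)) (cutd τ (φ z)) := by
    rw [← map_cutd φ τ z hz]
    exact (absorbs_self' hA (cutd τ z) (cutd_nonneg hτ z)).map φ
  have hCs : star (cutd τ (φ z)) = cutd τ (φ z) :=
    (IsSelfAdjoint.of_nonneg (cutd_nonneg hτ (φ z))).star_eq
  exact Absorbs.of_dsub (chain h1 h2 h3 (hC.to_dsub hCs) ((hJabs j' hj' hj'0).to_dsub hbs))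

end Step

end MP9b5ea5
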