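import Pool.Agent.H63.PI.Defs2
import Pool.Agent.H63.PI.D4

open scoped ComplexOrder

set_option linter.unusedSectionVars false

universe u

namespace MP9b5ea5

section IdealTools

variable {Q : Type u} [CStarAlgebra Q] [PartialOrder Q] [StarOrderedRing Q]

lemma IsClosedIdeal.of_le {I : Set Q} (hI : IsClosedIdeal I) {x y : Q} (hx : 0 ≤ x) (hxy : x ≤ y)
    (hy : y ∈ I) : x ∈ I := by
  refine hI.mem_of_approx fun ε hε => ?_
  obtain ⟨r, hr⟩ := approx_of_le hx hxy ε hε
  exact ⟨r * y * star r, hI.mul_mem_right _ (hI.mul_mem_left _ hy), by rwa [norm_sub_rev]⟩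

lemma closure_sUnion_isClosedIdeal (F : Set (Set Q)) (hne : F.Nonempty)
    (hdir : DirectedOn (· ⊆ ·) F) (hF : ∀ I ∈ F, IsClosedIdeal I) :
    IsClosedIdeal (closure (⋃₀ F)) := by
  obtain ⟨I₀, hI₀⟩ := hne
  refine ⟨isClosed_closure, subset_closure ⟨I₀, hI₀, (hF I₀ hI₀).zero_mem⟩, ?_, ?_, ?_⟩
  · intro x y hx hy
    refine map_mem_closure₂ continuous_add hx hy ?_
    rintro a ⟨I, hI, ha⟩ b ⟨I', hI', hb⟩
    obtain ⟨I'', hI'', h1, h2⟩ := hdir I hI I' hI'
    exact ⟨I'', hI'', (hF I'' hI'').add_mem (h1 ha) (h2 hb)⟩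
  · intro a x hx
    refine map_mem_closure (continuous_const_mul a) hx ?_
    rintro m ⟨I, hI, hm⟩
    exact ⟨I, hI, (hF I hI).mul_mem_left a hm⟩
  · intro a x hx
    refine map_mem_closure (f := fun x => x * a) (continuous_mul_const a) hx ?_
    rintro m ⟨I, hI, hm⟩
    exact ⟨I, hI, (hF I hI).mul_mem_right a hm⟩

end IdealTools

section Main

variable {A Q : Type u} [CStarAlgebra A] [PartialOrder A] [StarOrderedRing A]
  [CStarAlgebra Q] [PartialOrder Q] [StarOrderedRing Q] {α : A ≃⋆ₐ[ℂ] A} {ι : A →⋆ₐ[ℂ] Q}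
  {w : unitary Q}

/-- density of the Laurent polynomials from the one-sided approximation -/
lemma poly_dense (happ : Approx ι w) (q : Q) (ε : ℝ) (hε : 0 < ε) :
    ∃ x ∈ Poly ι w, ‖q - x‖ < ε := by
  obtain ⟨K, M, c, h⟩ := happ q ε hε
  refine ⟨∑ k ∈ Finset.range (M + 1), pw w ((k : ℤ) - K) * ι (c k), ?_, ?_⟩
  · exact (Poly ι w).sum_mem fun k _ => Poly.mem _ _
  · have : q - ∑ k ∈ Finset.range (M + 1), pw w ((k : ℤ) - K) * ι (c k) =
        pw w (-K) * (pw w K * q - ∑ k ∈ Finset.range (M + 1), pw w k * ι (c k)) := by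
      rw [mul_sub, ← mul_assoc, pw_neg_mul, one_mul, Finset.mul_sum]
      congr 1
      refine Finset.sum_congr rfl fun k _ => ?_
      rw [← mul_assoc, ← pw_add]
      congr 2; ring
    rw [this, norm_pw_mul]
    exact h

omit [PartialOrder Q] [StarOrderedRing Q] in
lemma conj_smul (r : ℝ) (X b : Q) : (r • X) * b * star (r • X) = (r * r) • (X * b * star X) := by
  have h : star (r • X) = r • star X := by rw [star_smul, star_trivial r]
  rw [h, smul_mul_assoc, smul_mul_assoc, mul_smul_comm, smul_smul]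

/-- Step 3 : the ideals generated by `J` and the elements `c a c` exhaust `L`. -/
lemma exhaust {d : ℕ} (hA : PurelyInfinite A) (hR : RokhlinDimLE α d) (hcov : Cov α ι w)
    (happ : Approx ι w) {J L : Set Q} (hL : IsClosedIdeal L)
    (c : A) (hc : 0 ≤ c) (hLK : L ⊆ idealSup J (ι c)) :
    L ⊆ closure (⋃₀ {I : Set Q | ∃ a : A, 0 ≤ a ∧ ι a ∈ L ∧ I = idealSup J (ι (c * a * c))}) := by
  set F : Set (Set Q) := {I : Set Q | ∃ a : A, 0 ≤ a ∧ ι a ∈ L ∧ I = idealSup J (ι (c * a * c))}
    with hF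
  have hcs : star c = c := (IsSelfAdjoint.of_nonneg hc).star_eq
  have hFid : ∀ I ∈ F, IsClosedIdeal I := by
    rintro I ⟨a, _, _, rfl⟩; exact idealSup_isClosedIdeal _ _
  have hFne : F.Nonempty := ⟨_, 0, le_rfl, by rw [map_zero]; exact hL.zero_mem, rfl⟩
  have hconj : ∀ a : A, 0 ≤ a → 0 ≤ c * a * c := by
    intro a ha
    have := star_right_conjugate_nonneg ha c
    rwa [hcs] at this
  have hmono : ∀ a a' : A, 0 ≤ a → 0 ≤ a' → idealSup J (ι (c * a * c)) ⊆
      idealSup J (ι (c * (a + a') * c)) := by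
    intro a a' ha ha' x hx
    refine hx _ (idealSup_isClosedIdeal _ _) (subset_idealSup _ _) ?_
    refine (idealSup_isClosedIdeal J _).of_le (map_nonneg ι (hconj a ha)) ?_ (mem_idealSup J _)
    have h1 : c * a * c ≤ c * (a + a') * c := by
      have : c * (a + a') * c = c * a * c + c * a' * c := by noncomm_ring
      rw [this]
      exact le_add_of_nonneg_right (hconj a' ha')
    exact OrderHomClass.mono ι h1
  have hdir : DirectedOn (· ⊆ ·) F := by
    rintro _ ⟨a, ha, haL, rfl⟩ _ ⟨a', ha', haL', rfl⟩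
    refine ⟨_, ⟨a + a', add_nonneg ha ha', by rw [map_add]; exact hL.add_mem haL haL', rfl⟩,
      hmono a a' ha ha', ?_⟩
    have := hmono a' a ha' ha
    rwa [add_comm a' a] at this
  set U : Set Q := closure (⋃₀ F) with hU
  have hUid : IsClosedIdeal U := closure_sUnion_isClosedIdeal F hFne hdir hFid
  have hJU : J ⊆ U := by
    intro j hj
    obtain ⟨I, hI⟩ := hFne
    refine subset_closure ⟨I, hI, ?_⟩
    obtain ⟨a, _, _, rfl⟩ := hI
    exact subset_idealSup _ _ hj
  -- ι (x c) ∈ U for x in the preimage of L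
  have hxc : ∀ x : A, ι x ∈ L → ι (x * c) ∈ U := by
    intro x hx
    refine hUid.of_star_mul ?_
    have e1 : star (ι (x * c)) * ι (x * c) = ι (c * (star x * x) * c) := by
      rw [← map_star, ← map_mul, star_mul, hcs]; congr 1; noncomm_ring
    rw [e1]
    refine subset_closure ⟨_, ⟨star x * x, star_mul_self_nonneg x, ?_, rfl⟩, mem_idealSup _ _⟩
    rw [map_mul]; exact hL.mul_mem_left _ hx
  -- the ideal W
  let W : Set Q := {l | ∀ q : Q, l * q * ι c ∈ U}
  have hW : IsClosedIdeal W := by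
    refine ⟨?_, ?_, ?_, ?_, ?_⟩
    · have : W = ⋂ q : Q, {l : Q | l * q * ι c ∈ U} := by
        ext l; simp [W]
      rw [this]
      refine isClosed_iInter fun q => ?_
      exact hUid.isClosed.preimage ((continuous_mul_const q).mul continuous_const)
    · intro q; rw [zero_mul, zero_mul]; exact hUid.zero_mem
    · intro x y hx hy q
      have : (x + y) * q * ι c = x * q * ι c + y * q * ι c := by noncomm_ring
      rw [this]; exact hUid.add_mem (hx q) (hy q)
    · intro a x hx q
      have : a * x * q * ι c = a * (x * q * ι c) := by noncomm_ring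
      rw [this]; exact hUid.mul_mem_left a (hx q)
    · intro a x hx q
      have : x * a * q * ι c = x * (a * q) * ι c := by noncomm_ring
      rw [this]; exact hx _
  have hιW : ∀ a : A, ι a ∈ L → ι a ∈ W := by
    intro a ha q
    refine hUid.mem_of_approx fun ε hε => ?_
    obtain ⟨x, hx, hqx⟩ := poly_dense happ q (ε / (‖ι a‖ * ‖ι c‖ + 1)) (by positivity)
    refine ⟨ι a * x * ι c, ?_, ?_⟩
    · clear hqx
      induction hx using AddSubmonoid.closure_induction with
      | mem x hx =>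
        obtain ⟨k, d', rfl⟩ := hx
        obtain ⟨a', ha'⟩ := hcov.move k a
        have haL' : ι a' ∈ L := by
          have : ι a' = pw w (-k) * (ι a * pw w k) := by
            rw [ha', ← mul_assoc, pw_neg_mul, one_mul]
          rw [this]
          exact hL.mul_mem_left _ (hL.mul_mem_right _ ha)
        have e1 : ι a * (pw w k * ι d') * ι c = pw w k * ι (a' * d' * c) := by
          calc ι a * (pw w k * ι d') * ι c = (ι a * pw w k) * ι d' * ι c := by noncomm_ring
            _ = pw w k * (ι a' * ι d' * ι c) := by rw [ha']; noncomm_ring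
            _ = _ := by rw [map_mul, map_mul]
        rw [e1]
        refine hUid.mul_mem_left _ (hxc _ ?_)
        rw [map_mul]; exact hL.mul_mem_right _ haL'
      | zero => rw [mul_zero, zero_mul]; exact hUid.zero_mem
      | add x y _ _ h1 h2 =>
        have : ι a * (x + y) * ι c = ι a * x * ι c + ι a * y * ι c := by noncomm_ring
        rw [this]; exact hUid.add_mem h1 h2
    · have e1 : ι a * q * ι c - ι a * x * ι c = ι a * (q - x) * ι c := by noncomm_ring
      rw [e1]
      calc _ ≤ ‖ι a‖ * ‖q - x‖ * ‖ι c‖ :=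
            (norm_mul_le _ _).trans (mul_le_mul_of_nonneg_right (norm_mul_le _ _) (norm_nonneg _))
        _ ≤ ‖ι a‖ * (ε / (‖ι a‖ * ‖ι c‖ + 1)) * ‖ι c‖ := by gcongr
        _ = (‖ι a‖ * ‖ι c‖) * ε / (‖ι a‖ * ‖ι c‖ + 1) := by ring
        _ < ε := by
            rw [div_lt_iff₀ (by positivity)]
            nlinarith [mul_nonneg (norm_nonneg (ι a)) (norm_nonneg (ι c))]
  have hLW : L ⊆ W := by
    intro l hl
    refine hW.of_star_mul ?_
    refine hW.mem_of_approx fun δ hδ => ?_
    obtain ⟨c', X, hc'0, hc'X, hgen⟩ := exists_cuts hA hR hcov happ (star l * l)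
      (star_mul_self_nonneg l) δ hδ
    refine hgen W hW fun k => hιW _ ?_
    refine hL.of_le (map_nonneg ι (hc'0 k)) (hc'X k) ?_
    exact hL.mul_mem_right _ (hL.mul_mem_left _ (hL.mul_mem_left _ hl))
  -- the ideal V
  let V : Set Q := {y | ∀ x ∈ L, x * y ∈ U}
  have hV : IsClosedIdeal V := by
    refine ⟨?_, ?_, ?_, ?_, ?_⟩
    · have : V = ⋂ x ∈ L, {y : Q | x * y ∈ U} := by
        ext y; simp [V]
      rw [this]
      refine isClosed_biInter fun x _ => ?_
      exact hUid.isClosed.preimage (continuous_const_mul x)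
    · intro x _; rw [mul_zero]; exact hUid.zero_mem
    · intro y y' hy hy' x hx
      rw [mul_add]; exact hUid.add_mem (hy x hx) (hy' x hx)
    · intro a y hy x hx
      rw [← mul_assoc]; exact hy _ (hL.mul_mem_right a hx)
    · intro a y hy x hx
      rw [← mul_assoc]; exact hUid.mul_mem_right a (hy x hx)
  have hKV : idealSup J (ι c) ⊆ V := by
    intro y hy
    refine hy V hV ?_ ?_
    · intro j hj x _
      exact hUid.mul_mem_left x (hJU hj)
    · intro x hx
      have := hLW hx 1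
      rwa [mul_one] at this
  intro x hx
  refine hUid.mem_of_approx fun ε hε => ?_
  obtain ⟨z, hz⟩ := approx_mul_star_mul x ε hε
  refine ⟨x * star x * z, ?_, hz⟩
  rw [mul_assoc]
  exact hKV (hLK (hL.mul_mem_right z (hL.star_mem hx))) x hx

/-- Every positive element is properly infinite. -/
theorem all_absorb {d : ℕ} (hA : PurelyInfinite A) (hR : RokhlinDimLE α d) (hcov : Cov α ι w)
    (happ : Approx ι w) (hQ : HasCompactIdeals Q) (b : Q) (hb : 0 ≤ b) : Absorbs b b := by
  have hee : CFC.sqrt b * CFC.sqrt b = b := CFC.sqrt_mul_sqrt_self b hb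
  have he0 : 0 ≤ CFC.sqrt b := CFC.sqrt_nonneg b
  have hbs : star b = b := (IsSelfAdjoint.of_nonneg hb).star_eq
  set J : Set Q := AbsIdeal b with hJdef
  have hJ : IsClosedIdeal J := by
    have := absIdeal_isClosedIdeal (CFC.sqrt b) he0
    rwa [hee] at this
  -- positive elements of J
  have hJpos : ∀ j : Q, 0 ≤ j → (j ∈ J ↔ Absorbs b j) := by
    intro j hj
    have hs : star (CFC.sqrt j) = CFC.sqrt j :=
      (IsSelfAdjoint.of_nonneg (CFC.sqrt_nonneg j)).star_eq
    have hss : CFC.sqrt j * CFC.sqrt j = j := CFC.sqrt_mul_sqrt_self j hj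
    have h1 : CFC.sqrt j ∈ J ↔ Absorbs b j := by
      show Absorbs b (star (CFC.sqrt j) * CFC.sqrt j) ↔ Absorbs b j
      rw [hs, hss]
    rw [← h1]
    constructor
    · intro h
      refine hJ.of_mul_star ?_
      rwa [hs, hss]
    · intro h
      rw [← hss]
      exact hJ.mul_mem_left _ h
  rw [← hJpos b hb]
  by_contra hbJ
  -- Step 1
  obtain ⟨c, X, hc, hcX, hcJ⟩ : ∃ (c : A) (X : Q), 0 ≤ c ∧ ι c ≤ X * b * star X ∧ ι c ∉ J := by
    by_contra hcon
    push Not at hcon
    apply hbJ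
    refine hJ.mem_of_approx fun δ hδ => ?_
    obtain ⟨c', X, hc'0, hc'X, hgen⟩ := exists_cuts hA hR hcov happ b hb δ hδ
    exact hgen J hJ fun k => hcon (c' k) (X k) (hc'0 k) (hc'X k)
  have hcs : star c = c := (IsSelfAdjoint.of_nonneg hc).star_eq
  -- Step 2
  have hJK : J ⊂ idealSup J (ι c) := by
    refine ⟨subset_idealSup _ _, fun h => hcJ (h (mem_idealSup _ _))⟩
  obtain ⟨L, hL, hJL, hLK, hLc⟩ := hQ J _ hJ (idealSup_isClosedIdeal J (ι c)) hJK
  -- Steps 3, 4
  have hex := exhaust hA hR hcov happ hL c hc hLK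
  have hconj : ∀ a : A, 0 ≤ a → 0 ≤ c * a * c := by
    intro a ha
    have := star_right_conjugate_nonneg ha c
    rwa [hcs] at this
  have hmono : ∀ a a' : A, 0 ≤ a → 0 ≤ a' → idealSup J (ι (c * a * c)) ⊆
      idealSup J (ι (c * (a + a') * c)) := by
    intro a a' ha ha' x hx
    refine hx _ (idealSup_isClosedIdeal _ _) (subset_idealSup _ _) ?_
    refine (idealSup_isClosedIdeal J _).of_le (map_nonneg ι (hconj a ha)) ?_ (mem_idealSup J _)
    have h1 : c * a * c ≤ c * (a + a') * c := by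
      have : c * (a + a') * c = c * a * c + c * a' * c := by noncomm_ring
      rw [this]
      exact le_add_of_nonneg_right (hconj a' ha')
    exact OrderHomClass.mono ι h1
  obtain ⟨I, ⟨a, ha, haL, rfl⟩, hLI⟩ := hLc
    {I : Set Q | ∃ a : A, 0 ≤ a ∧ ι a ∈ L ∧ I = idealSup J (ι (c * a * c))}
    ⟨_, 0, le_rfl, by rw [map_zero]; exact hL.zero_mem, rfl⟩
    (by
      rintro _ ⟨a, ha, haL, rfl⟩ _ ⟨a', ha', haL', rfl⟩
      refine ⟨_, ⟨a + a', add_nonneg ha ha', by rw [map_add]; exact hL.add_mem haL haL', rfl⟩,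
        hmono a a' ha ha', ?_⟩
      have := hmono a' a ha' ha
      rwa [add_comm a' a] at this)
    (by
      rintro I ⟨a, _, _, rfl⟩
      exact ⟨idealSup_isClosedIdeal _ _, subset_idealSup _ _⟩) hex
  set z : A := c * a * c with hz
  have hz0 : 0 ≤ z := hconj a ha
  have hZ0 : 0 ≤ ι z := map_nonneg ι hz0
  -- Step 5
  set F₂ : Set (Set Q) := {I | ∃ δ : ℝ, 0 < δ ∧ I = idealSup J (ι (cutd δ z))} with hF₂
  have hanti : ∀ δ δ' : ℝ, 0 < δ → δ ≤ δ' → idealSup J (ι (cutd δ' z)) ⊆
      idealSup J (ι (cutd δ z)) := by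
    intro δ δ' hδ hδδ' x hx
    refine hx _ (idealSup_isClosedIdeal _ _) (subset_idealSup _ _) ?_
    refine (idealSup_isClosedIdeal J _).of_le
      (map_nonneg ι (cutd_nonneg (lt_of_lt_of_le hδ hδδ') z)) ?_ (mem_idealSup J _)
    exact OrderHomClass.mono ι (cutd_anti hδ hδδ' z hz0)
  have hF₂id : ∀ I ∈ F₂, IsClosedIdeal I ∧ J ⊆ I := by
    rintro I ⟨δ, _, rfl⟩
    exact ⟨idealSup_isClosedIdeal _ _, subset_idealSup _ _⟩
  have hF₂ne : F₂.Nonempty := ⟨_, 1, one_pos, rfl⟩
  have hF₂dir : DirectedOn (· ⊆ ·) F₂ := by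
    rintro _ ⟨δ, hδ, rfl⟩ _ ⟨δ', hδ', rfl⟩
    exact ⟨_, ⟨min δ δ', lt_min hδ hδ', rfl⟩, hanti _ _ (lt_min hδ hδ') (min_le_left _ _),
      hanti _ _ (lt_min hδ hδ') (min_le_right _ _)⟩
  obtain ⟨I, ⟨τ, hτ, rfl⟩, hLτ⟩ := hLc F₂ hF₂ne hF₂dir hF₂id (by
    have hU := closure_sUnion_isClosedIdeal F₂ hF₂ne hF₂dir fun I hI => (hF₂id I hI).1
    refine hLI.trans fun x hx => hx _ hU ?_ ?_
    · intro j hj
      exact subset_closure ⟨_, ⟨1, one_pos, rfl⟩, subset_idealSup _ _ hj⟩
    · refine hU.mem_of_approx fun ε hε => ?_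
      refine ⟨ι (cutd (ε / 4) z), subset_closure ⟨_, ⟨ε / 4, by positivity, rfl⟩,
        mem_idealSup _ _⟩, ?_⟩
      rw [← map_sub]
      refine lt_of_le_of_lt (NonUnitalStarAlgHom.norm_apply_le ι _) ?_
      rw [norm_sub_rev]
      refine lt_of_le_of_lt (cutd_norm (by positivity) z hz0) ?_
      linarith)
  -- ι z ∈ L
  have hzL : ι z ∈ L := by
    rw [hz, map_mul, map_mul]
    exact hL.mul_mem_right _ (hL.mul_mem_left _ haL)
  have hmem : ι z ∈ idealSup J (ι (cutd τ z)) := hLτ hzL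
  -- Step 6
  obtain ⟨X', hX'⟩ : ∃ X' : Q, ι z ≤ X' * b * star X' := by
    have h1 : z ≤ ‖a‖ • (c * c) := by
      have haa : a ≤ algebraMap ℝ A ‖a‖ := (IsSelfAdjoint.of_nonneg ha).le_algebraMap_norm_self
      have := star_right_conjugate_le_conjugate haa c
      rw [hcs] at this
      refine this.trans (le_of_eq ?_)
      rw [Algebra.algebraMap_eq_smul_one]
      simp
    have h2 : c * c ≤ ‖c‖ • c := mul_self_le_smul hc le_rfl
    have h3 : z ≤ (‖a‖ * ‖c‖) • c := by
      refine h1.trans ?_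
      have := smul_le_smul_of_nonneg_left h2 (norm_nonneg a)
      rwa [smul_smul] at this
    have h4 : ι z ≤ (‖a‖ * ‖c‖) • ι c := by
      have := OrderHomClass.mono ι h3
      have e : ι ((‖a‖ * ‖c‖) • c) = (‖a‖ * ‖c‖) • ι c := by
        rw [← Complex.coe_smul, map_smul, Complex.coe_smul]
      rwa [e] at this
    have h5 := smul_le_smul_of_nonneg_left hcX (show 0 ≤ ‖a‖ * ‖c‖ by positivity)
    refine ⟨Real.sqrt (‖a‖ * ‖c‖) • X, (h4.trans h5).trans (le_of_eq ?_)⟩
    rw [conj_smul, Real.mul_self_sqrt (by positivity)]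
  -- Step 7
  have hstep := absorb_step hA ι b hb hJ (fun j hj hj0 => (hJpos j hj0).mp hj) z hz0 X' hX' τ hτ
    hmem (τ / 32) (by positivity) le_rfl
  have hin : ι (cutd (τ / 32) z) ∈ J :=
    (hJpos _ (map_nonneg ι (cutd_nonneg (by positivity) z))).mpr hstep
  have hin' : ι (cutd τ z) ∈ J :=
    hJ.of_le (map_nonneg ι (cutd_nonneg hτ z))
      (OrderHomClass.mono ι (cutd_anti (by positivity) (by linarith) z hz0)) hin
  exact hJL.2 (hLτ.trans fun x hx => hx J hJ (le_refl _) hin')

/-- Pure infiniteness in the presence of compact ideals. -/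
theorem pi_of_compact {d : ℕ} (hA : PurelyInfinite A) (hR : RokhlinDimLE α d) (hcov : Cov α ι w)
    (happ : Approx ι w) (hQ : HasCompactIdeals Q) : PurelyInfinite Q := by
  refine ⟨?_, ?_⟩
  · intro I hI hI1
    have hcomap : IsClosedIdeal {a : A | ι a ∈ I} := by
      have hcont : Continuous ι := map_continuous ι
      refine ⟨hI.isClosed.preimage hcont, ?_, ?_, ?_, ?_⟩
      · show ι 0 ∈ I
        rw [map_zero]; exact hI.zero_mem
      · intro x y hx hy
        show ι (x + y) ∈ I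
        rw [map_add]; exact hI.add_mem hx hy
      · intro a x hx
        show ι (a * x) ∈ I
        rw [map_mul]; exact hI.mul_mem_left _ hx
      · intro a x hx
        show ι (x * a) ∈ I
        rw [map_mul]; exact hI.mul_mem_right _ hx
    have hne : {a : A | ι a ∈ I} ≠ Set.univ := by
      intro h
      apply hI1
      have h1 : (1 : A) ∈ {a : A | ι a ∈ I} := by rw [h]; trivial
      have h2 : (1 : Q) ∈ I := by
        have : ι 1 ∈ I := h1
        rwa [map_one] at this
      ext x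
      refine ⟨fun _ => trivial, fun _ => ?_⟩
      have := hI.mul_mem_left x h2
      rwa [mul_one] at this
    obtain ⟨x, y, hxy⟩ := hA.noAbelianQuotient _ hcomap hne
    refine ⟨ι x, ι y, fun h => hxy ?_⟩
    show ι (x * y - y * x) ∈ I
    rw [map_sub, map_mul, map_mul]; exact h
  · intro a b ha hb hab
    have habs := all_absorb hA hR hcov happ hQ b hb
    have hbs : star b = b := (IsSelfAdjoint.of_nonneg hb).star_eq
    rw [cuntzSub_iff]
    intro ε hε
    obtain ⟨T, hT, haT⟩ := mem_closure_genM hab (ε / 8) (by positivity)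
    obtain ⟨n, t, ht⟩ := genM_dominated (fun _ : Unit => b) (fun _ => hb) hT
    set S : Q := ∑ i ∈ Finset.range n, t () i * b * star (t () i) with hS
    have ht' : T + star T ≤ S := by
      refine ht.trans (le_of_eq ?_)
      rw [Fintype.sum_unique]
    have hle := le_half_of_close ha haT.le ht'
    obtain ⟨x, hx⟩ := approx_of_le_add ha (by positivity) hle (ε / 8) (by positivity)
    have hD : DSub (one' ((1 / 2 : ℝ) • S)) (one' b) := by
      refine (DSub.smul (by norm_num) S).trans (DSub.of_single fun ε' hε' => ?_)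
      have := row_of_absorbs (StarAlgHom.id ℂ Q) b hbs habs n (t ()) ε' hε'
      simpa using this
    obtain ⟨r, hr⟩ := hD.single (ε / 4 / (‖x‖ ^ 2 + 1)) (by positivity)
    refine ⟨x * r, ?_⟩
    have e1 : x * r * b * star (x * r) - a = x * (r * b * star r - (1 / 2 : ℝ) • S) * star x +
        (x * ((1 / 2 : ℝ) • S) * star x - a) := by rw [star_mul]; noncomm_ring
    rw [e1]
    refine lt_of_le_of_lt (norm_add_le _ _) ?_
    have k1 : ‖x * (r * b * star r - (1 / 2 : ℝ) • S) * star x‖ ≤ ε / 4 := by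
      calc _ ≤ ‖x‖ * ‖r * b * star r - (1 / 2 : ℝ) • S‖ * ‖x‖ := by
            refine (norm_mul_le _ _).trans ?_
            rw [norm_star]
            exact mul_le_mul_of_nonneg_right (norm_mul_le _ _) (norm_nonneg _)
        _ ≤ ‖x‖ * (ε / 4 / (‖x‖ ^ 2 + 1)) * ‖x‖ := by gcongr
        _ = ‖x‖ ^ 2 * (ε / 4) / (‖x‖ ^ 2 + 1) := by ring
        _ ≤ ε / 4 := by
            rw [div_le_iff₀ (by positivity)]
            nlinarith [sq_nonneg ‖x‖]
    linarith

end Main

end MP9b5ea5
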