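import Pool.Agent.H63.PI.D5

open scoped ComplexOrder

set_option linter.unusedSectionVars false

universe u

namespace MP9b5ea5

section Quotient

variable {A B Q : Type u} [CStarAlgebra A] [CStarAlgebra B] [CStarAlgebra Q]
  {α : A ≃⋆ₐ[ℂ] A} {ι : A →⋆ₐ[ℂ] B} {w : unitary B}

/-- image of the unitary -/
def mapU (π : B →⋆ₐ[ℂ] Q) (w : unitary B) : unitary Q := ⟨π w, Unitary.map_mem π w.2⟩

lemma map_pw (π : B →⋆ₐ[ℂ] Q) (w : unitary B) (k : ℤ) : π (pw w k) = pw (mapU π w) k := by
  induction k using Int.induction_on with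
  | zero => simp [pw_zero]
  | succ k ih => rw [pw_add, map_mul, ih, pw_one, pw_add, pw_one]; rfl
  | pred k ih =>
    rw [sub_eq_add_neg, pw_add, map_mul, ih, pw_neg_one, pw_add, pw_neg_one, map_star]; rfl

lemma Cov.map (h : Cov α ι w) (π : B →⋆ₐ[ℂ] Q) : Cov α (π.comp ι) (mapU π w) := by
  intro a
  show π (ι (α a)) = π w * π (ι a) * star (π w)
  rw [h a, map_mul, map_mul, map_star]

lemma Approx.map (h : Approx ι w) (π : B →⋆ₐ[ℂ] Q) (hπ : Function.Surjective π) :
    Approx (π.comp ι) (mapU π w) := by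
  intro q ε hε
  obtain ⟨b, rfl⟩ := hπ q
  obtain ⟨K, M, c, hb⟩ := h b ε hε
  refine ⟨K, M, c, ?_⟩
  have : pw (mapU π w) K * π b - ∑ k ∈ Finset.range (M + 1), pw (mapU π w) k * (π.comp ι) (c k) =
      π (pw w K * b - ∑ k ∈ Finset.range (M + 1), pw w k * ι (c k)) := by
    rw [map_sub, map_mul, map_pw, map_sum]
    congr 1
    refine Finset.sum_congr rfl fun k _ => ?_
    rw [map_mul, map_pw]; rfl
  rw [this]
  exact lt_of_le_of_lt (NonUnitalStarAlgHom.norm_apply_le π _) hb

theorem quotient_pi [PartialOrder A] [StarOrderedRing A] [PartialOrder Q] [StarOrderedRing Q]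
    {d : ℕ} (hA : PurelyInfinite A) (hR : RokhlinDimLE α d) (h : IsCrossedProduct α ι w)
    (π : B →⋆ₐ[ℂ] Q) (hπ : Function.Surjective π) (hQ : HasCompactIdeals Q) :
    PurelyInfinite Q :=
  pi_of_compact hA hR (h.cov.map π)
    ((show Approx ι w from fun b ε hε => h.approx b ε hε).map π hπ) hQ

/-- simple C*-algebras have compact ideals. -/
lemma simple_hasCompactIdeals (hQ : IsSimpleCStar Q) : HasCompactIdeals Q := by
  intro J K hJ hK hJK
  have hJ0 : J = {0} := by
    rcases hQ.2 J hJ with h | h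
    · exact h
    · exfalso
      apply hJK.2
      rw [h]; exact Set.subset_univ K
  refine ⟨K, hK, hJK, le_refl _, ?_⟩
  intro F hne hdir hF hKF
  have hKu : K = Set.univ := by
    rcases hQ.2 K hK with h | h
    · exfalso
      apply hJK.2
      rw [h, hJ0]
    · exact h
  have h1 : (1 : Q) ∈ closure (⋃₀ F) := hKF (by rw [hKu]; trivial)
  obtain ⟨x, ⟨I, hI, hx⟩, hd⟩ := Metric.mem_closure_iff.mp h1 1 one_pos
  refine ⟨I, hI, ?_⟩
  have hIid := (hF I hI).1
  rcases hQ.2 I hIid with h | h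
  · exfalso
    rw [h, Set.mem_singleton_iff] at hx
    rw [hx, dist_zero_right] at hd
    have := hQ.1
    rw [norm_one] at hd
    exact lt_irrefl _ hd
  · rw [h]; exact Set.subset_univ K

/-- C*-algebras with finitely many closed ideals have compact ideals. -/
lemma finite_hasCompactIdeals (hfin : {I : Set Q | IsClosedIdeal I}.Finite) :
    HasCompactIdeals Q := by
  intro J K hJ hK hJK
  refine ⟨K, hK, hJK, le_refl _, ?_⟩
  intro F hne hdir hF hKF
  have hFfin : F.Finite := hfin.subset fun I hI => (hF I hI).1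
  -- a directed finite family has a largest element
  obtain ⟨I, hI, hmax⟩ : ∃ I ∈ F, ∀ I' ∈ F, I' ⊆ I := by
    have := hFfin.exists_maximal hne
    obtain ⟨I, hImax⟩ := this
    refine ⟨I, hImax.1, fun I' hI' => ?_⟩
    obtain ⟨I'', hI'', h1, h2⟩ := hdir I hImax.1 I' hI'
    exact h2.trans (hImax.2 hI'' h1)
  refine ⟨I, hI, hKF.trans ?_⟩
  have : ⋃₀ F = I := by
    apply Set.Subset.antisymm
    · rintro x ⟨I', hI', hx⟩
      exact hmax I' hI' hx
    · intro x hx; exact ⟨I, hI, hx⟩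
  rw [this, (hF I hI).1.isClosed.closure_eq]

end Quotient

end MP9b5ea5
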