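import Mathlib

/-!
# Purely infinite C*-algebras, Rokhlin dimension and crossed products : definitions
-/

universe u

namespace MP9b5ea5

section Ideals

variable {A : Type*} [CStarAlgebra A]

/-- Closed two-sided ideals of a unital C*-algebra, as subsets. -/
structure IsClosedIdeal (I : Set A) : Prop where
  isClosed : IsClosed I
  zero_mem : (0 : A) ∈ I
  add_mem : ∀ ⦃x y : A⦄, x ∈ I → y ∈ I → x + y ∈ I
  mul_mem_left : ∀ (a : A) ⦃x : A⦄, x ∈ I → a * x ∈ I
  mul_mem_right : ∀ (a : A) ⦃x : A⦄, x ∈ I → x * a ∈ I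

/-- `a` lies in the closed two-sided ideal generated by `b`. -/
def InClosedIdeal (a b : A) : Prop := ∀ I : Set A, IsClosedIdeal I → b ∈ I → a ∈ I

/-- Cuntz subequivalence `a ≾ b` : `x n * b * (x n)^* → a` for some sequence `x`. -/
def CuntzSub (a b : A) : Prop :=
  ∃ x : ℕ → A, Filter.Tendsto (fun n => ‖x n * b * star (x n) - a‖) Filter.atTop (nhds 0)

end Ideals

/-- Purely infinite C*-algebras in the sense of Kirchberg and Rordam : no nonzero abelian
quotient (no quotient by a proper closed ideal is commutative), and `a ≾ b` whenever `a, b ≥ 0`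
and `a` lies in the closed ideal generated by `b`. -/
structure PurelyInfinite (A : Type*) [CStarAlgebra A] [PartialOrder A] [StarOrderedRing A] :
    Prop where
  noAbelianQuotient : ∀ I : Set A, IsClosedIdeal I → I ≠ Set.univ → ∃ x y : A, x * y - y * x ∉ I
  comparison : ∀ a b : A, 0 ≤ a → 0 ≤ b → InClosedIdeal a b → CuntzSub a b

/-- Simple C*-algebras : nonzero, without closed two-sided ideals except `0` and the algebra. -/
def IsSimpleCStar (A : Type*) [CStarAlgebra A] : Prop :=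
  Nontrivial A ∧ ∀ I : Set A, IsClosedIdeal I → I = {0} ∨ I = Set.univ

/-- Property `pi-n` of Kirchberg and Rordam : for every positive `b` the element `b ⊗ 1_n` of
`M_n(A)` is zero or properly infinite, i.e. `b ⊗ 1_{2n} ≾ b ⊗ 1_n`. Written out : for every
`ε > 0` there is a `2n × n` matrix `r` over `A` such that `r (b ⊗ 1_n) r^*` and `b ⊗ 1_{2n}` agree
entrywise up to `ε`. (A C*-algebra is weakly purely infinite if it has `pi-n` for some `n ≥ 1`.) -/
def HasPropertyPi (A : Type*) [CStarAlgebra A] [PartialOrder A] (n : ℕ) : Prop :=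
  ∀ b : A, 0 ≤ b → ∀ ε : ℝ, 0 < ε → ∃ r : Fin (2 * n) → Fin n → A,
    ∀ i j : Fin (2 * n), ‖(∑ k : Fin n, r i k * b * star (r j k)) - (if i = j then b else 0)‖ < ε

/-- The automorphism `α` has Rokhlin dimension at most `d`, the towers not being required to
commute : conditions (i)-(iv) of the problem. The index `q : Fin 2` tells the two towers of a
colour `l` apart, and the tower `q` has the height `p + q`, i.e. the levels `j < p + q`. -/
def RokhlinDimLE {A : Type*} [CStarAlgebra A] [PartialOrder A] (α : A ≃⋆ₐ[ℂ] A) (d : ℕ) : Prop :=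
  ∀ (F : Finset A) (ε : ℝ), 0 < ε → ∀ p : ℕ, 0 < p →
    ∃ f : Fin (d + 1) → Fin 2 → ℕ → A,
      (∀ (l : Fin (d + 1)) (q : Fin 2) (j : ℕ), j < p + (q : ℕ) → 0 ≤ f l q j ∧ ‖f l q j‖ ≤ 1) ∧
      (∀ (l : Fin (d + 1)) (q : Fin 2) (j : ℕ), j + 1 < p + (q : ℕ) →
        ‖α (f l q j) - f l q (j + 1)‖ < ε) ∧
      (∀ l : Fin (d + 1), ‖α (f l 0 (p - 1) + f l 1 p) - (f l 0 0 + f l 1 0)‖ < ε) ∧
      (∀ (l : Fin (d + 1)) (q : Fin 2) (j : ℕ) (q' : Fin 2) (j' : ℕ), j < p + (q : ℕ) →
        j' < p + (q' : ℕ) → (q, j) ≠ (q', j') → ‖f l q j * f l q' j'‖ < ε) ∧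
      ‖(∑ l : Fin (d + 1), ∑ q : Fin 2, ∑ j ∈ Finset.range (p + (q : ℕ)), f l q j) - 1‖ < ε ∧
      (∀ (l : Fin (d + 1)) (q : Fin 2) (j : ℕ), j < p + (q : ℕ) →
        ∀ a ∈ F, ‖f l q j * a - a * f l q j‖ < ε)

/-- `(B, ι, w)` is the crossed product of `A` by the automorphism `α` : the unital C*-algebra
generated by a copy of `A` and a unitary `w` implementing `α`, universal for unital covariant
pairs. -/
structure IsCrossedProduct {A B : Type u} [CStarAlgebra A] [CStarAlgebra B]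
    (α : A ≃⋆ₐ[ℂ] A) (ι : A →⋆ₐ[ℂ] B) (w : unitary B) : Prop where
  covariant : ∀ a : A, ι (α a) = (w : B) * ι a * star (w : B)
  generates : Dense ((StarAlgebra.adjoin ℂ (Set.range ι ∪ {(w : B)}) : StarSubalgebra ℂ B) : Set B)
  lift : ∀ (C : Type u) [CStarAlgebra C] (π : A →⋆ₐ[ℂ] C) (v : unitary C),
    (∀ a : A, π (α a) = (v : C) * π a * star (v : C)) →
      ∃ ψ : B →⋆ₐ[ℂ] C, (∀ a : A, ψ (ι a) = π a) ∧ ψ w = v

end MP9b5ea5
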