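import Pool.Agent.H63.PI.Defs

/-!
# Compactness of closed ideals
-/

namespace MP9b5ea5

/-- `L` is compact over `J` in the lattice of closed two-sided ideals : whenever `L` is contained
in the closure of the union of an upward directed nonempty family `F` of closed ideals containing
`J`, it is contained in a member of the family. (For `J ⊆ L` this says that `L / J` is a compact
element of the lattice of closed ideals of the quotient by `J`, i.e. that the primitive ideal
space of `L / J` is quasi-compact.) -/
def IsCompactOver {A : Type*} [CStarAlgebra A] (J L : Set A) : Prop :=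
  ∀ F : Set (Set A), F.Nonempty → DirectedOn (· ⊆ ·) F → (∀ I ∈ F, IsClosedIdeal I ∧ J ⊆ I) →
    L ⊆ closure (⋃₀ F) → ∃ I ∈ F, L ⊆ I

/-- Every nonzero closed ideal `K / J` of every quotient of `A` by a closed ideal `J` contains a
nonzero compact closed ideal `L / J`. -/
def HasCompactIdeals (A : Type*) [CStarAlgebra A] : Prop :=
  ∀ J K : Set A, IsClosedIdeal J → IsClosedIdeal K → J ⊂ K →
    ∃ L : Set A, IsClosedIdeal L ∧ J ⊂ L ∧ L ⊆ K ∧ IsCompactOver J L

end MP9b5ea5
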